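import Pool.Agent.Lib.MP_372ad9_gt.AzChain

set_option autoImplicit false

/-
ROW AzBasis (about 120 lines). q = A^2.
nd_inj: a + a⁻¹ = b + b⁻¹ gives a = b or a b = 1; with a = u q^k, b = u q^l the second gives u^2 q^(k+l) = 1 and the n-th
 power (u^n)^2 = 1, excluded; the first gives qz A k = qz A l, so k = l (qz_inj).
chn_indep: eigenvectors of x for distinct eigenvalues nd A u k (Module.End.eigenvectors_linearIndependent').
exists_chn_basis: write ξ = U + U⁻¹ (quadratic, U ≠ 0), then U^2 + U⁻² = ξ^2 - 2, U^2 ≠ 1 since ξ^2 ≠ 4; take the chain of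
 exists_chain (V is nontrivial and finite dimensional since finrank = n ≥ 3), independent family of n = finrank vectors:
 basisOfLinearIndependentOfCardEqFinrank (card (ZMod n) = n: ZMod.card). U is given in the statement.
finrank_ge: same chain in a nontrivial finite dimensional V: n ≤ finrank.
irr_of_finrank: a submodule W ≠ ⊥ stable under x, y, z: the restrictions (LinearMap.restrict) satisfy TriP and hx on W
 (push to V with Subtype.val: aeval of the restriction is the restriction of aeval), so finrank W ≥ n = finrank V, W = ⊤.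
finrank_of_irr: the span of the chain vectors is stable under x, y, z (ex, ey, ez) and nonzero so it is ⊤; finrank ≤ n
 (finrank_range_le_card or finrank_span_le_card), and ≥ n by independence.
-/

namespace MP_372ad9_gt

variable {n : ℕ} [NeZero n] {p A : ℂ} {V : Type*} [AddCommGroup V] [Module ℂ V]
  {x y z : Module.End ℂ V}

theorem nd_inj (h : Par n A) {u : ℂ} (hu : u ≠ 0) (hu2 : (u ^ n) ^ 2 ≠ 1) :
    Function.Injective (nd A u : ZMod n → ℂ) := by
  intro k l hkl
  have ha : u * qz A k ≠ 0 := mul_ne_zero hu (qz_ne h k)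
  have hb : u * qz A l ≠ 0 := mul_ne_zero hu (qz_ne h l)
  have h1 : u * qz A k + (u * qz A k)⁻¹ = u * qz A l + (u * qz A l)⁻¹ := by
    have := hkl
    unfold nd at this
    exact neg_injective this
  have h2 : (u * qz A k - u * qz A l) * ((u * qz A k) * (u * qz A l) - 1) = 0 := by
    have e1 : (u * qz A k) * (u * qz A k)⁻¹ = 1 := mul_inv_cancel₀ ha
    have e2 : (u * qz A l) * (u * qz A l)⁻¹ = 1 := mul_inv_cancel₀ hb
    generalize (u * qz A k)⁻¹ = a' at *
    generalize (u * qz A l)⁻¹ = b' at *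
    generalize u * qz A k = a at *
    generalize u * qz A l = b at *
    linear_combination (a * b) * h1 - b * e1 + a * e2
  rcases mul_eq_zero.mp h2 with h3 | h3
  · have h4 : qz A k = qz A l := mul_left_cancel₀ hu (sub_eq_zero.mp h3)
    exact qz_inj h h4
  · exfalso
    apply hu2
    have h4 : (u * qz A k) * (u * qz A l) = 1 := sub_eq_zero.mp h3
    have h5 : ((u * qz A k) * (u * qz A l)) ^ n = 1 := by rw [h4, one_pow]
    rw [mul_pow, mul_pow, mul_pow, qz_pow h, qz_pow h, mul_one] at h5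
    rw [sq]
    exact h5

theorem chn_indep (h : Par n A) {u μ : ℂ} (hu : u ≠ 0) (hu2 : (u ^ n) ^ 2 ≠ 1)
    {e : ZMod n → V} (c : Chn p A u μ x y z e) (he : ∀ k, e k ≠ 0) : LinearIndependent ℂ e := by
  apply Module.End.eigenvectors_linearIndependent' x (nd A u) (nd_inj h hu hu2)
  intro k
  rw [Module.End.hasEigenvector_iff, Module.End.mem_eigenspace_iff]
  exact ⟨c.ex k, he k⟩

theorem exists_chn_basis (h : Par n A) (hV : Module.finrank ℂ V = n) (t : TriP p A x y z)
    {U : ℂ} (hU : U ≠ 0) (hU2 : U ^ 2 ≠ 1)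
    (hx : Polynomial.aeval x (cheb n) = (-(U + U⁻¹)) • (1 : Module.End ℂ V))
    (hp : U ^ 2 + (U ^ 2)⁻¹ + (cheb n).eval p ≠ 0) :
    ∃ (u μ : ℂ) (b : Module.Basis (ZMod n) ℂ V), u ^ n = U ∧ μ ≠ 0 ∧ Chn p A u μ x y z b := by
  have h3 := h.three
  have hpos : 0 < Module.finrank ℂ V := by omega
  have : FiniteDimensional ℂ V := Module.finite_of_finrank_pos hpos
  have : Nontrivial V := Module.nontrivial_of_finrank_pos hpos
  obtain ⟨u, μ, e, hun, hμ, he, c⟩ := exists_chain h t hU hU2 hx hp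
  have hu : u ≠ 0 := by
    rintro rfl
    rw [zero_pow (by omega)] at hun
    exact hU hun.symm
  have hu2 : (u ^ n) ^ 2 ≠ 1 := by rw [hun]; exact hU2
  have hli := chn_indep h hu hu2 c he
  have hcard : Fintype.card (ZMod n) = Module.finrank ℂ V := by rw [ZMod.card, hV]
  refine ⟨u, μ, basisOfLinearIndependentOfCardEqFinrank hli hcard, hun, hμ, ?_⟩
  rw [coe_basisOfLinearIndependentOfCardEqFinrank]
  exact c

/-- Each `ξ` is `U + U⁻¹`. -/
theorem exists_U {ξ : ℂ} (h1 : ξ ^ 2 ≠ 4) :
    ∃ U : ℂ, U ≠ 0 ∧ U ^ 2 ≠ 1 ∧ ξ = U + U⁻¹ ∧ U ^ 2 + (U ^ 2)⁻¹ = ξ ^ 2 - 2 := by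
  obtain ⟨s, hs⟩ := IsAlgClosed.exists_pow_nat_eq (ξ ^ 2 - 4) (n := 2) (by norm_num)
  have h2 : ((ξ + s) / 2) * (ξ - (ξ + s) / 2) = 1 := by
    linear_combination (-1 / 4) * hs
  have hU : (ξ + s) / 2 ≠ 0 := left_ne_zero_of_mul_eq_one h2
  have hinv : ((ξ + s) / 2)⁻¹ = ξ - (ξ + s) / 2 := by
    rw [inv_eq_iff_eq_inv]
    exact eq_inv_of_mul_eq_one_left h2
  have hsum : ξ = (ξ + s) / 2 + ((ξ + s) / 2)⁻¹ := by rw [hinv]; ring
  refine ⟨(ξ + s) / 2, hU, ?_, hsum, ?_⟩
  · intro h3
    apply h1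
    have h4 : ((ξ + s) / 2)⁻¹ = (ξ + s) / 2 := by
      exact inv_eq_of_mul_eq_one_left (by rw [← sq]; exact h3)
    rw [h4] at hsum
    rw [hsum]
    linear_combination 4 * h3
  · rw [← inv_pow, hinv]
    linear_combination (-2 : ℂ) * h2

theorem finrank_ge [FiniteDimensional ℂ V] [Nontrivial V] (h : Par n A) (t : TriP p A x y z)
    {ξ : ℂ} (hx : Polynomial.aeval x (cheb n) = (-ξ) • (1 : Module.End ℂ V))
    (h1 : ξ ^ 2 ≠ 4) (h2 : ξ ^ 2 - 2 + (cheb n).eval p ≠ 0) : n ≤ Module.finrank ℂ V := by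
  have h3 := h.three
  obtain ⟨U, hU, hU2, e1, e2⟩ := exists_U h1
  obtain ⟨u, μ, e, hun, hμ, he, c⟩ := exists_chain h t hU hU2 (by rw [← e1]; exact hx)
    (by rw [e2]; exact h2)
  have hu : u ≠ 0 := by
    rintro rfl
    rw [zero_pow (by omega)] at hun
    exact hU hun.symm
  have hli := chn_indep h hu (by rw [hun]; exact hU2) c he
  have := hli.fintype_card_le_finrank
  rwa [ZMod.card] at this

theorem azBasis_aeval {W : Submodule ℂ V} (wx : ∀ w ∈ W, x w ∈ W) (f : Polynomial ℂ) (w : W) :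
    ((Polynomial.aeval (LinearMap.restrict x wx : Module.End ℂ W) f w : W) : V) =
      Polynomial.aeval x f (w : V) := by
  induction f using Polynomial.induction_on' with
  | add a b ha hb =>
    rw [map_add, map_add, LinearMap.add_apply, LinearMap.add_apply, Submodule.coe_add, ha, hb]
  | monomial m a =>
    rw [Polynomial.aeval_monomial, Polynomial.aeval_monomial, Module.End.mul_apply,
      Module.End.mul_apply, Module.algebraMap_end_apply, Module.algebraMap_end_apply,
      Submodule.coe_smul]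
    congr 1
    induction m with
    | zero => simp
    | succ m ih =>
      rw [pow_succ', pow_succ', Module.End.mul_apply, Module.End.mul_apply, ← ih]
      rfl

theorem irr_of_finrank (h : Par n A) (hV : Module.finrank ℂ V = n) (t : TriP p A x y z)
    {ξ : ℂ} (hx : Polynomial.aeval x (cheb n) = (-ξ) • (1 : Module.End ℂ V))
    (h1 : ξ ^ 2 ≠ 4) (h2 : ξ ^ 2 - 2 + (cheb n).eval p ≠ 0) (W : Submodule ℂ V)
    (wx : ∀ w ∈ W, x w ∈ W) (wy : ∀ w ∈ W, y w ∈ W) (wz : ∀ w ∈ W, z w ∈ W) :
    W = ⊥ ∨ W = ⊤ := by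
  have h3 := h.three
  have : FiniteDimensional ℂ V := Module.finite_of_finrank_pos (by omega)
  rcases eq_or_ne W ⊥ with hW | hW
  · exact Or.inl hW
  right
  have : Nontrivial W := Submodule.nontrivial_iff_ne_bot.mpr hW
  have t' : TriP p A (LinearMap.restrict x wx : Module.End ℂ W)
      (LinearMap.restrict y wy : Module.End ℂ W) (LinearMap.restrict z wz : Module.End ℂ W) := by
    constructor
    · apply LinearMap.ext
      intro w
      apply Subtype.ext
      exact LinearMap.congr_fun t.xy (w : V)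
    · apply LinearMap.ext
      intro w
      apply Subtype.ext
      exact LinearMap.congr_fun t.yz (w : V)
    · apply LinearMap.ext
      intro w
      apply Subtype.ext
      exact LinearMap.congr_fun t.zx (w : V)
    · apply LinearMap.ext
      intro w
      apply Subtype.ext
      exact LinearMap.congr_fun t.cub (w : V)
  have hx' : Polynomial.aeval (LinearMap.restrict x wx : Module.End ℂ W) (cheb n) =
      (-ξ) • (1 : Module.End ℂ W) := by
    apply LinearMap.ext
    intro w
    apply Subtype.ext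
    rw [azBasis_aeval wx, hx]
    rfl
  have h4 := finrank_ge h t' hx' h1 h2
  apply Submodule.eq_top_of_finrank_eq
  have := Submodule.finrank_le W
  omega

theorem finrank_of_irr [FiniteDimensional ℂ V] [Nontrivial V] (h : Par n A)
    (t : TriP p A x y z)
    {ξ : ℂ} (hx : Polynomial.aeval x (cheb n) = (-ξ) • (1 : Module.End ℂ V))
    (h1 : ξ ^ 2 ≠ 4) (h2 : ξ ^ 2 - 2 + (cheb n).eval p ≠ 0)
    (irr : ∀ W : Submodule ℂ V, (∀ w ∈ W, x w ∈ W) → (∀ w ∈ W, y w ∈ W) →
      (∀ w ∈ W, z w ∈ W) → W = ⊥ ∨ W = ⊤) : Module.finrank ℂ V = n := by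
  have h3 := h.three
  have hge := finrank_ge h t hx h1 h2
  obtain ⟨U, hU, hU2, e1, e2⟩ := exists_U h1
  obtain ⟨u, μ, e, hun, hμ, he, c⟩ := exists_chain h t hU hU2 (by rw [← e1]; exact hx)
    (by rw [e2]; exact h2)
  have hmem : ∀ k, e k ∈ Submodule.span ℂ (Set.range e) := fun k =>
    Submodule.subset_span ⟨k, rfl⟩
  have hx1 : Submodule.span ℂ (Set.range e) ≤ (Submodule.span ℂ (Set.range e)).comap x := by
    rw [Submodule.span_le]
    rintro _ ⟨k, rfl⟩
    show x (e k) ∈ Submodule.span ℂ (Set.range e)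
    rw [c.ex]
    exact Submodule.smul_mem _ _ (hmem k)
  have hy1 : Submodule.span ℂ (Set.range e) ≤ (Submodule.span ℂ (Set.range e)).comap y := by
    rw [Submodule.span_le]
    rintro _ ⟨k, rfl⟩
    show y (e k) ∈ Submodule.span ℂ (Set.range e)
    rw [c.ey]
    exact Submodule.add_mem _ (Submodule.smul_mem _ _ (hmem _)) (Submodule.smul_mem _ _ (hmem _))
  have hz1 : Submodule.span ℂ (Set.range e) ≤ (Submodule.span ℂ (Set.range e)).comap z := by
    rw [Submodule.span_le]
    rintro _ ⟨k, rfl⟩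
    show z (e k) ∈ Submodule.span ℂ (Set.range e)
    rw [c.ez]
    exact Submodule.add_mem _ (Submodule.smul_mem _ _ (hmem _)) (Submodule.smul_mem _ _ (hmem _))
  rcases irr (Submodule.span ℂ (Set.range e)) (fun w hw => hx1 hw) (fun w hw => hy1 hw)
    (fun w hw => hz1 hw) with hb | ht
  · exfalso
    have := hmem 0
    rw [hb, Submodule.mem_bot] at this
    exact he 0 this
  · have h5 : Set.finrank ℂ (Set.range e) ≤ Fintype.card (ZMod n) := finrank_range_le_card e
    rw [ZMod.card, Set.finrank, ht, finrank_top] at h5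
    omega

end MP_372ad9_gt
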