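import Pool.Agent.Lib.MP_372ad9_gt.AzConj

set_option autoImplicit false

/-
ROW AzShad (about 110 lines). The values of T_n after the twists.

sh_R: ξ = U + U⁻¹ (exists_U), exists_chn_basis: basis b with Chn, hence GChn (chn_g), values by gchn_y, gchn_z, gchn_w with
 α = ∏ a, β = ∏ b: α + β = -η, U α + U⁻¹ β = -ζ (V nontrivial: the scalar in s • 1 is determined), so
 U^2 α + U⁻² β = (U + U⁻¹)(U α + U⁻¹ β) - (α + β) = -(ξ ζ - η).
sh_L: apply sh_R to the swapped triple t.swap : TriP p A⁻¹ y x z (h.inv : Par n A⁻¹), s swapped ⟨s.hy, s.hx, s.hz⟩: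
 get Sh n y z (tw A⁻¹ y z x) η ζ (η ζ - ξ), tw_swap; reorder.
cpt facts: from CPt: w := ξ^2 - 2 ≠ 0 (e2), w ≠ 2 (e4), 2 - T_n(p) = w + 4/w, η^2 = 2 + 4/w (4 η^2 = ξ^2 ζ^2 = (w+2) 8/w).
 nd1: ξ^2 - 2 + T_n(p) = w + 2 - w - 4/w = 2 - 4/w ≠ 0. nd2: η^2 ≠ 4 (4/w ≠ 2). nd3: η^2 - 2 + T_n(p) = 2 - w ≠ 0.
 fixed: ξ ζ - η = η; (ξ η - ζ) η - ξ = ξ, because ξ (η^2 - 2) = ζ η : ξ 4/w = ζ ξ ζ / 2 = ξ 4 / w.
sh_fi: the four steps (x,y,z) → (x,z,w) → (x,w,w') → (w',w,X) → (X,w,Z), values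
 (ξ,η,ζ) → (ξ,ζ,ξζ-η = η) → (ξ,η,ξη-ζ) → (ξη-ζ,η,(ξη-ζ)η-ξ = ξ) → (ξ,η,ξη-(ξη-ζ) = ζ);
 first two steps sh_R (conditions on ξ), last two sh_L (conditions on η); TriP by twist, twistL.
exists_T: unicity between (x,y,z) and fi (x,y,z) on V (TriP.fi, sh_fi) gives f : V ≃ₗ V with f ∘ x = fi.1 ∘ f etc.;
 L = f, L' = f.symm as endomorphisms, τ := trace L * trace L'.
-/

namespace MP_372ad9_gt

variable {n : ℕ} [NeZero n] {p A ξ η ζ : ℂ} {V : Type*} [AddCommGroup V] [Module ℂ V]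
  {x y z : Module.End ℂ V}

theorem shad_smul (h : Par n A) (hV : Module.finrank ℂ V = n) {c d : ℂ}
    (hcd : c • (1 : Module.End ℂ V) = d • (1 : Module.End ℂ V)) : c = d := by
  have h0 : 0 < Module.finrank ℂ V := by rw [hV]; have := h.three; omega
  have : Nontrivial V := Module.nontrivial_of_finrank_pos h0
  obtain ⟨v, hv⟩ := exists_ne (0 : V)
  have h1 := congrArg (fun f : Module.End ℂ V => f v) hcd
  simp only [LinearMap.smul_apply, Module.End.one_apply] at h1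
  exact smul_left_injective ℂ hv h1

theorem sh_R (h : Par n A) (hV : Module.finrank ℂ V = n) (t : TriP p A x y z)
    (s : Sh n x y z ξ η ζ) (h1 : ξ ^ 2 ≠ 4) (h2 : ξ ^ 2 - 2 + (cheb n).eval p ≠ 0) :
    Sh n x z (tw A x z y) ξ ζ (ξ * ζ - η) := by
  obtain ⟨U, hU, hU2, hξ, hξ2⟩ := exists_U h1
  have hx := s.hx
  rw [hξ] at hx
  have hp : U ^ 2 + (U ^ 2)⁻¹ + (cheb n).eval p ≠ 0 := by rw [hξ2]; exact h2
  obtain ⟨u, μ, b, hu, hμ, c⟩ := exists_chn_basis h hV t hU hU2 hx hp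
  have hn : n ≠ 0 := by have := h.three; omega
  have hu0 : u ≠ 0 := by
    intro h0
    rw [h0, zero_pow hn] at hu
    exact hU hu.symm
  have hu2 : (u ^ n) ^ 2 ≠ 1 := by rw [hu]; exact hU2
  have g := chn_g hμ c
  have vy := gchn_y h hu0 hu2 t g
  have vz := gchn_z h hu0 hu2 t g
  have vw := gchn_w h hu0 hu2 t g
  generalize (∏ _k : ZMod n, μ) = al at vy vz vw
  generalize (∏ k : ZMod n, μ⁻¹ * cc p A (u * qz A (k - 1))) = be at vy vz vw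
  rw [hu] at vz vw
  rw [s.hy] at vy
  rw [s.hz] at vz
  have ey := shad_smul h hV vy
  have ez := shad_smul h hV vz
  refine ⟨s.hx, s.hz, ?_⟩
  rw [vw]
  congr 1
  have hUU : U * U⁻¹ = 1 := mul_inv_cancel₀ hU
  rw [hξ, ← inv_pow]
  generalize U⁻¹ = W at hUU ez
  linear_combination (-(U + W)) * ez + ey - (al + be) * hUU

theorem sh_L (h : Par n A) (hV : Module.finrank ℂ V = n) (t : TriP p A x y z)
    (s : Sh n x y z ξ η ζ) (h1 : η ^ 2 ≠ 4) (h2 : η ^ 2 - 2 + (cheb n).eval p ≠ 0) :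
    Sh n z y (tw A z y x) ζ η (ζ * η - ξ) := by
  have r := sh_R h.inv hV t.swap ⟨s.hy, s.hx, s.hz⟩ h1 h2
  rw [tw_swap h.A_ne t, mul_comm η ζ] at r
  exact ⟨r.hy, r.hx, r.hz⟩

theorem shad_w0 (c : CPt n p ξ η ζ) : ξ ^ 2 - 2 ≠ 0 := by
  intro h0
  have := c.e2
  rw [h0, mul_zero] at this
  norm_num at this

theorem shad_w2 (c : CPt n p ξ η ζ) (h : ξ ^ 2 - 2 = 2) : False := by
  apply c.e4
  linear_combination h

theorem shad_eta (c : CPt n p ξ η ζ) : (ξ ^ 2 - 2) * η ^ 2 = 2 * ξ ^ 2 := by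
  have h1 := c.e1
  have h2 := c.e2
  linear_combination (-(1 / 4) * (ξ ^ 2 - 2) * (ξ * ζ + 2 * η)) * h1 + (1 / 4) * ξ ^ 2 * h2

theorem CPt.nd1 (c : CPt n p ξ η ζ) : ξ ^ 2 - 2 + (cheb n).eval p ≠ 0 := by
  intro h0
  have h3 := c.e3
  generalize (cheb n).eval p = T at h0 h3
  apply shad_w2 c
  linear_combination (-(1 / 2)) * h3 + (1 / 2) * (ξ ^ 2 - 2) * h0

theorem CPt.nd2 (c : CPt n p ξ η ζ) : η ^ 2 ≠ 4 := by
  intro h0
  have h3 := shad_eta c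
  apply shad_w2 c
  linear_combination (1 / 2) * h3 - (1 / 2) * (ξ ^ 2 - 2) * h0

theorem CPt.nd3 (c : CPt n p ξ η ζ) : η ^ 2 - 2 + (cheb n).eval p ≠ 0 := by
  intro h0
  have h3 := c.e3
  have h4 := shad_eta c
  generalize (cheb n).eval p = T at h0 h3
  have h5 : (ξ ^ 2 - 2) * ((ξ ^ 2 - 2) - 2) = 0 := by
    linear_combination h3 + h4 - (ξ ^ 2 - 2) * h0
  rcases mul_eq_zero.mp h5 with h6 | h6
  · exact shad_w0 c h6
  · exact shad_w2 c (sub_eq_zero.mp h6)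

theorem CPt.fix (c : CPt n p ξ η ζ) : (ξ * η - ζ) * η - ξ = ξ := by
  have h1 := c.e1
  have h2 := c.e2
  have h4 := shad_eta c
  have h5 : (ξ ^ 2 - 2) * ((ξ * η - ζ) * η - ξ - ξ) = 0 := by
    linear_combination ξ * h4 + (1 / 2) * ζ * (ξ ^ 2 - 2) * h1 - (1 / 2) * ξ * h2
  rcases mul_eq_zero.mp h5 with h6 | h6
  · exact absurd h6 (shad_w0 c)
  · exact sub_eq_zero.mp h6

theorem sh_fi (h : Par n A) (hV : Module.finrank ℂ V = n) (t : TriP p A x y z)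
    (s : Sh n x y z ξ η ζ) (c : CPt n p ξ η ζ) :
    Sh n (fi A (x, y, z)).1 (fi A (x, y, z)).2.1 (fi A (x, y, z)).2.2 ξ η ζ := by
  have hA := h.A_ne
  have e1 := c.e1
  have s1 := sh_R h hV t s c.e4 c.nd1
  have t1 := t.twist hA
  have q1 : ξ * ζ - η = η := by linear_combination e1
  rw [q1] at s1
  have s2 := sh_R h hV t1 s1 c.e4 c.nd1
  have t2 := t1.twist hA
  have s3 := sh_L h hV t2 s2 c.nd2 c.nd3
  have t3 := t2.twistL hA
  rw [c.fix] at s3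
  have s4 := sh_L h hV t3 s3 c.nd2 c.nd3
  have q4 : ξ * η - (ξ * η - ζ) = ζ := by ring
  rw [q4] at s4
  exact s4

theorem exists_T (h : Par n A) (hV : Module.finrank ℂ V = n) (t : TriP p A x y z)
    (s : Sh n x y z ξ η ζ) (c : CPt n p ξ η ζ) : ∃ τ, HasT A x y z τ := by
  obtain ⟨f, f1, f2, f3⟩ := unicity h hV hV t (t.fi h.A_ne) s (sh_fi h hV t s c) c.e4 c.nd1
  refine ⟨_, (f : V →ₗ[ℂ] V), (f.symm : V →ₗ[ℂ] V), ?_, ?_, ?_, ?_, ?_, rfl⟩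
  · ext v
    simp [Module.End.mul_apply]
  · ext v
    simp [Module.End.mul_apply]
  · ext v
    simp only [Module.End.mul_apply]
    exact (f1 v).symm
  · ext v
    simp only [Module.End.mul_apply]
    exact (f2 v).symm
  · ext v
    simp only [Module.End.mul_apply]
    exact (f3 v).symm

end MP_372ad9_gt
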