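import Pool.Agent.Lib.MP_372ad9_gt.AzFam
import Pool.Agent.Lib.MP_372ad9_gt.AzShad

set_option autoImplicit false

/-
ROW AzBdd (about 130 lines). τ is bounded when p is bounded.

(1) trace_le: V finite dimensional over ℂ of dimension n, every eigenvalue of L has norm ≤ C: ‖Tr L‖ ≤ n C
 (trace = sum of the roots of the characteristic polynomial: LinearMap.trace_eq_sum_roots_charpoly or
 Matrix.trace_eq_sum_roots_charpoly; the roots are eigenvalues: Module.End.hasEigenvalue_iff_isRoot_charpoly). We need the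
 two-operator form: if ‖λ λ'‖ ≤ C for all eigenvalues λ of L, λ' of L' then ‖Tr L * Tr L'‖ ≤ n^2 C
 (Tr L Tr L' = double sum over the two multisets of roots; each has n elements since ℂ is algebraically closed:
 IsAlgClosed.card_roots_eq_natDegree / splits_iff_card_roots, LinearMap.charpoly_natDegree).
(2) eig_pair: L L' = 1 = L' L, fi.1 L = L x etc. so fi.1 = L x L', ... Let λ be an eigenvalue of L: L - λ is not injective so not surjective
 (finite dimension), so there is a nonzero functional ℓ with ℓ ∘ (L - λ) = 0 (Submodule.exists_dual_map_eq_bot_of_lt_top or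
 Submodule.exists_le_ker_of_lt_top), i.e. ℓ (L v) = λ ℓ v. Let L' v = λ' v, v ≠ 0. For B = x^i y^j z^k: L B L' = fi.1^i fi.2.1^j fi.2.2^k =
 ∑ c_s B_s (fi_bound), so λ λ' ℓ(B_r v) = ℓ(L B_r L' v) = ∑_s c_s ℓ(B_s v). Not all ℓ(B_s v) vanish: otherwise the span of
 the B_s v is in ker ℓ; but that span is stable under x, y, z (mono_span: x B_s ∈ Algebra.adjoin) and contains v = B_0 v ≠ 0, so
 it is ⊤ by irr_of_finrank, ℓ = 0. Choose r with ‖ℓ(B_r v)‖ maximal (> 0): ‖λ λ'‖ ≤ n^3 K.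
(3) Rel_bdd: for Rel n A p τ, ‖p‖ ≤ B: T = T_n(p) is bounded (continuity on the compact ball), S := ‖2 - T‖ ≤ S0, w = ξ^2 - 2 satisfies
 w^2 + 4 = s w, so ‖w‖ ≤ S0 + 2 and ‖4/w‖ ≤ S0 + 2 (4/w is the other root). ‖ξ‖^2 ≤ S0 + 4, ‖ζ‖^2 = ‖8/w‖ ≤ 2 (S0 + 2), ‖η‖^2 = ‖2 + 4/w‖ ≤ S0 + 4.
 Irreducibility: irr_of_finrank with s.hx, c.e4, c.nd1 (finrank (ZMod n → ℂ) = n). Then (1), (2).
-/

namespace MP_372ad9_gt

variable {n : ℕ} [NeZero n] {A : ℂ}

theorem AzBdd_trace {V : Type*} [AddCommGroup V] [Module ℂ V] [FiniteDimensional ℂ V]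
    (L : Module.End ℂ V) (C : ℝ) (hC : ∀ a : ℂ, L.HasEigenvalue a → ‖a‖ ≤ C) (hC0 : 0 ≤ C) :
    ‖LinearMap.trace ℂ V L‖ ≤ Module.finrank ℂ V * C := by
  rw [Module.End.trace_eq_sum_roots_charpoly_of_splits (IsAlgClosed.splits _)]
  refine (norm_multiset_sum_le _).trans ?_
  have h1 : ∀ t ∈ (L.charpoly.roots.map fun a => ‖a‖), t ≤ C := by
    intro t ht
    obtain ⟨a, ha, rfl⟩ := Multiset.mem_map.mp ht
    exact hC a ((Module.End.hasEigenvalue_iff_isRoot_charpoly L a).mpr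
      (Polynomial.isRoot_of_mem_roots ha))
  refine (Multiset.sum_le_card_nsmul _ _ h1).trans ?_
  rw [Multiset.card_map, nsmul_eq_mul]
  apply mul_le_mul_of_nonneg_right _ hC0
  have h2 := Polynomial.card_roots' L.charpoly
  rw [LinearMap.charpoly_natDegree] at h2
  exact_mod_cast h2

theorem AzBdd_trace2 {V : Type*} [AddCommGroup V] [Module ℂ V] [FiniteDimensional ℂ V]
    (L L' : Module.End ℂ V) (C : ℝ) (hC0 : 0 ≤ C)
    (hC : ∀ a a' : ℂ, L.HasEigenvalue a → L'.HasEigenvalue a' → ‖a * a'‖ ≤ C) :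
    ‖LinearMap.trace ℂ V L * LinearMap.trace ℂ V L'‖ ≤
      Module.finrank ℂ V * Module.finrank ℂ V * C := by
  classical
  have key : ∀ M : Module.End ℂ V, (∃ a, M.HasEigenvalue a ∧
      ∀ b, M.HasEigenvalue b → ‖b‖ ≤ ‖a‖) ∨ (∀ b, ¬ M.HasEigenvalue b) := by
    intro M
    rcases Finset.eq_empty_or_nonempty M.charpoly.roots.toFinset with h | h
    · right
      intro b hb
      have h1 : b ∈ M.charpoly.roots.toFinset := by
        rw [Multiset.mem_toFinset, Polynomial.mem_roots (LinearMap.charpoly_monic M).ne_zero]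
        exact (Module.End.hasEigenvalue_iff_isRoot_charpoly M b).mp hb
      rw [h] at h1
      exact absurd h1 (Finset.notMem_empty b)
    · left
      obtain ⟨a, ha, hmax⟩ := Finset.exists_max_image _ (fun a : ℂ => ‖a‖) h
      refine ⟨a, ?_, ?_⟩
      · rw [Multiset.mem_toFinset, Polynomial.mem_roots (LinearMap.charpoly_monic M).ne_zero] at ha
        exact (Module.End.hasEigenvalue_iff_isRoot_charpoly M a).mpr ha
      · intro b hb
        apply hmax
        rw [Multiset.mem_toFinset, Polynomial.mem_roots (LinearMap.charpoly_monic M).ne_zero]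
        exact (Module.End.hasEigenvalue_iff_isRoot_charpoly M b).mp hb
  have hn0 : (0 : ℝ) ≤ Module.finrank ℂ V := Nat.cast_nonneg _
  rw [norm_mul]
  rcases key L with ⟨a, ha, hamax⟩ | hL
  · rcases key L' with ⟨a', ha', hamax'⟩ | hL'
    · have h1 := AzBdd_trace L ‖a‖ hamax (norm_nonneg _)
      have h2 := AzBdd_trace L' ‖a'‖ hamax' (norm_nonneg _)
      have h3 := hC a a' ha ha'
      rw [norm_mul] at h3
      calc ‖LinearMap.trace ℂ V L‖ * ‖LinearMap.trace ℂ V L'‖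
          ≤ (Module.finrank ℂ V * ‖a‖) * (Module.finrank ℂ V * ‖a'‖) :=
            mul_le_mul h1 h2 (norm_nonneg _) (mul_nonneg hn0 (norm_nonneg _))
        _ = Module.finrank ℂ V * Module.finrank ℂ V * (‖a‖ * ‖a'‖) := by ring
        _ ≤ Module.finrank ℂ V * Module.finrank ℂ V * C :=
            mul_le_mul_of_nonneg_left h3 (mul_nonneg hn0 hn0)
    · have h2 := AzBdd_trace L' 0 (fun b hb => absurd hb (hL' b)) le_rfl
      rw [mul_zero] at h2
      have h3 : ‖LinearMap.trace ℂ V L'‖ = 0 := le_antisymm h2 (norm_nonneg _)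
      rw [h3, mul_zero]
      exact mul_nonneg (mul_nonneg hn0 hn0) hC0
  · have h2 := AzBdd_trace L 0 (fun b hb => absurd hb (hL b)) le_rfl
    rw [mul_zero] at h2
    have h3 : ‖LinearMap.trace ℂ V L‖ = 0 := le_antisymm h2 (norm_nonneg _)
    rw [h3, zero_mul]
    exact mul_nonneg (mul_nonneg hn0 hn0) hC0

/-- the monomials -/
noncomputable def AzBdd_B (x y z : Module.End ℂ (ZMod n → ℂ)) (s : Fin n × Fin n × Fin n) :
    Module.End ℂ (ZMod n → ℂ) :=
  x ^ (s.1 : ℕ) * y ^ (s.2.1 : ℕ) * z ^ (s.2.2 : ℕ)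

theorem AzBdd_finrank : Module.finrank ℂ (ZMod n → ℂ) = n := by
  have : Fintype (ZMod n) := ZMod.fintype n
  rw [Module.finrank_fintype_fun_eq_card, ZMod.card]

theorem AzBdd_mem (x y z : Module.End ℂ (ZMod n → ℂ)) (s : Fin n × Fin n × Fin n) :
    AzBdd_B x y z s ∈ Algebra.adjoin ℂ ({x, y, z} : Set (Module.End ℂ (ZMod n → ℂ))) := by
  have hx : x ∈ Algebra.adjoin ℂ ({x, y, z} : Set (Module.End ℂ (ZMod n → ℂ))) :=
    Algebra.subset_adjoin (by simp)
  have hy : y ∈ Algebra.adjoin ℂ ({x, y, z} : Set (Module.End ℂ (ZMod n → ℂ))) :=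
    Algebra.subset_adjoin (by simp)
  have hz : z ∈ Algebra.adjoin ℂ ({x, y, z} : Set (Module.End ℂ (ZMod n → ℂ))) :=
    Algebra.subset_adjoin (by simp)
  exact Subalgebra.mul_mem _ (Subalgebra.mul_mem _ (Subalgebra.pow_mem _ hx _)
    (Subalgebra.pow_mem _ hy _)) (Subalgebra.pow_mem _ hz _)

/-- a functional which kills all the vectors `B_s v` is zero -/
theorem AzBdd_ne (h : Par n A) {p ξ η ζ : ℂ} {x y z : Module.End ℂ (ZMod n → ℂ)}
    (t : TriP p A x y z) (s : Sh n x y z ξ η ζ) (c : CPt n p ξ η ζ)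
    {l : (ZMod n → ℂ) →ₗ[ℂ] ℂ} (hl : l ≠ 0) {v : ZMod n → ℂ} (hv : v ≠ 0) :
    ∃ r, l (AzBdd_B x y z r v) ≠ 0 := by
  by_contra hcon
  push Not at hcon
  set S : Submodule ℂ (Module.End ℂ (ZMod n → ℂ)) :=
    Submodule.span ℂ (Set.range (AzBdd_B x y z)) with hS
  have hadj : ∀ w, w ∈ Algebra.adjoin ℂ ({x, y, z} : Set (Module.End ℂ (ZMod n → ℂ))) →
      w ∈ S := fun w hw => mono_span h t s w hw
  have hadj2 : ∀ w ∈ S, w ∈ Algebra.adjoin ℂ ({x, y, z} : Set (Module.End ℂ (ZMod n → ℂ))) := by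
    intro w hw
    have h1 : S ≤ Subalgebra.toSubmodule
        (Algebra.adjoin ℂ ({x, y, z} : Set (Module.End ℂ (ZMod n → ℂ)))) := by
      rw [hS, Submodule.span_le]
      rintro _ ⟨r, rfl⟩
      exact AzBdd_mem x y z r
    exact h1 hw
  set W : Submodule ℂ (ZMod n → ℂ) := S.map (LinearMap.applyₗ (R := ℂ) v) with hW
  have hstab : ∀ a ∈ Algebra.adjoin ℂ ({x, y, z} : Set (Module.End ℂ (ZMod n → ℂ))),
      ∀ w ∈ W, a w ∈ W := by
    rintro a ha _ ⟨T, hT, rfl⟩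
    refine ⟨a * T, hadj _ (Subalgebra.mul_mem _ ha (hadj2 T hT)), ?_⟩
    rfl
  have hvW : v ∈ W := ⟨1, hadj 1 (Subalgebra.one_mem _), rfl⟩
  have hx : x ∈ Algebra.adjoin ℂ ({x, y, z} : Set (Module.End ℂ (ZMod n → ℂ))) :=
    Algebra.subset_adjoin (by simp)
  have hy : y ∈ Algebra.adjoin ℂ ({x, y, z} : Set (Module.End ℂ (ZMod n → ℂ))) :=
    Algebra.subset_adjoin (by simp)
  have hz : z ∈ Algebra.adjoin ℂ ({x, y, z} : Set (Module.End ℂ (ZMod n → ℂ))) :=
    Algebra.subset_adjoin (by simp)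
  rcases irr_of_finrank h AzBdd_finrank t s.hx c.e4 c.nd1 W (hstab x hx) (hstab y hy)
    (hstab z hz) with h1 | h1
  · rw [h1, Submodule.mem_bot] at hvW
    exact hv hvW
  · apply hl
    have h2 : W ≤ LinearMap.ker l := by
      rw [hW, hS, Submodule.map_span, Submodule.span_le]
      rintro _ ⟨_, ⟨r, rfl⟩, rfl⟩
      exact hcon r
    rw [h1] at h2
    exact LinearMap.ker_eq_top.mp (top_le_iff.mp h2)

theorem AzBdd_pair (h : Par n A) {p ξ η ζ : ℂ} {x y z : Module.End ℂ (ZMod n → ℂ)}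
    (t : TriP p A x y z) (s : Sh n x y z ξ η ζ) (c : CPt n p ξ η ζ) {K : ℝ} (hK0 : 0 ≤ K)
    (hK : ∀ r : Fin n × Fin n × Fin n, ∃ c : Fin n × Fin n × Fin n → ℂ, (∀ s, ‖c s‖ ≤ K) ∧
      (fi A (x, y, z)).1 ^ (r.1 : ℕ) * (fi A (x, y, z)).2.1 ^ (r.2.1 : ℕ) *
        (fi A (x, y, z)).2.2 ^ (r.2.2 : ℕ) =
      ∑ s, c s • (x ^ (s.1 : ℕ) * y ^ (s.2.1 : ℕ) * z ^ (s.2.2 : ℕ)))
    {L L' : Module.End ℂ (ZMod n → ℂ)} (h1 : L * L' = 1)
    (hx : (fi A (x, y, z)).1 * L = L * x) (hy : (fi A (x, y, z)).2.1 * L = L * y)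
    (hz : (fi A (x, y, z)).2.2 * L = L * z) {a a' : ℂ} (ha : L.HasEigenvalue a)
    (ha' : L'.HasEigenvalue a') : ‖a * a'‖ ≤ (n : ℝ) ^ 3 * K := by
  -- the functional
  obtain ⟨u, hu⟩ := ha.exists_hasEigenvector
  have hns : LinearMap.range (L - a • (1 : Module.End ℂ (ZMod n → ℂ))) < ⊤ := by
    rw [lt_top_iff_ne_top]
    intro htop
    have hsur : Function.Surjective (L - a • (1 : Module.End ℂ (ZMod n → ℂ))) :=
      LinearMap.range_eq_top.mp htop
    have hinj := LinearMap.injective_iff_surjective.mpr hsur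
    apply hu.2
    apply hinj
    rw [map_zero, LinearMap.sub_apply, LinearMap.smul_apply, Module.End.one_apply,
      hu.apply_eq_smul, sub_self]
  obtain ⟨l, hl0, hl⟩ := Submodule.exists_le_ker_of_lt_top _ hns
  have hlL : ∀ w, l (L w) = a * l w := by
    intro w
    have h2 : (L - a • (1 : Module.End ℂ (ZMod n → ℂ))) w ∈ LinearMap.ker l := hl ⟨w, rfl⟩
    rw [LinearMap.mem_ker, LinearMap.sub_apply, LinearMap.smul_apply, Module.End.one_apply,
      map_sub, map_smul, smul_eq_mul] at h2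
    linear_combination h2
  obtain ⟨v, hv⟩ := ha'.exists_hasEigenvector
  -- the maximal value
  obtain ⟨r, -, hr⟩ := Finset.exists_max_image (Finset.univ : Finset (Fin n × Fin n × Fin n))
    (fun s => ‖l (AzBdd_B x y z s v)‖) ⟨(0, 0, 0), Finset.mem_univ _⟩
  obtain ⟨r', hr'⟩ := AzBdd_ne h t s c hl0 hv.2
  have hpos : 0 < ‖l (AzBdd_B x y z r v)‖ :=
    lt_of_lt_of_le (norm_pos_iff.mpr hr') (hr r' (Finset.mem_univ _))
  obtain ⟨d, hd, hdd⟩ := hK r
  have hW : ((fi A (x, y, z)).1 ^ (r.1 : ℕ) * (fi A (x, y, z)).2.1 ^ (r.2.1 : ℕ) *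
        (fi A (x, y, z)).2.2 ^ (r.2.2 : ℕ)) * L = L * AzBdd_B x y z r := by
    have sx : SemiconjBy L x (fi A (x, y, z)).1 := hx.symm
    have sy : SemiconjBy L y (fi A (x, y, z)).2.1 := hy.symm
    have sz : SemiconjBy L z (fi A (x, y, z)).2.2 := hz.symm
    exact (((sx.pow_right _).mul_right (sy.pow_right _)).mul_right (sz.pow_right _)).symm
  have e1 : (L * AzBdd_B x y z r * L') v = ∑ s, d s • (AzBdd_B x y z s v) := by
    rw [← hW, mul_assoc, h1, mul_one, hdd, LinearMap.sum_apply]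
    rfl
  have e2 : l ((L * AzBdd_B x y z r * L') v) = a * a' * l (AzBdd_B x y z r v) := by
    rw [Module.End.mul_apply, Module.End.mul_apply, hv.apply_eq_smul, hlL, map_smul, map_smul,
      smul_eq_mul]
    ring
  have e3 : a * a' * l (AzBdd_B x y z r v) = ∑ s, d s * l (AzBdd_B x y z s v) := by
    rw [← e2, e1, map_sum]
    exact Finset.sum_congr rfl (fun s _ => by rw [map_smul, smul_eq_mul])
  have e4 : ‖a * a'‖ * ‖l (AzBdd_B x y z r v)‖ ≤
      (n : ℝ) ^ 3 * K * ‖l (AzBdd_B x y z r v)‖ := by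
    rw [← norm_mul, e3]
    refine (norm_sum_le _ _).trans ?_
    have h3 : ∀ s ∈ (Finset.univ : Finset (Fin n × Fin n × Fin n)),
        ‖d s * l (AzBdd_B x y z s v)‖ ≤ K * ‖l (AzBdd_B x y z r v)‖ := by
      intro s _
      rw [norm_mul]
      exact mul_le_mul (hd s) (hr s (Finset.mem_univ _)) (norm_nonneg _) hK0
    refine (Finset.sum_le_card_nsmul _ _ _ h3).trans ?_
    rw [Finset.card_univ, Fintype.card_prod, Fintype.card_prod, Fintype.card_fin, nsmul_eq_mul]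
    push_cast
    apply le_of_eq
    ring
  exact le_of_mul_le_mul_right e4 hpos

theorem AzBdd_quad {w s : ℂ} {S : ℝ} (hs : ‖s‖ ≤ S) (hw : w ^ 2 + 4 = s * w) : ‖w‖ ≤ S + 2 := by
  have hS : 0 ≤ S := (norm_nonneg _).trans hs
  have h1 : w ^ 2 = s * w - 4 := by linear_combination hw
  have h2 : ‖w‖ ^ 2 ≤ S * ‖w‖ + 4 := by
    rw [← norm_pow, h1]
    refine (norm_sub_le _ _).trans ?_
    rw [norm_mul]
    have h3 : ‖(4 : ℂ)‖ = 4 := by norm_num
    rw [h3]
    have := mul_le_mul_of_nonneg_right hs (norm_nonneg w)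
    linarith
  by_contra hcon
  push Not at hcon
  nlinarith [norm_nonneg w]

theorem AzBdd_sq {t M : ℝ} (hM : 0 ≤ M) (h : t ^ 2 ≤ M) : t ≤ M + 1 := by
  by_contra hcon
  push Not at hcon
  nlinarith

theorem Rel_bdd (h : Par n A) (B : ℝ) :
    ∃ K : ℝ, ∀ p τ : ℂ, ‖p‖ ≤ B → Rel n A p τ → ‖τ‖ ≤ K := by
  obtain ⟨S, hS⟩ := (isCompact_closedBall (0 : ℂ) B).exists_bound_of_continuousOn
    (f := fun p => 2 - (cheb n).eval p) (by
      apply Continuous.continuousOn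
      exact continuous_const.sub (cheb n).continuous)
  set S0 : ℝ := max S 0 with hS0
  have hS00 : 0 ≤ S0 := le_max_right _ _
  obtain ⟨K, hK⟩ := fi_bound h (2 * (S0 + 2) + 1)
  refine ⟨(n : ℝ) * n * ((n : ℝ) ^ 3 * max K 0), ?_⟩
  rintro p τ hp ⟨x, y, z, ξ, η, ζ, t, s, c, L, L', h1, h2, hx, hy, hz, rfl⟩
  have hs : ‖2 - (cheb n).eval p‖ ≤ S0 :=
    (hS p (by rw [Metric.mem_closedBall, dist_zero_right]; exact hp)).trans (le_max_left _ _)
  set w : ℂ := ξ ^ 2 - 2 with hw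
  have hw0 : w ≠ 0 := by
    intro h0
    have := c.e2
    rw [← hw, h0, mul_zero] at this
    norm_num at this
  have b1 : ‖w‖ ≤ S0 + 2 := AzBdd_quad hs c.e3
  have b2 : ‖4 / w‖ ≤ S0 + 2 := by
    apply AzBdd_quad hs
    have := c.e3
    rw [← hw] at this
    field_simp
    linear_combination this
  have n2 : ‖(2 : ℂ)‖ = 2 := by norm_num
  have q1 : ‖ξ‖ ^ 2 ≤ 2 * (S0 + 2) := by
    rw [← norm_pow, show ξ ^ 2 = w + 2 by rw [hw]; ring]
    refine (norm_add_le _ _).trans ?_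
    rw [n2]
    linarith
  have q3 : ‖ζ‖ ^ 2 ≤ 2 * (S0 + 2) := by
    have e : ζ ^ 2 = 2 * (4 / w) := by
      have := c.e2
      rw [← hw] at this
      field_simp
      linear_combination this
    rw [← norm_pow, e, norm_mul, n2]
    linarith
  have q2 : ‖η‖ ^ 2 ≤ 2 * (S0 + 2) := by
    have e : η ^ 2 = 2 + 4 / w := by
      have e2 := c.e2
      have e1 := c.e1
      rw [← hw] at e2
      have e5 : ξ ^ 2 = w + 2 := by rw [hw]; ring
      have e6 : 4 * η ^ 2 * w = 8 * (w + 2) := by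
        have e7 : 4 * η ^ 2 = ξ ^ 2 * ζ ^ 2 := by
          rw [← mul_pow, e1]
          ring
        rw [e7, e5]
        linear_combination (w + 2) * e2
      field_simp
      linear_combination e6 / 4
    rw [← norm_pow, e]
    refine (norm_add_le _ _).trans ?_
    rw [n2]
    linarith
  have hM : 0 ≤ 2 * (S0 + 2) := by linarith
  have hB := hK x y z ξ η ζ p t s (AzBdd_sq hM q1) (AzBdd_sq hM q2) (AzBdd_sq hM q3)
  have hC := AzBdd_trace2 L L' ((n : ℝ) ^ 3 * max K 0)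
    (mul_nonneg (pow_nonneg (Nat.cast_nonneg _) _) (le_max_right _ _))
    (fun a a' ha ha' => AzBdd_pair h t s c (le_max_right K 0) (fun r => by
      obtain ⟨d, hd, hdd⟩ := hB r
      exact ⟨d, fun s => (hd s).trans (le_max_left _ _), hdd⟩) h1 hx hy hz ha ha')
  rw [AzBdd_finrank] at hC
  exact hC

end MP_372ad9_gt
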