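import Pool.Agent.Lib.MP_372ad9_gt.AzTri

set_option autoImplicit false

/-
ROW AzBranch (about 130 lines). Local choices of the parameters. T = T_n(p), s = 2 - T.
local_root: f p = a * exp (log (g p / g p0) / k). g p0 = a^k ≠ 0, g p / g p0 → 1, log is differentiable at 1 (slitPlane);
 f p ^ k = a^k * exp (log (g p/g p0)) = g p whenever g p ≠ 0, eventually. f p0 = a (log 1 = 0). local_root_cont: the same with continuity.
branch_diff: at p0 let w0 be a root of w^2 - s0 w + 4 = 0; s0 = 4 iff T = -2, s0 = -4 iff T = 6, so s0^2 - 16 ≠ 0 and (2 w0 - s0)^2 = s0^2 - 16 ≠ 0.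
 local_root (k = 2) with g = s^2 - 16: r1, w(p) = (s + r1)/2, w^2 - s w + 4 = 0 near p0. w ≠ ± 2 at p0 (w = 2 gives T = -2, w = -2 gives T = 6), w ≠ 0.
 v0 with v0^2 - w0 v0 + 1 = 0, (2 v0 - w0)^2 = w0^2 - 4 ≠ 0, local_root with g = w^2 - 4: r2, v = (w + r2)/2, v^2 - w v + 1 = 0 so v ≠ 0, v + v⁻¹ = w near p0.
 v ≠ 1 near p0 (w ≠ 2 by continuity). u: local_root with exponent 2 n of v ((u^n)^2 = u^(2n)); μ: local_root with exponent 2n of 2/(v^2+1)
 (v^2 + 1 = v w ≠ 0). Gd near p0: hu, hμ since their powers are ≠ 0 (eventually, or from differentiable => continuous and u p0 ≠ 0).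
branch_cont (T = 6 at p0, s0 = -4): take any function r1 with r1(p)^2 = s(p)^2 - 16 for all p (choice of square roots, e.g.
 Complex.cpow (1/2) or IsSquare/IsAlgClosed); ‖r1‖^2 → 0 so r1 → 0 = r1(p0). w = (s + r1)/2 → -2, satisfies w^2 - s w + 4 = 0. Same for
 r2^2 = w^2 - 4, r2 → 0, v = (w + r2)/2 → -1. Then u, μ by local_root_cont (v0 = -1 ≠ 0, 2/(v0^2 + 1) = 1).
-/

namespace MP_372ad9_gt

open Filter Topology

variable {n : ℕ}

theorem AzBranch_pow {g : ℂ → ℂ} {p0 a : ℂ} {k : ℕ} (hk : k ≠ 0) (ha : a ≠ 0)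
    (hag : a ^ k = g p0) (p : ℂ) (hp : g p ≠ 0) :
    (a * Complex.exp (Complex.log (g p / g p0) / k)) ^ k = g p := by
  have h0 : g p0 ≠ 0 := by
    rw [← hag]
    exact pow_ne_zero _ ha
  have hk' : (k : ℂ) ≠ 0 := Nat.cast_ne_zero.mpr hk
  rw [mul_pow, ← Complex.exp_nat_mul, mul_div_cancel₀ _ hk', Complex.exp_log (div_ne_zero hp h0),
    hag, mul_div_cancel₀ _ h0]

theorem local_root {g : ℂ → ℂ} {p0 a : ℂ} {k : ℕ} (hk : k ≠ 0) (hg : DifferentiableAt ℂ g p0)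
    (ha : a ≠ 0) (hag : a ^ k = g p0) :
    ∃ f : ℂ → ℂ, f p0 = a ∧ DifferentiableAt ℂ f p0 ∧ ∀ᶠ p in 𝓝 p0, f p ^ k = g p := by
  have h0 : g p0 ≠ 0 := by
    rw [← hag]
    exact pow_ne_zero _ ha
  refine ⟨fun p => a * Complex.exp (Complex.log (g p / g p0) / k), ?_, ?_, ?_⟩
  · simp [div_self h0]
  · have h1 : DifferentiableAt ℂ (fun p => g p / g p0) p0 := hg.div_const _
    have h2 : DifferentiableAt ℂ (fun p => Complex.log (g p / g p0)) p0 := by
      apply DifferentiableAt.clog h1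
      rw [div_self h0]
      exact Complex.one_mem_slitPlane
    exact ((h2.div_const _).cexp).const_mul a
  · filter_upwards [hg.continuousAt.eventually_ne h0] with p hp
    exact AzBranch_pow hk ha hag p hp

theorem local_root_cont {g : ℂ → ℂ} {p0 a : ℂ} {k : ℕ} (hk : k ≠ 0) (hg : ContinuousAt g p0)
    (ha : a ≠ 0) (hag : a ^ k = g p0) :
    ∃ f : ℂ → ℂ, f p0 = a ∧ ContinuousAt f p0 ∧ ∀ᶠ p in 𝓝 p0, f p ^ k = g p := by
  have h0 : g p0 ≠ 0 := by
    rw [← hag]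
    exact pow_ne_zero _ ha
  refine ⟨fun p => a * Complex.exp (Complex.log (g p / g p0) / k), ?_, ?_, ?_⟩
  · simp [div_self h0]
  · have h1 : ContinuousAt (fun p => g p / g p0) p0 := hg.div_const _
    have h2 : ContinuousAt (fun p => Complex.log (g p / g p0)) p0 := by
      apply ContinuousAt.clog h1
      rw [div_self h0]
      exact Complex.one_mem_slitPlane
    have h3 : ContinuousAt (fun p => Complex.exp (Complex.log (g p / g p0) / k)) p0 :=
      (h2.div_const _).cexp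
    exact continuousAt_const.mul h3
  · filter_upwards [hg.eventually_ne h0] with p hp
    exact AzBranch_pow hk ha hag p hp

theorem AzBranch_sqrt_zero {g : ℂ → ℂ} {p0 : ℂ} (hg : ContinuousAt g p0) (h0 : g p0 = 0) :
    ∃ f : ℂ → ℂ, f p0 = 0 ∧ ContinuousAt f p0 ∧ ∀ p, f p ^ 2 = g p := by
  have h1 : ∀ p, ∃ z : ℂ, z ^ 2 = g p := fun p => IsAlgClosed.exists_pow_nat_eq (g p) two_pos
  choose f hf using h1
  have hf0 : f p0 = 0 := by
    have := hf p0
    rw [h0] at this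
    exact pow_eq_zero_iff (two_ne_zero) |>.mp this
  refine ⟨f, hf0, ?_, hf⟩
  have hn : ∀ p, ‖f p‖ = Real.sqrt ‖g p‖ := by
    intro p
    rw [← hf p, norm_pow, Real.sqrt_sq (norm_nonneg _)]
  have h2 : ContinuousAt (fun p => Real.sqrt ‖g p‖) p0 := hg.norm.sqrt
  unfold ContinuousAt
  rw [hf0, tendsto_zero_iff_norm_tendsto_zero]
  have h3 : Tendsto (fun p => Real.sqrt ‖g p‖) (𝓝 p0) (𝓝 (Real.sqrt ‖g p0‖)) := h2
  rw [h0, norm_zero, Real.sqrt_zero] at h3
  exact h3.congr (fun p => (hn p).symm)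

theorem AzBranch_asm {p w v u μ : ℂ} (hu : u ≠ 0) (hμ : μ ≠ 0) (hv : v ≠ 0)
    (hw : w ^ 2 - (2 - (cheb n).eval p) * w + 4 = 0) (hvw : v ^ 2 - w * v + 1 = 0) (h1 : v ≠ 1)
    (hu2 : u ^ (2 * n) = v) (hv1 : v ^ 2 + 1 ≠ 0) (hμ2 : μ ^ (2 * n) = 2 / (v ^ 2 + 1)) :
    Gd n p u μ := by
  have e1 : (u ^ n) ^ 2 = v := by
    rw [← pow_mul, mul_comm n 2, hu2]
  have e2 : (μ ^ n) ^ 2 = 2 / (v ^ 2 + 1) := by
    rw [← pow_mul, mul_comm n 2, hμ2]
  have e3 : v + v⁻¹ = w := by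
    field_simp
    linear_combination hvw
  refine ⟨hu, hμ, ?_, ?_, ?_⟩
  · rw [e1]
    exact h1
  · rw [e1, e3]
    linear_combination hw
  · rw [e1, e2]
    field_simp

theorem branch_diff (hn : n ≠ 0) {p0 : ℂ} (hT : (cheb n).eval p0 ≠ -2)
    (hT6 : (cheb n).eval p0 ≠ 6) :
    ∃ u μ : ℂ → ℂ, DifferentiableAt ℂ u p0 ∧ DifferentiableAt ℂ μ p0 ∧
      ∀ᶠ p in 𝓝 p0, Gd n p (u p) (μ p) := by
  have hs : DifferentiableAt ℂ (fun p => 2 - (cheb n).eval p) p0 :=
    (cheb n).differentiableAt.const_sub 2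
  obtain ⟨r0, hr0⟩ := IsAlgClosed.exists_pow_nat_eq ((2 - (cheb n).eval p0) ^ 2 - 16) two_pos
  have hne : (2 - (cheb n).eval p0) ^ 2 - 16 ≠ 0 := by
    intro h
    have h2 : ((cheb n).eval p0 + 2) * ((cheb n).eval p0 - 6) = 0 := by linear_combination h
    rcases mul_eq_zero.mp h2 with h3 | h3
    · exact hT (by linear_combination h3)
    · exact hT6 (by linear_combination h3)
  have hr0' : r0 ≠ 0 := by
    intro h
    rw [h] at hr0
    apply hne
    rw [← hr0]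
    norm_num
  obtain ⟨r1, hr1, dr1, er1⟩ := local_root (g := fun p => (2 - (cheb n).eval p) ^ 2 - 16)
    two_ne_zero ((hs.pow 2).sub_const 16) hr0' hr0
  set w : ℂ → ℂ := fun p => ((2 - (cheb n).eval p) + r1 p) / 2 with hwdef
  have dw : DifferentiableAt ℂ w p0 := (hs.add dr1).div_const 2
  have ew : ∀ᶠ p in 𝓝 p0, w p ^ 2 - (2 - (cheb n).eval p) * w p + 4 = 0 := by
    filter_upwards [er1] with p hp
    simp only [hwdef]
    linear_combination hp / 4
  have ew0 := ew.self_of_nhds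
  have w2 : w p0 ≠ 2 := by
    intro h
    rw [h] at ew0
    exact hT (by linear_combination ew0 / 2)
  have wm2 : w p0 ≠ -2 := by
    intro h
    rw [h] at ew0
    exact hT6 (by linear_combination (-1 / 2 : ℂ) * ew0)
  have w0 : w p0 ≠ 0 := by
    intro h
    rw [h] at ew0
    norm_num at ew0
  obtain ⟨t0, ht0⟩ := IsAlgClosed.exists_pow_nat_eq (w p0 ^ 2 - 4) two_pos
  have hne2 : w p0 ^ 2 - 4 ≠ 0 := by
    intro h
    have h2 : (w p0 - 2) * (w p0 + 2) = 0 := by linear_combination h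
    rcases mul_eq_zero.mp h2 with h3 | h3
    · exact w2 (by linear_combination h3)
    · exact wm2 (by linear_combination h3)
  have ht0' : t0 ≠ 0 := by
    intro h
    rw [h] at ht0
    apply hne2
    rw [← ht0]
    norm_num
  obtain ⟨r2, hr2, dr2, er2⟩ := local_root (g := fun p => w p ^ 2 - 4)
    two_ne_zero ((dw.pow 2).sub_const 4) ht0' ht0
  set v : ℂ → ℂ := fun p => (w p + r2 p) / 2 with hvdef
  have dv : DifferentiableAt ℂ v p0 := (dw.add dr2).div_const 2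
  have ev : ∀ᶠ p in 𝓝 p0, v p ^ 2 - w p * v p + 1 = 0 := by
    filter_upwards [er2] with p hp
    simp only [hvdef]
    linear_combination hp / 4
  have ev0 := ev.self_of_nhds
  have v0 : v p0 ≠ 0 := by
    intro h
    rw [h] at ev0
    norm_num at ev0
  have v1 : v p0 ≠ 1 := by
    intro h
    rw [h] at ev0
    exact w2 (by linear_combination -ev0)
  have v21 : v p0 ^ 2 + 1 ≠ 0 := by
    have : v p0 ^ 2 + 1 = w p0 * v p0 := by linear_combination ev0
    rw [this]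
    exact mul_ne_zero w0 v0
  have h2n : 2 * n ≠ 0 := by omega
  obtain ⟨u0, hu0⟩ := IsAlgClosed.exists_pow_nat_eq (v p0) (Nat.pos_of_ne_zero h2n)
  have hu0' : u0 ≠ 0 := by
    intro h
    rw [h, zero_pow h2n] at hu0
    exact v0 hu0.symm
  obtain ⟨u, hu, du, eu⟩ := local_root (g := v) h2n dv hu0' hu0
  have dm : DifferentiableAt ℂ (fun p => 2 / (v p ^ 2 + 1)) p0 :=
    (differentiableAt_const _).div ((dv.pow 2).add_const 1) v21
  obtain ⟨m0, hm0⟩ := IsAlgClosed.exists_pow_nat_eq (2 / (v p0 ^ 2 + 1)) (Nat.pos_of_ne_zero h2n)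
  have hm0' : m0 ≠ 0 := by
    intro h
    rw [h, zero_pow h2n] at hm0
    exact (div_ne_zero two_ne_zero v21) hm0.symm
  obtain ⟨μ, hμ, dμ, eμ⟩ := local_root (g := fun p => 2 / (v p ^ 2 + 1)) h2n dm hm0' hm0
  refine ⟨u, μ, du, dμ, ?_⟩
  filter_upwards [ew, ev, eu, eμ, dv.continuousAt.eventually_ne v0,
    dv.continuousAt.eventually_ne v1,
    ((dv.pow 2).add_const 1).continuousAt.eventually_ne v21,
    du.continuousAt.eventually_ne (hu.symm ▸ hu0'),
    dμ.continuousAt.eventually_ne (hμ.symm ▸ hm0')] with p a1 a2 a3 a4 a5 a6 a7 a8 a9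
  exact AzBranch_asm a8 a9 a5 a1 a2 a6 a3 a7 a4

theorem branch_cont (hn : n ≠ 0) {p0 : ℂ} (hT6 : (cheb n).eval p0 = 6) :
    ∃ u μ : ℂ → ℂ, ContinuousAt u p0 ∧ ContinuousAt μ p0 ∧
      ∀ᶠ p in 𝓝 p0, Gd n p (u p) (μ p) := by
  have hs : ContinuousAt (fun p => 2 - (cheb n).eval p) p0 :=
    ((cheb n).differentiableAt.const_sub 2).continuousAt
  obtain ⟨r1, hr1, dr1, er1⟩ := AzBranch_sqrt_zero
    (g := fun p => (2 - (cheb n).eval p) ^ 2 - 16) ((hs.pow 2).sub continuousAt_const)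
    (by rw [hT6]; norm_num)
  set w : ℂ → ℂ := fun p => ((2 - (cheb n).eval p) + r1 p) / 2 with hwdef
  have dw : ContinuousAt w p0 := (hs.add dr1).div_const 2
  have ew : ∀ p, w p ^ 2 - (2 - (cheb n).eval p) * w p + 4 = 0 := by
    intro p
    have hp := er1 p
    simp only [hwdef]
    linear_combination hp / 4
  have w0 : w p0 = -2 := by
    simp only [hwdef]
    rw [hr1, hT6]
    norm_num
  obtain ⟨r2, hr2, dr2, er2⟩ := AzBranch_sqrt_zero
    (g := fun p => w p ^ 2 - 4) ((dw.pow 2).sub continuousAt_const)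
    (by rw [w0]; norm_num)
  set v : ℂ → ℂ := fun p => (w p + r2 p) / 2 with hvdef
  have dv : ContinuousAt v p0 := (dw.add dr2).div_const 2
  have ev : ∀ p, v p ^ 2 - w p * v p + 1 = 0 := by
    intro p
    have hp := er2 p
    simp only [hvdef]
    linear_combination hp / 4
  have vm : v p0 = -1 := by
    simp only [hvdef]
    rw [hr2, w0]
    norm_num
  have v0 : v p0 ≠ 0 := by rw [vm]; norm_num
  have v1 : v p0 ≠ 1 := by rw [vm]; norm_num
  have v21 : v p0 ^ 2 + 1 ≠ 0 := by rw [vm]; norm_num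
  have h2n : 2 * n ≠ 0 := by omega
  obtain ⟨u0, hu0⟩ := IsAlgClosed.exists_pow_nat_eq (v p0) (Nat.pos_of_ne_zero h2n)
  have hu0' : u0 ≠ 0 := by
    intro h
    rw [h, zero_pow h2n] at hu0
    exact v0 hu0.symm
  obtain ⟨u, hu, du, eu⟩ := local_root_cont (g := v) h2n dv hu0' hu0
  have dm : ContinuousAt (fun p => 2 / (v p ^ 2 + 1)) p0 :=
    continuousAt_const.div ((dv.pow 2).add continuousAt_const) v21
  obtain ⟨m0, hm0⟩ := IsAlgClosed.exists_pow_nat_eq (2 / (v p0 ^ 2 + 1)) (Nat.pos_of_ne_zero h2n)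
  have hm0' : m0 ≠ 0 := by
    intro h
    rw [h, zero_pow h2n] at hm0
    exact (div_ne_zero two_ne_zero v21) hm0.symm
  obtain ⟨μ, hμ, dμ, eμ⟩ := local_root_cont (g := fun p => 2 / (v p ^ 2 + 1)) h2n dm hm0' hm0
  refine ⟨u, μ, du, dμ, ?_⟩
  filter_upwards [eu, eμ, dv.eventually_ne v0,
    dv.eventually_ne v1,
    ((dv.pow 2).add continuousAt_const).eventually_ne v21,
    du.eventually_ne (hu.symm ▸ hu0'),
    dμ.eventually_ne (hμ.symm ▸ hm0')] with p a3 a4 a5 a6 a7 a8 a9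
  exact AzBranch_asm a8 a9 a5 (ew p) (ev p) a6 a3 a7 a4

end MP_372ad9_gt
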