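import Pool.Agent.Lib.MP_372ad9_gt.AzTri

set_option autoImplicit false

/-
ROW AzProd (about 90 lines). Write q = A^2 (primitive n-th root of unity, n odd), a_k = u q^k (k mod n), U = u^n.
cc p A a = (q a^2 + (q a^2)⁻¹ + p) / ((a - a⁻¹)(q a - (q a)⁻¹)).

(1) Choose t ≠ 0 with p = t + t⁻¹ (quadratic equation; IsAlgClosed or Complex square root). Then
 q a^2 + (q a^2)⁻¹ + t + t⁻¹ = (q a^2)⁻¹ (q a^2 + t)(q a^2 + t⁻¹).
(2) For any b, t : ∏_k (b^2... ) precisely ∏_k (q u^2 q^(2k) + t) = u^(2n) + t^n: the numbers q^(2k+1), k mod n, are all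
 the n-th roots of unity (2 is invertible mod n; k ↦ 2k+1 is a bijection of ZMod n), and
 ∏_{ζ^n=1} (ζ c + t) = c^n + t^n for n odd (Mathlib: IsPrimitiveRoot.pow_add_pow_eq_prod_add_mul, or
 IsPrimitiveRoot.pow_sub_pow_eq_prod_sub_zeta_runity_mul, or X^n - 1 = ∏ (X - ζ)); with c = u^2.
 Reindex with Equiv of ZMod n, use qz_add, qz_succ, Finset.prod over nthRootsFinset or over range n.
(3) ∏_k (q a_k^2)⁻¹ = u^(-2n) (because ∏_k qz A k ^ 2 * q = 1; it is also (2) with t = 0).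
 So the numerator product is u^(-2n) (u^(2n) + t^n)(u^(2n) + t^(-n)) = U^2 + U⁻² + t^n + t⁻ⁿ = U^2 + U⁻² + T_n(p) (cheb_eval).
(4) ∏_k (a_k - a_k⁻¹) = ∏_k a_k⁻¹ (a_k^2 - 1) = U⁻¹ (U^2 - 1) = U - U⁻¹ (again n odd: ∏ (u^2 q^(2k) - 1) = u^(2n) - 1 and
 ∏_k qz A k = 1: this product equals its own inverse by k ↦ -k and is an n-th root of unity, n odd; or from the product formula
 ∏ (X - ζ) = X^n - 1 at X = 0). The second factor of the denominator is the same product reindexed (k ↦ k + 1, Equiv.addRight),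
 since q a_k = u * qz A (k+1).
cc_ne: a product is nonzero so each factor is nonzero (Finset.prod_ne_zero_iff), the right side of prod_cc is nonzero since
U - U⁻¹ ≠ 0 (U^2 ≠ 1).
-/

namespace MP_372ad9_gt

open Finset

variable {n : ℕ} [NeZero n] {p A u : ℂ}

theorem AzProd_roots (h : Par n A) (x y : ℂ) :
    ∏ k : ZMod n, (x + qz A k * y) = x ^ n + y ^ n := by
  have hn : 0 < n := by have := h.three; omega
  rw [h.prim.pow_add_pow_eq_prod_add_mul x y h.odd]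
  refine Finset.prod_nbij (fun k : ZMod n => qz A k) ?_ ?_ ?_ ?_
  · intro k _
    rw [Polynomial.mem_nthRootsFinset hn]
    exact qz_pow h k
  · intro k _ l _ hkl
    exact qz_inj h hkl
  · intro ζ hζ
    rw [Finset.mem_coe, Polynomial.mem_nthRootsFinset hn] at hζ
    obtain ⟨i, _, hi⟩ := h.prim.eq_pow_of_pow_eq_one hζ
    exact ⟨((i : ℕ) : ZMod n), Finset.mem_coe.2 (Finset.mem_univ _), by
      show qz A ((i : ℕ) : ZMod n) = ζ
      rw [qz_cast h, hi]⟩
  · intro k _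
    rfl

theorem AzProd_bij (h : Par n A) (c : ZMod n) :
    Function.Bijective (fun k : ZMod n => k + k + c) := by
  refine (Finite.injective_iff_bijective).1 ?_
  intro k l hkl
  obtain ⟨m, hm⟩ := h.odd
  have h1 : (k - l) + (k - l) = 0 := by
    have : k + k + c = l + l + c := hkl
    linear_combination this
  have h2 : ((m : ZMod n) + 1) * ((k - l) + (k - l)) = k - l := by
    have h3 : (2 * (m : ZMod n) + 1) = 0 := by
      have : ((2 * m + 1 : ℕ) : ZMod n) = 0 := by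
        rw [← hm]
        exact ZMod.natCast_self n
      push_cast at this
      exact this
    linear_combination (k - l) * h3
  rw [h1, mul_zero] at h2
  exact (sub_eq_zero.1 h2.symm)

theorem AzProd_sq (h : Par n A) (x y : ℂ) :
    ∏ k : ZMod n, (x + qz A k * qz A k * y) = x ^ n + y ^ n := by
  rw [← AzProd_roots h x y]
  refine Fintype.prod_bijective (fun k : ZMod n => k + k + 0) (AzProd_bij h 0) _ _ ?_
  intro k
  rw [add_zero, qz_add h]

theorem AzProd_sq1 (h : Par n A) (x y : ℂ) :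
    ∏ k : ZMod n, (x + A ^ 2 * (qz A k * qz A k) * y) = x ^ n + y ^ n := by
  rw [← AzProd_roots h x y]
  refine Fintype.prod_bijective (fun k : ZMod n => k + k + 1) (AzProd_bij h 1) _ _ ?_
  intro k
  rw [qz_succ h, qz_add h]

theorem prod_qz (h : Par n A) : ∏ k : ZMod n, qz A k = 1 := by
  have h1 := AzProd_roots h 0 1
  have hn : n ≠ 0 := by have := h.three; omega
  rw [zero_pow hn, one_pow, zero_add] at h1
  rw [← h1]
  refine Finset.prod_congr rfl fun k _ => ?_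
  rw [zero_add, mul_one]

theorem AzProd_b (h : Par n A) (u : ℂ) : ∏ k : ZMod n, (u * qz A k) = u ^ n := by
  rw [Finset.prod_mul_distrib, prod_qz h, mul_one, Finset.prod_const, Finset.card_univ, ZMod.card]

theorem AzProd_den (h : Par n A) (hu : u ≠ 0) :
    ∏ k : ZMod n, (u * qz A k - (u * qz A k)⁻¹) = u ^ n - (u ^ n)⁻¹ := by
  have h1 : ∀ k : ZMod n, u * qz A k - (u * qz A k)⁻¹ =
      (u * qz A k)⁻¹ * (-1 + qz A k * qz A k * u ^ 2) := by
    intro k
    have hq := qz_ne h k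
    field_simp
    ring
  rw [Finset.prod_congr rfl fun k _ => h1 k, Finset.prod_mul_distrib, AzProd_sq h,
    Finset.prod_inv_distrib, AzProd_b h, h.odd.neg_one_pow]
  have hU : u ^ n ≠ 0 := pow_ne_zero _ hu
  have h2 : (u ^ 2) ^ n = (u ^ n) ^ 2 := by rw [← pow_mul, ← pow_mul, mul_comm]
  rw [h2]
  field_simp
  ring

theorem AzProd_den1 (h : Par n A) (hu : u ≠ 0) :
    ∏ k : ZMod n, (A ^ 2 * (u * qz A k) - (A ^ 2 * (u * qz A k))⁻¹) = u ^ n - (u ^ n)⁻¹ := by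
  rw [← AzProd_den h hu]
  refine Fintype.prod_bijective (fun k : ZMod n => k + 1) (Equiv.addRight 1).bijective _ _ ?_
  intro k
  have : A ^ 2 * (u * qz A k) = u * qz A (k + 1) := by
    rw [qz_succ h]
    ring
  rw [this]

theorem AzProd_num (h : Par n A) (hu : u ≠ 0) (p : ℂ) :
    ∏ k : ZMod n, (A ^ 2 * (u * qz A k) ^ 2 + (A ^ 2 * (u * qz A k) ^ 2)⁻¹ + p) =
      (u ^ n) ^ 2 + ((u ^ n) ^ 2)⁻¹ + (cheb n).eval p := by
  obtain ⟨t, ht, rfl⟩ : ∃ t : ℂ, t ≠ 0 ∧ p = t + t⁻¹ := by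
    obtain ⟨s, hs⟩ := IsAlgClosed.exists_pow_nat_eq (discrim 1 (-p) 1 : ℂ) (n := 2) (by norm_num)
    obtain ⟨t, ht⟩ := exists_quadratic_eq_zero (a := (1 : ℂ)) (b := -p) (c := 1) one_ne_zero
      ⟨s, by rw [← hs, sq]⟩
    have ht0 : t ≠ 0 := by
      rintro rfl
      simp at ht
    refine ⟨t, ht0, ?_⟩
    field_simp
    linear_combination -ht
  have h1 : ∀ k : ZMod n, A ^ 2 * (u * qz A k) ^ 2 + (A ^ 2 * (u * qz A k) ^ 2)⁻¹ + (t + t⁻¹) =
      (0 + A ^ 2 * (qz A k * qz A k) * u ^ 2)⁻¹ * ((t + A ^ 2 * (qz A k * qz A k) * u ^ 2) *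
        (t⁻¹ + A ^ 2 * (qz A k * qz A k) * u ^ 2)) := by
    intro k
    have hq := qz_ne h k
    have hA := h.A_ne
    rw [zero_add]
    field_simp
    ring
  have hn : n ≠ 0 := by have := h.three; omega
  rw [Finset.prod_congr rfl fun k _ => h1 k, Finset.prod_mul_distrib, Finset.prod_mul_distrib,
    Finset.prod_inv_distrib, AzProd_sq1 h, AzProd_sq1 h, AzProd_sq1 h, zero_pow hn, zero_add,
    (cheb_eval t ht n).1]
  have hU : u ^ n ≠ 0 := pow_ne_zero _ hu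
  have h2 : (u ^ 2) ^ n = (u ^ n) ^ 2 := by rw [← pow_mul, ← pow_mul, mul_comm]
  have h3 : t ^ n * t⁻¹ ^ n = 1 := by rw [← mul_pow, mul_inv_cancel₀ ht, one_pow]
  rw [h2]
  generalize t⁻¹ ^ n = b at h3 ⊢
  generalize t ^ n = a at h3 ⊢
  field_simp
  linear_combination h3

theorem prod_cc (h : Par n A) (hu : u ≠ 0) (hu2 : (u ^ n) ^ 2 ≠ 1) :
    ∏ k : ZMod n, cc p A (u * qz A k) =
      ((u ^ n) ^ 2 + ((u ^ n) ^ 2)⁻¹ + (cheb n).eval p) / (u ^ n - (u ^ n)⁻¹) ^ 2 := by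
  unfold cc
  rw [Finset.prod_div_distrib, Finset.prod_mul_distrib, AzProd_num h hu, AzProd_den h hu,
    AzProd_den1 h hu, sq (u ^ n - (u ^ n)⁻¹)]

theorem cc_ne (h : Par n A) (hu : u ≠ 0) (hu2 : (u ^ n) ^ 2 ≠ 1)
    (hp : (u ^ n) ^ 2 + ((u ^ n) ^ 2)⁻¹ + (cheb n).eval p ≠ 0) (k : ZMod n) :
    cc p A (u * qz A k) ≠ 0 := by
  have hU : u ^ n ≠ 0 := pow_ne_zero _ hu
  have h1 : u ^ n - (u ^ n)⁻¹ ≠ 0 := by
    intro h0
    apply hu2
    have h2 : u ^ n * (u ^ n)⁻¹ = 1 := mul_inv_cancel₀ hU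
    linear_combination (u ^ n) * h0 + h2
  have h3 : ∏ k : ZMod n, cc p A (u * qz A k) ≠ 0 := by
    rw [prod_cc h hu hu2]
    exact div_ne_zero hp (pow_ne_zero _ h1)
  exact (Finset.prod_ne_zero_iff.1 h3) k (Finset.mem_univ k)

end MP_372ad9_gt
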