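import Pool.Agent.Lib.MP_372ad9_gt.AzUp
import Pool.Agent.Lib.MP_372ad9_gt.AzProd

set_option autoImplicit false

/-
ROW AzChain. Existence of a cyclic chain of eigenvectors. q = A^2.
-/

namespace MP_372ad9_gt

variable {n : ℕ} [NeZero n] {p A : ℂ} {V : Type*} [AddCommGroup V] [Module ℂ V]
  {x y z : Module.End ℂ V}

/-- The iterated raising operator. -/
noncomputable def AzChain_W (A a : ℂ) (y z : Module.End ℂ V) : ℕ → Module.End ℂ V
  | 0 => 1
  | (k + 1) => upo A (a * (A ^ 2) ^ k) y z * AzChain_W A a y z k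

theorem AzChain_exists_add_inv (c : ℂ) : ∃ b : ℂ, b ≠ 0 ∧ c = -(b + b⁻¹) := by
  obtain ⟨s, hs⟩ := IsAlgClosed.exists_pow_nat_eq (c ^ 2 - 4) (n := 2) (by norm_num)
  refine ⟨(s - c) / 2, ?_, ?_⟩
  · intro h0
    have h1 : s = c := by linear_combination 2 * h0
    rw [h1] at hs
    have : (4 : ℂ) = 0 := by linear_combination hs
    norm_num at this
  · have h2 : ((s - c) / 2)⁻¹ = -((s + c) / 2) := by
      apply inv_eq_of_mul_eq_one_right
      linear_combination (-1 / 4 : ℂ) * hs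
    rw [h2]
    ring

omit [NeZero n] in
theorem AzChain_pow (h : Par n A) {a U : ℂ} (ha : a ^ n = U) (k : ℕ) :
    (a * (A ^ 2) ^ k) ^ n = U := by
  rw [mul_pow, h.pow_pow, ha, mul_one]

omit [NeZero n] in
theorem AzChain_sq (h : Par n A) {a U : ℂ} (hU2 : U ^ 2 ≠ 1) (ha : a ^ n = U) (k : ℕ) :
    (a * (A ^ 2) ^ k) ^ 2 ≠ 1 := by
  intro h1
  apply hU2
  rw [← AzChain_pow h ha k, ← pow_mul, mul_comm n 2, pow_mul, h1, one_pow]

theorem AzChain_mul (A a : ℂ) (k : ℕ) : A ^ 2 * (a * (A ^ 2) ^ k) = a * (A ^ 2) ^ (k + 1) := by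
  ring

omit [NeZero n] in
theorem AzChain_eig (h : Par n A) (t : TriP p A x y z) {a : ℂ} (ha0 : a ≠ 0) {v : V}
    (hv : x v = (-(a + a⁻¹)) • v) (k : ℕ) :
    x (AzChain_W A a y z k v) =
      (-(a * (A ^ 2) ^ k + (a * (A ^ 2) ^ k)⁻¹)) • AzChain_W A a y z k v := by
  induction k with
  | zero => simpa [AzChain_W] using hv
  | succ k ih =>
    have h1 : a * (A ^ 2) ^ k ≠ 0 := mul_ne_zero ha0 (pow_ne_zero _ h.q_ne)
    have h2 := upo_eig h.A_ne h1 t ih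
    rw [AzChain_mul] at h2
    exact h2

theorem AzChain_cc (h : Par n A) {a U : ℂ} (ha0 : a ≠ 0) (hU2 : U ^ 2 ≠ 1) (ha : a ^ n = U)
    (hp : U ^ 2 + (U ^ 2)⁻¹ + (cheb n).eval p ≠ 0) (k : ℕ) :
    cc p A (a * (A ^ 2) ^ k) ≠ 0 := by
  have h1 := cc_ne (p := p) h ha0 (by rw [ha]; exact hU2) (by rw [ha]; exact hp) (k : ZMod n)
  rwa [qz_cast h] at h1

omit [NeZero n] in
theorem AzChain_round (h : Par n A) (t : TriP p A x y z) {a U : ℂ} (ha0 : a ≠ 0)
    (hU2 : U ^ 2 ≠ 1) (ha : a ^ n = U) (k : ℕ) {v : V}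
    (hv : x v = (-(a * (A ^ 2) ^ k + (a * (A ^ 2) ^ k)⁻¹)) • v) :
    upo A (A ^ 2 * (a * (A ^ 2) ^ k))⁻¹ y z (upo A (a * (A ^ 2) ^ k) y z v) =
      cc p A (a * (A ^ 2) ^ k) • v := by
  have h1 : a * (A ^ 2) ^ k ≠ 0 := mul_ne_zero ha0 (pow_ne_zero _ h.q_ne)
  refine upo_round h.A_ne h1 (AzChain_sq h hU2 ha k) ?_ t hv
  rw [AzChain_mul]
  exact AzChain_sq h hU2 ha (k + 1)

theorem AzChain_inj (h : Par n A) (t : TriP p A x y z) {a U : ℂ} (ha0 : a ≠ 0)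
    (hU2 : U ^ 2 ≠ 1) (ha : a ^ n = U)
    (hp : U ^ 2 + (U ^ 2)⁻¹ + (cheb n).eval p ≠ 0) {v : V} (hv0 : v ≠ 0)
    (hv : x v = (-(a + a⁻¹)) • v) (k : ℕ) : AzChain_W A a y z k v ≠ 0 := by
  induction k with
  | zero => simpa [AzChain_W] using hv0
  | succ k ih =>
    intro h0
    have h1 : upo A (a * (A ^ 2) ^ k) y z (AzChain_W A a y z k v) = 0 := h0
    have h2 := AzChain_round h t ha0 hU2 ha k (AzChain_eig h t ha0 hv k)
    rw [h1, map_zero] at h2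
    rcases smul_eq_zero.mp h2.symm with h3 | h3
    · exact AzChain_cc h ha0 hU2 ha hp k h3
    · exact ih h3

/-- An eigenvector of `x` on which the full iterate acts by a nonzero scalar. -/
theorem AzChain_fix [FiniteDimensional ℂ V] (h : Par n A) (t : TriP p A x y z) {a U : ℂ}
    (ha0 : a ≠ 0) (hU2 : U ^ 2 ≠ 1) (ha : a ^ n = U)
    (hp : U ^ 2 + (U ^ 2)⁻¹ + (cheb n).eval p ≠ 0) {v : V} (hv0 : v ≠ 0)
    (hv : x v = (-(a + a⁻¹)) • v) :
    ∃ (w : V) (al : ℂ), w ≠ 0 ∧ al ≠ 0 ∧ x w = (-(a + a⁻¹)) • w ∧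
      AzChain_W A a y z n w = al • w := by
  set c : ℂ := -(a + a⁻¹) with hc
  have hmem : ∀ w ∈ Module.End.eigenspace x c, AzChain_W A a y z n w ∈
      Module.End.eigenspace x c := by
    intro w hw
    rw [Module.End.mem_eigenspace_iff] at hw ⊢
    have h1 := AzChain_eig h t ha0 hw n
    rw [h.prim.pow_eq_one, mul_one] at h1
    exact h1
  let N : Module.End ℂ (Module.End.eigenspace x c) := (AzChain_W A a y z n).restrict hmem
  have hnt : Nontrivial (Module.End.eigenspace x c) :=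
    ⟨⟨⟨v, Module.End.mem_eigenspace_iff.mpr hv⟩, 0, fun h0 => hv0 (congrArg Subtype.val h0)⟩⟩
  obtain ⟨al, hal⟩ := Module.End.exists_eigenvalue N
  obtain ⟨w, hw⟩ := hal.exists_hasEigenvector
  have hw1 : N w = al • w := hw.apply_eq_smul
  have hw2 : w ≠ 0 := hw.2
  have hw3 : (w : V) ≠ 0 := fun h0 => hw2 (Subtype.ext h0)
  have hw4 : x (w : V) = c • (w : V) := Module.End.mem_eigenspace_iff.mp w.2
  have hw5 : AzChain_W A a y z n (w : V) = al • (w : V) := congrArg Subtype.val hw1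
  refine ⟨w, al, hw3, ?_, hw4, hw5⟩
  intro h0
  rw [h0, zero_smul] at hw5
  exact AzChain_inj h t ha0 hU2 ha hp hw3 hw4 n hw5

theorem exists_chain [FiniteDimensional ℂ V] [Nontrivial V] (h : Par n A) (t : TriP p A x y z)
    {U : ℂ} (hU : U ≠ 0) (hU2 : U ^ 2 ≠ 1)
    (hx : Polynomial.aeval x (cheb n) = (-(U + U⁻¹)) • (1 : Module.End ℂ V))
    (hp : U ^ 2 + (U ^ 2)⁻¹ + (cheb n).eval p ≠ 0) :
    ∃ (u μ : ℂ) (e : ZMod n → V), u ^ n = U ∧ μ ≠ 0 ∧ (∀ k, e k ≠ 0) ∧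
      Chn p A u μ x y z e := by
  have hn := h.three
  -- the eigenvalue
  obtain ⟨c, hc⟩ := Module.End.exists_eigenvalue x
  obtain ⟨v0, hv0⟩ := hc.exists_hasEigenvector
  obtain ⟨b, hb, hcb⟩ := AzChain_exists_add_inv c
  have h1 : (cheb n).eval c • v0 = (-(U + U⁻¹)) • v0 := by
    rw [← Module.End.aeval_apply_of_hasEigenvector hv0, hx]
    rfl
  have h2 : (cheb n).eval c = -(U + U⁻¹) := smul_left_injective ℂ hv0.2 h1
  have h3 : (cheb n).eval c = -(b ^ n + (b ^ n)⁻¹) := by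
    have h4 := (cheb_eval (-b) (neg_ne_zero.mpr hb) n).1
    have h5 : c = -b + (-b)⁻¹ := by rw [hcb, inv_neg]; ring
    rw [h5, h4, inv_neg, h.odd.neg_pow, h.odd.neg_pow, inv_pow]
    ring
  have h4 : b ^ n + (b ^ n)⁻¹ = U + U⁻¹ := by
    have := h3.symm.trans h2
    linear_combination -this
  have hbn : b ^ n ≠ 0 := pow_ne_zero _ hb
  have h5 : b ^ n = U ∨ b ^ n = U⁻¹ := by
    have h6 : (b ^ n - U) * (b ^ n - U⁻¹) = 0 := by
      have h7 : b ^ n * (b ^ n)⁻¹ = 1 := mul_inv_cancel₀ hbn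
      have h8 : U * U⁻¹ = 1 := mul_inv_cancel₀ hU
      linear_combination (b ^ n) * h4 - h7 + h8
    rcases mul_eq_zero.mp h6 with h7 | h7
    · left; linear_combination h7
    · right; linear_combination h7
  obtain ⟨a, ha0, hca, ha⟩ : ∃ a : ℂ, a ≠ 0 ∧ c = -(a + a⁻¹) ∧ a ^ n = U := by
    rcases h5 with h6 | h6
    · exact ⟨b, hb, hcb, h6⟩
    · refine ⟨b⁻¹, inv_ne_zero hb, ?_, ?_⟩
      · rw [inv_inv, hcb]; ring
      · rw [inv_pow, h6, inv_inv]
  have hv1 : x v0 = (-(a + a⁻¹)) • v0 := by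
    rw [← hca]; exact hv0.apply_eq_smul
  obtain ⟨v, al, hv, hal, hxv, hWv⟩ := AzChain_fix h t ha0 hU2 ha hp hv0.2 hv1
  obtain ⟨μ, hμ⟩ := IsAlgClosed.exists_pow_nat_eq al (n := n) (by omega)
  have hμ0 : μ ≠ 0 := by
    intro h0
    rw [h0, zero_pow (by omega)] at hμ
    exact hal hμ.symm
  let w : ℕ → V := fun k => AzChain_W A a y z k v
  have hw0 : w 0 = v := rfl
  have hwn : w n = al • v := hWv
  have hws : ∀ k, upo A (a * (A ^ 2) ^ k) y z (w k) = w (k + 1) := fun k => rfl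
  have hwx : ∀ k, x (w k) = (-(a * (A ^ 2) ^ k + (a * (A ^ 2) ^ k)⁻¹)) • w k := fun k =>
    AzChain_eig h t ha0 hxv k
  let e : ZMod n → V := fun k => (μ⁻¹) ^ k.val • w k.val
  have hex : ∀ k, x (e k) = (-(a * qz A k + (a * qz A k)⁻¹)) • e k := by
    intro k
    change x ((μ⁻¹) ^ k.val • w k.val) = _ • ((μ⁻¹) ^ k.val • w k.val)
    rw [map_smul, hwx, smul_comm]
    rfl
  have hup : ∀ k, upo A (a * qz A k) y z (e k) = μ • e (k + 1) := by
    intro k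
    change upo A (a * (A ^ 2) ^ k.val) y z ((μ⁻¹) ^ k.val • w k.val) = _
    rw [map_smul, hws]
    have h1v : (1 : ZMod n).val = 1 := ZMod.val_one'' (by omega)
    have hkn : k.val < n := ZMod.val_lt k
    have hval : (k + 1).val = (k.val + 1) % n := by rw [ZMod.val_add, h1v]
    change _ = μ • ((μ⁻¹) ^ (k + 1).val • w (k + 1).val)
    rcases Nat.lt_or_ge (k.val + 1) n with h6 | h6
    · rw [hval, Nat.mod_eq_of_lt h6, smul_smul, pow_succ]
      congr 1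
      field_simp
    · have h7 : k.val + 1 = n := by omega
      rw [hval, h7, Nat.mod_self, hw0, hwn, pow_zero, one_smul, smul_smul, ← hμ]
      congr 1
      have h8 : μ ^ n = μ ^ k.val * μ := by rw [← pow_succ, h7]
      rw [h8, inv_pow]
      field_simp
  have hdn : ∀ k, upo A (a * qz A k)⁻¹ y z (e k) =
      (μ⁻¹ * cc p A (a * qz A (k - 1))) • e (k - 1) := by
    intro k
    have h6 := hup (k - 1)
    rw [sub_add_cancel] at h6
    have h7 : e k = μ⁻¹ • upo A (a * qz A (k - 1)) y z (e (k - 1)) := by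
      rw [h6, smul_smul, inv_mul_cancel₀ hμ0, one_smul]
    have h8 := AzChain_round h t ha0 hU2 ha (k - 1).val (hex (k - 1))
    have h9 : a * qz A k = A ^ 2 * (a * qz A (k - 1)) := by
      rw [qz_pred h k]; ring
    rw [h9, h7, map_smul]
    change μ⁻¹ • (upo A (A ^ 2 * (a * (A ^ 2) ^ (k - 1).val))⁻¹ y z
      (upo A (a * (A ^ 2) ^ (k - 1).val) y z (e (k - 1)))) = _
    rw [h8, smul_smul]
    rfl
  have hak : ∀ k : ZMod n, a * qz A k ≠ 0 := fun k => mul_ne_zero ha0 (qz_ne h k)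
  have hak2 : ∀ k : ZMod n, (a * qz A k) ^ 2 ≠ 1 := fun k => AzChain_sq h hU2 ha k.val
  have he0 : ∀ k, e k ≠ 0 := fun k => smul_ne_zero (pow_ne_zero _ (inv_ne_zero hμ0))
    (AzChain_inj h t ha0 hU2 ha hp hv hxv k.val)
  clear_value e
  refine ⟨a, μ, e, ha, hμ0, he0, hex, ?_, ?_⟩
  · intro k
    rw [upo_y h.A_ne (hak k) (hak2 k) (e k), hup, hdn]
  · intro k
    rw [upo_z h.A_ne (hak k) (hak2 k) (e k), hup, hdn, smul_smul, smul_smul]
    congr 1
    · congr 1; ring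
    · congr 1; ring

end MP_372ad9_gt
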