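import Mathlib

set_option autoImplicit false

/-
ROW AzChar (about 170 lines). Characters of the free group of rank two in SL(2, ℂ). Write a = of 0, b = of 1.

fricke: in M = M_2(ℂ) × M_2(ℂ) let S be the span over ℂ of (1,1), (α,α'), (β,β'), (αβ,α'β'), α = γ a etc. With ξ = tr α = tr α', η = tr β, ζ = tr αβ
 (equal for both) Cayley-Hamilton for determinant one gives in both components: α α = ξ α - 1, α (α β) = ξ αβ - β, β β = η β - 1,
 β α = ζ - αβ - ξη + η α + ξ β, β (α β) = ζ β + α - ξ. (Check by entries: Matrix.ext, fin_cases, det = 1 expanded with Matrix.det_fin_two;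
 or from (αβ)⁻¹ = β⁻¹ α⁻¹, X⁻¹ = tr X - X.) So (α,α') S ⊆ S, (β,β') S ⊆ S, hence S is closed under products (an element c0 + c1 α + c2 β + c3 αβ acts on
 y as c0 y + c1 α y + c2 β y + c3 α (β y)). (α,α')⁻¹ = (ξ - α, ξ - α') ∈ S, same for β. By FreeGroup.induction_on (γ w, γ' w) ∈ S for all w; the two traces agree
 on S (span induction).
step_A: trw (γ.comp grpA) at a, b, ab: ξ, ζ, tr (α (α β)) = ξ ζ - η. step_B: ζ, η, tr ((αβ) β) = ζ η - ξ.
phi_inv: γ.comp phiStar = (((γ.comp grpA).comp grpA).comp grpB).comp grpB; values on (a, b, ab):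
 (ξ,η,ζ) → (ξ,ζ,ξζ-η = η) → (ξ,η,ξη-ζ) → (ξη-ζ,η,(ξη-ζ)η-ξ = ξ) → (ξ,η,ξη-(ξη-ζ) = ζ), using h1: ξ ζ = 2 η and h2: (ξη-ζ)η-ξ = ξ.
 Then fricke for γ.comp phiStar and γ.
trw_comm: trace of the commutator: ξ²+η²+ζ²-ξηζ-2 (entries, or X⁻¹ = tr X - X).
exists_gamma: s with s + s⁻¹ = ζ (s^2 - ζ s + 1 = 0, s ≠ 0); a ↦ !![ξ, -1; 1, 0], b ↦ !![0, s; -s⁻¹, η]; FreeGroup.lift.
homol_phi: phiStar on homology is the matrix (5, 2; 2, 1) (check on generators: MonoidHom ext, FreeGroup.ext_hom).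
-/

namespace MP_372ad9_gt

/-- The group `SL(2, ℂ)`. -/
abbrev SL2 : Type := Matrix.SpecialLinearGroup (Fin 2) ℂ

/-- The trace of `γ w`. -/
noncomputable def trw (γ : FreeGroup (Fin 2) →* SL2) (w : FreeGroup (Fin 2)) : ℂ :=
  (γ w : Matrix (Fin 2) (Fin 2) ℂ).trace

/-- The generators of the fundamental group of the once-punctured torus. -/
def ga : FreeGroup (Fin 2) := FreeGroup.of 0

/-- The generators of the fundamental group of the once-punctured torus. -/
def gb : FreeGroup (Fin 2) := FreeGroup.of 1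

/-- The Dehn twist along `a` on the fundamental group: `a ↦ a`, `b ↦ a b`. -/
def grpA : FreeGroup (Fin 2) →* FreeGroup (Fin 2) := FreeGroup.lift ![ga, ga * gb]

/-- The Dehn twist along `b` on the fundamental group: `a ↦ a b`, `b ↦ b`. -/
def grpB : FreeGroup (Fin 2) →* FreeGroup (Fin 2) := FreeGroup.lift ![ga * gb, gb]

/-- The action of the diffeomorphism `φ` on the fundamental group. -/
def phiStar : FreeGroup (Fin 2) →* FreeGroup (Fin 2) :=
  grpA.comp (grpA.comp (grpB.comp grpB))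

/-- The homology class. -/
def homol : FreeGroup (Fin 2) →* Multiplicative (Fin 2 → ℤ) :=
  FreeGroup.lift (fun i => Multiplicative.ofAdd (Pi.single i 1))

/-- The complex conjugate representation. -/
noncomputable def cj (γ : FreeGroup (Fin 2) →* SL2) : FreeGroup (Fin 2) →* SL2 :=
  (Matrix.SpecialLinearGroup.map (starRingEnd ℂ)).comp γ

/-- Cayley-Hamilton for determinant one. -/
theorem azchar_sq (X : Matrix (Fin 2) (Fin 2) ℂ) (h : X.det = 1) : X * X = X.trace • X - 1 := by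
  rw [Matrix.det_fin_two] at h
  ext i j
  fin_cases i <;> fin_cases j <;>
    simp [Matrix.mul_apply, Fin.sum_univ_two, Matrix.trace_fin_two] <;>
    first
    | linear_combination h
    | linear_combination -h
    | ring

/-- The polarised identity of Cayley-Hamilton. -/
theorem azchar_pol (X Y : Matrix (Fin 2) (Fin 2) ℂ) :
    Y * X = ((X * Y).trace - X.trace * Y.trace) • (1 : Matrix (Fin 2) (Fin 2) ℂ) - X * Y +
      Y.trace • X + X.trace • Y := by
  ext i j
  fin_cases i <;> fin_cases j <;>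
    simp [Matrix.mul_apply, Fin.sum_univ_two, Matrix.trace_fin_two] <;> ring

theorem azchar_inv (X : SL2) : ((X⁻¹ : SL2) : Matrix (Fin 2) (Fin 2) ℂ) =
    (X : Matrix (Fin 2) (Fin 2) ℂ).trace • (1 : Matrix (Fin 2) (Fin 2) ℂ) - X := by
  rw [Matrix.SpecialLinearGroup.coe_inv, Matrix.adjugate_fin_two]
  ext i j
  fin_cases i <;> fin_cases j <;> simp [Matrix.trace_fin_two]

/-- Linear combinations of `1, X, Y, XY`. -/
def azq (X Y : Matrix (Fin 2) (Fin 2) ℂ) (c : Fin 4 → ℂ) : Matrix (Fin 2) (Fin 2) ℂ :=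
  c 0 • (1 : Matrix (Fin 2) (Fin 2) ℂ) + c 1 • X + c 2 • Y + c 3 • (X * Y)

theorem azq_add (X Y : Matrix (Fin 2) (Fin 2) ℂ) (c d : Fin 4 → ℂ) :
    azq X Y (c + d) = azq X Y c + azq X Y d := by
  simp only [azq, Pi.add_apply, add_smul]
  abel

theorem azq_smul (X Y : Matrix (Fin 2) (Fin 2) ℂ) (r : ℂ) (c : Fin 4 → ℂ) :
    azq X Y (r • c) = r • azq X Y c := by
  simp only [azq, Pi.smul_apply, smul_add, smul_smul, smul_eq_mul]

/-- The coefficients of the product with the first matrix. -/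
def azL (t : ℂ) (c : Fin 4 → ℂ) : Fin 4 → ℂ := ![-c 1, c 0 + t * c 1, -c 3, c 2 + t * c 3]

/-- The coefficients of the product with the second matrix. -/
def azR (t u v : ℂ) (c : Fin 4 → ℂ) : Fin 4 → ℂ :=
  ![(v - t * u) * c 1 - c 2 - t * c 3, u * c 1 + c 3, c 0 + t * c 1 + u * c 2 + v * c 3, -c 1]

theorem azq_left (X Y : Matrix (Fin 2) (Fin 2) ℂ) (hX : X.det = 1) (c : Fin 4 → ℂ) :
    X * azq X Y c = azq X Y (azL X.trace c) := by
  have h1 := azchar_sq X hX
  have h2 : X * (X * Y) = X.trace • (X * Y) - Y := by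
    rw [← Matrix.mul_assoc, h1, Matrix.sub_mul, Matrix.smul_mul, Matrix.one_mul]
  simp only [azq, azL, Matrix.mul_add, Matrix.mul_smul, Matrix.mul_one, h1, h2]
  simp only [Matrix.cons_val_zero, Matrix.cons_val_one, Matrix.cons_val]
  module

theorem azq_right (X Y : Matrix (Fin 2) (Fin 2) ℂ) (hY : Y.det = 1) (c : Fin 4 → ℂ) :
    Y * azq X Y c = azq X Y (azR X.trace Y.trace (X * Y).trace c) := by
  have h1 := azchar_sq Y hY
  have h0 := azchar_pol X Y
  have h2 : Y * (X * Y) = (X * Y).trace • Y + X - X.trace • (1 : Matrix (Fin 2) (Fin 2) ℂ) := by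
    rw [← Matrix.mul_assoc, h0, Matrix.add_mul, Matrix.add_mul, Matrix.sub_mul, Matrix.smul_mul,
      Matrix.smul_mul, Matrix.smul_mul, Matrix.one_mul, Matrix.mul_assoc X Y Y, h1, Matrix.mul_sub,
      Matrix.mul_smul, Matrix.mul_one]
    module
  simp only [azq, azR, Matrix.mul_add, Matrix.mul_smul, Matrix.mul_one, h1, h2, h0]
  simp only [Matrix.cons_val_zero, Matrix.cons_val_one, Matrix.cons_val]
  module

theorem azq_trace (X Y : Matrix (Fin 2) (Fin 2) ℂ) (c : Fin 4 → ℂ) :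
    (azq X Y c).trace = 2 * c 0 + X.trace * c 1 + Y.trace * c 2 + (X * Y).trace * c 3 := by
  simp only [azq, Matrix.trace_add, Matrix.trace_smul, Matrix.trace_one, Fintype.card_fin,
    smul_eq_mul]
  push_cast
  ring

/-- The products of the linear combinations: the coefficients depend only on the traces. -/
theorem azq_mul (X Y : Matrix (Fin 2) (Fin 2) ℂ) (hX : X.det = 1) (hY : Y.det = 1)
    (X' Y' : Matrix (Fin 2) (Fin 2) ℂ) (hX' : X'.det = 1) (hY' : Y'.det = 1)
    (h0 : X.trace = X'.trace) (h1 : Y.trace = Y'.trace) (h2 : (X * Y).trace = (X' * Y').trace)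
    (c d : Fin 4 → ℂ) : ∃ e : Fin 4 → ℂ, azq X Y c * azq X Y d = azq X Y e ∧
      azq X' Y' c * azq X' Y' d = azq X' Y' e := by
  have key : ∀ (U V : Matrix (Fin 2) (Fin 2) ℂ) (T : Matrix (Fin 2) (Fin 2) ℂ),
      azq U V c * T = c 0 • T + c 1 • (U * T) + c 2 • (V * T) + c 3 • (U * (V * T)) := by
    intro U V T
    simp only [azq, Matrix.add_mul, Matrix.smul_mul, Matrix.one_mul, Matrix.mul_assoc]
  refine ⟨c 0 • d + c 1 • azL X.trace d + c 2 • azR X.trace Y.trace (X * Y).trace d +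
    c 3 • azL X.trace (azR X.trace Y.trace (X * Y).trace d), ?_, ?_⟩
  · rw [key, azq_right X Y hY, azq_left X Y hX, azq_left X Y hX, azq_add, azq_add, azq_add,
      azq_smul, azq_smul, azq_smul, azq_smul]
  · rw [h0, h1, h2, key, azq_right X' Y' hY', azq_left X' Y' hX', azq_left X' Y' hX', azq_add,
      azq_add, azq_add, azq_smul, azq_smul, azq_smul, azq_smul]

theorem fricke (γ γ' : FreeGroup (Fin 2) →* SL2) (h0 : trw γ ga = trw γ' ga)
    (h1 : trw γ gb = trw γ' gb) (h2 : trw γ (ga * gb) = trw γ' (ga * gb))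
    (w : FreeGroup (Fin 2)) : trw γ w = trw γ' w := by
  set X : Matrix (Fin 2) (Fin 2) ℂ := (γ ga : Matrix (Fin 2) (Fin 2) ℂ) with hX
  set Y : Matrix (Fin 2) (Fin 2) ℂ := (γ gb : Matrix (Fin 2) (Fin 2) ℂ) with hY
  set X' : Matrix (Fin 2) (Fin 2) ℂ := (γ' ga : Matrix (Fin 2) (Fin 2) ℂ) with hX'
  set Y' : Matrix (Fin 2) (Fin 2) ℂ := (γ' gb : Matrix (Fin 2) (Fin 2) ℂ) with hY'
  have dX : X.det = 1 := (γ ga).2
  have dY : Y.det = 1 := (γ gb).2
  have dX' : X'.det = 1 := (γ' ga).2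
  have dY' : Y'.det = 1 := (γ' gb).2
  have t0 : X.trace = X'.trace := h0
  have t1 : Y.trace = Y'.trace := h1
  have t2 : (X * Y).trace = (X' * Y').trace := by
    have := h2
    simp only [trw, map_mul, Matrix.SpecialLinearGroup.coe_mul] at this
    exact this
  have key : ∃ c : Fin 4 → ℂ, (γ w : Matrix (Fin 2) (Fin 2) ℂ) = azq X Y c ∧
      (γ' w : Matrix (Fin 2) (Fin 2) ℂ) = azq X' Y' c := by
    induction w using FreeGroup.induction_on with
    | C1 =>
      refine ⟨![1, 0, 0, 0], ?_, ?_⟩ <;> simp [azq]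
    | of x =>
      fin_cases x
      · refine ⟨![0, 1, 0, 0], ?_, ?_⟩
        · simp [azq]
          rfl
        · simp [azq]
          rfl
      · refine ⟨![0, 0, 1, 0], ?_, ?_⟩
        · simp [azq]
          rfl
        · simp [azq]
          rfl
    | inv_of x _ =>
      fin_cases x
      · refine ⟨![X.trace, -1, 0, 0], ?_, ?_⟩
        · rw [map_inv, azchar_inv]
          simp [azq, sub_eq_add_neg]
          rfl
        · rw [map_inv, azchar_inv, t0]
          simp [azq, sub_eq_add_neg]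
          rfl
      · refine ⟨![Y.trace, 0, -1, 0], ?_, ?_⟩
        · rw [map_inv, azchar_inv]
          simp [azq, sub_eq_add_neg]
          rfl
        · rw [map_inv, azchar_inv, t1]
          simp [azq, sub_eq_add_neg]
          rfl
    | mul x y ihx ihy =>
      obtain ⟨c, hc, hc'⟩ := ihx
      obtain ⟨d, hd, hd'⟩ := ihy
      obtain ⟨e, he, he'⟩ := azq_mul X Y dX dY X' Y' dX' dY' t0 t1 t2 c d
      refine ⟨e, ?_, ?_⟩
      · rw [map_mul, Matrix.SpecialLinearGroup.coe_mul, hc, hd, he]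
      · rw [map_mul, Matrix.SpecialLinearGroup.coe_mul, hc', hd', he']
  obtain ⟨c, hc, hc'⟩ := key
  unfold trw
  rw [hc, hc', azq_trace, azq_trace, t0, t1, t2]

theorem azchar_grpA_a : grpA ga = ga := by
  unfold grpA
  conv_lhs => rw [ga, FreeGroup.lift_apply_of]
  rfl

theorem azchar_grpA_b : grpA gb = ga * gb := by
  unfold grpA
  conv_lhs => rw [gb, FreeGroup.lift_apply_of]
  rfl

theorem azchar_grpB_a : grpB ga = ga * gb := by
  unfold grpB
  conv_lhs => rw [ga, FreeGroup.lift_apply_of]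
  rfl

theorem azchar_grpB_b : grpB gb = gb := by
  unfold grpB
  conv_lhs => rw [gb, FreeGroup.lift_apply_of]
  rfl

theorem azchar_trXXY (X Y : SL2) : ((X * (X * Y) : SL2) : Matrix (Fin 2) (Fin 2) ℂ).trace =
    (X : Matrix (Fin 2) (Fin 2) ℂ).trace * ((X * Y : SL2) : Matrix (Fin 2) (Fin 2) ℂ).trace -
      (Y : Matrix (Fin 2) (Fin 2) ℂ).trace := by
  simp only [Matrix.SpecialLinearGroup.coe_mul]
  rw [← Matrix.mul_assoc, azchar_sq _ X.2, Matrix.sub_mul, Matrix.smul_mul, Matrix.one_mul,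
    Matrix.trace_sub, Matrix.trace_smul, smul_eq_mul]

theorem azchar_trXYY (X Y : SL2) : ((X * Y * Y : SL2) : Matrix (Fin 2) (Fin 2) ℂ).trace =
    ((X * Y : SL2) : Matrix (Fin 2) (Fin 2) ℂ).trace * (Y : Matrix (Fin 2) (Fin 2) ℂ).trace -
      (X : Matrix (Fin 2) (Fin 2) ℂ).trace := by
  simp only [Matrix.SpecialLinearGroup.coe_mul]
  rw [Matrix.mul_assoc, azchar_sq _ Y.2, Matrix.mul_sub, Matrix.mul_smul, Matrix.mul_one,
    Matrix.trace_sub, Matrix.trace_smul, smul_eq_mul, mul_comm]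

theorem step_A (γ : FreeGroup (Fin 2) →* SL2) : trw (γ.comp grpA) ga = trw γ ga ∧
    trw (γ.comp grpA) gb = trw γ (ga * gb) ∧
    trw (γ.comp grpA) (ga * gb) = trw γ ga * trw γ (ga * gb) - trw γ gb := by
  refine ⟨?_, ?_, ?_⟩
  · unfold trw
    rw [MonoidHom.comp_apply, azchar_grpA_a]
  · unfold trw
    rw [MonoidHom.comp_apply, azchar_grpA_b]
  · unfold trw
    rw [MonoidHom.comp_apply, map_mul, azchar_grpA_a, azchar_grpA_b, map_mul γ ga (ga * gb),
      map_mul γ ga gb]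
    exact azchar_trXXY _ _

theorem step_B (γ : FreeGroup (Fin 2) →* SL2) : trw (γ.comp grpB) ga = trw γ (ga * gb) ∧
    trw (γ.comp grpB) gb = trw γ gb ∧
    trw (γ.comp grpB) (ga * gb) = trw γ (ga * gb) * trw γ gb - trw γ ga := by
  refine ⟨?_, ?_, ?_⟩
  · unfold trw
    rw [MonoidHom.comp_apply, azchar_grpB_a]
  · unfold trw
    rw [MonoidHom.comp_apply, azchar_grpB_b]
  · unfold trw
    rw [MonoidHom.comp_apply, map_mul, azchar_grpB_a, azchar_grpB_b, map_mul γ (ga * gb) gb,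
      map_mul γ ga gb]
    exact azchar_trXYY _ _

theorem phi_inv (γ : FreeGroup (Fin 2) →* SL2)
    (h1 : trw γ ga * trw γ (ga * gb) = 2 * trw γ gb)
    (h2 : (trw γ ga * trw γ gb - trw γ (ga * gb)) * trw γ gb - trw γ ga = trw γ ga)
    (w : FreeGroup (Fin 2)) : trw γ (phiStar w) = trw γ w := by
  have e0 : trw γ (phiStar w) = trw ((((γ.comp grpA).comp grpA).comp grpB).comp grpB) w := rfl
  rw [e0]
  obtain ⟨a1, b1, c1⟩ := step_A γ
  obtain ⟨a2, b2, c2⟩ := step_A (γ.comp grpA)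
  obtain ⟨a3, b3, c3⟩ := step_B ((γ.comp grpA).comp grpA)
  obtain ⟨a4, b4, c4⟩ := step_B (((γ.comp grpA).comp grpA).comp grpB)
  have c1' : trw (γ.comp grpA) (ga * gb) = trw γ gb := by
    linear_combination c1 + h1
  rw [a1, c1', b1] at c2
  rw [a1] at a2
  rw [c1'] at b2
  rw [c2] at a3
  rw [b2] at b3
  rw [c2, b2, a2, h2] at c3
  rw [c3] at a4
  rw [b3] at b4
  rw [c3, b3, a3] at c4
  apply fricke
  · rw [a4]
  · rw [b4]
  · rw [c4]
    ring

theorem trw_comm (γ : FreeGroup (Fin 2) →* SL2) : trw γ (ga * gb * ga⁻¹ * gb⁻¹) =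
    trw γ ga ^ 2 + trw γ gb ^ 2 + trw γ (ga * gb) ^ 2 -
      trw γ ga * trw γ gb * trw γ (ga * gb) - 2 := by
  unfold trw
  simp only [map_mul, map_inv, Matrix.SpecialLinearGroup.coe_mul, azchar_inv]
  have hX := (γ ga).2
  have hY := (γ gb).2
  set X : Matrix (Fin 2) (Fin 2) ℂ := (γ ga : Matrix (Fin 2) (Fin 2) ℂ)
  set Y : Matrix (Fin 2) (Fin 2) ℂ := (γ gb : Matrix (Fin 2) (Fin 2) ℂ)
  have e1 := azchar_sq X hX
  have e2 := azchar_sq Y hY
  have hXY : (X * Y).det = 1 := by rw [Matrix.det_mul]; show X.det * Y.det = 1; rw [show X.det = 1 from hX, show Y.det = 1 from hY, mul_one]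
  have e3 := azchar_sq (X * Y) hXY
  have f1 : (X * Y * Y).trace = (X * Y).trace * Y.trace - X.trace := by
    rw [Matrix.mul_assoc, e2, Matrix.mul_sub, Matrix.mul_smul, Matrix.mul_one, Matrix.trace_sub,
      Matrix.trace_smul, smul_eq_mul, mul_comm]
  have f2 : (X * Y * X).trace = X.trace * (X * Y).trace - Y.trace := by
    rw [Matrix.trace_mul_comm, ← Matrix.mul_assoc, e1, Matrix.sub_mul, Matrix.smul_mul,
      Matrix.one_mul, Matrix.trace_sub, Matrix.trace_smul, smul_eq_mul]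
  have f3 : (X * Y * X * Y).trace = (X * Y).trace ^ 2 - 2 := by
    rw [Matrix.mul_assoc (X * Y) X Y, e3, Matrix.trace_sub, Matrix.trace_smul, Matrix.trace_one,
      Fintype.card_fin, smul_eq_mul]
    push_cast
    ring
  rw [Matrix.mul_sub, Matrix.mul_sub, Matrix.sub_mul, Matrix.sub_mul]
  simp only [Matrix.mul_smul, Matrix.smul_mul, Matrix.mul_one, Matrix.trace_sub,
    Matrix.trace_smul, smul_eq_mul, f1, f2, f3]
  ring

theorem exists_gamma (ξ η ζ : ℂ) : ∃ γ : FreeGroup (Fin 2) →* SL2,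
    trw γ ga = ξ ∧ trw γ gb = η ∧ trw γ (ga * gb) = ζ := by
  obtain ⟨r, hr⟩ := IsAlgClosed.exists_pow_nat_eq (ζ ^ 2 - 4) (n := 2) (by norm_num)
  obtain ⟨s, hs⟩ : ∃ s : ℂ, s = (ζ + r) / 2 := ⟨_, rfl⟩
  have hs2 : s ^ 2 - ζ * s + 1 = 0 := by
    rw [hs]
    linear_combination hr / 4
  have hs0 : s ≠ 0 := by
    rintro rfl
    norm_num at hs2
  have hsz : s⁻¹ + s = ζ := by
    field_simp
    linear_combination hs2
  let U : SL2 := ⟨!![ξ, -1; 1, 0], by rw [Matrix.det_fin_two_of]; ring⟩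
  let V : SL2 := ⟨!![0, s; -s⁻¹, η], by
    rw [Matrix.det_fin_two_of]
    have : s * s⁻¹ = 1 := mul_inv_cancel₀ hs0
    linear_combination this⟩
  refine ⟨FreeGroup.lift ![U, V], ?_, ?_, ?_⟩
  · unfold trw ga
    rw [FreeGroup.lift_apply_of]
    show (!![ξ, -1; 1, 0] : Matrix (Fin 2) (Fin 2) ℂ).trace = ξ
    rw [Matrix.trace_fin_two_of]
    ring
  · unfold trw gb
    rw [FreeGroup.lift_apply_of]
    show (!![0, s; -s⁻¹, η] : Matrix (Fin 2) (Fin 2) ℂ).trace = η
    rw [Matrix.trace_fin_two_of]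
    ring
  · unfold trw ga gb
    rw [map_mul, FreeGroup.lift_apply_of, FreeGroup.lift_apply_of, Matrix.SpecialLinearGroup.coe_mul]
    show ((!![ξ, -1; 1, 0] : Matrix (Fin 2) (Fin 2) ℂ) * !![0, s; -s⁻¹, η]).trace = ζ
    rw [Matrix.mul_fin_two, Matrix.trace_fin_two_of]
    linear_combination hsz

theorem trw_cj (γ : FreeGroup (Fin 2) →* SL2) (w : FreeGroup (Fin 2)) :
    trw (cj γ) w = (starRingEnd ℂ) (trw γ w) := by
  unfold trw cj
  rw [MonoidHom.comp_apply, Matrix.trace_fin_two, Matrix.trace_fin_two, map_add]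
  rfl

theorem azchar_homol_a : homol ga = Multiplicative.ofAdd (Pi.single 0 1) := by
  unfold homol ga
  rw [FreeGroup.lift_apply_of]

theorem azchar_homol_b : homol gb = Multiplicative.ofAdd (Pi.single 1 1) := by
  unfold homol gb
  rw [FreeGroup.lift_apply_of]

theorem homol_phi (w : FreeGroup (Fin 2)) : Multiplicative.toAdd (homol (phiStar w)) =
    (!![5, 2; 2, 1] : Matrix (Fin 2) (Fin 2) ℤ).mulVec (Multiplicative.toAdd (homol w)) := by
  have ha : phiStar ga = ga * (ga * (ga * gb)) * (ga * (ga * gb)) := by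
    unfold phiStar
    simp only [MonoidHom.comp_apply, map_mul, azchar_grpA_a, azchar_grpA_b, azchar_grpB_a,
      azchar_grpB_b]
  have hb : phiStar gb = ga * (ga * gb) := by
    unfold phiStar
    simp only [MonoidHom.comp_apply, map_mul, azchar_grpA_a, azchar_grpA_b,
      azchar_grpB_b]
  have hof : ∀ x : Fin 2, Multiplicative.toAdd (homol (phiStar (FreeGroup.of x))) =
      (!![5, 2; 2, 1] : Matrix (Fin 2) (Fin 2) ℤ).mulVec
        (Multiplicative.toAdd (homol (FreeGroup.of x))) := by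
    intro x
    fin_cases x
    · show Multiplicative.toAdd (homol (phiStar ga)) =
        (!![5, 2; 2, 1] : Matrix (Fin 2) (Fin 2) ℤ).mulVec (Multiplicative.toAdd (homol ga))
      rw [ha]
      simp only [map_mul, azchar_homol_a, azchar_homol_b, toAdd_mul, toAdd_ofAdd]
      funext i
      fin_cases i <;> simp [Matrix.mulVec, dotProduct, Fin.sum_univ_two]
    · show Multiplicative.toAdd (homol (phiStar gb)) =
        (!![5, 2; 2, 1] : Matrix (Fin 2) (Fin 2) ℤ).mulVec (Multiplicative.toAdd (homol gb))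
      rw [hb]
      simp only [map_mul, azchar_homol_a, azchar_homol_b, toAdd_mul, toAdd_ofAdd]
      funext i
      fin_cases i <;> simp [Matrix.mulVec, dotProduct, Fin.sum_univ_two]
  induction w using FreeGroup.induction_on with
  | C1 => simp
  | of x => exact hof x
  | inv_of x ih =>
    rw [map_inv phiStar, map_inv homol, map_inv homol, toAdd_inv, toAdd_inv, Matrix.mulVec_neg]
    exact congrArg Neg.neg ih
  | mul x y hx hy =>
    rw [map_mul phiStar, map_mul homol, map_mul homol, toAdd_mul, toAdd_mul, Matrix.mulVec_add, hx,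
      hy]

end MP_372ad9_gt
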