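import Pool.Agent.Lib.MP_372ad9_gt.AzBasis

set_option autoImplicit false

/-
ROW AzCheck (about 120 lines). A cyclic chain basis gives a representation. q = A^2, u_k = u q^k, d_k = u_k - u_k⁻¹ ≠ 0
(its vanishing would give u_k^2 = 1, so (u^n)^2 = 1), u_{k+1} = q u_k (qz_succ), u_{k-1} = q⁻¹ u_k.

chn_g: a k = μ, b k = μ⁻¹ cc p A (u qz (k-1)): a_k b_{k+1} = cc (k + 1 - 1 = k), μ ≠ 0.

gchn_triP: check the four relations on each basis vector e_k (Basis.ext). Write y e_k = a_k e_{k+1} + b_k e_{k-1},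
z e_k = -A u_k a_k e_{k+1} - A u_k⁻¹ b_k e_{k-1}, x e_k = -(u_k + u_k⁻¹) e_k.
 xy: A x y - A⁻¹ y x on e_k, coefficient of e_{k+1}: a_k (-A (u_{k+1} + u_{k+1}⁻¹) + A⁻¹ (u_k + u_k⁻¹)) = (q - q⁻¹)(-A u_k a_k). OK.
 zx: similar.
 yz: A y z - A⁻¹ z y on e_k: coefficients of e_{k+2} and e_{k-2} vanish:
  e_{k+2}: a_k a_{k+1} (-A^2 u_k + u_{k+1}) = 0. e_{k-2}: b_k b_{k-1} (-A^2 u_k⁻¹ + u_{k-1}⁻¹) = 0.
  e_k: A [(-A u_k a_k) b_{k+1} + (-A u_k⁻¹ b_k) a_{k-1}] - A⁻¹ [a_k (-A u_{k+1}⁻¹ b_{k+1}) + b_k (-A u_{k-1} a_{k-1})]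
   = C_k (-q u_k + q⁻¹ u_k⁻¹) + C_{k-1} (-q u_k⁻¹ + q⁻¹ u_k), C_k = a_k b_{k+1} = cc(u_k), C_{k-1} = a_{k-1} b_k = cc(u_{k-1}),
   must equal -(q - q⁻¹)(u_k + u_k⁻¹): with cc: C_k (q u_k - q⁻¹ u_k⁻¹) = (q u_k^2 + q⁻¹ u_k⁻² + p)/(u_k - u_k⁻¹),
   C_{k-1} (q⁻¹ u_k - q u_k⁻¹) = (q⁻¹ u_k^2 + q u_k⁻² + p)/(u_k - u_k⁻¹); the difference of numerators is
   (q - q⁻¹)(u_k^2 - u_k⁻²). OK.
 cub: A x y z = q x x + q⁻¹ y y + q z z + (p - q - q⁻¹) on e_k, similarly: e_{k±2} coefficients and the e_k coefficient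
  (field_simp; ring with the two values of C).
 To organise: first rewrite a_{k-1} b_k = cc(u_{k-1}) by (c.ab (k-1)) with k - 1 + 1 = k; use linear combination of vectors
 (module / match_scalars). e (k+1-1) = e k etc. by simp [add_sub_cancel_right, sub_add_cancel].

exists_gchn: given a, b with a_k b_{k+1} = cc, on V = ZMod n → ℂ with the standard basis Pi.basisFun define x, y, z by
Basis.constr; GChn holds by Basis.constr_basis.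
-/

namespace MP_372ad9_gt

variable {n : ℕ} [NeZero n] {p A u : ℂ} {V : Type*} [AddCommGroup V] [Module ℂ V]
  {x y z : Module.End ℂ V}

theorem azCheck_sq_ne (h : Par n A) (hu2 : (u ^ n) ^ 2 ≠ 1) (k : ZMod n) :
    (u * qz A k) ^ 2 ≠ 1 := by
  intro h1
  apply hu2
  have h2 : ((u * qz A k) ^ 2) ^ n = 1 := by rw [h1, one_pow]
  have h3 : ((u * qz A k) ^ 2) ^ n = (u ^ n) ^ 2 * (qz A k ^ n) ^ 2 := by ring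
  rw [h3, qz_pow h, one_pow, mul_one] at h2
  exact h2

theorem azCheck_cc {t : ℂ} (hA : A ≠ 0) (ht : t ≠ 0) (h1 : t ^ 2 ≠ 1)
    (h2 : (A ^ 2 * t) ^ 2 ≠ 1) :
    cc p A t = (A ^ 4 * t ^ 4 + p * A ^ 2 * t ^ 2 + 1) /
      ((t ^ 2 - 1) * ((A ^ 2 * t) ^ 2 - 1)) := by
  have h1' : t ^ 2 - 1 ≠ 0 := sub_ne_zero.2 h1
  have h2' : (A ^ 2 * t) ^ 2 - 1 ≠ 0 := sub_ne_zero.2 h2
  have e1 : t - t⁻¹ = (t ^ 2 - 1) / t := by field_simp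
  have e2 : A ^ 2 * t - (A ^ 2 * t)⁻¹ = ((A ^ 2 * t) ^ 2 - 1) / (A ^ 2 * t) := by
    field_simp
  have e3 : A ^ 2 * t ^ 2 + (A ^ 2 * t ^ 2)⁻¹ + p =
      (A ^ 4 * t ^ 4 + p * A ^ 2 * t ^ 2 + 1) / (A ^ 2 * t ^ 2) := by
    field_simp
    ring
  rw [cc, e1, e2, e3]
  generalize t ^ 2 - 1 = D1 at h1'
  generalize (A ^ 2 * t) ^ 2 - 1 = D2 at h2'
  field_simp

theorem azCheck_yz {s : ℂ} (hA : A ≠ 0) (hs : s ≠ 0) (n1 : (A ^ 2 * s) ^ 2 - 1 ≠ 0)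
    (n2 : (A ^ 2 * (A ^ 2 * s)) ^ 2 - 1 ≠ 0) (n3 : (A ^ 2 * (A ^ 2 * (A ^ 2 * s))) ^ 2 - 1 ≠ 0) :
    (1 - A ^ 12 * s ^ 2) / (A ^ 6 * s) * ((A ^ 4 * (A ^ 2 * (A ^ 2 * s)) ^ 4 +
        p * A ^ 2 * (A ^ 2 * (A ^ 2 * s)) ^ 2 + 1) /
        (((A ^ 2 * (A ^ 2 * s)) ^ 2 - 1) * ((A ^ 2 * (A ^ 2 * (A ^ 2 * s))) ^ 2 - 1))) +
      (A ^ 4 * s ^ 2 - 1) / (A ^ 2 * s) * ((A ^ 4 * (A ^ 2 * s) ^ 4 + p * A ^ 2 * (A ^ 2 * s) ^ 2 + 1) /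
        (((A ^ 2 * s) ^ 2 - 1) * ((A ^ 2 * (A ^ 2 * s)) ^ 2 - 1))) +
      (A ^ 4 - 1) * (A ^ 8 * s ^ 2 + 1) / (A ^ 6 * s) = 0 := by
  have m1 : A ^ 4 * s ^ 2 - 1 = (A ^ 2 * s) ^ 2 - 1 := by ring
  have m3 : 1 - A ^ 12 * s ^ 2 = -((A ^ 2 * (A ^ 2 * (A ^ 2 * s))) ^ 2 - 1) := by ring
  have m2 : (A ^ 2 * (A ^ 2 * s)) ^ 2 = A ^ 8 * s ^ 2 := by ring
  rw [m1, m3]
  have e1 : -((A ^ 2 * (A ^ 2 * (A ^ 2 * s))) ^ 2 - 1) / (A ^ 6 * s) *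
      ((A ^ 4 * (A ^ 2 * (A ^ 2 * s)) ^ 4 + p * A ^ 2 * (A ^ 2 * (A ^ 2 * s)) ^ 2 + 1) /
        (((A ^ 2 * (A ^ 2 * s)) ^ 2 - 1) * ((A ^ 2 * (A ^ 2 * (A ^ 2 * s))) ^ 2 - 1))) =
      -(A ^ 4 * (A ^ 2 * (A ^ 2 * s)) ^ 4 + p * A ^ 2 * (A ^ 2 * (A ^ 2 * s)) ^ 2 + 1) /
        (A ^ 6 * s * ((A ^ 2 * (A ^ 2 * s)) ^ 2 - 1)) := by
    generalize (A ^ 2 * (A ^ 2 * (A ^ 2 * s))) ^ 2 - 1 = D3 at n3
    generalize (A ^ 2 * (A ^ 2 * s)) ^ 2 - 1 = D2 at n2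
    field_simp
  have e2 : ((A ^ 2 * s) ^ 2 - 1) / (A ^ 2 * s) *
      ((A ^ 4 * (A ^ 2 * s) ^ 4 + p * A ^ 2 * (A ^ 2 * s) ^ 2 + 1) /
        (((A ^ 2 * s) ^ 2 - 1) * ((A ^ 2 * (A ^ 2 * s)) ^ 2 - 1))) =
      (A ^ 4 * (A ^ 2 * s) ^ 4 + p * A ^ 2 * (A ^ 2 * s) ^ 2 + 1) /
        (A ^ 2 * s * ((A ^ 2 * (A ^ 2 * s)) ^ 2 - 1)) := by
    generalize (A ^ 2 * s) ^ 2 - 1 = D1 at n1
    generalize (A ^ 2 * (A ^ 2 * s)) ^ 2 - 1 = D2 at n2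
    field_simp
  rw [e1, e2]
  rw [m2] at n2 ⊢
  field_simp
  ring

theorem azCheck_cub {s : ℂ} (hA : A ≠ 0) (hs : s ≠ 0) (n1 : (A ^ 2 * s) ^ 2 - 1 ≠ 0)
    (n2 : (A ^ 2 * (A ^ 2 * s)) ^ 2 - 1 ≠ 0) (n3 : (A ^ 2 * (A ^ 2 * (A ^ 2 * s))) ^ 2 - 1 ≠ 0) :
    (A ^ 12 * s ^ 2 - 1) / A ^ 2 * ((A ^ 4 * (A ^ 2 * (A ^ 2 * s)) ^ 4 +
        p * A ^ 2 * (A ^ 2 * (A ^ 2 * s)) ^ 2 + 1) /
        (((A ^ 2 * (A ^ 2 * s)) ^ 2 - 1) * ((A ^ 2 * (A ^ 2 * (A ^ 2 * s))) ^ 2 - 1))) +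
      (1 - A ^ 4 * s ^ 2) / (A ^ 6 * s ^ 2) * ((A ^ 4 * (A ^ 2 * s) ^ 4 + p * A ^ 2 * (A ^ 2 * s) ^ 2 + 1) /
        (((A ^ 2 * s) ^ 2 - 1) * ((A ^ 2 * (A ^ 2 * s)) ^ 2 - 1))) -
      (A ^ 2 * (A ^ 4 * s + (A ^ 4 * s)⁻¹) ^ 2 + p - A ^ 2 - (A ^ 2)⁻¹) = 0 := by
  have m1 : 1 - A ^ 4 * s ^ 2 = -((A ^ 2 * s) ^ 2 - 1) := by ring
  have m3 : A ^ 12 * s ^ 2 - 1 = (A ^ 2 * (A ^ 2 * (A ^ 2 * s))) ^ 2 - 1 := by ring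
  have m2 : (A ^ 2 * (A ^ 2 * s)) ^ 2 = A ^ 8 * s ^ 2 := by ring
  rw [m1, m3]
  have e1 : ((A ^ 2 * (A ^ 2 * (A ^ 2 * s))) ^ 2 - 1) / A ^ 2 *
      ((A ^ 4 * (A ^ 2 * (A ^ 2 * s)) ^ 4 + p * A ^ 2 * (A ^ 2 * (A ^ 2 * s)) ^ 2 + 1) /
        (((A ^ 2 * (A ^ 2 * s)) ^ 2 - 1) * ((A ^ 2 * (A ^ 2 * (A ^ 2 * s))) ^ 2 - 1))) =
      (A ^ 4 * (A ^ 2 * (A ^ 2 * s)) ^ 4 + p * A ^ 2 * (A ^ 2 * (A ^ 2 * s)) ^ 2 + 1) /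
        (A ^ 2 * ((A ^ 2 * (A ^ 2 * s)) ^ 2 - 1)) := by
    generalize (A ^ 2 * (A ^ 2 * (A ^ 2 * s))) ^ 2 - 1 = D3 at n3
    generalize (A ^ 2 * (A ^ 2 * s)) ^ 2 - 1 = D2 at n2
    field_simp
  have e2 : -((A ^ 2 * s) ^ 2 - 1) / (A ^ 6 * s ^ 2) *
      ((A ^ 4 * (A ^ 2 * s) ^ 4 + p * A ^ 2 * (A ^ 2 * s) ^ 2 + 1) /
        (((A ^ 2 * s) ^ 2 - 1) * ((A ^ 2 * (A ^ 2 * s)) ^ 2 - 1))) =
      -(A ^ 4 * (A ^ 2 * s) ^ 4 + p * A ^ 2 * (A ^ 2 * s) ^ 2 + 1) /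
        (A ^ 6 * s ^ 2 * ((A ^ 2 * (A ^ 2 * s)) ^ 2 - 1)) := by
    generalize (A ^ 2 * s) ^ 2 - 1 = D1 at n1
    generalize (A ^ 2 * (A ^ 2 * s)) ^ 2 - 1 = D2 at n2
    field_simp
  rw [e1, e2]
  rw [m2] at n2 ⊢
  field_simp
  ring

theorem chn_g {μ : ℂ} (hμ : μ ≠ 0) {e : ZMod n → V} (c : Chn p A u μ x y z e) :
    GChn p A u (fun _ => μ) (fun k => μ⁻¹ * cc p A (u * qz A (k - 1))) x y z e where
  ab k := by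
    rw [add_sub_cancel_right, ← mul_assoc, mul_inv_cancel₀ hμ, one_mul]
  ex := c.ex
  ey := c.ey
  ez := c.ez

theorem gchn_triP (h : Par n A) (hu : u ≠ 0) (hu2 : (u ^ n) ^ 2 ≠ 1) {a b : ZMod n → ℂ}
    {e : Module.Basis (ZMod n) ℂ V} (c : GChn p A u a b x y z e) : TriP p A x y z := by
  have hA := h.A_ne
  have base : ∀ k : ZMod n, ∃ s : ℂ, s ≠ 0 ∧ u * qz A (k - 1 - 1) = s ∧
      u * qz A (k - 1) = A ^ 2 * s ∧ u * qz A k = A ^ 2 * (A ^ 2 * s) ∧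
      u * qz A (k + 1) = A ^ 2 * (A ^ 2 * (A ^ 2 * s)) ∧
      u * qz A (k + 1 + 1) = A ^ 2 * (A ^ 2 * (A ^ 2 * (A ^ 2 * s))) := by
    intro k
    refine ⟨u * qz A (k - 1 - 1), mul_ne_zero hu (qz_ne h _), rfl, ?_, ?_, ?_, ?_⟩
    · rw [qz_pred h (k - 1)]; ring
    · rw [qz_pred h k, qz_pred h (k - 1)]; ring
    · rw [qz_succ h, qz_pred h k, qz_pred h (k - 1)]; ring
    · rw [qz_succ h, qz_succ h, qz_pred h k, qz_pred h (k - 1)]; ring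
  have hC : ∀ k : ZMod n, ∀ s : ℂ, s ≠ 0 → u * qz A (k - 1) = A ^ 2 * s →
      u * qz A k = A ^ 2 * (A ^ 2 * s) → u * qz A (k + 1) = A ^ 2 * (A ^ 2 * (A ^ 2 * s)) →
      (a (k - 1) * b k = (A ^ 4 * (A ^ 2 * s) ^ 4 + p * A ^ 2 * (A ^ 2 * s) ^ 2 + 1) /
        (((A ^ 2 * s) ^ 2 - 1) * ((A ^ 2 * (A ^ 2 * s)) ^ 2 - 1))) ∧
      (a k * b (k + 1) = (A ^ 4 * (A ^ 2 * (A ^ 2 * s)) ^ 4 +
        p * A ^ 2 * (A ^ 2 * (A ^ 2 * s)) ^ 2 + 1) /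
        (((A ^ 2 * (A ^ 2 * s)) ^ 2 - 1) * ((A ^ 2 * (A ^ 2 * (A ^ 2 * s))) ^ 2 - 1))) := by
    intro k s hs h1 h2 h3
    have n1 := azCheck_sq_ne h hu2 (k - 1)
    have n2 := azCheck_sq_ne h hu2 k
    have n3 := azCheck_sq_ne h hu2 (k + 1)
    rw [h1] at n1
    rw [h2] at n2
    rw [h3] at n3
    have c1 := c.ab (k - 1)
    have c2 := c.ab k
    rw [sub_add_cancel, h1, azCheck_cc hA (mul_ne_zero h.q_ne hs) n1 n2] at c1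
    rw [h2, azCheck_cc hA (mul_ne_zero h.q_ne (mul_ne_zero h.q_ne hs)) n2 n3] at c2
    exact ⟨c1, c2⟩
  constructor
  · refine e.ext fun k => ?_
    obtain ⟨s, hs, g0, g1, g2, g3, g4⟩ := base k
    simp only [LinearMap.sub_apply, LinearMap.smul_apply, Module.End.mul_apply, c.ex, c.ey, c.ez,
      map_add, map_smul, smul_add, smul_smul, g1, g2, g3]
    match_scalars
    · field_simp
      ring
    · field_simp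
      ring
  · refine e.ext fun k => ?_
    obtain ⟨s, hs, g0, g1, g2, g3, g4⟩ := base k
    obtain ⟨c0, c1⟩ := hC k s hs g1 g2 g3
    have n1 := azCheck_sq_ne h hu2 (k - 1)
    have n2 := azCheck_sq_ne h hu2 k
    have n3 := azCheck_sq_ne h hu2 (k + 1)
    rw [g1] at n1
    rw [g2] at n2
    rw [g3] at n3
    have n1' := sub_ne_zero.2 n1
    have n2' := sub_ne_zero.2 n2
    have n3' := sub_ne_zero.2 n3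
    simp only [LinearMap.sub_apply, LinearMap.smul_apply, Module.End.mul_apply, c.ex, c.ey, c.ez,
      map_add, map_smul, smul_add, smul_smul, g1, g2, g3, add_sub_cancel_right,
      sub_add_cancel]
    match_scalars
    · field_simp
      ring
    · rw [← sub_eq_zero]
      have e1 : ∀ a1 b1 a0 b0 : ℂ,
          A * (-(A * (A ^ 2 * (A ^ 2 * s)) * a1) * b1) * 1 +
            A * (-(A * (A ^ 2 * (A ^ 2 * s))⁻¹ * b0) * a0) * 1 -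
            (A⁻¹ * (a1 * -(A * (A ^ 2 * (A ^ 2 * (A ^ 2 * s)))⁻¹ * b1)) * 1 +
              A⁻¹ * (b0 * -(A * (A ^ 2 * s) * a0)) * 1) -
            (A ^ 2 - (A ^ 2)⁻¹) * -(A ^ 2 * (A ^ 2 * s) + (A ^ 2 * (A ^ 2 * s))⁻¹) * 1 =
          (1 - A ^ 12 * s ^ 2) / (A ^ 6 * s) * (a1 * b1) +
            (A ^ 4 * s ^ 2 - 1) / (A ^ 2 * s) * (a0 * b0) +
            (A ^ 4 - 1) * (A ^ 8 * s ^ 2 + 1) / (A ^ 6 * s) := by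
        intro a1 b1 a0 b0
        field_simp
        ring
      rw [e1, c1, c0]
      exact azCheck_yz hA hs n1' n2' n3'
    · field_simp
      ring
  · refine e.ext fun k => ?_
    obtain ⟨s, hs, g0, g1, g2, g3, g4⟩ := base k
    simp only [LinearMap.sub_apply, LinearMap.smul_apply, Module.End.mul_apply, c.ex, c.ey, c.ez,
      map_add, map_smul, smul_add, smul_smul, g1, g2, g3]
    match_scalars
    · field_simp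
      ring
    · field_simp
      ring
  · refine e.ext fun k => ?_
    obtain ⟨s, hs, g0, g1, g2, g3, g4⟩ := base k
    obtain ⟨c0, c1⟩ := hC k s hs g1 g2 g3
    have n1 := azCheck_sq_ne h hu2 (k - 1)
    have n2 := azCheck_sq_ne h hu2 k
    have n3 := azCheck_sq_ne h hu2 (k + 1)
    rw [g1] at n1
    rw [g2] at n2
    rw [g3] at n3
    have n1' := sub_ne_zero.2 n1
    have n2' := sub_ne_zero.2 n2
    have n3' := sub_ne_zero.2 n3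
    simp only [LinearMap.add_apply, LinearMap.smul_apply,
      Module.End.mul_apply, Module.End.one_apply, c.ex, c.ey, c.ez,
      map_add, map_smul, smul_add, smul_smul, g0, g1, g2, g3, g4, add_sub_cancel_right,
      sub_add_cancel]
    match_scalars
    · field_simp
      ring
    · rw [← sub_eq_zero]
      have e1 : ∀ a1 b1 a0 b0 : ℂ,
          A * (-(A * (A ^ 2 * (A ^ 2 * s)) * a1) *
              (b1 * -(A ^ 2 * (A ^ 2 * s) + (A ^ 2 * (A ^ 2 * s))⁻¹))) * 1 +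
            A * (-(A * (A ^ 2 * (A ^ 2 * s))⁻¹ * b0) *
              (a0 * -(A ^ 2 * (A ^ 2 * s) + (A ^ 2 * (A ^ 2 * s))⁻¹))) * 1 -
          (A ^ 2 * (-(A ^ 2 * (A ^ 2 * s) + (A ^ 2 * (A ^ 2 * s))⁻¹) *
              -(A ^ 2 * (A ^ 2 * s) + (A ^ 2 * (A ^ 2 * s))⁻¹)) * 1 +
            ((A ^ 2)⁻¹ * (a1 * b1) * 1 + (A ^ 2)⁻¹ * (b0 * a0) * 1) +
            (A ^ 2 * (-(A * (A ^ 2 * (A ^ 2 * s)) * a1) *
                -(A * (A ^ 2 * (A ^ 2 * (A ^ 2 * s)))⁻¹ * b1)) * 1 +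
              A ^ 2 * (-(A * (A ^ 2 * (A ^ 2 * s))⁻¹ * b0) * -(A * (A ^ 2 * s) * a0)) * 1) +
            (p - A ^ 2 - (A ^ 2)⁻¹) * 1) =
          (A ^ 12 * s ^ 2 - 1) / A ^ 2 * (a1 * b1) +
            (1 - A ^ 4 * s ^ 2) / (A ^ 6 * s ^ 2) * (a0 * b0) -
            (A ^ 2 * (A ^ 4 * s + (A ^ 4 * s)⁻¹) ^ 2 + p - A ^ 2 - (A ^ 2)⁻¹) := by
        intro a1 b1 a0 b0
        field_simp
        ring
      rw [e1, c1, c0]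
      exact azCheck_cub hA hs n1' n2' n3'
    · field_simp

end MP_372ad9_gt
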