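import Pool.Agent.Lib.MP_372ad9_gt.AzTri

set_option autoImplicit false

/-
ROW AzChoice (about 130 lines). T = T_n(p) = (cheb n).eval p, Gd in AzMat.
exists_good: T ≠ -2. Take w with w^2 + 4 = (2 - T) w (quadratic), w ≠ 0; w = 2 would give T = -2. Take v ≠ 0 with v + v⁻¹ = w
 (v^2 - w v + 1 = 0); v ≠ 1. Take u with u^(2n) = v, i.e. (u^n)^2 = v (IsAlgClosed.exists_pow_nat_eq). v^2 + 1 = v w ≠ 0; take μ with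
 (μ^n)^2 = 2/(v^2+1).
choice (large p): p = t + t⁻¹ with ‖t‖ ≥ 1 (one of t, t⁻¹), T = t^n + t⁻ⁿ (cheb_eval), s = 2 - T. ‖t‖ - 1 ≤ ‖p‖ ≤ ‖t‖ + 1, ‖t‖^n - 3 ≤ ‖s‖ ≤ ‖t‖^n + 3.
 The two roots of w^2 - s w + 4 satisfy w1 + w2 = s, w1 w2 = 4: choose w with ‖w‖ ≥ ‖s‖/2; then ‖w‖ ≤ ‖s‖ + ‖4/w‖ ≤ ‖s‖ + 1 if ‖w‖ ≥ 4.
 Choose v with ‖v‖ ≥ 1: ‖w‖ - 1 ≤ ‖v‖ ≤ ‖w‖ + 1. For ‖p‖ ≥ R large (R = 20 is enough: then ‖t‖ ≥ 19, ‖t‖^n ≥ 19^3), ‖v‖ ≤ 2 ‖t‖^n ≤ 2 (2‖p‖)^n ≤ (4 ‖p‖)^n and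
 ‖p‖^n ≤ (2‖t‖)^n ≤ 2^n · 4 ‖v‖ ≤ 8^n ‖v‖ (crude constants; n ≥ 3). With (‖u‖^2)^n = ‖v‖: ‖u‖^2 ≤ 4 ‖p‖, ‖p‖ ≤ 8 ‖u‖^2
 (monotonicity of x^n: pow_le_pow_left₀ / lt_of_pow_lt_pow_left₀).
 μ: ‖μ‖^(2n) = 2/‖v^2 + 1‖ is between ‖v‖⁻² and 4 ‖v‖⁻² (‖v‖ ≥ 2), so (‖μ‖ ‖u‖^2)^(2n) ∈ [1, 4], hence ‖μ‖ ‖u‖^2 ∈ [1, 4]. c = 8.
-/

namespace MP_372ad9_gt

variable {n : ℕ} {A : ℂ}

theorem azChoice_joukowski (z : ℂ) : ∃ t : ℂ, t ≠ 0 ∧ t + t⁻¹ = z ∧ 1 ≤ ‖t‖ ∧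
    ‖t‖ - 1 ≤ ‖z‖ ∧ ‖z‖ ≤ ‖t‖ + 1 := by
  have key : ∀ t t' : ℂ, t * t' = 1 → t + t' = z → 1 ≤ ‖t‖ → ∃ t : ℂ, t ≠ 0 ∧ t + t⁻¹ = z ∧
      1 ≤ ‖t‖ ∧ ‖t‖ - 1 ≤ ‖z‖ ∧ ‖z‖ ≤ ‖t‖ + 1 := by
    intro t t' h1 h2 h3
    have ht : t ≠ 0 := by
      rintro rfl
      simp at h1
    have h4 : t⁻¹ = t' := inv_eq_of_mul_eq_one_right h1
    have h5 : ‖t'‖ ≤ 1 := by
      rw [← h4, norm_inv]
      exact inv_le_one_of_one_le₀ h3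
    refine ⟨t, ht, by rw [h4, h2], h3, ?_, ?_⟩
    · have h6 : t = z - t' := by rw [← h2]; ring
      have h7 : ‖t‖ ≤ ‖z‖ + ‖t'‖ := by
        conv_lhs => rw [h6]
        exact norm_sub_le _ _
      linarith
    · have h7 : ‖z‖ ≤ ‖t‖ + ‖t'‖ := by
        rw [← h2]
        exact norm_add_le _ _
      linarith
  obtain ⟨E, hE⟩ := IsAlgClosed.exists_pow_nat_eq (z ^ 2 - 4) (n := 2) (by norm_num)
  have h1 : (z + E) / 2 * ((z - E) / 2) = 1 := by linear_combination (-1 / 4) * hE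
  have h2 : (z + E) / 2 + (z - E) / 2 = z := by ring
  have h3 : ‖(z + E) / 2‖ * ‖(z - E) / 2‖ = 1 := by rw [← norm_mul, h1, norm_one]
  rcases le_total 1 ‖(z + E) / 2‖ with h | h
  · exact key _ _ h1 h2 h
  · refine key _ _ (by rw [mul_comm]; exact h1) (by rw [add_comm]; exact h2) ?_
    by_contra hcon
    push Not at hcon
    have h4 : ‖(z + E) / 2‖ * ‖(z - E) / 2‖ < 1 := by
      have h5 := norm_nonneg ((z - E) / 2)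
      nlinarith
    linarith

theorem azChoice_core (hn : n ≠ 0) {p w v : ℂ} (hT : (cheb n).eval p ≠ -2)
    (hw : w ^ 2 + 4 = (2 - (cheb n).eval p) * w) (hv0 : v ≠ 0) (hv : v + v⁻¹ = w) :
    ∃ u μ : ℂ, Gd n p u μ ∧ (u ^ n) ^ 2 = v ∧ (μ ^ n) ^ 2 * (v ^ 2 + 1) = 2 := by
  have hw0 : w ≠ 0 := by
    rintro rfl
    norm_num at hw
  have hw2 : w ≠ 2 := by
    rintro rfl
    apply hT
    linear_combination (1 / 2) * hw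
  have hv1 : v ≠ 1 := by
    rintro rfl
    apply hw2
    rw [← hv]
    norm_num
  have hvw : v ^ 2 + 1 = v * w := by
    rw [← hv]
    field_simp
  have hd : v ^ 2 + 1 ≠ 0 := by
    rw [hvw]
    exact mul_ne_zero hv0 hw0
  obtain ⟨u, hu⟩ := IsAlgClosed.exists_pow_nat_eq v (n := n * 2) (by omega)
  obtain ⟨m, hm⟩ := IsAlgClosed.exists_pow_nat_eq (2 / (v ^ 2 + 1)) (n := n * 2) (by omega)
  rw [pow_mul] at hu hm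
  have hm' : (m ^ n) ^ 2 * (v ^ 2 + 1) = 2 := by
    rw [hm, div_mul_cancel₀ _ hd]
  refine ⟨u, m, ⟨?_, ?_, ?_, ?_, ?_⟩, hu, hm'⟩
  · rintro rfl
    apply hv0
    rw [← hu, zero_pow hn]
    norm_num
  · rintro rfl
    rw [zero_pow hn] at hm'
    norm_num at hm'
  · rw [hu]
    exact hv1
  · rw [hu, hv]
    exact hw
  · rw [hu]
    exact hm'

theorem exists_good (hn : n ≠ 0) {p : ℂ} (hT : (cheb n).eval p ≠ -2) :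
    ∃ u μ : ℂ, Gd n p u μ := by
  obtain ⟨t, ht0, ht, _⟩ := azChoice_joukowski ((2 - (cheb n).eval p) / 2)
  obtain ⟨v, hv0, hv, _⟩ := azChoice_joukowski (2 * t)
  have hw : (2 * t) ^ 2 + 4 = (2 - (cheb n).eval p) * (2 * t) := by
    have h1 : 2 - (cheb n).eval p = 2 * (t + t⁻¹) := by rw [ht]; ring
    rw [h1]
    field_simp
    ring
  obtain ⟨u, m, h, _⟩ := azChoice_core hn hT hw hv0 hv
  exact ⟨u, m, h⟩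

theorem azChoice_le {x y : ℝ} {m : ℕ} (hm : m ≠ 0) (hy : 0 ≤ y) (h : x ^ m ≤ y ^ m) : x ≤ y :=
  le_of_pow_le_pow_left₀ hm hy h

theorem choice (h3 : 3 ≤ n) :
    ∃ c R : ℝ, 0 < c ∧ ∀ p : ℂ, R ≤ ‖p‖ → ∃ u μ : ℂ, Gd n p u μ ∧ ‖p‖ ≤ c * ‖u‖ ^ 2 ∧
      ‖u‖ ^ 2 ≤ c * ‖p‖ ∧ ‖μ‖ * ‖u‖ ^ 2 ≤ c ∧ 1 ≤ c * (‖μ‖ * ‖u‖ ^ 2) := by
  have hn : n ≠ 0 := by omega
  refine ⟨8, 20, by norm_num, ?_⟩
  intro p hp
  obtain ⟨t, ht0, ht, ht1, ht2, ht3⟩ := azChoice_joukowski p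
  have htp : 19 ≤ ‖t‖ := by linarith
  have hcheb : (cheb n).eval p = t ^ n + t⁻¹ ^ n := by
    rw [← ht]
    exact (cheb_eval t ht0 n).1
  set τ : ℝ := ‖t‖ ^ n with hτ
  have hτb : 6859 ≤ τ := by
    have e1 : (19 : ℝ) ^ 3 ≤ ‖t‖ ^ 3 := pow_le_pow_left₀ (by norm_num) htp 3
    have e2 : ‖t‖ ^ 3 ≤ ‖t‖ ^ n := pow_le_pow_right₀ ht1 h3
    have e3 : (19 : ℝ) ^ 3 = 6859 := by norm_num
    linarith
  have hinv : ‖t⁻¹ ^ n‖ ≤ 1 := by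
    rw [norm_pow, norm_inv]
    exact pow_le_one₀ (by positivity) (inv_le_one_of_one_le₀ ht1)
  have htn : ‖t ^ n‖ = τ := norm_pow _ _
  set s : ℂ := 2 - (cheb n).eval p with hs
  have hs' : s = 2 - t ^ n - t⁻¹ ^ n := by rw [hs, hcheb]; ring
  have hn2 : ‖(2 : ℂ)‖ = 2 := by simp
  have hs1 : ‖s‖ ≤ τ + 3 := by
    have e1 : ‖s‖ ≤ ‖(2 : ℂ) - t ^ n‖ + ‖t⁻¹ ^ n‖ := by
      rw [hs']
      exact norm_sub_le _ _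
    have e2 : ‖(2 : ℂ) - t ^ n‖ ≤ ‖(2 : ℂ)‖ + ‖t ^ n‖ := norm_sub_le _ _
    linarith
  have hs2 : τ - 3 ≤ ‖s‖ := by
    have e0 : t ^ n = 2 - t⁻¹ ^ n - s := by rw [hs']; ring
    have e1 : ‖t ^ n‖ ≤ ‖(2 : ℂ) - t⁻¹ ^ n‖ + ‖s‖ := by
      conv_lhs => rw [e0]
      exact norm_sub_le _ _
    have e2 : ‖(2 : ℂ) - t⁻¹ ^ n‖ ≤ ‖(2 : ℂ)‖ + ‖t⁻¹ ^ n‖ := norm_sub_le _ _
    linarith
  have hT : (cheb n).eval p ≠ -2 := by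
    intro h
    have : s = 4 := by rw [hs, h]; norm_num
    rw [this] at hs2
    have e4 : ‖(4 : ℂ)‖ = 4 := by simp
    linarith
  obtain ⟨y, hy0, hy, hy1, hy2, hy3⟩ := azChoice_joukowski (s / 2)
  have hs2n : ‖s / 2‖ = ‖s‖ / 2 := by rw [norm_div, hn2]
  obtain ⟨v, hv0, hv, hv1, hv2, hv3⟩ := azChoice_joukowski (2 * y)
  have hyn : ‖2 * y‖ = 2 * ‖y‖ := by rw [norm_mul, hn2]
  have hw : (2 * y) ^ 2 + 4 = s * (2 * y) := by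
    have h1 : s = 2 * (y + y⁻¹) := by rw [hy]; ring
    rw [h1]
    field_simp
    ring
  obtain ⟨u, m, hG, hu, hm⟩ := azChoice_core hn hT hw hv0 hv
  rw [hs2n] at hy2 hy3
  rw [hyn] at hv2 hv3
  have hvu : ‖v‖ ≤ 2 * τ := by linarith
  have hvl : τ ≤ 2 * ‖v‖ := by linarith
  have hun : (‖u‖ ^ 2) ^ n = ‖v‖ := by
    rw [← hu, norm_pow, norm_pow, ← pow_mul, ← pow_mul, mul_comm]
  have h2n : (2 : ℝ) ≤ 2 ^ n := by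
    calc (2 : ℝ) = 2 ^ 1 := by norm_num
      _ ≤ 2 ^ n := pow_le_pow_right₀ (by norm_num) (by omega)
  have hp0 : 0 ≤ ‖p‖ := norm_nonneg _
  have hu0 : 0 ≤ ‖u‖ ^ 2 := by positivity
  refine ⟨u, m, hG, ?_, ?_, ?_⟩
  · -- lower bound
    have h1 : ‖p‖ ≤ 4 * ‖u‖ ^ 2 := by
      apply azChoice_le hn (by positivity)
      have e1 : ‖p‖ ^ n ≤ (2 * ‖t‖) ^ n := pow_le_pow_left₀ hp0 (by linarith) n
      have e2 : (2 * ‖t‖) ^ n = 2 ^ n * τ := by rw [mul_pow]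
      have e3 : (4 * ‖u‖ ^ 2) ^ n = 2 ^ n * (2 ^ n * ‖v‖) := by
        rw [mul_pow, hun, ← mul_assoc, ← mul_pow]
        norm_num
      rw [e3]
      rw [e2] at e1
      refine e1.trans (mul_le_mul_of_nonneg_left ?_ (by positivity))
      have e4 : 2 * ‖v‖ ≤ 2 ^ n * ‖v‖ := mul_le_mul_of_nonneg_right h2n (norm_nonneg _)
      linarith
    linarith
  · have h1 : ‖u‖ ^ 2 ≤ 4 * ‖p‖ := by
      apply azChoice_le hn (by positivity)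
      rw [hun]
      have e1 : ‖t‖ ^ n ≤ (2 * ‖p‖) ^ n := pow_le_pow_left₀ (by positivity) (by linarith) n
      have e3 : (4 * ‖p‖) ^ n = 2 ^ n * (2 * ‖p‖) ^ n := by
        rw [← mul_pow]
        congr 1
        ring
      rw [e3]
      have e4 : 2 * (2 * ‖p‖) ^ n ≤ 2 ^ n * (2 * ‖p‖) ^ n :=
        mul_le_mul_of_nonneg_right h2n (by positivity)
      linarith
    linarith
  · -- the scale of `m`
    have hv4 : 2 ≤ ‖v‖ := by linarith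
    have hmn : (‖m‖ ^ n) ^ 2 * ‖v ^ 2 + 1‖ = 2 := by
      have h1 := congrArg norm hm
      rw [norm_mul, norm_pow, norm_pow, hn2] at h1
      exact h1
    have hv5 : ‖v ^ 2 + 1‖ ≤ ‖v‖ ^ 2 + 1 := by
      refine (norm_add_le _ _).trans ?_
      rw [norm_pow, norm_one]
    have hv6 : ‖v‖ ^ 2 - 1 ≤ ‖v ^ 2 + 1‖ := by
      have e1 : v ^ 2 = (v ^ 2 + 1) - 1 := by ring
      have e2 : ‖v ^ 2‖ ≤ ‖v ^ 2 + 1‖ + ‖(1 : ℂ)‖ := by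
        conv_lhs => rw [e1]
        exact norm_sub_le _ _
      rw [norm_pow, norm_one] at e2
      linarith
    set X : ℝ := ‖m‖ * ‖u‖ ^ 2 with hX
    have hX0 : 0 ≤ X := by positivity
    have hXn : X ^ (n * 2) = (‖m‖ ^ n) ^ 2 * ‖v‖ ^ 2 := by
      rw [hX, pow_mul, mul_pow, mul_pow, hun]
    have hM0 : 0 ≤ (‖m‖ ^ n) ^ 2 := by positivity
    have hvv : 4 ≤ ‖v‖ ^ 2 := by nlinarith
    have hXl : 1 ≤ X ^ (n * 2) := by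
      rw [hXn]
      have e1 : (‖m‖ ^ n) ^ 2 * ‖v ^ 2 + 1‖ ≤ (‖m‖ ^ n) ^ 2 * (2 * ‖v‖ ^ 2) :=
        mul_le_mul_of_nonneg_left (by linarith) hM0
      linarith
    have hXu : X ^ (n * 2) ≤ 4 := by
      rw [hXn]
      have e1 : (‖m‖ ^ n) ^ 2 * (‖v‖ ^ 2 / 2) ≤ (‖m‖ ^ n) ^ 2 * ‖v ^ 2 + 1‖ :=
        mul_le_mul_of_nonneg_left (by linarith) hM0
      linarith
    have hn2' : n * 2 ≠ 0 := by omega
    constructor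
    · apply azChoice_le hn2' (by norm_num)
      refine hXu.trans ?_
      calc (4 : ℝ) ≤ 8 ^ 1 := by norm_num
        _ ≤ 8 ^ (n * 2) := pow_le_pow_right₀ (by norm_num) (by omega)
    · have h1 : 1 ≤ X := by
        apply azChoice_le hn2' hX0
        rw [one_pow]
        exact hXl
      linarith

end MP_372ad9_gt
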