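import Pool.Agent.Lib.MP_372ad9_gt.AzTri

set_option autoImplicit false

/-
ROW AzComm. T_n(x) commutes with y and z when A^n = -1.

The sequence P 0 = y, P 1 = z, P (k+2) = tw A x (P (k+1)) (P k) gives triples (x, P k, P (k+1)), by
TriP.twist; the sequence N is the same with A⁻¹, starting with y, tw A⁻¹ x y z. Then
T_k(x) y = A^k P k + A⁻ᵏ N k, and y T_k(x) = A⁻ᵏ P k + A^k N k.
-/

namespace MP_372ad9_gt

variable {n : ℕ} {p A : ℂ} {E : Type*} [Ring E] [Algebra ℂ E] {x y z : E}

/-- Iterated Dehn twists of the pair `(y, z)`. -/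
noncomputable def azcSq (A : ℂ) (x y z : E) : ℕ → E
  | 0 => y
  | 1 => z
  | (k + 2) => tw A x (azcSq A x y z (k + 1)) (azcSq A x y z k)

theorem azc_tri (hA : A ≠ 0) (t : TriP p A x y z) (k : ℕ) :
    TriP p A x (azcSq A x y z k) (azcSq A x y z (k + 1)) := by
  induction k with
  | zero => exact t
  | succ k ih => exact ih.twist hA

theorem azc_left (hA : A ≠ 0) (k : ℕ) :
    x * azcSq A x y z (k + 1) = A • azcSq A x y z (k + 2) + A⁻¹ • azcSq A x y z k := by
  have e : azcSq A x y z (k + 2) =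
      A⁻¹ • (x * azcSq A x y z (k + 1)) - (A ^ 2)⁻¹ • azcSq A x y z k := rfl
  rw [e]
  have hB : A * A⁻¹ = 1 := mul_inv_cancel₀ hA
  rw [← inv_pow]
  generalize A⁻¹ = B at hB ⊢
  match_scalars
  · linear_combination -hB
  · linear_combination B * hB

theorem azc_right (hA : A ≠ 0) (t : TriP p A x y z) (k : ℕ) :
    azcSq A x y z (k + 1) * x = A⁻¹ • azcSq A x y z (k + 2) + A • azcSq A x y z k := by
  have h := (azc_tri hA t k).zx
  have e : azcSq A x y z (k + 2) =
      A⁻¹ • (x * azcSq A x y z (k + 1)) - (A ^ 2)⁻¹ • azcSq A x y z k := rfl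
  rw [e]
  linear_combination (norm := skip) A⁻¹ • h
  match_scalars <;> field_simp <;> ring

theorem azc_tri_inv (hA : A ≠ 0) (t : TriP p A x y z) : TriP p A⁻¹ x y (tw A⁻¹ x y z) :=
  t.swap.S (inv_ne_zero hA)

theorem azc_cheb_left (k : ℕ) : Polynomial.aeval x (cheb (k + 2)) =
    x * Polynomial.aeval x (cheb (k + 1)) - Polynomial.aeval x (cheb k) := by
  rw [cheb, map_sub, map_mul, Polynomial.aeval_X]

theorem azc_cheb_right (k : ℕ) : Polynomial.aeval x (cheb (k + 2)) =
    Polynomial.aeval x (cheb (k + 1)) * x - Polynomial.aeval x (cheb k) := by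
  rw [cheb, mul_comm, map_sub, map_mul, Polynomial.aeval_X]

theorem azc_mul_left (hA : A ≠ 0) (k : ℕ) :
    (Polynomial.aeval x (cheb k) * y =
      A ^ k • azcSq A x y z k + A⁻¹ ^ k • azcSq A⁻¹ x y (tw A⁻¹ x y z) k) ∧
    (Polynomial.aeval x (cheb (k + 1)) * y =
      A ^ (k + 1) • azcSq A x y z (k + 1) +
        A⁻¹ ^ (k + 1) • azcSq A⁻¹ x y (tw A⁻¹ x y z) (k + 1)) := by
  induction k with
  | zero =>
    constructor
    · have e : Polynomial.aeval x (cheb 0) = (2 : E) := by
        rw [cheb]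
        exact map_ofNat _ 2
      rw [e, pow_zero, pow_zero, one_smul, one_smul, two_mul]
      rfl
    · have e : Polynomial.aeval x (cheb (0 + 1)) = x := by
        rw [zero_add, cheb, Polynomial.aeval_X]
      have e1 : azcSq A x y z (0 + 1) = z := rfl
      have e2 : azcSq A⁻¹ x y (tw A⁻¹ x y z) (0 + 1) = tw A⁻¹ x y z := rfl
      have hB : A * A⁻¹ = 1 := mul_inv_cancel₀ hA
      rw [e, e1, e2, tw, zero_add, pow_one, pow_one, inv_pow, inv_inv, inv_inv]
      generalize A⁻¹ = B at hB ⊢
      match_scalars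
      · linear_combination -hB
      · linear_combination A * hB
  | succ k ih =>
    obtain ⟨h1, h2⟩ := ih
    refine ⟨h2, ?_⟩
    have l1 := azc_left (x := x) (y := y) (z := z) hA k
    have l2 := azc_left (x := x) (y := y) (z := tw A⁻¹ x y z) (inv_ne_zero hA) k
    have hB : A * A⁻¹ = 1 := mul_inv_cancel₀ hA
    rw [azc_cheb_left, sub_mul, mul_assoc, h1, h2, mul_add, mul_smul_comm, mul_smul_comm, l1, l2,
      inv_inv]
    generalize A⁻¹ = B at hB ⊢
    match_scalars
    · ring
    · linear_combination A ^ k * hB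
    · ring
    · linear_combination B ^ k * hB

theorem azc_mul_right (hA : A ≠ 0) (t : TriP p A x y z) (k : ℕ) :
    (y * Polynomial.aeval x (cheb k) =
      A⁻¹ ^ k • azcSq A x y z k + A ^ k • azcSq A⁻¹ x y (tw A⁻¹ x y z) k) ∧
    (y * Polynomial.aeval x (cheb (k + 1)) =
      A⁻¹ ^ (k + 1) • azcSq A x y z (k + 1) +
        A ^ (k + 1) • azcSq A⁻¹ x y (tw A⁻¹ x y z) (k + 1)) := by
  induction k with
  | zero =>
    constructor
    · have e : Polynomial.aeval x (cheb 0) = (2 : E) := by
        rw [cheb]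
        exact map_ofNat _ 2
      rw [e, pow_zero, pow_zero, one_smul, one_smul, mul_two]
      rfl
    · have e : Polynomial.aeval x (cheb (0 + 1)) = x := by
        rw [zero_add, cheb, Polynomial.aeval_X]
      have e1 : azcSq A x y z (0 + 1) = z := rfl
      have e2 : azcSq A⁻¹ x y (tw A⁻¹ x y z) (0 + 1) = tw A⁻¹ x y z := rfl
      have h := t.xy
      have hB : A * A⁻¹ = 1 := mul_inv_cancel₀ hA
      rw [e, e1, e2, tw, zero_add, pow_one, pow_one, inv_pow, inv_inv, inv_inv]
      rw [← inv_pow] at h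
      linear_combination (norm := skip) (-A) • h
      generalize A⁻¹ = B at hB ⊢
      match_scalars
      · linear_combination -hB
      · linear_combination B * hB
      · ring
  | succ k ih =>
    obtain ⟨h1, h2⟩ := ih
    refine ⟨h2, ?_⟩
    have l1 := azc_right hA t k
    have l2 := azc_right (inv_ne_zero hA) (azc_tri_inv hA t) k
    have hB : A * A⁻¹ = 1 := mul_inv_cancel₀ hA
    rw [azc_cheb_right, mul_sub, ← mul_assoc, h1, h2, add_mul, smul_mul_assoc, smul_mul_assoc,
      l1, l2, inv_inv]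
    generalize A⁻¹ = B at hB ⊢
    match_scalars
    · ring
    · linear_combination B ^ k * hB
    · ring
    · linear_combination A ^ k * hB

theorem cheb_comm (h : Par n A) (t : TriP p A x y z) :
    Polynomial.aeval x (cheb n) * y = y * Polynomial.aeval x (cheb n) := by
  rw [(azc_mul_left (z := z) h.A_ne n).1, (azc_mul_right h.A_ne t n).1, inv_pow, h.pow]
  norm_num

theorem cheb_comm_z (h : Par n A) (t : TriP p A x y z) :
    Polynomial.aeval x (cheb n) * z = z * Polynomial.aeval x (cheb n) :=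
  cheb_comm h (t.twist h.A_ne)

end MP_372ad9_gt
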