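import Pool.Agent.Lib.MP_372ad9_gt.AzVal
import Pool.Agent.Lib.MP_372ad9_gt.AzCheck

set_option autoImplicit false

/-
ROW AzConj (about 120 lines). Uniqueness of the representation.

chn_shift: e'_k = e (k + j): u qz (k + j) = (u qz j) qz k (qz_add), and k + j ± 1.
chn_gauge: e'_k = (μ/μ')^k.val e_k =: t_k e_k. t_{k+1} = (μ/μ') t_k for all k mod n because (μ/μ')^n = 1
 ((k+1).val = k.val + 1 or k.val = n - 1 and (k+1).val = 0). Then y e'_k = t_k μ e_{k+1} + t_k μ⁻¹ cc e_{k-1}
 = μ' e'_{k+1} + μ'⁻¹ cc e'_{k-1}. Same for z.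
conj_of_chn: f = b.equiv b' (Equiv.refl _); check on basis vectors.
unicity: ξ = U + U⁻¹ (exists_U), exists_chn_basis for both: (u, μ, b), (u', μ', b') with u^n = u'^n = U. The values
 chn_g + gchn_y, gchn_z: with α = μ^n, β = (μ^n)⁻¹ ∏ cc (∏_k μ⁻¹ cc (u qz (k-1)) = μ⁻ⁿ ∏ cc, reindex k - 1):
 α + β = -η and U α + U⁻¹ β = -ζ, so α (U - U⁻¹) = -ζ + U⁻¹ η (the scalars are determined since V is nontrivial: compare at a basis
 vector). Same for α' = μ'^n. As U^2 ≠ 1: μ^n = μ'^n. Next u' ^ n = u ^ n gives u' = u q^j for some j < n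
 (IsPrimitiveRoot.eq_pow_of_pow_eq_one applied to u'/u), i.e. u' = u * qz A (j : ZMod n). Shift the chain b by j
 (a basis: b.reindex (Equiv.addRight _) or build conj_of_chn for the shifted basis), gauge from μ to μ'
 (Basis.isUnitSMul or Basis.unitsSMul), and apply conj_of_chn.
-/

namespace MP_372ad9_gt

variable {n : ℕ} [NeZero n] {p A : ℂ} {V V' : Type*} [AddCommGroup V] [Module ℂ V]
  [AddCommGroup V'] [Module ℂ V'] {x y z : Module.End ℂ V} {x' y' z' : Module.End ℂ V'}

theorem chn_shift (h : Par n A) {u μ : ℂ} {e : ZMod n → V} (c : Chn p A u μ x y z e)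
    (j : ZMod n) : Chn p A (u * qz A j) μ x y z (fun k => e (k + j)) := by
  have e1 : ∀ k : ZMod n, u * qz A j * qz A k = u * qz A (k + j) := by
    intro k
    rw [qz_add h]
    ring
  have e2 : ∀ k : ZMod n, k + 1 + j = k + j + 1 := fun k => by ring
  have e3 : ∀ k : ZMod n, k - 1 + j = k + j - 1 := fun k => by ring
  constructor
  · intro k
    rw [e1]
    exact c.ex (k + j)
  · intro k
    simp only [e1, e2, e3]
    exact c.ey (k + j)
  · intro k
    simp only [e1, e2, e3]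
    exact c.ez (k + j)

theorem chn_gauge (h : Par n A) {u μ μ' : ℂ} (hμ : μ ≠ 0) (hμ' : μ' ≠ 0)
    (hm : μ ^ n = μ' ^ n) {e : ZMod n → V} (c : Chn p A u μ x y z e) :
    Chn p A u μ' x y z (fun k => (μ / μ') ^ k.val • e k) := by
  have hn := h.three
  have hone : (μ / μ') ^ n = 1 := by
    rw [div_pow, hm, div_self (pow_ne_zero _ hμ')]
  have hs : ∀ k : ZMod n, (μ / μ') ^ (k + 1).val = (μ / μ') * (μ / μ') ^ k.val := by
    intro k
    have h1 : (1 : ZMod n).val = 1 := ZMod.val_one'' (by omega)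
    rw [ZMod.val_add, h1, ← pow_succ']
    conv_rhs => rw [← Nat.mod_add_div (k.val + 1) n, pow_add, pow_mul, hone, one_pow, mul_one]
  have hp : ∀ k : ZMod n, (μ / μ') ^ k.val = (μ / μ') * (μ / μ') ^ (k - 1).val := by
    intro k
    rw [← hs, sub_add_cancel]
  have hmm : μ' * (μ / μ') = μ := by field_simp
  have hmi : μ'⁻¹ = μ⁻¹ * (μ / μ') := by field_simp
  constructor
  · intro k
    simp only [map_smul]
    rw [c.ex, smul_comm]
  · intro k
    simp only [map_smul]
    rw [c.ey, smul_add, smul_smul, smul_smul, smul_smul, smul_smul, hs k]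
    congr 2
    · linear_combination (-(μ / μ') ^ k.val) * hmm
    · rw [hp k, hmi]
      ring
  · intro k
    simp only [map_smul]
    rw [c.ez, smul_add, smul_smul, smul_smul, smul_smul, smul_smul, hs k]
    congr 2
    · linear_combination (A * (u * qz A k) * (μ / μ') ^ k.val) * hmm
    · rw [hp k, hmi]
      ring

theorem conj_of_chn {u μ : ℂ} (b : Module.Basis (ZMod n) ℂ V) (b' : Module.Basis (ZMod n) ℂ V')
    (c : Chn p A u μ x y z b) (c' : Chn p A u μ x' y' z' b') :
    ∃ f : V ≃ₗ[ℂ] V', (∀ v, f (x v) = x' (f v)) ∧ (∀ v, f (y v) = y' (f v)) ∧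
      (∀ v, f (z v) = z' (f v)) := by
  have hf : ∀ k, b.equiv b' (Equiv.refl _) (b k) = b' k := fun k => by
    rw [Module.Basis.equiv_apply]; rfl
  refine ⟨b.equiv b' (Equiv.refl _), ?_, ?_, ?_⟩
  · have : (b.equiv b' (Equiv.refl _)).toLinearMap.comp x =
        x'.comp (b.equiv b' (Equiv.refl _)).toLinearMap := by
      apply b.ext
      intro k
      simp only [LinearMap.comp_apply, LinearEquiv.coe_coe]
      rw [c.ex, map_smul, hf, c'.ex]
    exact fun v => LinearMap.congr_fun this v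
  · have : (b.equiv b' (Equiv.refl _)).toLinearMap.comp y =
        y'.comp (b.equiv b' (Equiv.refl _)).toLinearMap := by
      apply b.ext
      intro k
      simp only [LinearMap.comp_apply, LinearEquiv.coe_coe]
      rw [c.ey, map_add, map_smul, map_smul, hf, hf, hf, c'.ey]
    exact fun v => LinearMap.congr_fun this v
  · have : (b.equiv b' (Equiv.refl _)).toLinearMap.comp z =
        z'.comp (b.equiv b' (Equiv.refl _)).toLinearMap := by
      apply b.ext
      intro k
      simp only [LinearMap.comp_apply, LinearEquiv.coe_coe]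
      rw [c.ez, map_add, map_smul, map_smul, hf, hf, hf, c'.ez]
    exact fun v => LinearMap.congr_fun this v

theorem azConj_scal [Nontrivial V] {a b : ℂ}
    (hab : a • (1 : Module.End ℂ V) = b • (1 : Module.End ℂ V)) : a = b := by
  obtain ⟨v, hv⟩ := exists_ne (0 : V)
  have h1 := LinearMap.congr_fun hab v
  simp only [LinearMap.smul_apply, Module.End.one_apply] at h1
  exact smul_left_injective ℂ hv h1

/-- The number `μ ^ n` is determined by the values of `T_n`. -/
theorem azConj_mu (h : Par n A) (hV : Module.finrank ℂ V = n) (t : TriP p A x y z)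
    {ξ η ζ U u μ : ℂ} (s : Sh n x y z ξ η ζ) (hU : U ≠ 0) (hU2 : U ^ 2 ≠ 1)
    (b : Module.Basis (ZMod n) ℂ V) (hun : u ^ n = U) (hμ : μ ≠ 0)
    (c : Chn p A u μ x y z b) : μ ^ n * (U - U⁻¹) = -ζ + U⁻¹ * η := by
  have hn := h.three
  have : Nontrivial V := Module.nontrivial_of_finrank_pos (by omega : 0 < Module.finrank ℂ V)
  have hu : u ≠ 0 := by
    rintro rfl
    rw [zero_pow (by omega)] at hun
    exact hU hun.symm
  have hu2 : (u ^ n) ^ 2 ≠ 1 := by rw [hun]; exact hU2
  have g := chn_g hμ c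
  have ey := gchn_y h hu hu2 t g
  have ez := gchn_z h hu hu2 t g
  rw [s.hy] at ey
  rw [s.hz] at ez
  have ey' := azConj_scal ey
  have ez' := azConj_scal ez
  have hprod : ∏ _k : ZMod n, μ = μ ^ n := by
    rw [Finset.prod_const, Finset.card_univ, ZMod.card]
  rw [hprod] at ey' ez'
  rw [hun] at ez'
  have hUi : U * U⁻¹ = 1 := mul_inv_cancel₀ hU
  linear_combination (-1 : ℂ) * ez' + U⁻¹ * ey'

theorem unicity (h : Par n A) (hV : Module.finrank ℂ V = n) (hV' : Module.finrank ℂ V' = n)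
    (t : TriP p A x y z) (t' : TriP p A x' y' z') {ξ η ζ : ℂ} (s : Sh n x y z ξ η ζ)
    (s' : Sh n x' y' z' ξ η ζ) (h1 : ξ ^ 2 ≠ 4) (h2 : ξ ^ 2 - 2 + (cheb n).eval p ≠ 0) :
    ∃ f : V ≃ₗ[ℂ] V', (∀ v, f (x v) = x' (f v)) ∧ (∀ v, f (y v) = y' (f v)) ∧
      (∀ v, f (z v) = z' (f v)) := by
  have hn := h.three
  obtain ⟨U, hU, hU2, e1, e2⟩ := exists_U h1
  have hp : U ^ 2 + (U ^ 2)⁻¹ + (cheb n).eval p ≠ 0 := by rw [e2]; exact h2
  obtain ⟨u, μ, b, hun, hμ, c⟩ := exists_chn_basis h hV t hU hU2 (by rw [← e1]; exact s.hx) hp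
  obtain ⟨u', μ', b', hun', hμ', c'⟩ :=
    exists_chn_basis h hV' t' hU hU2 (by rw [← e1]; exact s'.hx) hp
  have m1 := azConj_mu h hV t s hU hU2 b hun hμ c
  have m2 := azConj_mu h hV' t' s' hU hU2 b' hun' hμ' c'
  have hsub : U - U⁻¹ ≠ 0 := by
    intro h0
    apply hU2
    have hUi : U * U⁻¹ = 1 := mul_inv_cancel₀ hU
    linear_combination U * h0 + hUi
  have hm : μ ^ n = μ' ^ n := mul_right_cancel₀ hsub (m1.trans m2.symm)
  have hu : u ≠ 0 := by
    rintro rfl
    rw [zero_pow (by omega)] at hun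
    exact hU hun.symm
  have hroot : (u' / u) ^ n = 1 := by
    rw [div_pow, hun, hun', div_self hU]
  have : NeZero n := inferInstance
  obtain ⟨j, _, hj⟩ := h.prim.eq_pow_of_pow_eq_one hroot
  have hu' : u * qz A ((j : ℕ) : ZMod n) = u' := by
    rw [qz_cast h, hj]
    field_simp
  have cs := chn_shift h c ((j : ℕ) : ZMod n)
  rw [hu'] at cs
  have cg := chn_gauge h hμ hμ' hm cs
  have hw : ∀ k : ZMod n, IsUnit ((μ / μ') ^ k.val) := fun k =>
    IsUnit.mk0 _ (pow_ne_zero _ (div_ne_zero hμ hμ'))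
  have hb : ((b.reindex (Equiv.addRight ((j : ℕ) : ZMod n)).symm).isUnitSMul hw :
      ZMod n → V) = fun k => (μ / μ') ^ k.val • b (k + ((j : ℕ) : ZMod n)) := by
    funext k
    rw [Module.Basis.isUnitSMul_apply, Module.Basis.reindex_apply]
    rfl
  have cb : Chn p A u' μ' x y z
      ((b.reindex (Equiv.addRight ((j : ℕ) : ZMod n)).symm).isUnitSMul hw) := by
    rw [hb]
    exact cg
  exact conj_of_chn _ b' cb c'

end MP_372ad9_gt
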