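import Pool.Agent.Lib.MP_372ad9_gt.Basic

set_option autoImplicit false

namespace MP_372ad9_gt

open Finset

section Ring

variable {E : Type*} [Ring E] [Algebra ℂ E]

/-- Three elements satisfying the defining relations of the skein algebra of the once-punctured
torus (parameter `A`, `q = A ^ 2`), together with the relation saying that the puncture loop
acts by `p`. -/
structure TriP (p A : ℂ) (x y z : E) : Prop where
  xy : A • (x * y) - A⁻¹ • (y * x) = (A ^ 2 - (A ^ 2)⁻¹) • z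
  yz : A • (y * z) - A⁻¹ • (z * y) = (A ^ 2 - (A ^ 2)⁻¹) • x
  zx : A • (z * x) - A⁻¹ • (x * z) = (A ^ 2 - (A ^ 2)⁻¹) • y
  cub : A • (x * y * z) = A ^ 2 • (x * x) + (A ^ 2)⁻¹ • (y * y) + A ^ 2 • (z * z) +
    (p - A ^ 2 - (A ^ 2)⁻¹) • (1 : E)

/-- The third element after a Dehn twist. -/
noncomputable def tw (A : ℂ) (a b c : E) : E := A⁻¹ • (a * b) - (A ^ 2)⁻¹ • c

/-- The Dehn twist along the first curve, on triples. -/
noncomputable def Rt (A : ℂ) (t : E × E × E) : E × E × E := (t.1, t.2.2, tw A t.1 t.2.2 t.2.1)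

/-- The Dehn twist along the second curve, on triples. -/
noncomputable def Lt (A : ℂ) (t : E × E × E) : E × E × E := (t.2.2, t.2.1, tw A t.2.2 t.2.1 t.1)

/-- The composition `R R L L`, on triples. -/
noncomputable def fi (A : ℂ) (t : E × E × E) : E × E × E := Lt A (Lt A (Rt A (Rt A t)))

/-- The values of the Chebyshev polynomial `T_n` at the three generators. -/
structure Sh (n : ℕ) (x y z : E) (ξ η ζ : ℂ) : Prop where
  hx : Polynomial.aeval x (cheb n) = (-ξ) • (1 : E)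
  hy : Polynomial.aeval y (cheb n) = (-η) • (1 : E)
  hz : Polynomial.aeval z (cheb n) = (-ζ) • (1 : E)

end Ring

/-- The curve of fixed characters, with weight `p`. -/
structure CPt (n : ℕ) (p ξ η ζ : ℂ) : Prop where
  e1 : ξ * ζ = 2 * η
  e2 : ζ ^ 2 * (ξ ^ 2 - 2) = 8
  e3 : (ξ ^ 2 - 2) ^ 2 + 4 = (2 - (cheb n).eval p) * (ξ ^ 2 - 2)
  e4 : ξ ^ 2 ≠ 4

section Mod

variable {V : Type*} [AddCommGroup V] [Module ℂ V]

/-- The triple `fi (x, y, z)` is conjugate to `(x, y, z)` by some `L`, and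
`τ = Tr L * Tr L⁻¹`. -/
def HasT (A : ℂ) (x y z : Module.End ℂ V) (τ : ℂ) : Prop :=
  ∃ L L' : Module.End ℂ V, L * L' = 1 ∧ L' * L = 1 ∧
    (fi A (x, y, z)).1 * L = L * x ∧ (fi A (x, y, z)).2.1 * L = L * y ∧
    (fi A (x, y, z)).2.2 * L = L * z ∧
    τ = LinearMap.trace ℂ V L * LinearMap.trace ℂ V L'

/-- `q ^ k` for `k` modulo `n`, `q = A ^ 2`. -/
noncomputable def qz {n : ℕ} (A : ℂ) (k : ZMod n) : ℂ := (A ^ 2) ^ k.val

/-- The round trip scalar. -/
noncomputable def cc (p A a : ℂ) : ℂ :=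
  (A ^ 2 * a ^ 2 + (A ^ 2 * a ^ 2)⁻¹ + p) / ((a - a⁻¹) * (A ^ 2 * a - (A ^ 2 * a)⁻¹))

/-- The raising operator on the eigenspace of `x` of eigenvalue `-(a + a⁻¹)`. -/
noncomputable def upo (A a : ℂ) (y z : Module.End ℂ V) : Module.End ℂ V :=
  (A * (a⁻¹ - a))⁻¹ • (z + (A * a⁻¹) • y)

/-- A cyclic chain of eigenvectors of `x`. -/
structure Chn {n : ℕ} (p A u μ : ℂ) (x y z : Module.End ℂ V) (e : ZMod n → V) : Prop where
  ex : ∀ k, x (e k) = (-(u * qz A k + (u * qz A k)⁻¹)) • e k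
  ey : ∀ k, y (e k) = μ • e (k + 1) + (μ⁻¹ * cc p A (u * qz A (k - 1))) • e (k - 1)
  ez : ∀ k, z (e k) = (-(A * (u * qz A k) * μ)) • e (k + 1) +
    (-(A * (u * qz A k)⁻¹ * (μ⁻¹ * cc p A (u * qz A (k - 1))))) • e (k - 1)

end Mod

section qz

variable {n : ℕ} {A : ℂ} [NeZero n]

theorem qz_zero : qz A (0 : ZMod n) = 1 := by
  rw [qz, ZMod.val_zero, pow_zero]

theorem qz_succ (h : Par n A) (k : ZMod n) : qz A (k + 1) = A ^ 2 * qz A k := by
  have hn := h.three
  have h1 : (1 : ZMod n).val = 1 := ZMod.val_one'' (by omega)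
  rw [qz, qz, ZMod.val_add, h1, ← pow_succ']
  conv_rhs => rw [← Nat.mod_add_div (k.val + 1) n, pow_add, pow_mul, h.prim.pow_eq_one, one_pow,
    mul_one]

theorem qz_pred (h : Par n A) (k : ZMod n) : qz A k = A ^ 2 * qz A (k - 1) := by
  rw [← qz_succ h, sub_add_cancel]

theorem qz_ne (h : Par n A) (k : ZMod n) : qz A k ≠ 0 := pow_ne_zero _ h.q_ne

theorem qz_pow (h : Par n A) (k : ZMod n) : qz A k ^ n = 1 := h.pow_pow _

theorem qz_add (h : Par n A) (k l : ZMod n) : qz A (k + l) = qz A k * qz A l := by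
  rw [qz, qz, qz, ZMod.val_add, ← pow_add]
  conv_rhs => rw [← Nat.mod_add_div (k.val + l.val) n, pow_add, pow_mul, h.prim.pow_eq_one,
    one_pow, mul_one]

theorem qz_inj (h : Par n A) {k l : ZMod n} (hkl : qz A k = qz A l) : k = l := by
  apply ZMod.val_injective n
  exact h.prim.pow_inj (ZMod.val_lt k) (ZMod.val_lt l) hkl

theorem qz_cast (h : Par n A) (k : ℕ) : qz A ((k : ℕ) : ZMod n) = (A ^ 2) ^ k := by
  rw [qz, ZMod.val_natCast]
  conv_rhs => rw [← Nat.mod_add_div k n, pow_add, pow_mul, h.prim.pow_eq_one, one_pow, mul_one]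

end qz

end MP_372ad9_gt
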