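import Pool.Agent.Lib.MP_372ad9_gt.AzDhDefs
import Pool.Agent.Lib.MP_372ad9_gt.AzCheck

set_option autoImplicit false

/-
ROW AzDhA (about 120 lines). The dihedral matrices satisfy the relations. q = A^2, m = (n-1)/2 (n odd, n = 2m+1, m ≥ 1), I^2 = -1.
sk_ne: sk A k = qz k + (qz k)⁻¹ = 0 would give (qz k)^2 = -1, n-th power: 1 = (-1)^n = -1.
dab: a = I qz k: a^2 = -(qz k)^2, a - a⁻¹ = I sk k, A^2 a - (A^2 a)⁻¹ = I sk (k+1) (qz_succ), so
 cc (r^2+2) A (I qz k) = (-(q qz^2) - (q qz^2)⁻¹ + r^2 + 2)/(-(sk k sk (k+1))) = dc A r k. Cases on k.val: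
 k.val < m: da = 1, (k+1).val = k.val + 1 ≤ m, nonzero: db (k+1) = dc (k+1-1) = dc k.
 k.val = m: da = r / sk k, (k+1).val = m + 1 (< n): db = -(r/sk (k+1)); here q^(2m+1) = 1 so q qz k ^2 = q^(2m+1) = 1, dc k = (2 - (r^2+2))/(sk k sk(k+1)) = -r^2/(..). OK.
 k.val > m: da = dc k; (k+1).val = k.val + 1 > m + 1 or k.val = n - 1 and (k+1).val = 0: db (k+1) = 1.
dh_gchn: V = ZMod n → ℂ, e = Pi.basisFun ℂ (ZMod n), x = Matrix.toLin' (mX A I), ...: columns of the matrices (Matrix.mulVec of Pi.single).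
dh_triP: gchn_triP gives TriP for the endomorphisms; transport through the algebra equivalence Matrix.toLinAlgEquiv' (its inverse) to
 matrices: apply AlgEquiv to each of the four identities (map_sub, map_smul, map_mul, injectivity). u = I: (I^n)^2 = (-1)^n = -1 ≠ 1.
-/

namespace MP_372ad9_gt

variable {n : ℕ} [NeZero n] {A : ℂ}

theorem sk_ne (h : Par n A) (k : ZMod n) : sk A k ≠ 0 := by
  intro h0
  apply h.pow_ne_neg_one (k.val * 2)
  have h1 : qz A k * (qz A k)⁻¹ = 1 := mul_inv_cancel₀ (qz_ne h k)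
  have h2 : qz A k ^ 2 = -1 := by
    have h3 : qz A k + (qz A k)⁻¹ = 0 := h0
    linear_combination qz A k * h3 - h1
  rw [pow_mul]
  exact h2

theorem azdha_cc (h : Par n A) (r : ℂ) (k : ZMod n) :
    cc (r ^ 2 + 2) A (Complex.I * qz A k) = dc A r k := by
  have hI : Complex.I ^ 2 = -1 := Complex.I_sq
  have e1 : A ^ 2 * (Complex.I * qz A k) ^ 2 = -(A ^ 2 * qz A k ^ 2) := by
    linear_combination (A ^ 2 * qz A k ^ 2) * hI
  have e2 : (Complex.I * qz A k)⁻¹ = -(Complex.I * (qz A k)⁻¹) := by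
    rw [mul_inv, Complex.inv_I, neg_mul]
  have e3 : A ^ 2 * (Complex.I * qz A k) = Complex.I * qz A (k + 1) := by
    rw [qz_succ h]
    ring
  have e4 : (Complex.I * qz A (k + 1))⁻¹ = -(Complex.I * (qz A (k + 1))⁻¹) := by
    rw [mul_inv, Complex.inv_I, neg_mul]
  unfold cc dc
  rw [e1, e3, e2, e4, inv_neg]
  have h1 := sk_ne h k
  have h2 := sk_ne h (k + 1)
  have e5 : (Complex.I * qz A k - -(Complex.I * (qz A k)⁻¹)) *
      (Complex.I * qz A (k + 1) - -(Complex.I * (qz A (k + 1))⁻¹)) = -(sk A k * sk A (k + 1)) := by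
    unfold sk
    linear_combination ((qz A k + (qz A k)⁻¹) * (qz A (k + 1) + (qz A (k + 1))⁻¹)) * hI
  rw [e5, div_neg, ← neg_div]
  congr 1
  ring

theorem azdha_val (h : Par n A) (k : ZMod n) : (k + 1).val = (k.val + 1) % n := by
  have hn := h.three
  have h1 : (1 : ZMod n).val = 1 := ZMod.val_one'' (by omega)
  rw [ZMod.val_add, h1]

theorem dab (h : Par n A) (r : ℂ) (k : ZMod n) :
    da A r k * db A r (k + 1) = cc (r ^ 2 + 2) A (Complex.I * qz A k) := by
  rw [azdha_cc h]
  have hn := h.three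
  obtain ⟨m, hm⟩ := h.odd
  have hm2 : (n - 1) / 2 = m := by omega
  have hk := ZMod.val_lt k
  have hv := azdha_val h k
  have h1 := sk_ne h k
  have h2 := sk_ne h (k + 1)
  unfold da db
  rw [hm2]
  rcases lt_trichotomy k.val m with hlt | heq | hgt
  · have hv2 : (k + 1).val = k.val + 1 := by
      rw [hv, Nat.mod_eq_of_lt (by omega)]
    rw [if_pos hlt, if_neg (by omega), if_pos (by omega), add_sub_cancel_right, one_mul]
  · have hv2 : (k + 1).val = k.val + 1 := by
      rw [hv, Nat.mod_eq_of_lt (by omega)]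
    rw [if_neg (by omega), if_pos heq, if_neg (by omega), if_neg (by omega), if_pos (by omega)]
    have e1 : A ^ 2 * qz A k ^ 2 = 1 := by
      unfold qz
      rw [heq, ← pow_mul, ← pow_succ', ← h.prim.pow_eq_one]
      congr 1
      omega
    unfold dc
    rw [e1]
    field_simp
    ring
  · rw [if_neg (by omega), if_neg (by omega)]
    by_cases hlast : k.val + 1 = n
    · have hv2 : (k + 1).val = 0 := by
        rw [hv, hlast, Nat.mod_self]
      rw [if_pos hv2, mul_one]
    · have hv2 : (k + 1).val = k.val + 1 := by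
        rw [hv, Nat.mod_eq_of_lt (by omega)]
      rw [if_neg (by omega), if_neg (by omega), if_neg (by omega), mul_one]

theorem azdha_col (M : Matrix (ZMod n) (ZMod n) ℂ) (k i : ZMod n) :
    (Matrix.toLin' M) ((Pi.basisFun ℂ (ZMod n)) k) i = M i k := by
  rw [Matrix.toLin'_apply, Pi.basisFun_apply, Matrix.mulVec_single_one]
  rfl

theorem dh_gchn (h : Par n A) (r : ℂ) :
    GChn (r ^ 2 + 2) A Complex.I (da A r) (db A r) (Matrix.toLin' (mX A Complex.I))
      (Matrix.toLin' (dY A r)) (Matrix.toLin' (dZ A r)) (Pi.basisFun ℂ (ZMod n)) where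
  ab := dab h r
  ex k := by
    ext i
    rw [azdha_col, Pi.smul_apply, Pi.basisFun_apply, Pi.single_apply, smul_eq_mul, mX,
      Matrix.diagonal_apply]
    by_cases hi : i = k
    · rw [if_pos hi, if_pos hi, mul_one, hi]
      rfl
    · rw [if_neg hi, if_neg hi, mul_zero]
  ey k := by
    ext i
    rw [azdha_col, Pi.add_apply, Pi.smul_apply, Pi.smul_apply, Pi.basisFun_apply, Pi.basisFun_apply,
      Pi.single_apply, Pi.single_apply, smul_eq_mul, smul_eq_mul, dY, mul_ite, mul_ite, mul_one,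
      mul_zero, mul_one, mul_zero]
  ez k := by
    ext i
    rw [azdha_col, Pi.add_apply, Pi.smul_apply, Pi.smul_apply, Pi.basisFun_apply, Pi.basisFun_apply,
      Pi.single_apply, Pi.single_apply, smul_eq_mul, smul_eq_mul, dZ, mul_ite, mul_ite, mul_one,
      mul_zero, mul_one, mul_zero]

theorem azdha_of_map {E F : Type*} [Ring E] [Algebra ℂ E] [Ring F] [Algebra ℂ F] (f : E →ₐ[ℂ] F)
    (hf : Function.Injective f) {p A : ℂ} {x y z : E} (t : TriP p A (f x) (f y) (f z)) :
    TriP p A x y z where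
  xy := by
    apply hf
    rw [map_sub, map_smul, map_smul, map_smul, map_mul, map_mul]
    exact t.xy
  yz := by
    apply hf
    rw [map_sub, map_smul, map_smul, map_smul, map_mul, map_mul]
    exact t.yz
  zx := by
    apply hf
    rw [map_sub, map_smul, map_smul, map_smul, map_mul, map_mul]
    exact t.zx
  cub := by
    apply hf
    rw [map_add, map_add, map_add, map_smul, map_smul, map_smul, map_smul, map_smul, map_mul,
      map_mul, map_mul, map_mul, map_mul, map_one]
    exact t.cub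

theorem dh_triP (h : Par n A) (r : ℂ) :
    TriP (r ^ 2 + 2) A (mX A Complex.I : Matrix (ZMod n) (ZMod n) ℂ) (dY A r) (dZ A r) := by
  have hI2 : (Complex.I ^ n) ^ 2 ≠ 1 := by
    rw [← pow_mul, mul_comm, pow_mul, Complex.I_sq, h.odd.neg_one_pow]
    norm_num
  have t := gchn_triP h Complex.I_ne_zero hI2 (dh_gchn h r)
  refine azdha_of_map (Matrix.toLinAlgEquiv' : Matrix (ZMod n) (ZMod n) ℂ ≃ₐ[ℂ] _).toAlgHom
    (AlgEquiv.injective _) ?_
  exact t

end MP_372ad9_gt
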