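import Pool.Agent.Lib.MP_372ad9_gt.AzDhDefs

set_option autoImplicit false

/-
ROW AzDhB (about 110 lines). The involution dT (matrix: column k has the entry sg k at the place -k). m = (n-1)/2, n = 2m+1.
Facts: (-k).val = n - k.val for k ≠ 0 (ZMod.neg_val), qz (-k) = (qz k)⁻¹, sk (-k) = sk k, sg (-k) = sg k, sg k ^2 = 1.
dT_sq: dT (dT e_k) = sg k sg (-k) e_k = e_k.
dT_X: mX A I = diagonal of nd A I k = -(I qz k + (I qz k)⁻¹) = -I (qz k - (qz k)⁻¹), odd in k.
dT_Y: column k: dT (Y e_k) = da k sg (k+1) e_{-k-1} + db k sg (k-1) e_{-k+1};  Y (dT e_k) = sg k (da (-k) e_{-k+1} + db (-k) e_{-k-1}).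
 To show: da k sg (k+1) = - sg k db (-k) and db k sg (k-1) = - sg k da (-k) (the second is the first for -k, by sg even).
 First: k.val < m: da k = 1, db (-k) = 1 (k = 0: db 0 = 1; else (-k).val = n - k.val > m + 1), sg (k+1) = - sg k.
 k.val = m: da k = r/sk k, (-k).val = m + 1: db (-k) = -(r/ sk (-k)), sg (k+1) = (-1)^(n-m-1) = (-1)^m = sg k.
 k.val > m: da k = dc k; (-k).val = n - k.val ≤ m, nonzero: db (-k) = dc (-k-1), and dc A r (-k-1) = dc A r k:
  A^2 qz(-k-1)^2 = (A^2 qz k ^2)⁻¹ (qz(-k-1) = (A^2 qz k)⁻¹), sk (-k-1) = sk (k+1), sk (-k) = sk k. sg (k+1) = - sg k.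
dT_G: dG' and dG are diagonal with (A^2)^(k.val^2), which is even: (n - v)^2 ≡ v^2 mod n, A^2 has order n.
All matrix identities: ext i k; Matrix.mul_apply; the sums have one or two nonzero terms (or multiply on basis vectors with
 Matrix.ext_of_mulVec_single / use Matrix.toLin'). dG_mul: diagonal times diagonal.
-/

namespace MP_372ad9_gt

variable {n : ℕ} [NeZero n] {A : ℂ}

/-- Two matrices which agree on all columns. -/
theorem azdhb_dT_mul (M : Matrix (ZMod n) (ZMod n) ℂ) (i k : ZMod n) :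
    (dT * M : Matrix (ZMod n) (ZMod n) ℂ) i k = sg (-i) * M (-i) k := by
  rw [Matrix.mul_apply, Finset.sum_eq_single (-i)]
  · unfold dT
    rw [if_pos (neg_neg i).symm]
  · intro j _ hj
    unfold dT
    rw [if_neg (fun hij => hj (by rw [hij, neg_neg])), zero_mul]
  · intro hi
    exact absurd (Finset.mem_univ _) hi

theorem azdhb_mul_dT (M : Matrix (ZMod n) (ZMod n) ℂ) (i k : ZMod n) :
    (M * dT : Matrix (ZMod n) (ZMod n) ℂ) i k = M i (-k) * sg k := by
  rw [Matrix.mul_apply, Finset.sum_eq_single (-k)]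
  · unfold dT
    rw [if_pos rfl]
  · intro j _ hj
    unfold dT
    rw [if_neg hj, mul_zero]
  · intro hi
    exact absurd (Finset.mem_univ _) hi

theorem azdhb_neg_val (k : ZMod n) (hk : k.val ≠ 0) : (-k).val = n - k.val := by
  have hk0 : k ≠ 0 := fun h0 => hk (by rw [h0, ZMod.val_zero])
  rw [ZMod.neg_val, if_neg hk0]

omit [NeZero n] in
theorem azdhb_neg_zero (k : ZMod n) (hk : k.val = 0) : (-k).val = 0 := by
  have hk0 : k = 0 := (ZMod.val_eq_zero k).1 hk
  rw [hk0, neg_zero, ZMod.val_zero]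

theorem azdhb_sg_neg (h : Par n A) (k : ZMod n) : sg (-k) = sg k := by
  have hn := h.three
  obtain ⟨m, hm⟩ := h.odd
  have hm2 : (n - 1) / 2 = m := by omega
  have hk := ZMod.val_lt k
  unfold sg
  rw [hm2]
  by_cases h0 : k.val = 0
  · rw [azdhb_neg_zero k h0, h0]
  · rw [azdhb_neg_val k h0]
    by_cases h1 : k.val ≤ m
    · rw [if_neg (by omega), if_pos h1]
      congr 1
      omega
    · rw [if_pos (by omega), if_neg h1]

omit [NeZero n] in
theorem azdhb_sg_sq (k : ZMod n) : sg k * sg k = 1 := by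
  unfold sg
  split_ifs
  · rw [← pow_add, ← two_mul, pow_mul, neg_one_sq, one_pow]
  · rw [← pow_add, ← two_mul, pow_mul, neg_one_sq, one_pow]

theorem azdhb_qz_neg (h : Par n A) (k : ZMod n) : qz A (-k) = (qz A k)⁻¹ := by
  refine eq_inv_of_mul_eq_one_left ?_
  rw [← qz_add h, neg_add_cancel, qz_zero]

theorem azdhb_sk_neg (h : Par n A) (k : ZMod n) : sk A (-k) = sk A k := by
  unfold sk
  rw [azdhb_qz_neg h, inv_inv, add_comm]

theorem azdhb_val_succ (h : Par n A) (k : ZMod n) : (k + 1).val = (k.val + 1) % n := by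
  have hn := h.three
  have h1 : (1 : ZMod n).val = 1 := ZMod.val_one'' (by omega)
  rw [ZMod.val_add, h1]

theorem azdhb_dc_neg (h : Par n A) (r : ℂ) (k : ZMod n) : dc A r (-k - 1) = dc A r k := by
  have e1 : -k - 1 = -(k + 1) := by ring
  have e2 : -(k + 1) + 1 = -k := by ring
  unfold dc
  rw [e1, e2, azdhb_sk_neg h, azdhb_sk_neg h, azdhb_qz_neg h, qz_succ h, mul_comm (sk A (k + 1))]
  congr 1
  have hq := qz_ne h k
  have hA := h.q_ne
  have e3 : A ^ 2 * (A ^ 2 * qz A k)⁻¹ ^ 2 = (A ^ 2 * qz A k ^ 2)⁻¹ := by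
    field_simp
  rw [e3, inv_inv]
  ring

theorem azdhb_key (h : Par n A) (r : ℂ) (k : ZMod n) :
    da A r k * sg (k + 1) = -(sg k * db A r (-k)) := by
  have hn := h.three
  obtain ⟨m, hm⟩ := h.odd
  have hm2 : (n - 1) / 2 = m := by omega
  have hk := ZMod.val_lt k
  have hv := azdhb_val_succ h k
  rcases lt_trichotomy k.val m with hlt | heq | hgt
  · have hv2 : (k + 1).val = k.val + 1 := by
      rw [hv, Nat.mod_eq_of_lt (by omega)]
    have e1 : da A r k = 1 := by
      unfold da
      rw [hm2, if_pos hlt]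
    have e2 : db A r (-k) = 1 := by
      unfold db
      rw [hm2]
      by_cases h0 : k.val = 0
      · rw [azdhb_neg_zero k h0, if_pos rfl]
      · rw [azdhb_neg_val k h0, if_neg (by omega), if_neg (by omega), if_neg (by omega)]
    rw [e1, e2]
    unfold sg
    rw [hm2, hv2, if_pos (by omega), if_pos (by omega), pow_succ]
    ring
  · have hv2 : (k + 1).val = k.val + 1 := by
      rw [hv, Nat.mod_eq_of_lt (by omega)]
    have e1 : da A r k = r / sk A k := by
      unfold da
      rw [hm2, if_neg (by omega), if_pos heq]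
    have e2 : db A r (-k) = -(r / sk A k) := by
      unfold db
      rw [hm2, azdhb_neg_val k (by omega), if_neg (by omega), if_neg (by omega), if_pos (by omega),
        azdhb_sk_neg h]
    have e3 : sg (k + 1) = sg k := by
      unfold sg
      rw [hm2, hv2, if_neg (by omega), if_pos (by omega)]
      congr 1
      omega
    rw [e1, e2, e3]
    ring
  · have e1 : da A r k = dc A r k := by
      unfold da
      rw [hm2, if_neg (by omega), if_neg (by omega)]
    have e2 : db A r (-k) = dc A r k := by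
      unfold db
      rw [hm2, azdhb_neg_val k (by omega), if_neg (by omega), if_pos (by omega), azdhb_dc_neg h]
    have e3 : sg (k + 1) = -sg k := by
      by_cases hlast : k.val + 1 = n
      · have hv2 : (k + 1).val = 0 := by
          rw [hv, hlast, Nat.mod_self]
        unfold sg
        rw [hm2, hv2, if_pos (by omega), if_neg (by omega)]
        have : n - k.val = 1 := by omega
        rw [this]
        norm_num
      · have hv2 : (k + 1).val = k.val + 1 := by
          rw [hv, Nat.mod_eq_of_lt (by omega)]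
        unfold sg
        rw [hm2, hv2, if_neg (by omega), if_neg (by omega)]
        have : n - k.val = (n - (k.val + 1)) + 1 := by omega
        rw [this, pow_succ]
        ring
    rw [e1, e2, e3]
    ring

theorem dT_sq (h : Par n A) : (dT * dT : Matrix (ZMod n) (ZMod n) ℂ) = 1 := by
  ext i k
  rw [azdhb_dT_mul, Matrix.one_apply]
  unfold dT
  by_cases hik : i = k
  · rw [if_pos (by rw [hik]), if_pos hik, hik, azdhb_sg_neg h, azdhb_sg_sq]
  · rw [if_neg (fun h0 => hik (neg_injective h0)), if_neg hik, mul_zero]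

theorem azdhb_nd (h : Par n A) (k : ZMod n) :
    nd A Complex.I (-k) = -nd A Complex.I k := by
  unfold nd
  rw [azdhb_qz_neg h, mul_inv, mul_inv, Complex.inv_I, inv_inv]
  ring

theorem dT_X (h : Par n A) :
    (dT * mX A Complex.I : Matrix (ZMod n) (ZMod n) ℂ) = -(mX A Complex.I * dT) := by
  ext i k
  rw [Matrix.neg_apply, azdhb_dT_mul, azdhb_mul_dT]
  unfold mX
  rw [Matrix.diagonal_apply, Matrix.diagonal_apply]
  by_cases hik : i = -k
  · rw [hik, neg_neg, if_pos rfl, if_pos rfl, azdhb_nd h]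
    ring
  · rw [if_neg (fun h0 => hik (by rw [← h0, neg_neg])), if_neg hik]
    ring

theorem dT_Y (h : Par n A) (r : ℂ) :
    (dT * dY A r : Matrix (ZMod n) (ZMod n) ℂ) = -(dY A r * dT) := by
  ext i k
  rw [Matrix.neg_apply, azdhb_dT_mul, azdhb_mul_dT]
  unfold dY
  have k1 := azdhb_key h r k
  have k2 := azdhb_key h r (-k)
  rw [neg_neg, azdhb_sg_neg h k] at k2
  have k3 : sg (-k + 1) = sg (k - 1) := by
    rw [← azdhb_sg_neg h (k - 1)]
    congr 1
    ring
  rw [k3] at k2
  have s1 := azdhb_sg_sq k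
  have s2 := azdhb_sg_sq (k - 1)
  have k4 : db A r k * sg (k - 1) = -(sg k * da A r (-k)) := by
    linear_combination (sg k * sg (k - 1)) * k2 - (db A r k * sg (k - 1)) * s1 -
      (sg k * da A r (-k)) * s2
  have c1 : (-i = k + 1) ↔ (i = -k - 1) := by
    constructor
    · intro h0
      rw [← neg_neg i, h0]
      ring
    · intro h0
      rw [h0]
      ring
  have c2 : (-i = k - 1) ↔ (i = -k + 1) := by
    constructor
    · intro h0
      rw [← neg_neg i, h0]
      ring
    · intro h0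
      rw [h0]
      ring
  by_cases h1 : i = -k - 1
  · have h1' : -i = k + 1 := c1.2 h1
    by_cases h2 : i = -k + 1
    · have h2' : -i = k - 1 := c2.2 h2
      rw [if_pos h1', if_pos h2', if_pos h2, if_pos h1]
      have e1 : sg (-i) = sg (k + 1) := by rw [h1']
      have e2 : sg (-i) = sg (k - 1) := by rw [h2']
      rw [mul_add]
      nth_rewrite 1 [e1]
      rw [e2]
      linear_combination k1 + k4
    · have h2' : ¬ -i = k - 1 := fun h0 => h2 (c2.1 h0)
      rw [if_pos h1', if_neg h2', if_neg h2, if_pos h1, h1']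
      linear_combination k1
  · have h1' : ¬ -i = k + 1 := fun h0 => h1 (c1.1 h0)
    by_cases h2 : i = -k + 1
    · have h2' : -i = k - 1 := c2.2 h2
      rw [if_neg h1', if_pos h2', if_pos h2, if_neg h1, h2']
      linear_combination k4
    · have h2' : ¬ -i = k - 1 := fun h0 => h2 (c2.1 h0)
      rw [if_neg h1', if_neg h2', if_neg h2, if_neg h1]
      ring

theorem azdhb_g (h : Par n A) (k : ZMod n) :
    (A ^ 2) ^ ((-k).val ^ 2) = (A ^ 2) ^ (k.val ^ 2) := by
  by_cases h0 : k.val = 0
  · rw [azdhb_neg_zero k h0, h0]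
  · rw [azdhb_neg_val k h0]
    have hk := ZMod.val_lt k
    obtain ⟨d, hd⟩ : ∃ d, n = k.val + d := ⟨n - k.val, by omega⟩
    have e1 : n - k.val = d := by omega
    rw [e1]
    have e2 : (A ^ 2) ^ (d ^ 2 + n * k.val) = (A ^ 2) ^ (d ^ 2) := by
      rw [pow_add, pow_mul, h.prim.pow_eq_one, one_pow, mul_one]
    have e3 : (A ^ 2) ^ (k.val ^ 2 + n * d) = (A ^ 2) ^ (k.val ^ 2) := by
      rw [pow_add, pow_mul, h.prim.pow_eq_one, one_pow, mul_one]
    rw [← e2, ← e3]
    congr 1
    have e4 : n * k.val = (k.val + d) * k.val := by rw [← hd]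
    have e5 : n * d = (k.val + d) * d := by rw [← hd]
    rw [e4, e5]
    ring

theorem dT_G (h : Par n A) : (dT * dG A : Matrix (ZMod n) (ZMod n) ℂ) = dG A * dT := by
  ext i k
  rw [azdhb_dT_mul, azdhb_mul_dT]
  unfold dG
  rw [Matrix.diagonal_apply, Matrix.diagonal_apply]
  by_cases hik : i = -k
  · rw [hik, neg_neg, if_pos rfl, if_pos rfl, azdhb_g h]
    ring
  · rw [if_neg (fun h0 => hik (by rw [← h0, neg_neg])), if_neg hik]
    ring

theorem dT_G' (h : Par n A) : (dT * dG' A : Matrix (ZMod n) (ZMod n) ℂ) = dG' A * dT := by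
  ext i k
  rw [azdhb_dT_mul, azdhb_mul_dT]
  unfold dG'
  rw [Matrix.diagonal_apply, Matrix.diagonal_apply]
  by_cases hik : i = -k
  · rw [hik, neg_neg, if_pos rfl, if_pos rfl, azdhb_g h]
    ring
  · rw [if_neg (fun h0 => hik (by rw [← h0, neg_neg])), if_neg hik]
    ring

theorem dG_mul (h : Par n A) : (dG A * dG' A : Matrix (ZMod n) (ZMod n) ℂ) = 1 := by
  unfold dG dG'
  rw [Matrix.diagonal_mul_diagonal, ← Matrix.diagonal_one]
  congr 1
  ext k
  exact mul_inv_cancel₀ (pow_ne_zero _ h.q_ne)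

theorem dG_mul' (h : Par n A) : (dG' A * dG A : Matrix (ZMod n) (ZMod n) ℂ) = 1 := by
  unfold dG dG'
  rw [Matrix.diagonal_mul_diagonal, ← Matrix.diagonal_one]
  congr 1
  ext k
  exact inv_mul_cancel₀ (pow_ne_zero _ h.q_ne)

end MP_372ad9_gt
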