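import Pool.Agent.Lib.MP_372ad9_gt.AzTri

set_option autoImplicit false

/-
ROW AzWalk (about 100 lines). M is a cyclic tridiagonal operator with zero diagonal on a cycle of odd length n:
M b_k = a_k b_{k+1} + c_k b_{k-1}. Claim: if T_n(M) commutes with an operator X which is diagonal with distinct
eigenvalues, then T_n(M) = (∏ a_k + ∏ c_k) id.

Proof. T_n(M) commutes with X so it is diagonal: T_n(M) b_k = s_k b_k (apply both sides of hcom to b_k, compare
coefficients: (nu_k - nu_l) * coefficient_l = 0). It remains to see that the coefficient of b_k in T_n(M) b_k is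
∏ a + ∏ c. For k and j let S(j,k) be the span of the vectors b_{k+i}, i an integer with |i| ≤ j - 2, i ≡ j mod 2
(as a set: {v | ∃ i : ℤ, |i| + 2 ≤ j ∧ Even (i + j) ∧ v = b (k + (i : ZMod n))}). Claim, for j ≥ 1 (two-step induction
cheb (j+2) = X cheb (j+1) - cheb j, start j = 1, 2):
 T_j(M) b_k ∈ (∏_{t<j} a_{k+t}) b_{k+j} + (∏_{t<j} c_{k-t}) b_{k-j} + S(j,k).
 Step: M S(j+1,k) ⊆ S(j+2,k); M of the two extreme terms gives the two new extreme terms and two vectors b_{k±j} in S(j+2,k);
 T_j(M) b_k ∈ S(j+2,k). (For j = 0: T_0 = 2, T_0 b_k = 2 b_k ∈ S(2,k). T_1 b_k = M b_k, S(1,k) = 0.)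
At j = n: k + n = k - n = k and no i with |i| ≤ n - 2, i odd, is 0 mod n, so the coefficient of b_k is
∏_{t<n} a_{k+t} + ∏_{t<n} c_{k-t} = ∏ a + ∏ c (Finset.prod over range n of a (k + t) equals the product over ZMod n:
bijection t ↦ k + t; e.g. Fin.prod_univ_eq_prod_range, Equiv). The linear functional b.coord k kills S(n,k).
-/

namespace MP_372ad9_gt

open Finset

variable {n : ℕ} [NeZero n] {V : Type*} [AddCommGroup V] [Module ℂ V]

/-- The span of the vectors strictly inside the walk. -/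
def walkS (b : Module.Basis (ZMod n) ℂ V) (k : ZMod n) (j : ℕ) : Submodule ℂ V :=
  Submodule.span ℂ {v | ∃ i : ℤ, |i| + 2 ≤ j ∧ Even (i + j) ∧ v = b (k + (i : ZMod n))}

omit [NeZero n] in
theorem walk_mem (b : Module.Basis (ZMod n) ℂ V) (k l : ZMod n) (j : ℕ) (i : ℤ)
    (h1 : |i| + 2 ≤ j) (h2 : Even (i + j)) (hl : l = k + (i : ZMod n)) : b l ∈ walkS b k j :=
  Submodule.subset_span ⟨i, h1, h2, by rw [hl]⟩

omit [NeZero n] in
theorem walk_step (b : Module.Basis (ZMod n) ℂ V) (M : Module.End ℂ V) (a c : ZMod n → ℂ)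
    (hM : ∀ k, M (b k) = a k • b (k + 1) + c k • b (k - 1)) (k : ZMod n) (j : ℕ) {v : V}
    (hv : v ∈ walkS b k j) : M v ∈ walkS b k (j + 1) := by
  induction hv using Submodule.span_induction with
  | mem x hx =>
    obtain ⟨i, h1, h2, rfl⟩ := hx
    rw [hM]
    refine Submodule.add_mem _ (Submodule.smul_mem _ _ ?_) (Submodule.smul_mem _ _ ?_)
    · refine walk_mem b k _ (j + 1) (i + 1) ?_ ?_ ?_
      · have := abs_add_le i 1
        rw [abs_one] at this
        push_cast
        linarith
      · obtain ⟨r, hr⟩ := h2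
        exact ⟨r + 1, by push_cast; linarith⟩
      · push_cast; ring
    · refine walk_mem b k _ (j + 1) (i - 1) ?_ ?_ ?_
      · have := abs_sub i 1
        rw [abs_one] at this
        push_cast
        linarith
      · obtain ⟨r, hr⟩ := h2
        exact ⟨r, by push_cast; linarith⟩
      · push_cast; ring
  | zero => rw [map_zero]; exact Submodule.zero_mem _
  | add x y _ _ hx hy => rw [map_add]; exact Submodule.add_mem _ hx hy
  | smul r x _ hx => rw [map_smul]; exact Submodule.smul_mem _ _ hx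

omit [NeZero n] in
theorem walk_mono (b : Module.Basis (ZMod n) ℂ V) (k : ZMod n) (j : ℕ) :
    walkS b k j ≤ walkS b k (j + 2) := by
  refine Submodule.span_mono ?_
  rintro v ⟨i, h1, h2, rfl⟩
  refine ⟨i, ?_, ?_, rfl⟩
  · push_cast; linarith
  · obtain ⟨r, hr⟩ := h2
    exact ⟨r + 1, by push_cast; linarith⟩

omit [NeZero n] in
theorem walk_main (b : Module.Basis (ZMod n) ℂ V) (M : Module.End ℂ V) (a c : ZMod n → ℂ)
    (hM : ∀ k, M (b k) = a k • b (k + 1) + c k • b (k - 1)) (k : ZMod n) (j : ℕ) :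
    (∃ s ∈ walkS b k (j + 1), Polynomial.aeval M (cheb (j + 1)) (b k) =
      (∏ t ∈ range (j + 1), a (k + (t : ZMod n))) • b (k + ((j + 1 : ℕ) : ZMod n)) +
      (∏ t ∈ range (j + 1), c (k - (t : ZMod n))) • b (k - ((j + 1 : ℕ) : ZMod n)) + s) ∧
    (∃ s ∈ walkS b k (j + 2), Polynomial.aeval M (cheb (j + 2)) (b k) =
      (∏ t ∈ range (j + 2), a (k + (t : ZMod n))) • b (k + ((j + 2 : ℕ) : ZMod n)) +
      (∏ t ∈ range (j + 2), c (k - (t : ZMod n))) • b (k - ((j + 2 : ℕ) : ZMod n)) + s) := by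
  induction j with
  | zero =>
    refine ⟨⟨0, Submodule.zero_mem _, ?_⟩, ?_⟩
    · simp [cheb, hM]
    · refine ⟨(a k * c (k + 1) + c k * a (k - 1) - 2) • b k, Submodule.smul_mem _ _
        (walk_mem b k k (0 + 2) 0 (by simp) (by simp) (by simp)), ?_⟩
      have h2 : Polynomial.aeval M (cheb (0 + 2)) (b k) = M (M (b k)) - (2 : ℂ) • b k := by
        have : cheb (0 + 2) = Polynomial.X * Polynomial.X - Polynomial.C 2 := by
          rw [cheb, cheb, cheb, ← Polynomial.C_ofNat]
        rw [this, map_sub, map_mul, Polynomial.aeval_X, Polynomial.aeval_C,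
          LinearMap.sub_apply, Module.End.mul_apply, Module.algebraMap_end_apply]
      rw [h2, hM, map_add, map_smul, map_smul, hM, hM]
      simp only [zero_add, prod_range_succ, prod_range_zero, one_mul, Nat.cast_zero, add_zero,
        sub_zero, Nat.cast_one, Nat.cast_ofNat]
      rw [show k + 1 - 1 = k by ring, show k - 1 + 1 = k by ring,
        show k + 1 + 1 = k + 2 by ring, show k - 1 - 1 = k - 2 by ring]
      module
  | succ j ih =>
    obtain ⟨⟨s1, hs1, e1⟩, ⟨s2, hs2, e2⟩⟩ := ih
    refine ⟨⟨s2, hs2, e2⟩, ?_⟩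
    have h3 : Polynomial.aeval M (cheb (j + 1 + 2)) (b k) =
        M (Polynomial.aeval M (cheb (j + 2)) (b k)) - Polynomial.aeval M (cheb (j + 1)) (b k) := by
      have : cheb (j + 1 + 2) = Polynomial.X * cheb (j + 2) - cheb (j + 1) := by rw [cheb]
      rw [this, map_sub, map_mul, Polynomial.aeval_X, LinearMap.sub_apply, Module.End.mul_apply]
    refine ⟨((∏ t ∈ range (j + 2), a (k + (t : ZMod n))) * c (k + ((j + 2 : ℕ) : ZMod n))) •
        b (k + ((j + 1 : ℕ) : ZMod n)) +
      ((∏ t ∈ range (j + 2), c (k - (t : ZMod n))) * a (k - ((j + 2 : ℕ) : ZMod n))) •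
        b (k - ((j + 1 : ℕ) : ZMod n)) + M s2 -
      Polynomial.aeval M (cheb (j + 1)) (b k), ?_, ?_⟩
    · have m1 : b (k + ((j + 1 : ℕ) : ZMod n)) ∈ walkS b k (j + 1 + 2) := by
        refine walk_mem b k _ _ ((j + 1 : ℕ) : ℤ) ?_ ?_ ?_
        · rw [Nat.abs_cast]; push_cast; linarith
        · exact ⟨(j : ℤ) + 2, by push_cast; ring⟩
        · push_cast; ring
      have m2 : b (k - ((j + 1 : ℕ) : ZMod n)) ∈ walkS b k (j + 1 + 2) := by
        refine walk_mem b k _ _ (-((j + 1 : ℕ) : ℤ)) ?_ ?_ ?_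
        · rw [abs_neg, Nat.abs_cast]; push_cast; linarith
        · exact ⟨1, by push_cast; ring⟩
        · push_cast; ring
      refine Submodule.sub_mem _ (Submodule.add_mem _ (Submodule.add_mem _
        (Submodule.smul_mem _ _ m1) (Submodule.smul_mem _ _ m2)) ?_) ?_
      · exact walk_step b M a c hM k (j + 2) hs2
      · rw [e1]
        exact Submodule.add_mem _ (Submodule.add_mem _
          (Submodule.smul_mem _ _ m1) (Submodule.smul_mem _ _ m2)) (walk_mono b k (j + 1) hs1)
    · rw [h3]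
      nth_rewrite 1 [e2]
      rw [map_add, map_add, map_smul, map_smul, hM, hM, prod_range_succ _ (j + 2),
        prod_range_succ _ (j + 2)]
      rw [show k + ((j + 2 : ℕ) : ZMod n) + 1 = k + ((j + 1 + 2 : ℕ) : ZMod n) by push_cast; ring,
        show k + ((j + 2 : ℕ) : ZMod n) - 1 = k + ((j + 1 : ℕ) : ZMod n) by push_cast; ring,
        show k - ((j + 2 : ℕ) : ZMod n) + 1 = k - ((j + 1 : ℕ) : ZMod n) by push_cast; ring,
        show k - ((j + 2 : ℕ) : ZMod n) - 1 = k - ((j + 1 + 2 : ℕ) : ZMod n) by push_cast; ring]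
      module

theorem walk_prod_add (f : ZMod n → ℂ) (k : ZMod n) :
    ∏ t ∈ range n, f (k + (t : ZMod n)) = ∏ l, f l := by
  rw [← Equiv.prod_comp (Equiv.addLeft k) f]
  refine Finset.prod_nbij' (fun t => (t : ZMod n)) (fun z => z.val) ?_ ?_ ?_ ?_ ?_
  · intro t _; exact mem_univ _
  · intro z _; exact mem_range.2 (ZMod.val_lt z)
  · intro t ht; exact ZMod.val_cast_of_lt (mem_range.1 ht)
  · intro z _; exact ZMod.natCast_zmod_val z
  · intro t _; rfl

theorem walk_prod_sub (f : ZMod n → ℂ) (k : ZMod n) :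
    ∏ t ∈ range n, f (k - (t : ZMod n)) = ∏ l, f l := by
  rw [← Equiv.prod_comp (Equiv.subLeft k) f]
  refine Finset.prod_nbij' (fun t => (t : ZMod n)) (fun z => z.val) ?_ ?_ ?_ ?_ ?_
  · intro t _; exact mem_univ _
  · intro z _; exact mem_range.2 (ZMod.val_lt z)
  · intro t ht; exact ZMod.val_cast_of_lt (mem_range.1 ht)
  · intro z _; exact ZMod.natCast_zmod_val z
  · intro t _; rfl

omit [NeZero n] in
theorem walk_coord (hn : Odd n) (b : Module.Basis (ZMod n) ℂ V) (k : ZMod n) {s : V}
    (hs : s ∈ walkS b k n) : b.repr s k = 0 := by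
  induction hs using Submodule.span_induction with
  | mem x hx =>
    obtain ⟨i, h1, h2, rfl⟩ := hx
    rw [Module.Basis.repr_self, Finsupp.single_apply, if_neg]
    intro he
    have h0 : (i : ZMod n) = 0 := by
      have := congrArg (fun z => z - k) he
      simpa using this
    rw [ZMod.intCast_zmod_eq_zero_iff_dvd] at h0
    by_cases hi : i = 0
    · subst hi
      rw [zero_add] at h2
      have : Even n := by exact_mod_cast h2
      exact (Nat.not_even_iff_odd.2 hn) this
    · have := Int.le_of_dvd (abs_pos.2 hi) ((dvd_abs _ _).2 h0)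
      linarith
  | zero => rw [map_zero]; rfl
  | add x y _ _ hx hy => rw [map_add, Finsupp.add_apply, hx, hy, add_zero]
  | smul r x _ hx => rw [map_smul, Finsupp.smul_apply, hx, smul_zero]

theorem cheb_walk (hn : Odd n) (h3 : 3 ≤ n) (b : Module.Basis (ZMod n) ℂ V)
    (M X : Module.End ℂ V) (a c nu : ZMod n → ℂ)
    (hM : ∀ k, M (b k) = a k • b (k + 1) + c k • b (k - 1))
    (hX : ∀ k, X (b k) = nu k • b k) (hnu : Function.Injective nu)
    (hcom : Polynomial.aeval M (cheb n) * X = X * Polynomial.aeval M (cheb n)) :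
    Polynomial.aeval M (cheb n) = ((∏ k, a k) + ∏ k, c k) • (1 : Module.End ℂ V) := by
  obtain ⟨m, rfl⟩ : ∃ m, n = m + 1 := ⟨n - 1, by omega⟩
  have key : ∀ k, b.repr (Polynomial.aeval M (cheb (m + 1)) (b k)) k = (∏ k, a k) + ∏ k, c k := by
    intro k
    obtain ⟨s, hs, e⟩ := (walk_main b M a c hM k m).1
    rw [e, walk_prod_add, walk_prod_sub, ZMod.natCast_self, add_zero, sub_zero, map_add, map_add,
      map_smul, map_smul, Module.Basis.repr_self, Finsupp.add_apply, Finsupp.add_apply,
      walk_coord hn b k hs]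
    simp
  have diag : ∀ k l, l ≠ k → b.repr (Polynomial.aeval M (cheb (m + 1)) (b k)) l = 0 := by
    intro k l hl
    have h1 := congrArg (fun N : Module.End ℂ V => N (b k)) hcom
    simp only [Module.End.mul_apply] at h1
    rw [hX, map_smul] at h1
    have h2 : ∀ v : V, b.repr (X v) l = nu l * b.repr v l := by
      intro v
      conv_lhs => rw [← b.sum_repr v]
      simp only [map_sum, map_smul, hX]
      rw [Finsupp.finsetSum_apply, Finset.sum_eq_single l]
      · simp [mul_comm]
      · intro i _ hi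
        simp [Finsupp.single_apply, hi]
      · intro h; exact absurd (mem_univ _) h
    have h3 := congrArg (fun v => b.repr v l) h1
    simp only [h2, map_smul, Finsupp.smul_apply, smul_eq_mul] at h3
    have h4 : (nu k - nu l) * b.repr (Polynomial.aeval M (cheb (m + 1)) (b k)) l = 0 := by
      rw [sub_mul, h3, sub_self]
    rcases mul_eq_zero.1 h4 with h5 | h5
    · exact absurd (hnu (sub_eq_zero.1 h5)).symm hl
    · exact h5
  refine b.ext fun k => ?_
  refine b.repr.injective (Finsupp.ext fun l => ?_)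
  rw [LinearMap.smul_apply, Module.End.one_apply, map_smul, Module.Basis.repr_self,
    Finsupp.smul_apply]
  by_cases hl : l = k
  · subst hl
    rw [key]
    simp
  · rw [diag k l hl, Finsupp.single_apply, if_neg (Ne.symm hl), smul_zero]

end MP_372ad9_gt
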