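import Pool.Agent.Lib.MP_372ad9_gt.AzBasis
import Pool.Agent.Lib.MP_372ad9_gt.AzWalk
import Pool.Agent.Lib.MP_372ad9_gt.AzComm

set_option autoImplicit false

/-
ROW AzVal (about 110 lines). Values of T_n on a cyclic chain basis. q = A^2, u_k = u q^k, x_k = nd A u k, GChn in AzMat.

gchn_x: aeval x (cheb n) b_k = T_n(nd) b_k, T_n(-(u_k + u_k⁻¹)) = -(u_k^n + u_k⁻ⁿ) = -(u^n + u⁻ⁿ) (n odd, cheb_eval with -u_k;
 qz_pow).
gchn_y: cheb_walk with M = y, X = x, nu = nd A u (injective by nd_inj); commutation: cheb_comm for the rotated triple: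
 t.rot.rot : TriP p A z x y and t.rot : TriP p A y z x; cheb_comm_z h t.rot : T_n(y) x = x T_n(y).
gchn_z: cheb_walk with M = z, a'_k = -(A u_k a_k), c'_k = -(A u_k⁻¹ b_k); cheb_comm h t.rot.rot : T_n(z) x = x T_n(z).
 ∏ -(A u_k a_k) = (-1)^n A^n u^n (∏ qz) ∏ a = u^n ∏ a since (-1)^n A^n = 1 (prod_qz). Similarly for the other product.
gchn_w: w = tw A x z y = A⁻¹ x z - A⁻² y. On b_k: coefficient of b_{k+1}: A⁻¹ x_{k+1} (-(A u_k a_k)) - A⁻² a_k
 = a_k ((q u_k + q⁻¹ u_k⁻¹) u_k - q⁻¹) = q u_k^2 a_k ; coefficient of b_{k-1}: A⁻¹ x_{k-1} (-(A u_k⁻¹ b_k)) - A⁻² b_k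
 = b_k ((q⁻¹ u_k + q u_k⁻¹) u_k⁻¹ - q⁻¹) = q u_k⁻² b_k. Commutation of T_n(w) with x: (t.twist h.A_ne) : TriP p A x z w,
 rot.rot of it : TriP p A w x z, cheb_comm. ∏ q u_k^2 a_k = q^n u^(2n) (∏ qz)^2 ∏ a = (u^n)^2 ∏ a, etc.
For distinctness of k+1 and k-1 nothing is needed (cheb_walk takes any coefficients).
-/

namespace MP_372ad9_gt

open Finset

variable {n : ℕ} [NeZero n] {p A u : ℂ} {V : Type*} [AddCommGroup V] [Module ℂ V]
  {x y z : Module.End ℂ V} {a b : ZMod n → ℂ} {e : Module.Basis (ZMod n) ℂ V}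

/-- The action of the twisted element on the chain. -/
theorem gchn_tw (h : Par n A) (hu : u ≠ 0) (c : GChn p A u a b x y z e) (k : ZMod n) :
    tw A x z y (e k) = (A ^ 2 * (u * qz A k) ^ 2 * a k) • e (k + 1) +
      (A ^ 2 * ((u * qz A k) ^ 2)⁻¹ * b k) • e (k - 1) := by
  have hA := h.A_ne
  have hw : u * qz A (k - 1) ≠ 0 := mul_ne_zero hu (qz_ne h _)
  have h2 : u * qz A k = A ^ 2 * (u * qz A (k - 1)) := by
    rw [qz_pred h k]
    ring
  have h1 : u * qz A (k + 1) = A ^ 2 * (A ^ 2 * (u * qz A (k - 1))) := by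
    rw [qz_succ h, qz_pred h k]
    ring
  rw [tw, LinearMap.sub_apply, LinearMap.smul_apply, LinearMap.smul_apply, Module.End.mul_apply,
    c.ez, map_add, map_smul, map_smul, c.ex, c.ex, c.ey, h1, h2]
  generalize u * qz A (k - 1) = w at hw
  match_scalars <;> field_simp <;> ring

theorem gchn_x (h : Par n A) (hu : u ≠ 0) (c : GChn p A u a b x y z e) :
    Polynomial.aeval x (cheb n) = (-(u ^ n + (u ^ n)⁻¹)) • (1 : Module.End ℂ V) := by
  refine e.ext fun k => ?_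
  have hw : u * qz A k ≠ 0 := mul_ne_zero hu (qz_ne h _)
  have hv : x.HasEigenvector (-(u * qz A k + (u * qz A k)⁻¹)) (e k) :=
    ⟨Module.End.mem_eigenspace_iff.2 (c.ex k), e.ne_zero k⟩
  have h1 : -(u * qz A k + (u * qz A k)⁻¹) = -(u * qz A k) + (-(u * qz A k))⁻¹ := by
    rw [inv_neg]
    ring
  rw [Module.End.aeval_apply_of_hasEigenvector hv, h1, (cheb_eval _ (neg_ne_zero.2 hw) n).1,
    LinearMap.smul_apply, Module.End.one_apply, inv_pow, h.odd.neg_pow, mul_pow, qz_pow h, mul_one,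
    inv_neg, neg_add]

theorem gchn_y (h : Par n A) (hu : u ≠ 0) (hu2 : (u ^ n) ^ 2 ≠ 1) (t : TriP p A x y z)
    (c : GChn p A u a b x y z e) :
    Polynomial.aeval y (cheb n) = ((∏ k, a k) + ∏ k, b k) • (1 : Module.End ℂ V) :=
  cheb_walk h.odd h.three e y x a b (nd A u) c.ey (fun k => c.ex k) (nd_inj h hu hu2)
    (cheb_comm_z h t.rot)

theorem azval_prod (h : Par n A) (f : ZMod n → ℂ) :
    ∏ k, -(A * (u * qz A k) * f k) = u ^ n * ∏ k, f k := by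
  have h1 : ∀ k : ZMod n, -(A * (u * qz A k) * f k) = (-A * u) * qz A k * f k := by
    intro k
    ring
  rw [prod_congr rfl fun k _ => h1 k, prod_mul_distrib, prod_mul_distrib, prod_const, prod_qz h,
    card_univ, ZMod.card, mul_pow, h.odd.neg_pow, h.pow]
  ring

theorem azval_prod' (h : Par n A) (f : ZMod n → ℂ) :
    ∏ k, -(A * (u * qz A k)⁻¹ * f k) = (u ^ n)⁻¹ * ∏ k, f k := by
  have h1 : ∀ k : ZMod n, -(A * (u * qz A k)⁻¹ * f k) = (-A * u⁻¹) * (qz A k)⁻¹ * f k := by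
    intro k
    rw [mul_inv]
    ring
  rw [prod_congr rfl fun k _ => h1 k, prod_mul_distrib, prod_mul_distrib, prod_const,
    prod_inv_distrib, prod_qz h, card_univ, ZMod.card, mul_pow, h.odd.neg_pow, h.pow, inv_pow]
  ring

theorem gchn_z (h : Par n A) (hu : u ≠ 0) (hu2 : (u ^ n) ^ 2 ≠ 1) (t : TriP p A x y z)
    (c : GChn p A u a b x y z e) :
    Polynomial.aeval z (cheb n) =
      (u ^ n * (∏ k, a k) + (u ^ n)⁻¹ * ∏ k, b k) • (1 : Module.End ℂ V) := by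
  rw [cheb_walk h.odd h.three e z x (fun k => -(A * (u * qz A k) * a k))
    (fun k => -(A * (u * qz A k)⁻¹ * b k)) (nd A u) c.ez (fun k => c.ex k) (nd_inj h hu hu2)
    (cheb_comm h t.rot.rot), azval_prod h, azval_prod' h]

theorem azval_prod2 (h : Par n A) (f : ZMod n → ℂ) :
    ∏ k, (A ^ 2 * (u * qz A k) ^ 2 * f k) = (u ^ n) ^ 2 * ∏ k, f k := by
  have h1 : ∀ k : ZMod n, A ^ 2 * (u * qz A k) ^ 2 * f k = (A ^ 2 * u ^ 2) * qz A k ^ 2 * f k := by
    intro k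
    ring
  rw [prod_congr rfl fun k _ => h1 k, prod_mul_distrib, prod_mul_distrib, prod_const, prod_pow,
    prod_qz h, card_univ, ZMod.card, mul_pow, h.prim.pow_eq_one]
  ring

theorem azval_prod2' (h : Par n A) (f : ZMod n → ℂ) :
    ∏ k, (A ^ 2 * ((u * qz A k) ^ 2)⁻¹ * f k) = ((u ^ n) ^ 2)⁻¹ * ∏ k, f k := by
  have h1 : ∀ k : ZMod n, A ^ 2 * ((u * qz A k) ^ 2)⁻¹ * f k =
      (A ^ 2 * (u ^ 2)⁻¹) * (qz A k ^ 2)⁻¹ * f k := by
    intro k
    rw [mul_pow, mul_inv]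
    ring
  rw [prod_congr rfl fun k _ => h1 k, prod_mul_distrib, prod_mul_distrib, prod_const,
    prod_inv_distrib, prod_pow, prod_qz h, card_univ, ZMod.card, mul_pow, h.prim.pow_eq_one,
    inv_pow]
  ring

theorem gchn_w (h : Par n A) (hu : u ≠ 0) (hu2 : (u ^ n) ^ 2 ≠ 1) (t : TriP p A x y z)
    (c : GChn p A u a b x y z e) :
    Polynomial.aeval (tw A x z y) (cheb n) =
      ((u ^ n) ^ 2 * (∏ k, a k) + ((u ^ n) ^ 2)⁻¹ * ∏ k, b k) • (1 : Module.End ℂ V) := by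
  rw [cheb_walk h.odd h.three e (tw A x z y) x (fun k => A ^ 2 * (u * qz A k) ^ 2 * a k)
    (fun k => A ^ 2 * ((u * qz A k) ^ 2)⁻¹ * b k) (nd A u) (gchn_tw h hu c) (fun k => c.ex k)
    (nd_inj h hu hu2) (cheb_comm h (t.twist h.A_ne).rot.rot), azval_prod2 h, azval_prod2' h]

end MP_372ad9_gt
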