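import Pool.Agent.Lib.MP_372ad9_gt.AzDhA
import Pool.Agent.Lib.MP_372ad9_gt.AzDhB
import Pool.Agent.Lib.MP_372ad9_gt.AzVal

set_option autoImplicit false

/-
ROW AzDhC (about 90 lines). Values of T_n on the dihedral line. U = I^n, U^2 = (-1)^n = -1 (n odd), (I^n)^2 ≠ 1.
cheb_dX: gchn_x: value -(U + U⁻¹) = 0 since U⁻¹ = -U. (Transport from endomorphisms to matrices: Matrix.toLin' is an algebra
 equivalence Matrix.toLinAlgEquiv'; aeval commutes: Polynomial.aeval_algHom_apply.)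
cheb_dY: gchn_y (with dh_gchn and TriP of the endomorphisms by gchn_triP): aeval dY (cheb n) = s • 1, s = ∏ da + ∏ db. By dT_Y:
 dT * aeval dY (cheb n) = aeval (-dY) (cheb n) * dT = - aeval dY (cheb n) * dT (n odd; aeval (-M) (cheb n) = - aeval M (cheb n)), so 2 s dT = 0 and
 s = 0 (dT^2 = 1 ≠ 0). So also ∏ db = - ∏ da.
cheb_dZ: at T = T_n(r^2+2) = 6: (∏ da)(∏ db) = ∏_k cc (by dab, reindex k+1) = (U^2 + U⁻² + 6)/(U - U⁻¹)^2 = (-2 + 6)/(2U)^2 = 4/(-4) = -1 (prod_cc with u = I),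
 so (∏ da)^2 = 1. gchn_z: value U ∏ da + U⁻¹ ∏ db = 2 U ∏ da =: -ζ; ζ^2 = 4 U^2 = -4.
dh_cpt: CPt n (r^2+2) 0 0 ζ: 0 = 0; ζ^2 (0 - 2) = 8; 4 + 4 = (2 - 6)(-2) = 8; 0 ≠ 4.
-/

namespace MP_372ad9_gt

variable {n : ℕ} [NeZero n] {A : ℂ}

theorem azDhC_tr (M : Matrix (ZMod n) (ZMod n) ℂ) (f : Polynomial ℂ) (c : ℂ)
    (hM : Polynomial.aeval (Matrix.toLin' M : Module.End ℂ (ZMod n → ℂ)) f =
      c • (1 : Module.End ℂ (ZMod n → ℂ))) :
    Polynomial.aeval M f = c • (1 : Matrix (ZMod n) (ZMod n) ℂ) := by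
  have h1 : Polynomial.aeval (Matrix.toLin' M : Module.End ℂ (ZMod n → ℂ)) f =
      (Matrix.toLinAlgEquiv' : Matrix (ZMod n) (ZMod n) ℂ ≃ₐ[ℂ] _) (Polynomial.aeval M f) :=
    Polynomial.aeval_algHom_apply
      (Matrix.toLinAlgEquiv' : Matrix (ZMod n) (ZMod n) ℂ ≃ₐ[ℂ] _).toAlgHom M f
  apply (Matrix.toLinAlgEquiv' : Matrix (ZMod n) (ZMod n) ℂ ≃ₐ[ℂ] _).injective
  rw [← h1, hM, map_smul, map_one]

theorem azDhC_U (h : Par n A) : (Complex.I ^ n) ^ 2 = -1 := by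
  rw [← pow_mul, mul_comm, pow_mul, Complex.I_sq, h.odd.neg_one_pow]

theorem azDhC_U2 (h : Par n A) : (Complex.I ^ n) ^ 2 ≠ 1 := by
  rw [azDhC_U h]; norm_num

theorem azDhC_inv (h : Par n A) : (Complex.I ^ n)⁻¹ = -(Complex.I ^ n) := by
  have h1 := azDhC_U h
  have h0 : (Complex.I ^ n : ℂ) ≠ 0 := pow_ne_zero _ Complex.I_ne_zero
  apply inv_eq_of_mul_eq_one_right
  linear_combination -h1

/-- The product of an anticommuting element with the values of the Chebyshev polynomials. -/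
theorem azDhC_anti {E : Type*} [Ring E] [Algebra ℂ E] {T Y : E} (hT : T * Y = -(Y * T)) (m : ℕ) :
    T * Polynomial.aeval Y (cheb m) = (-1 : E) ^ m * (Polynomial.aeval Y (cheb m) * T) ∧
    T * Polynomial.aeval Y (cheb (m + 1)) =
      (-1 : E) ^ (m + 1) * (Polynomial.aeval Y (cheb (m + 1)) * T) := by
  induction m with
  | zero =>
    constructor
    · have h2 : Polynomial.aeval Y (cheb 0) = (2 : E) := by
        rw [cheb, map_ofNat]
      rw [h2, pow_zero, one_mul, mul_two, two_mul]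
    · have h2 : Polynomial.aeval Y (cheb (0 + 1)) = Y := by
        rw [cheb, Polynomial.aeval_X]
      rw [h2, hT, zero_add, pow_one, neg_one_mul]
  | succ m ih =>
    refine ⟨ih.2, ?_⟩
    have h2 : Polynomial.aeval Y (cheb (m + 1 + 1)) =
        Y * Polynomial.aeval Y (cheb (m + 1)) - Polynomial.aeval Y (cheb m) := by
      rw [cheb, map_sub, map_mul, Polynomial.aeval_X]
    have hc : ∀ k : ℕ, Commute Y ((-1 : E) ^ k) := fun k => (Commute.neg_one_right Y).pow_right k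
    rw [h2, mul_sub, ← mul_assoc, hT, neg_mul, mul_assoc, ih.2, ih.1, ← mul_assoc Y,
      (hc (m + 1)).eq]
    generalize Polynomial.aeval Y (cheb (m + 1)) = P
    generalize Polynomial.aeval Y (cheb m) = Q
    rw [pow_succ (-1 : E) (m + 1), pow_succ (-1 : E) m]
    noncomm_ring

theorem azDhC_ty (h : Par n A) (r : ℂ) :
    Polynomial.aeval (dY A r : Matrix (ZMod n) (ZMod n) ℂ) (cheb n) =
      ((∏ k : ZMod n, da A r k) + ∏ k : ZMod n, db A r k) • (1 : Matrix (ZMod n) (ZMod n) ℂ) := by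
  apply azDhC_tr
  exact gchn_y h Complex.I_ne_zero (azDhC_U2 h)
    (gchn_triP h Complex.I_ne_zero (azDhC_U2 h) (dh_gchn h r)) (dh_gchn h r)

theorem cheb_dX (h : Par n A) :
    Polynomial.aeval (mX A Complex.I : Matrix (ZMod n) (ZMod n) ℂ) (cheb n) = 0 := by
  have h1 := azDhC_tr _ _ _ (gchn_x h Complex.I_ne_zero (dh_gchn h 0))
  rw [h1, azDhC_inv h, add_neg_cancel, neg_zero, zero_smul]

theorem cheb_dY (h : Par n A) (r : ℂ) :
    Polynomial.aeval (dY A r : Matrix (ZMod n) (ZMod n) ℂ) (cheb n) = 0 := by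
  have h1 := (azDhC_anti (dT_Y h r) n).1
  rw [azDhC_ty h r, h.odd.neg_one_pow, neg_one_mul] at h1
  rw [azDhC_ty h r]
  generalize (∏ k : ZMod n, da A r k) + ∏ k : ZMod n, db A r k = s at h1 ⊢
  rw [mul_smul_comm, mul_one, smul_mul_assoc, one_mul] at h1
  have h2 : s • (dT : Matrix (ZMod n) (ZMod n) ℂ) = 0 := by
    have h3 : (2 : ℂ) • (s • (dT : Matrix (ZMod n) (ZMod n) ℂ)) = 0 := by
      rw [two_smul]
      nth_rewrite 1 [h1]
      rw [neg_add_cancel]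
    calc s • (dT : Matrix (ZMod n) (ZMod n) ℂ) =
        (2⁻¹ : ℂ) • ((2 : ℂ) • (s • (dT : Matrix (ZMod n) (ZMod n) ℂ))) := by
          rw [smul_smul (2⁻¹ : ℂ), inv_mul_cancel₀ (by norm_num), one_smul]
      _ = 0 := by rw [h3, smul_zero]
  rw [← dT_sq h, ← smul_mul_assoc, h2, zero_mul]

theorem azDhC_s (h : Par n A) (r : ℂ) : (∏ k : ZMod n, da A r k) + ∏ k : ZMod n, db A r k = 0 := by
  have h1 := azDhC_ty h r
  rw [cheb_dY h r] at h1
  have h2 := congrFun (congrFun h1 0) 0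
  simpa using h2.symm

theorem cheb_dZ (h : Par n A) (r : ℂ) (hr : (cheb n).eval (r ^ 2 + 2) = 6) :
    ∃ ζ : ℂ, ζ ^ 2 = -4 ∧
      Polynomial.aeval (dZ A r : Matrix (ZMod n) (ZMod n) ℂ) (cheb n) = (-ζ) • 1 := by
  have hz := azDhC_tr _ _ _ (gchn_z h Complex.I_ne_zero (azDhC_U2 h)
    (gchn_triP h Complex.I_ne_zero (azDhC_U2 h) (dh_gchn h r)) (dh_gchn h r))
  refine ⟨-(Complex.I ^ n * (∏ k : ZMod n, da A r k) + (Complex.I ^ n)⁻¹ * ∏ k : ZMod n, db A r k), ?_, ?_⟩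
  · have h1 := azDhC_s h r
    have h2 := prod_cc (p := r ^ 2 + 2) (u := Complex.I) h Complex.I_ne_zero (azDhC_U2 h)
    have h3 : ∏ k : ZMod n, cc (r ^ 2 + 2) A (Complex.I * qz A k) =
        (∏ k : ZMod n, da A r k) * ∏ k : ZMod n, db A r k := by
      have h4 : ∏ k : ZMod n, db A r k = ∏ k : ZMod n, db A r (k + 1) :=
        (Equiv.prod_comp (Equiv.addRight (1 : ZMod n)) (fun k => db A r k)).symm
      rw [h4, ← Finset.prod_mul_distrib]
      exact Finset.prod_congr rfl fun k _ => (dab h r k).symm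
    have hU := azDhC_U h
    rw [h3, hr, azDhC_inv h] at h2
    rw [azDhC_inv h]
    generalize (∏ k : ZMod n, da A r k) = a at h1 h2 ⊢
    generalize (∏ k : ZMod n, db A r k) = b at h1 h2 ⊢
    generalize (Complex.I ^ n : ℂ) = U at hU h2 ⊢
    have hb : b = -a := by linear_combination h1
    subst hb
    have h5 : (U - -U) ^ 2 = -4 := by linear_combination 4 * hU
    rw [h5, hU] at h2
    have h6 : a ^ 2 = 1 := by
      have : a * -a = -1 := by rw [h2]; norm_num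
      linear_combination -this
    linear_combination 4 * U ^ 2 * h6 + 4 * hU
  · rw [neg_neg]
    exact hz

theorem dh_cpt {r ζ : ℂ} (hζ : ζ ^ 2 = -4) (hr : (cheb n).eval (r ^ 2 + 2) = 6) :
    CPt n (r ^ 2 + 2) 0 0 ζ := by
  refine ⟨by ring, ?_, ?_, by norm_num⟩
  · rw [hζ]; norm_num
  · rw [hr]; norm_num

end MP_372ad9_gt
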