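import Pool.Agent.Lib.MP_372ad9_gt.AzMat

set_option autoImplicit false

namespace MP_372ad9_gt

variable {p A : ℂ} {E : Type*} [Ring E] [Algebra ℂ E] {x y z : E}

theorem TriP.rot (t : TriP p A x y z) : TriP p A y z x where
  xy := t.yz
  yz := t.zx
  zx := t.xy
  cub := by
    have h1 := congrArg (fun u => u * z) t.xy
    have h3 := congrArg (fun u => y * u) t.zx
    simp only [sub_mul, mul_sub, smul_mul_assoc, mul_smul_comm, ← mul_assoc] at h1 h3
    linear_combination (norm := module) h3 - h1 + t.cub

theorem TriP.swap (t : TriP p A x y z) : TriP p A⁻¹ y x z where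
  xy := by
    have := t.xy
    rw [inv_pow, inv_inv, inv_inv]
    linear_combination (norm := module) - this
  yz := by
    have := t.zx
    rw [inv_pow, inv_inv, inv_inv]
    linear_combination (norm := module) - this
  zx := by
    have := t.yz
    rw [inv_pow, inv_inv, inv_inv]
    linear_combination (norm := module) - this
  cub := by
    have h1 := congrArg (fun u => u * z) t.xy
    simp only [sub_mul, smul_mul_assoc] at h1
    rw [inv_pow, inv_inv]
    linear_combination (norm := module) t.cub - h1

theorem TriP.neg_xy (t : TriP p A x y z) : TriP p A (-x) (-y) z where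
  xy := by
    have := t.xy
    rw [neg_mul_neg, neg_mul_neg]
    exact this
  yz := by
    have := t.yz
    rw [neg_mul, mul_neg]
    linear_combination (norm := module) - this
  zx := by
    have := t.zx
    rw [neg_mul, mul_neg]
    linear_combination (norm := module) - this
  cub := by
    rw [neg_mul_neg, neg_mul_neg, neg_mul_neg]
    exact t.cub

theorem TriP.neg_yz (t : TriP p A x y z) : TriP p A x (-y) (-z) :=
  (t.rot.neg_xy).rot.rot

/-- The effect of one Dehn twist. -/
theorem TriP.twist (hA : A ≠ 0) (t : TriP p A x y z) : TriP p A x z (tw A x z y) where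
  xy := by
    have := t.zx
    rw [tw]
    linear_combination (norm := skip) (-(A⁻¹)^2) • this
    match_scalars <;> field_simp <;> ring
  yz := by
    have h3 := congrArg (fun u => u * z) t.zx
    have h2 := t.yz
    rw [tw]
    simp only [sub_mul, mul_sub, smul_mul_assoc, mul_smul_comm, ← mul_assoc] at h2 h3 ⊢
    linear_combination (norm := skip) h2 + A⁻¹ • h3
    match_scalars <;> field_simp <;> ring
  zx := by
    have h3 := congrArg (fun u => x * u) t.zx
    have h1 := t.xy
    rw [tw]
    simp only [sub_mul, mul_sub, smul_mul_assoc, mul_smul_comm, ← mul_assoc] at h1 h3 ⊢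
    linear_combination (norm := skip) h1 + A⁻¹ • h3
    match_scalars <;> field_simp <;> ring
  cub := by
    have h1 := congrArg (fun u => u * z) t.xy
    have hc := t.cub
    rw [tw]
    simp only [sub_mul, mul_sub, smul_mul_assoc, mul_smul_comm, ← mul_assoc] at h1 hc ⊢
    linear_combination (norm := skip) hc - h1
    match_scalars <;> field_simp <;> ring

theorem tw_swap (hA : A ≠ 0) (t : TriP p A x y z) : tw A⁻¹ y z x = tw A z y x := by
  have := t.yz
  rw [tw, tw, inv_pow, inv_inv, inv_inv]
  linear_combination (norm := skip) this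
  match_scalars <;> field_simp <;> ring

theorem tw_inv (hA : A ≠ 0) (t : TriP p A x y z) : tw A y x z = A • (x * y) - A ^ 2 • z := by
  have := t.xy
  rw [tw]
  linear_combination (norm := skip) -this
  match_scalars <;> field_simp <;> ring

theorem TriP.twistL (hA : A ≠ 0) (t : TriP p A x y z) : TriP p A z y (tw A z y x) := by
  have h1 := (t.swap.twist (inv_ne_zero hA)).swap
  rw [inv_inv, tw_swap hA t] at h1
  exact h1

theorem TriP.fi (hA : A ≠ 0) (t : TriP p A x y z) :
    TriP p A (fi A (x, y, z)).1 (fi A (x, y, z)).2.1 (fi A (x, y, z)).2.2 :=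
  (((t.twist hA).twist hA).twistL hA).twistL hA

/-- The triple after the change `x ↔ y`. -/
theorem TriP.S (hA : A ≠ 0) (t : TriP p A x y z) : TriP p A y x (tw A y x z) :=
  t.rot.twist hA

end MP_372ad9_gt
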