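import Pool.Agent.Lib.MP_372ad9_gt.Tri

set_option autoImplicit false

namespace MP_372ad9_gt

open Finset

variable {n : ℕ} {A : ℂ} {E : Type*} [Ring E] [Algebra ℂ E] {x y z : E}

theorem mod_two_ne (h : Par n A) (k : ℕ) : (k + 2) % n ≠ k % n := by
  intro e
  have h1 : k + 2 ≡ k + 0 [MOD n] := e
  have h2 := Nat.ModEq.add_left_cancel' k h1
  have h3 : n ∣ 2 := (Nat.modEq_zero_iff_dvd).mp h2
  have := Nat.le_of_dvd (by norm_num) h3
  have := h.three
  omega

theorem mod_succ_cancel {k l : ℕ} (e : (k + 1) % n = (l + 1) % n) : k % n = l % n :=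
  Nat.ModEq.add_right_cancel' 1 e

theorem ext_left (h : Par n A) (hx : Polynomial.aeval x (cheb n) = 0) {B B' : E}
    (hB : ∀ l < n, pr n A x l * B = pr n A x l * B') : B = B' := by
  calc B = (∑ l ∈ range n, pr n A x l) * B := by rw [sum_pr h hx, one_mul]
    _ = (∑ l ∈ range n, pr n A x l) * B' := by
      rw [sum_mul, sum_mul]
      exact sum_congr rfl (fun l hl => hB l (mem_range.mp hl))
    _ = B' := by rw [sum_pr h hx, one_mul]

/-- Only neighbouring blocks survive. -/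
theorem nb (h : Par n A) (hx : Polynomial.aeval x (cheb n) = 0) {u : E}
    (hu : ∀ l k : ℕ, l % n ≠ (k + 1) % n → k % n ≠ (l + 1) % n →
      pr n A x l * u * pr n A x k = 0) (k : ℕ) :
    u * pr n A x (k + 1) = pr n A x (k + 2) * u * pr n A x (k + 1) +
      pr n A x k * u * pr n A x (k + 1) := by
  apply ext_left h hx
  intro l _
  have e1 : pr n A x l * (pr n A x (k + 2) * u * pr n A x (k + 1)) =
      if l % n = (k + 2) % n then pr n A x l * u * pr n A x (k + 1) else 0 := by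
    rw [mul_assoc (pr n A x (k + 2)), ← mul_assoc, pr_mul_pr h hx]
    by_cases h1 : l % n = (k + 2) % n
    · rw [if_pos h1, if_pos h1, mul_assoc]
    · rw [if_neg h1, if_neg h1, zero_mul]
  have e2 : pr n A x l * (pr n A x k * u * pr n A x (k + 1)) =
      if l % n = k % n then pr n A x l * u * pr n A x (k + 1) else 0 := by
    rw [mul_assoc (pr n A x k), ← mul_assoc, pr_mul_pr h hx]
    by_cases h1 : l % n = k % n
    · rw [if_pos h1, if_pos h1, mul_assoc]
    · rw [if_neg h1, if_neg h1, zero_mul]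
  rw [mul_add, e1, e2, ← mul_assoc]
  by_cases h1 : l % n = (k + 2) % n
  · have h2 : l % n ≠ k % n := by
      rw [h1]; exact mod_two_ne h k
    rw [if_pos h1, if_neg h2, add_zero]
  · by_cases h2 : l % n = k % n
    · rw [if_neg h1, if_pos h2, zero_add]
    · rw [if_neg h1, if_neg h2, add_zero]
      apply hu l (k + 1) h1
      intro h3
      exact h2 (mod_succ_cancel h3).symm

theorem adj_z (h : Par n A) (hx : Polynomial.aeval x (cheb n) = 0) (t : Tri A x y z) (l k : ℕ)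
    (h1 : l % n ≠ (k + 1) % n) (h2 : k % n ≠ (l + 1) % n) :
    pr n A x l * z * pr n A x k = 0 := by
  have e1 := blk_z h hx t l k
  rw [blk_adj h hx t h1 h2, smul_zero] at e1
  exact (smul_eq_zero.mp e1).resolve_left h.sub_ne

theorem z_up (h : Par n A) (hx : Polynomial.aeval x (cheb n) = 0) (t : Tri A x y z) (k : ℕ) :
    pr n A x (k + 1) * z * pr n A x k =
      (-Complex.I * A * (A ^ 2) ^ k) • (pr n A x (k + 1) * y * pr n A x k) := by
  have e1 := blk_z h hx t (k + 1) k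
  have hA := h.A_ne
  have ha : (A ^ 2) ^ k ≠ 0 := pow_ne_zero _ h.q_ne
  have e2 : A * ch A (k + 1) - A⁻¹ * ch A k =
      (A ^ 2 - (A ^ 2)⁻¹) * (-Complex.I * A * (A ^ 2) ^ k) := by
    rw [ch, ch, pow_succ]
    generalize (A ^ 2) ^ k = a at ha
    field_simp
    ring
  rw [e2, mul_smul] at e1
  exact smul_right_injective E h.sub_ne e1

theorem z_dn (h : Par n A) (hx : Polynomial.aeval x (cheb n) = 0) (t : Tri A x y z) (k : ℕ) :
    pr n A x k * z * pr n A x (k + 1) =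
      (Complex.I * A⁻¹ * ((A ^ 2) ^ k)⁻¹) • (pr n A x k * y * pr n A x (k + 1)) := by
  have e1 := blk_z h hx t k (k + 1)
  have hA := h.A_ne
  have ha : (A ^ 2) ^ k ≠ 0 := pow_ne_zero _ h.q_ne
  have e2 : A * ch A k - A⁻¹ * ch A (k + 1) =
      (A ^ 2 - (A ^ 2)⁻¹) * (Complex.I * A⁻¹ * ((A ^ 2) ^ k)⁻¹) := by
    rw [ch, ch, pow_succ]
    generalize (A ^ 2) ^ k = a at ha
    field_simp
    ring
  rw [e2, mul_smul] at e1
  exact smul_right_injective E h.sub_ne e1

/-- The round trip `V_{k+1} → V_{k+2} → V_{k+1}` is a scalar. -/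
theorem round (h : Par n A) (hx : Polynomial.aeval x (cheb n) = 0) (t : Tri A x y z) (k : ℕ) :
    (((A ^ 2) ^ (k + 1) + ((A ^ 2) ^ (k + 1))⁻¹) *
      ((A ^ 2) ^ (k + 2) + ((A ^ 2) ^ (k + 2))⁻¹)) •
      (pr n A x (k + 1) * y * (pr n A x (k + 2) * y * pr n A x (k + 1))) =
    (((A ^ 2) ^ (k + 1) - ((A ^ 2) ^ (k + 1))⁻¹) *
      ((A ^ 2) ^ (k + 2) - ((A ^ 2) ^ (k + 2))⁻¹)) • pr n A x (k + 1) := by
  have hA := h.A_ne
  have ha : (A ^ 2) ^ k ≠ 0 := pow_ne_zero _ h.q_ne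
  set P0 := pr n A x k with hP0
  set P1 := pr n A x (k + 1) with hP1
  set P2 := pr n A x (k + 2) with hP2
  have ny : y * P1 = P2 * y * P1 + P0 * y * P1 :=
    nb h hx (fun l k h1 h2 => blk_adj h hx t h1 h2) k
  have nz : z * P1 = P2 * z * P1 + P0 * z * P1 :=
    nb h hx (fun l k h1 h2 => adj_z h hx t l k h1 h2) k
  have zu1 : P2 * z * P1 = (-Complex.I * A * (A ^ 2) ^ (k + 1)) • (P2 * y * P1) :=
    z_up h hx t (k + 1)
  have zu0 : P1 * z * P0 = (-Complex.I * A * (A ^ 2) ^ k) • (P1 * y * P0) := z_up h hx t k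
  have zd1 : P1 * z * P2 = (Complex.I * A⁻¹ * ((A ^ 2) ^ (k + 1))⁻¹) • (P1 * y * P2) :=
    z_dn h hx t (k + 1)
  have zd0 : P0 * z * P1 = (Complex.I * A⁻¹ * ((A ^ 2) ^ k)⁻¹) • (P0 * y * P1) := z_dn h hx t k
  set U := P1 * y * (P2 * y * P1) with hU
  set D := P1 * y * (P0 * y * P1) with hD
  have hyy : P1 * (y * y) * P1 = U + D := by
    rw [hU, hD, ← mul_add, ← ny]; simp only [mul_assoc]
  have hyz : P1 * (y * z) * P1 = (-Complex.I * A * (A ^ 2) ^ (k + 1)) • U +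
      (Complex.I * A⁻¹ * ((A ^ 2) ^ k)⁻¹) • D := by
    have e1 : P1 * y * (P2 * z * P1) = (-Complex.I * A * (A ^ 2) ^ (k + 1)) • U := by
      rw [zu1, mul_smul_comm]
    have e2 : P1 * y * (P0 * z * P1) = (Complex.I * A⁻¹ * ((A ^ 2) ^ k)⁻¹) • D := by
      rw [zd0, mul_smul_comm]
    rw [← e1, ← e2, ← mul_add, ← nz]
    simp only [mul_assoc]
  have hzU : P1 * z * (P2 * y * P1) = (Complex.I * A⁻¹ * ((A ^ 2) ^ (k + 1))⁻¹) • U := by
    rw [hU, ← mul_assoc, ← mul_assoc, zd1, smul_mul_assoc, smul_mul_assoc]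
    simp only [mul_assoc]
  have hzD : P1 * z * (P0 * y * P1) = (-Complex.I * A * (A ^ 2) ^ k) • D := by
    rw [hD, ← mul_assoc, ← mul_assoc, zu0, smul_mul_assoc, smul_mul_assoc]
    simp only [mul_assoc]
  have hzy : P1 * (z * y) * P1 = (Complex.I * A⁻¹ * ((A ^ 2) ^ (k + 1))⁻¹) • U +
      (-Complex.I * A * (A ^ 2) ^ k) • D := by
    rw [← hzU, ← hzD, ← mul_add, ← ny]
    simp only [mul_assoc]
  have hzz : P1 * (z * z) * P1 = U + D := by
    have e1 : P1 * (z * z) * P1 = P1 * z * (P2 * z * P1) + P1 * z * (P0 * z * P1) := by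
      rw [← mul_add, ← nz]; simp only [mul_assoc]
    rw [e1, zu1, zd0, mul_smul_comm, mul_smul_comm, hzU, hzD, smul_smul, smul_smul]
    have c1 : (-Complex.I * A * (A ^ 2) ^ (k + 1)) *
        (Complex.I * A⁻¹ * ((A ^ 2) ^ (k + 1))⁻¹) = 1 := by
      rw [pow_succ]
      generalize (A ^ 2) ^ k = a at ha
      field_simp
      rw [Complex.I_sq]; norm_num
    have c2 : (Complex.I * A⁻¹ * ((A ^ 2) ^ k)⁻¹) * (-Complex.I * A * (A ^ 2) ^ k) = 1 := by
      generalize (A ^ 2) ^ k = a at ha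
      field_simp
      rw [Complex.I_sq]; norm_num
    rw [c1, c2, one_smul, one_smul]
  have hx1 : P1 * x = ch A (k + 1) • P1 := pr_mul h hx (k + 1)
  have hpp : P1 * P1 = P1 := pr_idem h hx (k + 1)
  have E2 := congrArg (fun u => P1 * u * P1) t.yz
  simp only [sub_mul, mul_sub, smul_mul_assoc, mul_smul_comm] at E2
  rw [hyz, hzy, hx1, smul_mul_assoc, hpp] at E2
  have E1 := congrArg (fun u => P1 * u * P1) t.cub
  simp only [add_mul, mul_add, smul_mul_assoc, mul_smul_comm] at E1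
  have e3 : P1 * (x * y * z) * P1 = ch A (k + 1) • (P1 * (y * z) * P1) := by
    rw [mul_assoc x y z, ← mul_assoc P1 x, hx1, smul_mul_assoc, smul_mul_assoc]
  have e4 : P1 * (x * x) * P1 = (ch A (k + 1) * ch A (k + 1)) • P1 := by
    rw [← mul_assoc P1 x, hx1, smul_mul_assoc, hx1, smul_mul_assoc, smul_mul_assoc, hpp,
      smul_smul]
  rw [e3, e4, hyz, hyy, hzz] at E1
  linear_combination (norm := skip) (-1 : ℂ) • E1 +
    (Complex.I * ((A ^ 2) ^ (k + 1))⁻¹) • E2
  rw [ch]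
  simp only [pow_succ (A ^ 2) (k + 1), pow_succ (A ^ 2) k]
  generalize (A ^ 2) ^ k = a at ha
  have hI : Complex.I ^ 2 = -1 := Complex.I_sq
  generalize Complex.I = i at hI
  match_scalars <;> field_simp
  all_goals (rw [hI]; ring)

end MP_372ad9_gt
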