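import Pool.Agent.Lib.MP_372ad9_gt.Tri
import Pool.Agent.Lib.MP_372ad9_gt.Blocks
import Pool.Agent.Lib.MP_372ad9_gt.AzTri

set_option autoImplicit false

/-
Squared Dehn twists are Gaussians of x, when T_n(x) = 0.
-/

namespace MP_372ad9_gt

variable {n : ℕ} {p A : ℂ} {E : Type*} [Ring E] [Algebra ℂ E] {x y z : E}

theorem azD_blk_z (h : Par n A) (hx : Polynomial.aeval x (cheb n) = 0) (t : TriP p A x y z)
    (l k : ℕ) :
    (A ^ 2 - (A ^ 2)⁻¹) • (pr n A x l * z * pr n A x k) =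
      (A * ch A l - A⁻¹ * ch A k) • (pr n A x l * y * pr n A x k) := by
  have h1 := congrArg (fun u => pr n A x l * u * pr n A x k) t.xy
  simp only [sub_mul, mul_sub, smul_mul_assoc, mul_smul_comm] at h1
  have e1 : pr n A x l * (x * y) * pr n A x k = ch A l • (pr n A x l * y * pr n A x k) := by
    rw [← mul_assoc, pr_mul h hx, smul_mul_assoc, smul_mul_assoc]
  have e2 : pr n A x l * (y * x) * pr n A x k = ch A k • (pr n A x l * y * pr n A x k) := by
    rw [← mul_assoc, mul_assoc, mul_pr h hx, mul_smul_comm]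
  rw [e1, e2] at h1
  linear_combination (norm := module) - h1

theorem azD_blk_y (h : Par n A) (hx : Polynomial.aeval x (cheb n) = 0) (t : TriP p A x y z)
    (l k : ℕ) :
    (A ^ 2 - (A ^ 2)⁻¹) • (pr n A x l * y * pr n A x k) =
      (A * ch A k - A⁻¹ * ch A l) • (pr n A x l * z * pr n A x k) := by
  have h1 := congrArg (fun u => pr n A x l * u * pr n A x k) t.zx
  simp only [sub_mul, mul_sub, smul_mul_assoc, mul_smul_comm] at h1
  have e1 : pr n A x l * (x * z) * pr n A x k = ch A l • (pr n A x l * z * pr n A x k) := by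
    rw [← mul_assoc, pr_mul h hx, smul_mul_assoc, smul_mul_assoc]
  have e2 : pr n A x l * (z * x) * pr n A x k = ch A k • (pr n A x l * z * pr n A x k) := by
    rw [← mul_assoc, mul_assoc, mul_pr h hx, mul_smul_comm]
  rw [e1, e2] at h1
  linear_combination (norm := module) - h1

theorem azD_blk_adj (h : Par n A) (hx : Polynomial.aeval x (cheb n) = 0) (t : TriP p A x y z)
    {l k : ℕ} (h1 : l % n ≠ (k + 1) % n) (h2 : k % n ≠ (l + 1) % n) :
    pr n A x l * y * pr n A x k = 0 := by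
  have e1 := azD_blk_z h hx t l k
  have e2 := azD_blk_y h hx t l k
  have e3 : ((A ^ 2 - (A ^ 2)⁻¹) ^ 2 -
      (A * ch A k - A⁻¹ * ch A l) * (A * ch A l - A⁻¹ * ch A k)) •
      (pr n A x l * y * pr n A x k) = 0 := by
    linear_combination (norm := module) (A ^ 2 - (A ^ 2)⁻¹) • e2 +
      (A * ch A k - A⁻¹ * ch A l) • e1
  refine (smul_eq_zero.mp e3).resolve_left ?_
  have hA := h.A_ne
  have ha : (A ^ 2) ^ k ≠ 0 := pow_ne_zero _ h.q_ne
  have hb : (A ^ 2) ^ l ≠ 0 := pow_ne_zero _ h.q_ne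
  have n1 : (A ^ 2) ^ l - (A ^ 2) ^ k * A ^ 2 ≠ 0 := by
    intro h0
    apply h1
    rw [← pow_eq_iff h, pow_succ]
    exact sub_eq_zero.mp h0
  have n2 : (A ^ 2) ^ k - (A ^ 2) ^ l * A ^ 2 ≠ 0 := by
    intro h0
    apply h2
    rw [← pow_eq_iff h, pow_succ]
    exact sub_eq_zero.mp h0
  have n3 : (A ^ 2) ^ k * (A ^ 2) ^ l * A ^ 2 + 1 ≠ 0 := by
    intro h0
    apply h.pow_ne_neg_one (k + l + 1)
    rw [pow_succ, pow_add]
    exact eq_neg_of_add_eq_zero_left h0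
  have n4 : (A ^ 2) ^ k * (A ^ 2) ^ l + A ^ 2 ≠ 0 := by
    intro h0
    apply h.pow_ne_neg_one (k + l + (n - 1))
    have h3 : (A ^ 2) ^ (n - 1) * A ^ 2 = 1 := by
      rw [← pow_succ, Nat.sub_add_cancel (by have := h.three; omega), h.prim.pow_eq_one]
    rw [pow_add, pow_add]
    have h4 := eq_neg_of_add_eq_zero_left h0
    rw [h4]
    linear_combination - h3
  have key : ((A ^ 2 - (A ^ 2)⁻¹) ^ 2 -
      (A * ch A k - A⁻¹ * ch A l) * (A * ch A l - A⁻¹ * ch A k)) *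
      (((A ^ 2) ^ k) ^ 2 * ((A ^ 2) ^ l) ^ 2 * (A ^ 2) ^ 2) =
      ((A ^ 2) ^ l - (A ^ 2) ^ k * A ^ 2) * ((A ^ 2) ^ k - (A ^ 2) ^ l * A ^ 2) *
      ((A ^ 2) ^ k * (A ^ 2) ^ l * A ^ 2 + 1) * ((A ^ 2) ^ k * (A ^ 2) ^ l + A ^ 2) := by
    rw [ch, ch]
    generalize (A ^ 2) ^ k = a at ha
    generalize (A ^ 2) ^ l = b at hb
    field_simp
    ring_nf
    rw [Complex.I_sq]
    ring
  intro h0
  rw [h0, zero_mul] at key
  exact (mul_ne_zero (mul_ne_zero (mul_ne_zero n1 n2) n3) n4) key.symm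

theorem azD_adj_z (h : Par n A) (hx : Polynomial.aeval x (cheb n) = 0) (t : TriP p A x y z)
    (l k : ℕ) (h1 : l % n ≠ (k + 1) % n) (h2 : k % n ≠ (l + 1) % n) :
    pr n A x l * z * pr n A x k = 0 := by
  have e1 := azD_blk_z h hx t l k
  rw [azD_blk_adj h hx t h1 h2, smul_zero] at e1
  exact (smul_eq_zero.mp e1).resolve_left h.sub_ne

theorem azD_z_up (h : Par n A) (hx : Polynomial.aeval x (cheb n) = 0) (t : TriP p A x y z)
    (k : ℕ) :
    pr n A x (k + 1) * z * pr n A x k =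
      (-Complex.I * A * (A ^ 2) ^ k) • (pr n A x (k + 1) * y * pr n A x k) := by
  have e1 := azD_blk_z h hx t (k + 1) k
  have hA := h.A_ne
  have ha : (A ^ 2) ^ k ≠ 0 := pow_ne_zero _ h.q_ne
  have e2 : A * ch A (k + 1) - A⁻¹ * ch A k =
      (A ^ 2 - (A ^ 2)⁻¹) * (-Complex.I * A * (A ^ 2) ^ k) := by
    rw [ch, ch, pow_succ]
    generalize (A ^ 2) ^ k = a at ha
    field_simp
    ring
  rw [e2, mul_smul] at e1
  exact smul_right_injective E h.sub_ne e1

theorem azD_z_dn (h : Par n A) (hx : Polynomial.aeval x (cheb n) = 0) (t : TriP p A x y z)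
    (k : ℕ) :
    pr n A x k * z * pr n A x (k + 1) =
      (Complex.I * A⁻¹ * ((A ^ 2) ^ k)⁻¹) • (pr n A x k * y * pr n A x (k + 1)) := by
  have e1 := azD_blk_z h hx t k (k + 1)
  have hA := h.A_ne
  have ha : (A ^ 2) ^ k ≠ 0 := pow_ne_zero _ h.q_ne
  have e2 : A * ch A k - A⁻¹ * ch A (k + 1) =
      (A ^ 2 - (A ^ 2)⁻¹) * (Complex.I * A⁻¹ * ((A ^ 2) ^ k)⁻¹) := by
    rw [ch, ch, pow_succ]
    generalize (A ^ 2) ^ k = a at ha
    field_simp
    ring
  rw [e2, mul_smul] at e1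
  exact smul_right_injective E h.sub_ne e1

/-- The projections depend only on the index modulo `n`. -/
theorem azD_pr (x : E) {l k : ℕ} (e : l % n = k % n) : pr n A x l = pr n A x k := by
  rw [pr, pr, e]

/-- The Gaussian depends only on the index modulo `n`. -/
theorem azD_g (h : Par n A) {l k : ℕ} (e : l % n = k % n) :
    (A ^ 2) ^ (l ^ 2) = (A ^ 2) ^ (k ^ 2) := by
  rw [pow_eq_iff h]
  exact Nat.ModEq.pow 2 e

/-- The block identity. -/
theorem azD_blk (h : Par n A) (hx : Polynomial.aeval x (cheb n) = 0) (t : TriP p A x y z)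
    (l k : ℕ) :
    (A ^ 2) ^ (k ^ 2) • ((A⁻¹ * ch A l) • (pr n A x l * z * pr n A x k) -
      (A ^ 2)⁻¹ • (pr n A x l * y * pr n A x k)) =
    -((A ^ 2) ^ (l ^ 2) • (pr n A x l * y * pr n A x k)) := by
  have hA := h.A_ne
  by_cases h1 : l % n = (k + 1) % n
  · rw [azD_pr x h1, azD_g h h1]
    have hc : ch A l = ch A (k + 1) := by rw [← ch_mod h, h1, ch_mod h]
    rw [hc, azD_z_up h hx t k, smul_smul, ← sub_smul, smul_smul, ← neg_smul]
    congr 1
    have e1 : (A ^ 2) ^ ((k + 1) ^ 2) = (A ^ 2) ^ (k ^ 2) * ((A ^ 2) ^ k) ^ 2 * A ^ 2 := by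
      rw [← pow_mul (A ^ 2) k 2, ← pow_add, ← pow_succ]
      congr 1; ring
    have ha : (A ^ 2) ^ k ≠ 0 := pow_ne_zero _ h.q_ne
    rw [e1, ch, pow_succ (A ^ 2) k]
    generalize (A ^ 2) ^ (k ^ 2) = b
    generalize (A ^ 2) ^ k = a at ha
    have hI : Complex.I ^ 2 = -1 := Complex.I_sq
    generalize Complex.I = i at hI
    field_simp
    rw [hI]
    ring
  by_cases h2 : k % n = (l + 1) % n
  · rw [azD_pr x h2, azD_g h h2, azD_z_dn h hx t l, smul_smul, ← sub_smul, smul_smul, ← neg_smul]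
    congr 1
    have e1 : (A ^ 2) ^ ((l + 1) ^ 2) = (A ^ 2) ^ (l ^ 2) * ((A ^ 2) ^ l) ^ 2 * A ^ 2 := by
      rw [← pow_mul (A ^ 2) l 2, ← pow_add, ← pow_succ]
      congr 1; ring
    have ha : (A ^ 2) ^ l ≠ 0 := pow_ne_zero _ h.q_ne
    rw [e1, ch]
    generalize (A ^ 2) ^ (l ^ 2) = b
    generalize (A ^ 2) ^ l = a at ha
    have hI : Complex.I ^ 2 = -1 := Complex.I_sq
    generalize Complex.I = i at hI
    field_simp
    rw [hI]
    ring
  · rw [azD_adj_z h hx t l k h1 h2, azD_blk_adj h hx t h1 h2, smul_zero, smul_zero, smul_zero,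
      sub_zero, smul_zero, neg_zero]

theorem dh_twist (h : Par n A) (t : TriP p A x y z) (hx : Polynomial.aeval x (cheb n) = 0) :
    tw A x z y * op n A x (fun k => (A ^ 2) ^ (k ^ 2)) =
      -(op n A x (fun k => (A ^ 2) ^ (k ^ 2)) * y) := by
  apply ext_blocks h hx
  intro l hl k hk
  rw [mul_neg, neg_mul, mul_assoc (pr n A x l), mul_assoc (tw A x z y), op_mul_pr h hx,
    ← mul_assoc (pr n A x l) (op n A x _) y, pr_mul_op h hx, Nat.mod_eq_of_lt hl,
    Nat.mod_eq_of_lt hk, mul_smul_comm, mul_smul_comm, smul_mul_assoc, smul_mul_assoc,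
    ← azD_blk h hx t l k, tw]
  congr 1
  rw [sub_mul, mul_sub, smul_mul_assoc, smul_mul_assoc, mul_smul_comm, mul_smul_comm,
    mul_smul, ← smul_mul_assoc (ch A l), ← smul_mul_assoc (ch A l), ← pr_mul h hx]
  simp only [mul_assoc]

theorem dh_twistL (h : Par n A) (t : TriP p A x y z) (hy : Polynomial.aeval y (cheb n) = 0) :
    tw A z y x * op n A y (fun k => ((A ^ 2) ^ (k ^ 2))⁻¹) =
      -(op n A y (fun k => ((A ^ 2) ^ (k ^ 2))⁻¹) * x) := by
  have h1 := dh_twist h.inv t.swap hy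
  rw [tw_swap h.A_ne t] at h1
  have hn := h.three
  have key : op n A⁻¹ y (fun k => (A⁻¹ ^ 2) ^ (k ^ 2)) =
      op n A y (fun k => ((A ^ 2) ^ (k ^ 2))⁻¹) := by
    rw [op, op]
    apply aeval_congr h hy
    intro k hk
    rw [ipol_eval h _ hk]
    have hq : (A ^ 2) ^ k ≠ 0 := pow_ne_zero _ h.q_ne
    have e0 : (A ^ 2) ^ ((n - k) % n) = ((A ^ 2) ^ k)⁻¹ := by
      rw [pow_mod h]
      apply eq_inv_of_mul_eq_one_left
      rw [← pow_add, Nat.sub_add_cancel hk.le, h.prim.pow_eq_one]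
    have e1 : ch A⁻¹ ((n - k) % n) = ch A k := by
      rw [ch, ch, inv_pow, inv_pow, e0, inv_inv]
    have e2 := ipol_eval h.inv (fun k => (A⁻¹ ^ 2) ^ (k ^ 2)) (Nat.mod_lt (n - k) (by omega : 0 < n))
    rw [e1] at e2
    rw [e2]
    rw [inv_pow, inv_pow]
    congr 1
    rw [sq ((n - k) % n), pow_mul, e0, inv_pow, ← pow_mul, mul_comm k ((n - k) % n), pow_mul, e0,
      inv_pow, inv_inv, ← pow_mul, ← sq k]
  rw [key] at h1
  exact h1

end MP_372ad9_gt
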