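import Pool.Agent.Lib.MP_372ad9_gt.AzTri

set_option autoImplicit false

namespace MP_372ad9_gt

open Finset

section

variable {n : ℕ}

/-- `q ^ k + q ^ (-k)` -/
noncomputable def sk (A : ℂ) (k : ZMod n) : ℂ := qz A k + (qz A k)⁻¹

/-- The products of opposite entries on the dihedral line, `p = r ^ 2 + 2`. -/
noncomputable def dc (A r : ℂ) (k : ZMod n) : ℂ :=
  (A ^ 2 * qz A k ^ 2 + (A ^ 2 * qz A k ^ 2)⁻¹ - (r ^ 2 + 2)) / (sk A k * sk A (k + 1))

/-- The raising entries. -/
noncomputable def da (A r : ℂ) (k : ZMod n) : ℂ :=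
  if k.val < (n - 1) / 2 then 1 else if k.val = (n - 1) / 2 then r / sk A k else dc A r k

/-- The lowering entries. -/
noncomputable def db (A r : ℂ) (k : ZMod n) : ℂ :=
  if k.val = 0 then 1 else if k.val ≤ (n - 1) / 2 then dc A r (k - 1)
  else if k.val = (n - 1) / 2 + 1 then -(r / sk A k) else 1

noncomputable def dY (A r : ℂ) : Matrix (ZMod n) (ZMod n) ℂ := fun i k =>
  (if i = k + 1 then da A r k else 0) + (if i = k - 1 then db A r k else 0)

noncomputable def dZ (A r : ℂ) : Matrix (ZMod n) (ZMod n) ℂ := fun i k =>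
  (if i = k + 1 then -(A * (Complex.I * qz A k) * da A r k) else 0) +
  (if i = k - 1 then -(A * (Complex.I * qz A k)⁻¹ * db A r k) else 0)

/-- The sign `(-1) ^ k` for `k` between `-(n-1)/2` and `(n-1)/2`. -/
noncomputable def sg (k : ZMod n) : ℂ :=
  if k.val ≤ (n - 1) / 2 then (-1) ^ k.val else (-1) ^ (n - k.val)

/-- The involution. -/
noncomputable def dT : Matrix (ZMod n) (ZMod n) ℂ := fun i k => if i = -k then sg k else 0

/-- The Gaussian of the first matrix. -/
noncomputable def dG (A : ℂ) : Matrix (ZMod n) (ZMod n) ℂ :=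
  Matrix.diagonal (fun k => (A ^ 2) ^ (k.val ^ 2))

/-- The inverse of `dG`. -/
noncomputable def dG' (A : ℂ) : Matrix (ZMod n) (ZMod n) ℂ :=
  Matrix.diagonal (fun k => ((A ^ 2) ^ (k.val ^ 2))⁻¹)

variable [NeZero n]

/-- The inverse Gaussian of the second matrix. -/
noncomputable def dH (A r : ℂ) : Matrix (ZMod n) (ZMod n) ℂ :=
  op n A (dY A r) (fun k => ((A ^ 2) ^ (k ^ 2))⁻¹)

/-- The Gaussian of the second matrix. -/
noncomputable def dH' (A r : ℂ) : Matrix (ZMod n) (ZMod n) ℂ :=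
  op n A (dY A r) (fun k => (A ^ 2) ^ (k ^ 2))

end

/-- The product of the traces on the dihedral line. -/
noncomputable def Dd (n : ℕ) [NeZero n] (A r : ℂ) : ℂ :=
  (dG A * dH A r * dT : Matrix (ZMod n) (ZMod n) ℂ).trace *
  (dT * dH' A r * dG' A : Matrix (ZMod n) (ZMod n) ℂ).trace

end MP_372ad9_gt
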