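import Pool.Agent.Lib.MP_372ad9_gt.AzDhC
import Pool.Agent.Lib.MP_372ad9_gt.AzDhD

set_option autoImplicit false

/-
ROW AzDhE (about 130 lines). The intertwiner on the dihedral line. X = mX A I, Y = dY A r, Z = dZ A r, G = dG A, G' = dG' A, H = dH A r, H' = dH' A r, T = dT,
L = G H T, L' = T H' G'. t : TriP (r^2+2) A X Y Z (dh_triP).
(0) G = op n A X (fun k => (A^2)^(k^2)) (X diagonal with entries nd A I k = ch A k.val; a polynomial of a diagonal matrix is diagonal;
 ipol_eval), G G' = 1 = G' G (dG_mul), H H' = 1 = H' H (op_mul, op_congr, op_one with cheb_dY).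
(1) W = tw A X Z Y: W G = -(G Y) (dh_twist, cheb_dX), so W = -(G Y G'). V = tw A X W Z: the triple (X, W, V) is TriP (twist twice), so
 (q - q⁻¹) V = A X W - A⁻¹ W X = -(q - q⁻¹) G Z G' (X commutes with G): V = -(G Z G').
(2) fi A (X, Y, Z) = (F, W, K) with F = tw A V W X = G (tw A Z Y X) G' (signs cancel: X = G X G'), tw A Z Y X * H = -(H X) (dh_twistL, cheb_dY), so
 F = -(G H X H' G'). F L = -(G H X T) = G H T X = L X (dT_X).
(3) W L = -(G Y H T) = -(G H Y T) = G H T Y = L Y (Y commutes with H, dT_Y).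
(4) K: (F, W, K) is TriP (TriP.fi), (q - q⁻¹) K = A F W - A⁻¹ W F so K L = L Z from t.xy. (h.sub_ne.)
(5) L L' = G H T T H' G' = 1, L' L = 1 (dT_sq).
(6) dh_rel: take x = Matrix.toLin' X etc. in End (ZMod n → ℂ); TriP, Sh 0 0 ζ (cheb_dX, cheb_dY, cheb_dZ), CPt (dh_cpt), HasT with toLin' L, toLin' L'
 (toLinAlgEquiv' is multiplicative; fi commutes with algebra equivalences; trace: LinearMap.trace_toLin' or Matrix.trace_toLin'_eq /
 LinearMap.trace_eq_matrix_trace) and τ = L.trace * L'.trace = Dd n A r by definition.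
-/

namespace MP_372ad9_gt

variable {n : ℕ} [NeZero n] {A : ℂ}

/-- the intertwining relations in an arbitrary algebra -/
theorem azE_core {E : Type*} [Ring E] [Algebra ℂ E] {p A : ℂ} (hA : A ≠ 0)
    (hq : A ^ 2 - (A ^ 2)⁻¹ ≠ 0) {X Y Z G G' H H' T : E} (t : TriP p A X Y Z)
    (g2 : G' * G = 1) (g1 : G * G' = 1) (h1 : H * H' = 1) (h2 : H' * H = 1)
    (gx : G * X = X * G) (hy : H * Y = Y * H)
    (hW : tw A X Z Y * G = -(G * Y)) (hU : tw A Z Y X * H = -(H * X))
    (tx : T * X = -(X * T)) (ty : T * Y = -(Y * T)) :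
    (fi A (X, Y, Z)).1 * (G * H * T) = G * H * T * X ∧
      (fi A (X, Y, Z)).2.1 * (G * H * T) = G * H * T * Y ∧
      (fi A (X, Y, Z)).2.2 * (G * H * T) = G * H * T * Z := by
  have eW : tw A X Z Y = -(G * Y * G') := by
    calc tw A X Z Y = tw A X Z Y * G * G' := by rw [mul_assoc, g1, mul_one]
      _ = _ := by rw [hW, neg_mul]
  have eU : tw A Z Y X = -(H * X * H') := by
    calc tw A Z Y X = tw A Z Y X * H * H' := by rw [mul_assoc, h1, mul_one]
      _ = _ := by rw [hU, neg_mul]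
  have eX : X = G * X * G' := by rw [gx, mul_assoc, g1, mul_one]
  have eV : tw A X (tw A X Z Y) Z = -(G * Z * G') := by
    have t2 := ((t.twist hA).twist hA).xy
    have t1 := t.xy
    have e1 : X * tw A X Z Y = -(G * (X * Y) * G') := by
      rw [eW, mul_neg]
      congr 1
      rw [← mul_assoc, ← mul_assoc, ← gx]
      simp only [mul_assoc]
    have e2 : tw A X Z Y * X = -(G * (Y * X) * G') := by
      have e3 : G' * X = X * G' := by
        calc G' * X = G' * X * (G * G') := by rw [g1, mul_one]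
          _ = G' * (X * G) * G' := by simp only [mul_assoc]
          _ = G' * (G * X) * G' := by rw [gx]
          _ = (G' * G) * X * G' := by simp only [mul_assoc]
          _ = X * G' := by rw [g2, one_mul]
      rw [eW, neg_mul]
      congr 1
      rw [mul_assoc, e3]
      simp only [mul_assoc]
    rw [e1, e2] at t2
    have e4 : A • -(G * (X * Y) * G') - A⁻¹ • -(G * (Y * X) * G') =
        -(G * (A • (X * Y) - A⁻¹ • (Y * X)) * G') := by
      simp only [mul_sub, sub_mul, mul_smul_comm, smul_mul_assoc, smul_neg]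
      abel
    rw [e4, t1] at t2
    have e5 : (A ^ 2 - (A ^ 2)⁻¹) • tw A X (tw A X Z Y) Z =
        (A ^ 2 - (A ^ 2)⁻¹) • (-(G * Z * G')) := by
      rw [← t2]
      simp only [mul_smul_comm, smul_mul_assoc, smul_neg]
    have := congrArg (fun e => (A ^ 2 - (A ^ 2)⁻¹)⁻¹ • e) e5
    simpa only [smul_smul, inv_mul_cancel₀ hq, one_smul] using this
  have c1 : (fi A (X, Y, Z)).1 = tw A (tw A X (tw A X Z Y) Z) (tw A X Z Y) X := rfl
  have c2 : (fi A (X, Y, Z)).2.1 = tw A X Z Y := rfl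
  have eF : (fi A (X, Y, Z)).1 = -(G * H * X * H' * G') := by
    rw [c1, eV, eW]
    have e6 : tw A (-(G * Z * G')) (-(G * Y * G')) X = G * (tw A Z Y X) * G' := by
      have e7 : -(G * Z * G') * -(G * Y * G') = G * (Z * Y) * G' := by
        rw [neg_mul_neg]
        calc G * Z * G' * (G * Y * G') = G * Z * (G' * G) * Y * G' := by simp only [mul_assoc]
          _ = _ := by rw [g2, mul_one]; simp only [mul_assoc]
      rw [tw, tw, e7]
      conv_lhs => rw [eX]
      simp only [mul_sub, sub_mul, mul_smul_comm, smul_mul_assoc]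
    rw [e6, eU]
    simp only [mul_neg, neg_mul, mul_assoc]
  have r1 : (fi A (X, Y, Z)).1 * (G * H * T) = G * H * T * X := by
    rw [eF]
    calc -(G * H * X * H' * G') * (G * H * T) = -(G * H * X * H' * (G' * G) * H * T) := by
          simp only [neg_mul, mul_assoc]
      _ = -(G * H * X * (H' * H) * T) := by rw [g2, mul_one]; simp only [mul_assoc]
      _ = -(G * H * (X * T)) := by rw [h2, mul_one]; simp only [mul_assoc]
      _ = _ := by rw [mul_assoc (G * H) T X, tx, mul_neg]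
  have r2 : (fi A (X, Y, Z)).2.1 * (G * H * T) = G * H * T * Y := by
    rw [c2, eW]
    calc -(G * Y * G') * (G * H * T) = -(G * Y * (G' * G) * H * T) := by
          simp only [neg_mul, mul_assoc]
      _ = -(G * (Y * H) * T) := by rw [g2, mul_one]; simp only [mul_assoc]
      _ = -(G * H * (Y * T)) := by rw [← hy]; simp only [mul_assoc]
      _ = _ := by rw [mul_assoc (G * H) T Y, ty, mul_neg]
  refine ⟨r1, r2, ?_⟩
  have t3 := (t.fi hA).xy
  have t1 := t.xy
  have e8 : (A ^ 2 - (A ^ 2)⁻¹) • ((fi A (X, Y, Z)).2.2 * (G * H * T)) =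
      (A ^ 2 - (A ^ 2)⁻¹) • (G * H * T * Z) := by
    have m1 : (fi A (X, Y, Z)).1 * (fi A (X, Y, Z)).2.1 * (G * H * T) = G * H * T * (X * Y) := by
      rw [mul_assoc, r2, ← mul_assoc, r1, mul_assoc]
    have m2 : (fi A (X, Y, Z)).2.1 * (fi A (X, Y, Z)).1 * (G * H * T) = G * H * T * (Y * X) := by
      rw [mul_assoc, r1, ← mul_assoc, r2, mul_assoc]
    rw [← smul_mul_assoc, ← t3, sub_mul, smul_mul_assoc, smul_mul_assoc, m1, m2,
      ← mul_smul_comm A (G * H * T) (X * Y), ← mul_smul_comm A⁻¹ (G * H * T) (Y * X), ← mul_sub,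
      t1, mul_smul_comm]
  have := congrArg (fun e => (A ^ 2 - (A ^ 2)⁻¹)⁻¹ • e) e8
  simpa only [smul_smul, inv_mul_cancel₀ hq, one_smul] using this

theorem azE_LL {E : Type*} [Ring E] {G G' H H' T : E} (g1 : G * G' = 1) (h1 : H * H' = 1)
    (tt : T * T = 1) : G * H * T * (T * H' * G') = 1 := by
  calc G * H * T * (T * H' * G') = G * (H * (T * T) * H') * G' := by simp only [mul_assoc]
    _ = 1 := by rw [tt, mul_one, h1, mul_one, g1]

theorem azE_LL' {E : Type*} [Ring E] {G G' H H' T : E} (g2 : G' * G = 1) (h2 : H' * H = 1)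
    (tt : T * T = 1) : T * H' * G' * (G * H * T) = 1 := by
  calc T * H' * G' * (G * H * T) = T * (H' * (G' * G) * H) * T := by simp only [mul_assoc]
    _ = 1 := by rw [g2, mul_one, h2, mul_one, tt]

/-- `fi` commutes with algebra homomorphisms -/
theorem azE_fi {E F : Type*} [Ring E] [Algebra ℂ E] [Ring F] [Algebra ℂ F] (φ : E →ₐ[ℂ] F)
    (A : ℂ) (x y z : E) : fi A (φ x, φ y, φ z) =
      (φ (fi A (x, y, z)).1, φ (fi A (x, y, z)).2.1, φ (fi A (x, y, z)).2.2) := by
  simp only [fi, Lt, Rt, tw, map_sub, map_smul, map_mul]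

/-- `TriP` is preserved by algebra homomorphisms -/
theorem azE_tri {E F : Type*} [Ring E] [Algebra ℂ E] [Ring F] [Algebra ℂ F] (φ : E →ₐ[ℂ] F)
    {p A : ℂ} {x y z : E} (t : TriP p A x y z) : TriP p A (φ x) (φ y) (φ z) where
  xy := by
    have := congrArg φ t.xy
    simpa only [map_sub, map_smul, map_mul] using this
  yz := by
    have := congrArg φ t.yz
    simpa only [map_sub, map_smul, map_mul] using this
  zx := by
    have := congrArg φ t.zx
    simpa only [map_sub, map_smul, map_mul] using this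
  cub := by
    have := congrArg φ t.cub
    simpa only [map_add, map_smul, map_mul, map_one] using this

theorem azE_diag {ι : Type*} [Fintype ι] [DecidableEq ι] (d : ι → ℂ) (f : Polynomial ℂ) :
    Polynomial.aeval (Matrix.diagonal d) f = Matrix.diagonal (fun i => f.eval (d i)) := by
  induction f using Polynomial.induction_on' with
  | add f g hf hg =>
    rw [map_add, hf, hg, Matrix.diagonal_add]
    simp only [Polynomial.eval_add]
  | monomial m a =>
    rw [Polynomial.aeval_monomial, Matrix.diagonal_pow, Matrix.algebraMap_eq_diagonal,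
      Matrix.diagonal_mul_diagonal]
    simp only [Polynomial.eval_monomial]
    rfl

omit [NeZero n] in
theorem azE_nd (k : ZMod n) : nd A Complex.I k = ch A k.val := by
  rw [nd, ch, mul_inv, Complex.inv_I, qz]
  ring

theorem azE_G (h : Par n A) : (dG A : Matrix (ZMod n) (ZMod n) ℂ) =
    op n A (mX A Complex.I) (fun k => (A ^ 2) ^ (k ^ 2)) := by
  rw [op, mX, azE_diag, dG]
  congr 1
  funext k
  rw [azE_nd, ipol_eval h _ (ZMod.val_lt k)]

omit [NeZero n] in
theorem azE_comm {E : Type*} [Ring E] [Algebra ℂ E] (M : E) (φ : ℕ → ℂ) :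
    op n A M φ * M = M * op n A M φ := by
  have h1 : Polynomial.aeval M (ipol n A φ * Polynomial.X) =
      Polynomial.aeval M (Polynomial.X * ipol n A φ) := by rw [mul_comm]
  rw [map_mul, map_mul, Polynomial.aeval_X] at h1
  exact h1

omit [NeZero n] in
theorem azE_inv (h : Par n A) {E : Type*} [Ring E] [Algebra ℂ E] {M : E}
    (hM : Polynomial.aeval M (cheb n) = 0) (φ ψ : ℕ → ℂ) (hφ : ∀ k, φ k * ψ k = 1) :
    op n A M φ * op n A M ψ = 1 := by
  rw [op_mul h hM, ← op_one h hM]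
  exact op_congr h hM fun k _ => hφ k

theorem dh_rel (h : Par n A) (r : ℂ) (hr : (cheb n).eval (r ^ 2 + 2) = 6) :
    Rel n A (r ^ 2 + 2) (Dd n A r) := by
  have hA : A ≠ 0 := h.A_ne
  have hq := h.sub_ne
  have hX := cheb_dX (n := n) h
  have hY := cheb_dY (n := n) h r
  obtain ⟨ζ, hζ, hZ⟩ := cheb_dZ h r hr
  have t := dh_triP (n := n) h r
  have hpow : ∀ k : ℕ, (A ^ 2) ^ k ≠ 0 := fun k => pow_ne_zero _ h.q_ne
  have h1 : (dH A r * dH' A r : Matrix (ZMod n) (ZMod n) ℂ) = 1 :=
    azE_inv h hY _ _ fun k => inv_mul_cancel₀ (hpow _)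
  have h2 : (dH' A r * dH A r : Matrix (ZMod n) (ZMod n) ℂ) = 1 :=
    azE_inv h hY _ _ fun k => mul_inv_cancel₀ (hpow _)
  have g1 := dG_mul (n := n) h
  have g2 := dG_mul' (n := n) h
  have gx : (dG A * mX A Complex.I : Matrix (ZMod n) (ZMod n) ℂ) = mX A Complex.I * dG A := by
    rw [azE_G h]
    exact azE_comm _ _
  have hy : (dH A r * dY A r : Matrix (ZMod n) (ZMod n) ℂ) = dY A r * dH A r := azE_comm _ _
  have hW : tw A (mX A Complex.I) (dZ A r) (dY A r) * (dG A : Matrix (ZMod n) (ZMod n) ℂ) =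
      -(dG A * dY A r) := by
    rw [azE_G h]
    exact dh_twist h t hX
  have hU : tw A (dZ A r) (dY A r) (mX A Complex.I) * (dH A r : Matrix (ZMod n) (ZMod n) ℂ) =
      -(dH A r * mX A Complex.I) :=
    dh_twistL h t hY
  have tx := dT_X (n := n) h
  have ty := dT_Y (n := n) h r
  have tt := dT_sq (n := n) h
  obtain ⟨r1, r2, r3⟩ := azE_core hA hq t g2 g1 h1 h2 gx hy hW hU tx ty
  let φ : Matrix (ZMod n) (ZMod n) ℂ →ₐ[ℂ] Module.End ℂ (ZMod n → ℂ) :=
    (Matrix.toLinAlgEquiv' (R := ℂ) (n := ZMod n)).toAlgHom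
  have hφ : ∀ M : Matrix (ZMod n) (ZMod n) ℂ, φ M = Matrix.toLin' M := fun M => rfl
  refine ⟨φ (mX A Complex.I), φ (dY A r), φ (dZ A r), 0, 0, ζ, azE_tri φ t, ⟨?_, ?_, ?_⟩,
    dh_cpt hζ hr, φ (dG A * dH A r * dT), φ (dT * dH' A r * dG' A), ?_, ?_, ?_, ?_, ?_, ?_⟩
  · rw [Polynomial.aeval_algHom_apply, hX, map_zero, neg_zero, zero_smul]
  · rw [Polynomial.aeval_algHom_apply, hY, map_zero, neg_zero, zero_smul]
  · rw [Polynomial.aeval_algHom_apply, hZ, map_smul, map_one]
  · rw [← map_mul, azE_LL g1 h1 tt, map_one]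
  · rw [← map_mul, azE_LL' g2 h2 tt, map_one]
  · rw [azE_fi]
    simp only [← map_mul]
    rw [r1]
  · rw [azE_fi]
    simp only [← map_mul]
    rw [r2]
  · rw [azE_fi]
    simp only [← map_mul]
    rw [r3]
  · rw [hφ, hφ, Matrix.trace_toLin'_eq, Matrix.trace_toLin'_eq]
    rfl

end MP_372ad9_gt
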