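import Pool.Agent.Lib.MP_372ad9_gt.AzDhB

set_option autoImplicit false

/-
ROW AzDhF (about 150 lines). Dd = 1 where r^2 = A^2 + A⁻² - 2. q = A^2, m = (n-1)/2. Y = dY A r, G = dG A, H = dH A r, T = dT.
(0) Row 0 of Y vanishes: Y 0 k ≠ 0 needs 0 = k+1 or 0 = k-1. k = 1: (1 ≤ m) db 1 = dc A r 0 = (q + q⁻¹ - (r^2+2))/.. = 0.
 k = -1: val n-1 > m: da (-1) = dc A r (-1), A^2 qz(-1)^2 = q⁻¹: 0.
(1) Let P = diagonal (0 at k = 0, 1 elsewhere), F = diagonal ε with ε_0 = 0, ε_k = (-1)^k.val for 1 ≤ k.val ≤ m,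
 ε_k = -(-1)^(n - k.val) for k.val > m; ε_{-k} = -ε_k; J = F T.
 F Y P = -(Y F): entry (i,k): k = 0 both zero; i = 0: left ε_0 = 0, right -(Y 0 k) ε_k = 0 by (0); i, k ≠ 0 adjacent: ε_i = -ε_k (cases).
 T P = P T. T Y = -Y T (dT_Y). So J Y P = F T Y P = -F Y T P = -F Y P T = Y F T = Y J.
(2) J J = -P; P J = J = J P; J G = G J, J G' = G' J (G even); J T = F, T J = T F T = -F T T = -F, so J T = -(T J).
(3) P Y P = Y P by (0). For every polynomial f: J (aeval Y f) P = (aeval Y f) J (induction: J Y^(j+1) P = J Y (P Y^j P) = Y J Y^j P, using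
 Y^j P = P Y^j P).
(4) M = G H T. J M J = G (J H) T J = -G J H J T = -G (J H P) J T = -G H J J T = G H P T = M P. trace (M P) = -trace (M J J) = -trace (J M J) = -trace (M P).
 So trace (M P) = 0. (Matrix.trace_mul_comm.)
(5) trace M = trace (M P) + M 0 0; M 0 0 = G 0 0 * H 0 0 * T 0 0 = H 0 0 (T e_0 = sg 0 e_0 = e_0; G 0 0 = (A^2)^0 = 1).
 H 0 0 = constant coefficient of f = ipol, since (Y^j) 0 0 = 0 for j ≥ 1 (row 0 of Y is 0); constant coefficient = f.eval 0 = f.eval (ch A 0) = ((A^2)^0)⁻¹ = 1 (ipol_eval).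
(6) The same for M' = T H' G': J M' J = -(T J H' J) G' = T H' P G' = M' P.
-/

namespace MP_372ad9_gt

variable {n : ℕ} [NeZero n] {A : ℂ}

open Finset

/-- the signs `ε` -/
noncomputable def AzDhF_ep (k : ZMod n) : ℂ :=
  if k.val = 0 then 0 else if k.val ≤ (n - 1) / 2 then (-1) ^ k.val else -(-1) ^ (n - k.val)

theorem AzDhF_succ_val (k : ZMod n) (h1 : 1 < n) (hk : k + 1 ≠ 0) :
    (k + 1).val = k.val + 1 ∧ k.val + 1 < n := by
  have hv : (1 : ZMod n).val = 1 := by
    have : Fact (1 < n) := ⟨h1⟩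
    exact ZMod.val_one n
  have hlt := ZMod.val_lt k
  have hne : k.val + 1 ≠ n := by
    intro h
    apply hk
    have h2 : ((k.val + 1 : ℕ) : ZMod n) = 0 := by rw [h]; exact ZMod.natCast_self n
    rw [Nat.cast_add, ZMod.natCast_zmod_val, Nat.cast_one] at h2
    exact h2
  have h3 : k.val + 1 < n := by omega
  refine ⟨?_, h3⟩
  rw [ZMod.val_add_of_lt (by rw [hv]; exact h3), hv]

theorem AzDhF_neg_val (k : ZMod n) (hk : k.val ≠ 0) : (-k).val = n - k.val := by
  rw [ZMod.neg_val, if_neg]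
  intro h
  apply hk
  rw [h, ZMod.val_zero]

theorem AzDhF_ep_neg (h : Par n A) (k : ZMod n) : AzDhF_ep (-k) = -AzDhF_ep k := by
  obtain ⟨m, hm⟩ := h.odd
  have hm2 : (n - 1) / 2 = m := by omega
  by_cases hk : k.val = 0
  · have hk0 : k = 0 := (ZMod.val_eq_zero k).1 hk
    rw [hk0, neg_zero, AzDhF_ep, ZMod.val_zero, if_pos rfl, neg_zero]
  · have hv := AzDhF_neg_val k hk
    have hlt := ZMod.val_lt k
    have hk1 : (-k).val ≠ 0 := by omega
    rw [AzDhF_ep, AzDhF_ep, if_neg hk1, if_neg hk, hv, hm2]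
    by_cases h1 : k.val ≤ m
    · rw [if_neg (by omega), if_pos h1]
      have : n - (n - k.val) = k.val := by omega
      rw [this]
    · rw [if_pos (by omega), if_neg h1, neg_neg]

theorem AzDhF_ep_succ (h : Par n A) (k : ZMod n) (hk : k ≠ 0) (hk1 : k + 1 ≠ 0) :
    AzDhF_ep (k + 1) = -AzDhF_ep k := by
  obtain ⟨m, hm⟩ := h.odd
  have hm2 : (n - 1) / 2 = m := by omega
  have h3 := h.three
  obtain ⟨hv, hlt⟩ := AzDhF_succ_val k (by omega) hk1
  have hk0 : k.val ≠ 0 := fun h0 => hk ((ZMod.val_eq_zero k).1 h0)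
  have hk0' : (k + 1).val ≠ 0 := by omega
  rw [AzDhF_ep, AzDhF_ep, if_neg hk0', if_neg hk0, hv, hm2]
  by_cases h1 : k.val + 1 ≤ m
  · rw [if_pos h1, if_pos (by omega), pow_succ]
    ring
  · rw [if_neg h1]
    by_cases h2 : k.val ≤ m
    · rw [if_pos h2]
      have : n - (k.val + 1) = k.val := by omega
      rw [this]
    · rw [if_neg h2]
      have : n - k.val = (n - (k.val + 1)) + 1 := by omega
      rw [this, pow_succ]
      ring

theorem AzDhF_ep_sq (k : ZMod n) (hk : k ≠ 0) : AzDhF_ep k * AzDhF_ep k = 1 := by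
  have hk0 : k.val ≠ 0 := fun h0 => hk ((ZMod.val_eq_zero k).1 h0)
  rw [AzDhF_ep, if_neg hk0]
  split_ifs
  · rw [← mul_pow]
    norm_num
  · rw [neg_mul_neg, ← mul_pow]
    norm_num

theorem AzDhF_row (h : Par n A) (r : ℂ) (hr : r ^ 2 = A ^ 2 + (A ^ 2)⁻¹ - 2) (k : ZMod n) :
    dY A r 0 k = 0 := by
  obtain ⟨m, hm⟩ := h.odd
  have hm2 : (n - 1) / 2 = m := by omega
  have h3 := h.three
  have h1 : (1 : ZMod n).val = 1 := by
    have : Fact (1 < n) := ⟨by omega⟩
    exact ZMod.val_one n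
  have hq := h.q_ne
  unfold dY
  have e1 : (if (0 : ZMod n) = k + 1 then da A r k else 0) = 0 := by
    split_ifs with hk
    · have hk' : k = -1 := (neg_eq_of_add_eq_zero_left hk.symm).symm
      have hv : k.val = n - 1 := by
        rw [hk', AzDhF_neg_val 1 (by rw [h1]; norm_num), h1]
      rw [da, hm2, if_neg (by omega), if_neg (by omega), dc]
      have hqz : qz A k = (A ^ 2)⁻¹ := by
        rw [qz, hv]
        apply eq_inv_of_mul_eq_one_left
        rw [← pow_succ, Nat.sub_add_cancel (by omega), h.prim.pow_eq_one]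
      have hnum : A ^ 2 * qz A k ^ 2 = (A ^ 2)⁻¹ := by
        rw [hqz]
        field_simp
      rw [hnum, inv_inv, hr]
      have : (A ^ 2)⁻¹ + A ^ 2 - (A ^ 2 + (A ^ 2)⁻¹ - 2 + 2) = 0 := by ring
      rw [this, zero_div]
    · rfl
  have e2 : (if (0 : ZMod n) = k - 1 then db A r k else 0) = 0 := by
    split_ifs with hk
    · have hk' : k = 1 := (sub_eq_zero.1 hk.symm)
      rw [hk', db, h1, hm2, if_neg (by norm_num), if_pos (by omega), sub_self, dc]
      have hqz : qz A (0 : ZMod n) = 1 := by rw [qz, ZMod.val_zero, pow_zero]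
      rw [hqz, one_pow, mul_one, hr]
      have : A ^ 2 + (A ^ 2)⁻¹ - (A ^ 2 + (A ^ 2)⁻¹ - 2 + 2) = 0 := by ring
      rw [this, zero_div]
    · rfl
  rw [e1, e2, add_zero]

theorem AzDhF_conj {R : Type*} [Ring R] {J P K G T : R} (hJJ : J * J = -P) (hPJ : P * J = J)
    (hJG : J * G = G * J) (hJT : J * T = -(T * J)) (hTP : T * P = P * T)
    (hGP : G * P = P * G) (hK : J * K * P = K * J) :
    J * (G * K * T) * J = G * K * T * P ∧ J * (T * K * G) * J = T * K * G * P := by
  have hTJ : T * J = -(J * T) := by rw [hJT, neg_neg]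
  have hJKJ : J * K * J = -(K * P) := by
    calc J * K * J = J * K * (P * J) := by rw [hPJ]
      _ = J * K * P * J := by simp only [mul_assoc]
      _ = K * J * J := by rw [hK]
      _ = K * (J * J) := by simp only [mul_assoc]
      _ = -(K * P) := by rw [hJJ, mul_neg]
  constructor
  · calc J * (G * K * T) * J = (J * G) * K * (T * J) := by simp only [mul_assoc]
      _ = (G * J) * K * (-(J * T)) := by rw [hJG, hTJ]
      _ = -(G * (J * K * J) * T) := by simp only [mul_assoc, mul_neg]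
      _ = G * K * (P * T) := by rw [hJKJ]; simp only [mul_assoc, mul_neg, neg_mul, neg_neg]
      _ = G * K * T * P := by rw [← hTP]; simp only [mul_assoc]
  · calc J * (T * K * G) * J = (J * T) * K * (G * J) := by simp only [mul_assoc]
      _ = (-(T * J)) * K * (J * G) := by rw [hJT, hJG]
      _ = -(T * (J * K * J) * G) := by simp only [mul_assoc, neg_mul]
      _ = T * K * (P * G) := by rw [hJKJ]; simp only [mul_assoc, mul_neg, neg_mul, neg_neg]
      _ = T * K * G * P := by rw [← hGP]; simp only [mul_assoc]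

theorem AzDhF_tr {M J P : Matrix (ZMod n) (ZMod n) ℂ} (hJJ : J * J = -P)
    (h : J * M * J = M * P) : (M * P).trace = 0 := by
  have h1 : (M * P).trace = -(M * P).trace := by
    calc (M * P).trace = (J * (M * J)).trace := by rw [← h, Matrix.mul_assoc]
      _ = (M * J * J).trace := Matrix.trace_mul_comm _ _
      _ = -(M * P).trace := by
        rw [Matrix.mul_assoc, hJJ, Matrix.mul_neg, Matrix.trace_neg]
  linear_combination (1 / 2 : ℂ) * h1

theorem AzDhF_tr00 {M : Matrix (ZMod n) (ZMod n) ℂ}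
    (h : (M * Matrix.diagonal (fun k : ZMod n => if k = 0 then (0 : ℂ) else 1)).trace = 0) :
    M.trace = M 0 0 := by
  rw [Matrix.trace] at h ⊢
  simp only [Matrix.diag_apply, Matrix.mul_diagonal, mul_ite, mul_zero, mul_one] at h ⊢
  rw [← Finset.add_sum_erase _ _ (Finset.mem_univ (0 : ZMod n))] at h ⊢
  rw [if_pos rfl, zero_add] at h
  have h2 : ∑ x ∈ Finset.univ.erase (0 : ZMod n), M x x = 0 := by
    rw [← h]
    refine Finset.sum_congr rfl fun x hx => ?_
    rw [if_neg (Finset.ne_of_mem_erase hx)]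
  rw [h2, add_zero]

theorem AzDhF_main (h : Par n A) (r : ℂ) (hr : r ^ 2 = A ^ 2 + (A ^ 2)⁻¹ - 2)
    (φ : ℕ → ℂ) (hφ : φ 0 = 1) (g : ZMod n → ℂ) (hg : g 0 = 1)
    (hTG : (dT * Matrix.diagonal g : Matrix (ZMod n) (ZMod n) ℂ) = Matrix.diagonal g * dT) :
    (Matrix.diagonal g * op n A (dY A r) φ * dT : Matrix (ZMod n) (ZMod n) ℂ).trace = 1 ∧
    (dT * op n A (dY A r) φ * Matrix.diagonal g : Matrix (ZMod n) (ZMod n) ℂ).trace = 1 := by
  have hTT := dT_sq (n := n) h
  have hTY := dT_Y (n := n) h r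
  have hrow := AzDhF_row h r hr
  obtain ⟨Y, hY⟩ : ∃ Y : Matrix (ZMod n) (ZMod n) ℂ, Y = dY A r := ⟨_, rfl⟩
  obtain ⟨T, hT⟩ : ∃ T : Matrix (ZMod n) (ZMod n) ℂ, T = dT := ⟨_, rfl⟩
  obtain ⟨G, hG⟩ : ∃ G : Matrix (ZMod n) (ZMod n) ℂ, G = Matrix.diagonal g := ⟨_, rfl⟩
  obtain ⟨P, hP⟩ : ∃ P : Matrix (ZMod n) (ZMod n) ℂ,
    P = Matrix.diagonal (fun k : ZMod n => if k = 0 then (0 : ℂ) else 1) := ⟨_, rfl⟩
  obtain ⟨F, hF⟩ : ∃ F : Matrix (ZMod n) (ZMod n) ℂ, F = Matrix.diagonal AzDhF_ep := ⟨_, rfl⟩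
  have hep0 : AzDhF_ep (0 : ZMod n) = 0 := by rw [AzDhF_ep, ZMod.val_zero, if_pos rfl]
  have hTik : ∀ i k, T i k = if i = -k then sg k else 0 := by intro i k; rw [hT]; rfl
  have hPP : P * P = P := by
    rw [hP, Matrix.diagonal_mul_diagonal]
    congr 1
    funext k
    split_ifs <;> simp
  have hFP : F * P = F := by
    rw [hP, hF, Matrix.diagonal_mul_diagonal]
    congr 1
    funext k
    split_ifs with hk
    · rw [hk, hep0, mul_zero]
    · rw [mul_one]
  have hPF : P * F = F := by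
    rw [hP, hF, Matrix.diagonal_mul_diagonal]
    congr 1
    funext k
    split_ifs with hk
    · rw [hk, hep0, mul_zero]
    · rw [one_mul]
  have hFF : F * F = P := by
    rw [hP, hF, Matrix.diagonal_mul_diagonal]
    congr 1
    funext k
    split_ifs with hk
    · rw [hk, hep0, mul_zero]
    · exact AzDhF_ep_sq k hk
  have hGP : G * P = P * G := by
    rw [hP, hG, Matrix.diagonal_mul_diagonal, Matrix.diagonal_mul_diagonal]
    congr 1
    funext k
    rw [mul_comm]
  have hFG : F * G = G * F := by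
    rw [hF, hG, Matrix.diagonal_mul_diagonal, Matrix.diagonal_mul_diagonal]
    congr 1
    funext k
    rw [mul_comm]
  have hTP : T * P = P * T := by
    ext i k
    rw [hP, Matrix.mul_diagonal, Matrix.diagonal_mul, hTik]
    by_cases hik : i = -k
    · rw [if_pos hik]
      by_cases hk : k = 0
      · have hi : i = 0 := by rw [hik, hk, neg_zero]
        rw [if_pos hk, if_pos hi, mul_zero, zero_mul]
      · have hi : i ≠ 0 := by rw [hik]; exact neg_ne_zero.2 hk
        rw [if_neg hk, if_neg hi, mul_one, one_mul]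
    · rw [if_neg hik, zero_mul, mul_zero]
  have hTF : T * F = -(F * T) := by
    ext i k
    rw [Matrix.neg_apply, hF, Matrix.mul_diagonal, Matrix.diagonal_mul, hTik]
    by_cases hik : i = -k
    · rw [if_pos hik, hik, AzDhF_ep_neg h]
      ring
    · rw [if_neg hik, zero_mul, mul_zero, neg_zero]
  have hFYP : F * Y * P = -(Y * F) := by
    ext i k
    rw [Matrix.neg_apply, hP, hF, Matrix.mul_diagonal, Matrix.diagonal_mul, Matrix.mul_diagonal]
    by_cases hk : k = 0
    · rw [if_pos hk, hk, hep0, mul_zero, mul_zero, neg_zero]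
    · rw [if_neg hk, mul_one]
      by_cases hi : i = 0
      · rw [hi, hep0, hY, hrow, zero_mul, zero_mul, neg_zero]
      · by_cases h1 : i = k + 1
        · have h2 : AzDhF_ep i = -AzDhF_ep k := by
            rw [h1] at hi ⊢
            exact AzDhF_ep_succ h k hk hi
          rw [h2]
          ring
        · by_cases h2 : i = k - 1
          · have h3 : AzDhF_ep k = -AzDhF_ep i := by
              have h4 : k = i + 1 := by rw [h2, sub_add_cancel]
              rw [h4] at hk ⊢
              exact AzDhF_ep_succ h i hi hk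
            rw [h3]
            ring
          · have h3 : Y i k = 0 := by
              rw [hY]
              unfold dY
              rw [if_neg h1, if_neg h2, add_zero]
            rw [h3, mul_zero, zero_mul, neg_zero]
  have hPY : P * Y = Y := by
    ext i k
    rw [hP, Matrix.diagonal_mul]
    split_ifs with hi
    · rw [hi, hY, hrow, zero_mul]
    · rw [one_mul]
  rw [← hT, ← hY] at hTY
  rw [← hT] at hTT
  rw [← hT, ← hG] at hTG ⊢
  rw [← hY]
  obtain ⟨J, hJ⟩ : ∃ J : Matrix (ZMod n) (ZMod n) ℂ, J = F * T := ⟨_, rfl⟩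
  have hJJ : J * J = -P := by
    calc J * J = F * (T * F) * T := by rw [hJ]; simp only [Matrix.mul_assoc]
      _ = -((F * F) * (T * T)) := by
        rw [hTF]; simp only [Matrix.mul_assoc, Matrix.mul_neg, Matrix.neg_mul]
      _ = -P := by rw [hFF, hTT, Matrix.mul_one]
  have hPJ : P * J = J := by rw [hJ, ← Matrix.mul_assoc, hPF]
  have hJP : J * P = J := by rw [hJ, Matrix.mul_assoc, hTP, ← Matrix.mul_assoc, hFP]
  have hJG : J * G = G * J := by
    rw [hJ, Matrix.mul_assoc, hTG, ← Matrix.mul_assoc, hFG, Matrix.mul_assoc]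
  have hJT : J * T = -(T * J) := by
    have h1 : J * T = F := by rw [hJ, Matrix.mul_assoc, hTT, Matrix.mul_one]
    have h2 : T * J = -F := by
      rw [hJ, ← Matrix.mul_assoc, hTF, Matrix.neg_mul, Matrix.mul_assoc, hTT, Matrix.mul_one]
    rw [h1, h2, neg_neg]
  have hJYP : J * Y * P = Y * J := by
    calc J * Y * P = F * (T * Y) * P := by rw [hJ]; simp only [Matrix.mul_assoc]
      _ = -(F * Y * (T * P)) := by
        rw [hTY]; simp only [Matrix.mul_assoc, Matrix.mul_neg, Matrix.neg_mul]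
      _ = -((F * Y * P) * T) := by rw [hTP]; simp only [Matrix.mul_assoc]
      _ = Y * J := by
        rw [hFYP, hJ]; simp only [Matrix.mul_assoc, Matrix.neg_mul, neg_neg]
  have hPow1 : ∀ j : ℕ, P * (Y ^ j * P) = Y ^ j * P := by
    intro j
    cases j with
    | zero => rw [pow_zero, Matrix.one_mul, hPP]
    | succ j => rw [pow_succ', ← Matrix.mul_assoc, ← Matrix.mul_assoc, hPY]
  have hPow : ∀ j : ℕ, J * Y ^ j * P = Y ^ j * J := by
    intro j
    induction j with
    | zero => rw [pow_zero, Matrix.mul_one, Matrix.one_mul, hJP]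
    | succ j ih =>
      calc J * Y ^ (j + 1) * P = J * Y * (Y ^ j * P) := by
            rw [pow_succ']; simp only [Matrix.mul_assoc]
        _ = J * Y * (P * (Y ^ j * P)) := by rw [hPow1]
        _ = (J * Y * P) * (Y ^ j * P) := by simp only [Matrix.mul_assoc]
        _ = Y * (J * Y ^ j * P) := by rw [hJYP]; simp only [Matrix.mul_assoc]
        _ = Y ^ (j + 1) * J := by rw [ih, pow_succ']; simp only [Matrix.mul_assoc]
  have hpoly : ∀ f : Polynomial ℂ, J * Polynomial.aeval Y f * P = Polynomial.aeval Y f * J := by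
    intro f
    induction f using Polynomial.induction_on' with
    | add f f' hf hf' =>
      rw [map_add, Matrix.mul_add, Matrix.add_mul, Matrix.add_mul, hf, hf']
    | monomial j c =>
      rw [Polynomial.aeval_monomial, ← Algebra.smul_def, Matrix.mul_smul, Matrix.smul_mul,
        Matrix.smul_mul, hPow]
  have hrowpow : ∀ (j : ℕ) (k : ZMod n), (Y ^ (j + 1)) 0 k = 0 := by
    intro j k
    rw [pow_succ', Matrix.mul_apply]
    apply Finset.sum_eq_zero
    intro i _
    rw [hY, hrow, zero_mul]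
  have hpoly0 : ∀ f : Polynomial ℂ, (Polynomial.aeval Y f) 0 0 = f.eval 0 := by
    intro f
    induction f using Polynomial.induction_on' with
    | add f f' hf hf' => rw [map_add, Matrix.add_apply, hf, hf', Polynomial.eval_add]
    | monomial j c =>
      rw [Polynomial.aeval_monomial, ← Algebra.smul_def, Matrix.smul_apply,
        Polynomial.eval_monomial]
      cases j with
      | zero => rw [pow_zero, Matrix.one_apply_eq, pow_zero, smul_eq_mul]
      | succ j => rw [hrowpow, zero_pow (Nat.succ_ne_zero j), smul_eq_mul]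
  have hch0 : ch A 0 = 0 := by rw [ch, pow_zero, inv_one, sub_self, mul_zero]
  have h3 := h.three
  have hK00 : (op n A Y φ) 0 0 = 1 := by
    rw [op, hpoly0, ← hch0, ipol_eval h φ (by omega), hφ]
  have hT0 : ∀ k, T k 0 = if k = 0 then 1 else 0 := by
    intro k
    rw [hTik, neg_zero]
    have : sg (0 : ZMod n) = 1 := by
      rw [sg, ZMod.val_zero, if_pos (Nat.zero_le _), pow_zero]
    rw [this]
  have hT0' : ∀ k, T 0 k = if k = 0 then 1 else 0 := by
    intro k
    rw [hTik]
    by_cases hk : k = 0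
    · rw [hk, neg_zero, if_pos rfl, if_pos rfl]
      rw [sg, ZMod.val_zero, if_pos (Nat.zero_le _), pow_zero]
    · rw [if_neg hk, if_neg]
      intro h0
      exact hk (neg_eq_zero.1 h0.symm)
  obtain ⟨hc1, hc2⟩ := AzDhF_conj hJJ hPJ hJG hJT hTP hGP (hpoly (ipol n A φ))
  constructor
  · have h1 := AzDhF_tr hJJ hc1
    rw [hP] at h1
    have h2 := AzDhF_tr00 h1
    rw [op, h2, Matrix.mul_apply, Finset.sum_eq_single (0 : ZMod n)]
    · rw [hT0, if_pos rfl, mul_one, hG, Matrix.diagonal_mul, hg, one_mul]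
      exact hK00
    · intro b _ hb
      rw [hT0, if_neg hb, mul_zero]
    · intro hh
      exact absurd (Finset.mem_univ _) hh
  · have h1 := AzDhF_tr hJJ hc2
    rw [hP] at h1
    have h2 := AzDhF_tr00 h1
    rw [op, h2, hG, Matrix.mul_diagonal, hg, mul_one, Matrix.mul_apply,
      Finset.sum_eq_single (0 : ZMod n)]
    · rw [hT0', if_pos rfl, one_mul]
      exact hK00
    · intro b _ hb
      rw [hT0', if_neg hb, zero_mul]
    · intro hh
      exact absurd (Finset.mem_univ _) hh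

theorem Dd_one (h : Par n A) (r : ℂ) (hr : r ^ 2 = A ^ 2 + (A ^ 2)⁻¹ - 2) : Dd n A r = 1 := by
  have h1 := (AzDhF_main h r hr (fun k => ((A ^ 2) ^ (k ^ 2))⁻¹) (by simp)
    (fun k => (A ^ 2) ^ (k.val ^ 2)) (by simp) (dT_G h)).1
  have h2 := (AzDhF_main h r hr (fun k => (A ^ 2) ^ (k ^ 2)) (by simp)
    (fun k => ((A ^ 2) ^ (k.val ^ 2))⁻¹) (by simp) (dT_G' h)).2
  rw [Dd, dG, dG', dH, dH', h1, h2, mul_one]

end MP_372ad9_gt
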