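import Pool.Agent.Lib.MP_372ad9_gt.AzMat

set_option autoImplicit false

/-
ROW AzMb (about 100 lines). Entrywise bounds and entrywise differentiability of matrices (elementary).
mb_mul: entry of the product is a sum of n products (Matrix.mul_apply, norm_sum_le, ZMod.card).
mb_listprod: induction on the list; the empty product is 1, entries of norm ≤ 1 ≤ (n K)^0; n ≥ 1.
mb_aeval: aeval M P = sum of coefficients times powers (Polynomial.aeval_eq_sum_range), M^j has entries ≤ (n K)^j
 (by mb_listprod or induction), K ≥ 1, sum over j ≤ natDegree. State as given.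
de_*: products and list products of entrywise differentiable functions. de means: every entry is differentiable at s.
-/

namespace MP_372ad9_gt

open Finset

variable {n : ℕ} [NeZero n]

/-- All entries have norm at most `K`. -/
def mb (M : Matrix (ZMod n) (ZMod n) ℂ) (K : ℝ) : Prop := ∀ i j, ‖M i j‖ ≤ K

theorem mb_mono {M : Matrix (ZMod n) (ZMod n) ℂ} {K K' : ℝ} (h : mb M K) (hK : K ≤ K') :
    mb M K' := fun i j => (h i j).trans hK

theorem mb_mul {M N : Matrix (ZMod n) (ZMod n) ℂ} {K K' : ℝ} (hM : mb M K) (hN : mb N K') :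
    mb (M * N) (n * (K * K')) := by
  intro i j
  rw [Matrix.mul_apply]
  have h1 : ∀ k ∈ (Finset.univ : Finset (ZMod n)), ‖M i k * N k j‖ ≤ K * K' := by
    intro k _
    rw [norm_mul]
    exact mul_le_mul (hM i k) (hN k j) (norm_nonneg _) ((norm_nonneg _).trans (hM i k))
  refine (norm_sum_le _ _).trans ((Finset.sum_le_sum h1).trans (le_of_eq ?_))
  rw [Finset.sum_const, Finset.card_univ, ZMod.card, nsmul_eq_mul]

theorem mb_add {M N : Matrix (ZMod n) (ZMod n) ℂ} {K K' : ℝ} (hM : mb M K) (hN : mb N K') :
    mb (M + N) (K + K') := by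
  intro i j
  rw [Matrix.add_apply]
  exact (norm_add_le _ _).trans (add_le_add (hM i j) (hN i j))

theorem mb_sub {M N : Matrix (ZMod n) (ZMod n) ℂ} {K K' : ℝ} (hM : mb M K) (hN : mb N K') :
    mb (M - N) (K + K') := by
  intro i j
  rw [Matrix.sub_apply]
  exact (norm_sub_le _ _).trans (add_le_add (hM i j) (hN i j))

theorem mb_smul {M : Matrix (ZMod n) (ZMod n) ℂ} {K : ℝ} (c : ℂ) (hM : mb M K) :
    mb (c • M) (‖c‖ * K) := by
  intro i j
  rw [Matrix.smul_apply, smul_eq_mul, norm_mul]
  exact mul_le_mul_of_nonneg_left (hM i j) (norm_nonneg _)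

theorem mb_one : mb (1 : Matrix (ZMod n) (ZMod n) ℂ) 1 := by
  intro i j
  rw [Matrix.one_apply]
  split_ifs
  · rw [norm_one]
  · rw [norm_zero]
    exact zero_le_one

theorem mb_listprod {l : List (Matrix (ZMod n) (ZMod n) ℂ)} {K : ℝ}
    (hl : ∀ M ∈ l, mb M K) (hK : 0 ≤ K) : mb l.prod ((n * K) ^ l.length) := by
  induction l with
  | nil =>
    rw [List.prod_nil, List.length_nil, pow_zero]
    exact mb_one
  | cons M l ih =>
    rw [List.prod_cons, List.length_cons]
    have h1 : mb M K := hl M (List.mem_cons_self)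
    have h2 : mb l.prod ((n * K) ^ l.length) := ih (fun N hN => hl N (List.mem_cons_of_mem _ hN))
    refine mb_mono (mb_mul h1 h2) (le_of_eq ?_)
    rw [pow_succ]
    ring

theorem mb_pow {M : Matrix (ZMod n) (ZMod n) ℂ} {K : ℝ} (hM : mb M K) (hK : 0 ≤ K) (j : ℕ) :
    mb (M ^ j) ((n * K) ^ j) := by
  have h1 := mb_listprod (l := List.replicate j M) (K := K)
    (fun N hN => by rw [List.eq_of_mem_replicate hN]; exact hM) hK
  rw [List.prod_replicate, List.length_replicate] at h1
  exact h1

/-- Entrywise differentiability at `s`. -/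
def de {S : Type*} [NormedAddCommGroup S] [NormedSpace ℂ S]
    (M : S → Matrix (ZMod n) (ZMod n) ℂ) (s : S) : Prop :=
  ∀ i j, DifferentiableAt ℂ (fun t => M t i j) s

section

variable {S : Type*} [NormedAddCommGroup S] [NormedSpace ℂ S] {s : S}

theorem de_mul {M N : S → Matrix (ZMod n) (ZMod n) ℂ} (hM : de M s) (hN : de N s) :
    de (fun t => M t * N t) s := by
  intro i j
  have h1 : (fun t => (M t * N t) i j) = fun t => ∑ k, M t i k * N t k j := by
    funext t
    rw [Matrix.mul_apply]
  rw [h1]
  exact DifferentiableAt.fun_sum fun k _ => (hM i k).mul (hN k j)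

theorem de_add {M N : S → Matrix (ZMod n) (ZMod n) ℂ} (hM : de M s) (hN : de N s) :
    de (fun t => M t + N t) s := by
  intro i j
  exact (hM i j).add (hN i j)

theorem de_sub {M N : S → Matrix (ZMod n) (ZMod n) ℂ} (hM : de M s) (hN : de N s) :
    de (fun t => M t - N t) s := by
  intro i j
  exact (hM i j).sub (hN i j)

theorem de_smul {M : S → Matrix (ZMod n) (ZMod n) ℂ} {c : S → ℂ}
    (hc : DifferentiableAt ℂ c s) (hM : de M s) : de (fun t => c t • M t) s := by
  intro i j
  exact hc.mul (hM i j)

theorem de_const (M : Matrix (ZMod n) (ZMod n) ℂ) : de (fun _ : S => M) s := by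
  intro i j
  exact differentiableAt_const _

theorem de_listprod {ι : Type*} (l : List ι) (f : ι → S → Matrix (ZMod n) (ZMod n) ℂ)
    (hf : ∀ i ∈ l, de (f i) s) : de (fun t => (l.map (fun i => f i t)).prod) s := by
  induction l with
  | nil =>
    simp only [List.map_nil, List.prod_nil]
    exact de_const 1
  | cons a l ih =>
    simp only [List.map_cons, List.prod_cons]
    exact de_mul (hf a (List.mem_cons_self))
      (ih (fun i hi => hf i (List.mem_cons_of_mem _ hi)))

theorem de_pow {M : S → Matrix (ZMod n) (ZMod n) ℂ} (hM : de M s) (j : ℕ) :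
    de (fun t => M t ^ j) s := by
  have h1 := de_listprod (List.replicate j ()) (fun _ => M) (fun _ _ => hM)
  simp only [List.map_replicate, List.prod_replicate] at h1
  exact h1

end

end MP_372ad9_gt
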