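import Pool.Agent.Lib.MP_372ad9_gt.AzDhB
import Pool.Agent.Lib.MP_372ad9_gt.AzMb

set_option autoImplicit false

/-
ROW AzDhG (about 150 lines). Dd is a polynomial function of r with growth 2(n-1). m = (n-1)/2.
Dd_diff: entries of dY A r are differentiable in r (constants, r / sk, dc: numerator polynomial in r, denominator constant), so de (dY A ·) r;
 dH A r = aeval (dY A r) f with a fixed polynomial f = ipol ..., a finite sum of f.coeff j • (dY A r)^j (Polynomial.aeval_eq_sum_range), de_pow, de_smul, de_add;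
 products with constant matrices; the trace is a finite sum of entries.
Dd_growth: for ‖r‖ ≤ 1: bounded by continuity on a compact ball. For ‖r‖ ≥ 1: let |k| = min (k.val, n - k.val) (natural number),
 δ = diagonal (r^|k|), δ' = diagonal (r^|k|)⁻¹, Y' = δ (dY A r) δ'. Entry (i,k) of Y' is r^|i| (r^|k|)⁻¹ (dY) i k: up entries k → k+1:
  k.val < m: |k+1| = |k| + 1: entry r; k.val = m: |k+1| = m = |k|: entry r/sk; k.val > m: |k+1| = |k| - 1: entry r⁻¹ dc, with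
  ‖dc A r k‖ ≤ C (1 + ‖r‖^2) so ≤ 2 C ‖r‖. Down entries k → k-1: k = 0: |k-1| = 1: entry r; 1 ≤ k.val ≤ m: |k-1| = |k|-1: entry r⁻¹ dc;
  k.val = m+1: |k-1| = m = |k|: entry -(r/sk); k.val > m+1: |k-1| = |k|+1: entry r.
 So mb Y' (C' ‖r‖) with C' independent of r. δ commutes with dG (diagonal) and with dT (|-k| = |k|), so
 trace (G H T) = trace (δ G H T δ') = trace (G (δ H δ') T), δ H δ' = aeval Y' f, natDegree f ≤ n - 1 (Lagrange.degree_interpolate_lt), and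
 mb (Y'^j) ((n C' ‖r‖)^j) with j ≤ n - 1, ‖r‖ ≥ 1: each ≤ C'' ‖r‖^(n-1). dG, dT have entries of norm ≤ 1 (or ≤ a constant).
 Same for the second trace. Product: ≤ K ‖r‖^(2(n-1)) ≤ K (1+‖r‖)^(2(n-1)).
-/

namespace MP_372ad9_gt

variable {n : ℕ} [NeZero n] {A : ℂ}

theorem AzDhG_dc (k : ZMod n) (s : ℂ) : DifferentiableAt ℂ (fun r => dc A r k) s := by
  unfold dc
  apply DifferentiableAt.div_const
  fun_prop

theorem AzDhG_da (k : ZMod n) (s : ℂ) : DifferentiableAt ℂ (fun r => da A r k) s := by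
  unfold da
  split_ifs
  · fun_prop
  · fun_prop
  · exact AzDhG_dc k s

theorem AzDhG_db (k : ZMod n) (s : ℂ) : DifferentiableAt ℂ (fun r => db A r k) s := by
  unfold db
  split_ifs
  · fun_prop
  · exact AzDhG_dc (k - 1) s
  · fun_prop
  · fun_prop

theorem AzDhG_dY (s : ℂ) : de (fun r => (dY A r : Matrix (ZMod n) (ZMod n) ℂ)) s := by
  intro i k
  unfold dY
  apply DifferentiableAt.add
  · split_ifs
    · exact AzDhG_da k s
    · fun_prop
  · split_ifs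
    · exact AzDhG_db k s
    · fun_prop

theorem AzDhG_sum {ι : Type*} (t : Finset ι) (f : ι → ℂ → Matrix (ZMod n) (ZMod n) ℂ) (s : ℂ)
    (hf : ∀ i ∈ t, de (f i) s) : de (fun r => ∑ i ∈ t, f i r) s := by
  intro i j
  simp only [Matrix.sum_apply]
  apply DifferentiableAt.fun_sum
  intro l hl
  exact hf l hl i j

theorem AzDhG_aeval (f : Polynomial ℂ) (s : ℂ) :
    de (fun r => Polynomial.aeval (dY A r : Matrix (ZMod n) (ZMod n) ℂ) f) s := by
  simp only [Polynomial.aeval_eq_sum_range]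
  apply AzDhG_sum
  intro j _
  exact de_smul (differentiableAt_const _) (de_pow (AzDhG_dY s) j)

theorem AzDhG_trace (M N : Matrix (ZMod n) (ZMod n) ℂ) (f : Polynomial ℂ) (s : ℂ) :
    DifferentiableAt ℂ (fun r =>
      (M * Polynomial.aeval (dY A r : Matrix (ZMod n) (ZMod n) ℂ) f * N).trace) s := by
  have h := de_mul (de_mul (de_const M) (AzDhG_aeval (A := A) f s)) (de_const N)
  simp only [Matrix.trace, Matrix.diag_apply]
  apply DifferentiableAt.fun_sum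
  intro i _
  exact h i i

theorem Dd_diff (h : Par n A) : Differentiable ℂ (Dd n A) := by
  intro s
  unfold Dd
  exact (AzDhG_trace (A := A) (dG A) dT (ipol n A (fun k => ((A ^ 2) ^ (k ^ 2))⁻¹)) s).mul
    (AzDhG_trace (A := A) dT (dG' A) (ipol n A (fun k => (A ^ 2) ^ (k ^ 2))) s)

/-- distance to zero in `ZMod n` -/
def AzDhG_ab (k : ZMod n) : ℕ := min k.val (n - k.val)

/-- the diagonal matrix of the powers -/
noncomputable def AzDhG_D (r : ℂ) : Matrix (ZMod n) (ZMod n) ℂ :=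
  Matrix.diagonal (fun k => r ^ AzDhG_ab k)

/-- its inverse -/
noncomputable def AzDhG_D' (r : ℂ) : Matrix (ZMod n) (ZMod n) ℂ :=
  Matrix.diagonal (fun k => (r ^ AzDhG_ab k)⁻¹)

theorem AzDhG_DD (r : ℂ) (hr : r ≠ 0) :
    (AzDhG_D r * AzDhG_D' r : Matrix (ZMod n) (ZMod n) ℂ) = 1 := by
  unfold AzDhG_D AzDhG_D'
  rw [Matrix.diagonal_mul_diagonal, ← Matrix.diagonal_one]
  congr 1
  funext k
  exact mul_inv_cancel₀ (pow_ne_zero _ hr)

theorem AzDhG_DD' (r : ℂ) (hr : r ≠ 0) :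
    (AzDhG_D' r * AzDhG_D r : Matrix (ZMod n) (ZMod n) ℂ) = 1 := by
  unfold AzDhG_D AzDhG_D'
  rw [Matrix.diagonal_mul_diagonal, ← Matrix.diagonal_one]
  congr 1
  funext k
  exact inv_mul_cancel₀ (pow_ne_zero _ hr)

theorem AzDhG_conj_pow (r : ℂ) (hr : r ≠ 0) (Y : Matrix (ZMod n) (ZMod n) ℂ) (j : ℕ) :
    AzDhG_D r * Y ^ j * AzDhG_D' r = (AzDhG_D r * Y * AzDhG_D' r) ^ j := by
  induction j with
  | zero => rw [pow_zero, pow_zero, mul_one, AzDhG_DD r hr]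
  | succ j ih =>
    rw [pow_succ (AzDhG_D r * Y * AzDhG_D' r), ← ih]
    calc AzDhG_D r * Y ^ (j + 1) * AzDhG_D' r
        = AzDhG_D r * Y ^ j * 1 * Y * AzDhG_D' r := by rw [pow_succ]; noncomm_ring
      _ = AzDhG_D r * Y ^ j * (AzDhG_D' r * AzDhG_D r) * Y * AzDhG_D' r := by rw [AzDhG_DD' r hr]
      _ = _ := by noncomm_ring

theorem AzDhG_conj (r : ℂ) (hr : r ≠ 0) (Y : Matrix (ZMod n) (ZMod n) ℂ) (f : Polynomial ℂ) :
    AzDhG_D r * Polynomial.aeval Y f * AzDhG_D' r =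
      Polynomial.aeval (AzDhG_D r * Y * AzDhG_D' r) f := by
  simp only [Polynomial.aeval_eq_sum_range]
  rw [Finset.mul_sum, Finset.sum_mul]
  apply Finset.sum_congr rfl
  intro j _
  rw [← AzDhG_conj_pow r hr, mul_smul_comm, smul_mul_assoc]

theorem AzDhG_nonempty_bound (M : Matrix (ZMod n) (ZMod n) ℂ) : ∃ K : ℝ, 0 ≤ K ∧ mb M K := by
  refine ⟨∑ i, ∑ j, ‖M i j‖, Finset.sum_nonneg fun i _ => Finset.sum_nonneg fun j _ => norm_nonneg _,
    fun i j => ?_⟩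
  have h1 : ‖M i j‖ ≤ ∑ j, ‖M i j‖ :=
    Finset.single_le_sum (f := fun j => ‖M i j‖) (fun j _ => norm_nonneg _) (Finset.mem_univ j)
  have h2 : ∑ j, ‖M i j‖ ≤ ∑ i, ∑ j, ‖M i j‖ :=
    Finset.single_le_sum (f := fun i => ∑ j, ‖M i j‖)
      (fun i _ => Finset.sum_nonneg fun j _ => norm_nonneg _) (Finset.mem_univ i)
  exact h1.trans h2

/-- the constant in the bound of `dc` -/
noncomputable def AzDhG_c (A : ℂ) (k : ZMod n) : ℝ :=
  (‖A ^ 2 * qz A k ^ 2 + (A ^ 2 * qz A k ^ 2)⁻¹‖ + 3) / ‖sk A k * sk A (k + 1)‖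

theorem AzDhG_c_nonneg (k : ZMod n) : 0 ≤ AzDhG_c A k := by
  unfold AzDhG_c
  positivity

theorem AzDhG_dc_le (r : ℂ) (hr : 1 ≤ ‖r‖) (k : ZMod n) :
    ‖dc A r k‖ ≤ AzDhG_c A k * ‖r‖ ^ 2 := by
  unfold dc AzDhG_c
  rw [norm_div, div_mul_eq_mul_div]
  apply div_le_div_of_nonneg_right _ (norm_nonneg _)
  have h1 : ‖(r ^ 2 + 2 : ℂ)‖ ≤ ‖r‖ ^ 2 + 2 := by
    refine (norm_add_le _ _).trans ?_
    rw [norm_pow]
    simp
  have h2 : 1 ≤ ‖r‖ ^ 2 := one_le_pow₀ hr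
  have h3 := norm_sub_le (A ^ 2 * qz A k ^ 2 + (A ^ 2 * qz A k ^ 2)⁻¹) (r ^ 2 + 2)
  have h4 : 0 ≤ ‖A ^ 2 * qz A k ^ 2 + (A ^ 2 * qz A k ^ 2)⁻¹‖ := norm_nonneg _
  nlinarith

/-- the uniform constant -/
noncomputable def AzDhG_C (n : ℕ) [NeZero n] (A : ℂ) : ℝ :=
  1 + ∑ k : ZMod n, (‖(sk A k)⁻¹‖ + AzDhG_c A k)

theorem AzDhG_C_one : 1 ≤ AzDhG_C n A := by
  unfold AzDhG_C
  have : 0 ≤ ∑ k : ZMod n, (‖(sk A k)⁻¹‖ + AzDhG_c A k) :=
    Finset.sum_nonneg fun k _ => add_nonneg (norm_nonneg _) (AzDhG_c_nonneg k)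
  linarith

theorem AzDhG_C_ge (k : ZMod n) : ‖(sk A k)⁻¹‖ + AzDhG_c A k ≤ AzDhG_C n A := by
  unfold AzDhG_C
  have := Finset.single_le_sum (f := fun k : ZMod n => ‖(sk A k)⁻¹‖ + AzDhG_c A k)
    (fun k _ => add_nonneg (norm_nonneg _) (AzDhG_c_nonneg k)) (Finset.mem_univ k)
  linarith

theorem AzDhG_sk_le (k : ZMod n) : ‖(sk A k)⁻¹‖ ≤ AzDhG_C n A :=
  (le_add_of_nonneg_right (AzDhG_c_nonneg k)).trans (AzDhG_C_ge k)

theorem AzDhG_c_le (k : ZMod n) : AzDhG_c A k ≤ AzDhG_C n A :=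
  (le_add_of_nonneg_left (norm_nonneg _)).trans (AzDhG_C_ge k)

theorem AzDhG_val_succ (h : Par n A) (k : ZMod n) :
    (k + 1).val = if k.val + 1 < n then k.val + 1 else 0 := by
  have hn := h.three
  have h1 : (1 : ZMod n).val = 1 := ZMod.val_one'' (by omega)
  have hk := ZMod.val_lt k
  rw [ZMod.val_add, h1]
  split_ifs with hc
  · exact Nat.mod_eq_of_lt hc
  · have : k.val + 1 = n := by omega
    rw [this, Nat.mod_self]

theorem AzDhG_val_pred (h : Par n A) (k : ZMod n) :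
    (k - 1).val = if k.val = 0 then n - 1 else k.val - 1 := by
  have hn := h.three
  have h1 := AzDhG_val_succ h (k - 1)
  rw [sub_add_cancel] at h1
  have hk := ZMod.val_lt k
  have hk1 := ZMod.val_lt (k - 1)
  split_ifs at h1 with hc <;> split_ifs <;> omega

theorem AzDhG_case0 (r : ℂ) (hr : 1 ≤ ‖r‖) (a b : ℕ) (hab : b = a + 1) :
    ‖r ^ b * 1 * (r ^ a)⁻¹‖ ≤ AzDhG_C n A * ‖r‖ := by
  have hr0 : r ≠ 0 := by
    intro h0
    rw [h0, norm_zero] at hr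
    linarith
  have h1 : r ^ b * 1 * (r ^ a)⁻¹ = r := by
    rw [hab, pow_succ, mul_one, mul_comm (r ^ a) r, mul_assoc, mul_inv_cancel₀ (pow_ne_zero _ hr0),
      mul_one]
  rw [h1]
  have := AzDhG_C_one (n := n) (A := A)
  nlinarith [norm_nonneg r]

theorem AzDhG_case1 (r : ℂ) (hr : 1 ≤ ‖r‖) (a b : ℕ) (hab : b = a) (k : ZMod n) :
    ‖r ^ b * (r / sk A k) * (r ^ a)⁻¹‖ ≤ AzDhG_C n A * ‖r‖ := by
  have hr0 : r ≠ 0 := by
    intro h0
    rw [h0, norm_zero] at hr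
    linarith
  have h1 : r ^ b * (r / sk A k) * (r ^ a)⁻¹ = (sk A k)⁻¹ * r := by
    rw [hab, mul_comm (r ^ a), mul_assoc, mul_inv_cancel₀ (pow_ne_zero _ hr0), mul_one,
      div_eq_inv_mul]
  rw [h1, norm_mul]
  exact mul_le_mul_of_nonneg_right (AzDhG_sk_le k) (norm_nonneg _)

theorem AzDhG_case2 (r : ℂ) (hr : 1 ≤ ‖r‖) (a b : ℕ) (hab : a = b + 1) (k : ZMod n) :
    ‖r ^ b * dc A r k * (r ^ a)⁻¹‖ ≤ AzDhG_C n A * ‖r‖ := by
  have hr0 : r ≠ 0 := by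
    intro h0
    rw [h0, norm_zero] at hr
    linarith
  have h1 : r ^ b * dc A r k * (r ^ a)⁻¹ = dc A r k * r⁻¹ := by
    rw [hab, pow_succ, mul_inv, mul_comm (r ^ b), mul_assoc, ← mul_assoc (r ^ b),
      mul_inv_cancel₀ (pow_ne_zero _ hr0), one_mul]
  rw [h1, norm_mul, norm_inv]
  have h2 := AzDhG_dc_le (A := A) r hr k
  have h3 := AzDhG_c_le (A := A) k
  have h4 : 0 < ‖r‖ := by linarith
  rw [← div_eq_mul_inv, div_le_iff₀ h4]
  calc ‖dc A r k‖ ≤ AzDhG_c A k * ‖r‖ ^ 2 := h2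
    _ ≤ AzDhG_C n A * ‖r‖ ^ 2 := mul_le_mul_of_nonneg_right h3 (by positivity)
    _ = AzDhG_C n A * ‖r‖ * ‖r‖ := by ring

theorem AzDhG_up (h : Par n A) (r : ℂ) (hr : 1 ≤ ‖r‖) (k : ZMod n) :
    ‖r ^ AzDhG_ab (k + 1) * da A r k * (r ^ AzDhG_ab k)⁻¹‖ ≤ AzDhG_C n A * ‖r‖ := by
  have hn := h.three
  obtain ⟨m, hm⟩ := h.odd
  have hk := ZMod.val_lt k
  have hm2 : (n - 1) / 2 = m := by omega
  have hs := AzDhG_val_succ h k
  unfold da
  rw [hm2]
  split_ifs with h1 h2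
  · apply AzDhG_case0 r hr
    unfold AzDhG_ab
    rw [hs, if_pos (by omega)]
    omega
  · apply AzDhG_case1 r hr
    unfold AzDhG_ab
    rw [hs, if_pos (by omega)]
    omega
  · apply AzDhG_case2 r hr
    unfold AzDhG_ab
    rw [hs]
    split_ifs <;> omega

theorem AzDhG_down (h : Par n A) (r : ℂ) (hr : 1 ≤ ‖r‖) (k : ZMod n) :
    ‖r ^ AzDhG_ab (k - 1) * db A r k * (r ^ AzDhG_ab k)⁻¹‖ ≤ AzDhG_C n A * ‖r‖ := by
  have hn := h.three
  obtain ⟨m, hm⟩ := h.odd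
  have hk := ZMod.val_lt k
  have hm2 : (n - 1) / 2 = m := by omega
  have hs := AzDhG_val_pred h k
  unfold db
  rw [hm2]
  split_ifs with h1 h2 h3
  · apply AzDhG_case0 r hr
    unfold AzDhG_ab
    rw [hs, if_pos (by omega)]
    omega
  · apply AzDhG_case2 r hr
    unfold AzDhG_ab
    rw [hs, if_neg (by omega)]
    omega
  · rw [mul_neg, neg_mul, norm_neg]
    apply AzDhG_case1 r hr
    unfold AzDhG_ab
    rw [hs, if_neg (by omega)]
    omega
  · apply AzDhG_case0 r hr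
    unfold AzDhG_ab
    rw [hs, if_neg (by omega)]
    omega

theorem AzDhG_mb (h : Par n A) (r : ℂ) (hr : 1 ≤ ‖r‖) :
    mb (AzDhG_D r * dY A r * AzDhG_D' r : Matrix (ZMod n) (ZMod n) ℂ)
      (2 * AzDhG_C n A * ‖r‖) := by
  intro i k
  have h0 : (AzDhG_D r * dY A r * AzDhG_D' r : Matrix (ZMod n) (ZMod n) ℂ) i k =
      (if i = k + 1 then r ^ AzDhG_ab (k + 1) * da A r k * (r ^ AzDhG_ab k)⁻¹ else 0) +
      (if i = k - 1 then r ^ AzDhG_ab (k - 1) * db A r k * (r ^ AzDhG_ab k)⁻¹ else 0) := by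
    unfold AzDhG_D AzDhG_D'
    rw [Matrix.mul_diagonal, Matrix.diagonal_mul]
    unfold dY
    rw [mul_add, add_mul]
    congr 1
    · split_ifs with h1
      · rw [h1]
      · rw [mul_zero, zero_mul]
    · split_ifs with h1
      · rw [h1]
      · rw [mul_zero, zero_mul]
  rw [h0]
  have hC : 0 ≤ AzDhG_C n A * ‖r‖ :=
    mul_nonneg (zero_le_one.trans AzDhG_C_one) (norm_nonneg _)
  refine (norm_add_le _ _).trans ?_
  have h1 : ‖(if i = k + 1 then r ^ AzDhG_ab (k + 1) * da A r k * (r ^ AzDhG_ab k)⁻¹ else 0)‖ ≤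
      AzDhG_C n A * ‖r‖ := by
    split_ifs
    · exact AzDhG_up h r hr k
    · rw [norm_zero]; exact hC
  have h2 : ‖(if i = k - 1 then r ^ AzDhG_ab (k - 1) * db A r k * (r ^ AzDhG_ab k)⁻¹ else 0)‖ ≤
      AzDhG_C n A * ‖r‖ := by
    split_ifs
    · exact AzDhG_down h r hr k
    · rw [norm_zero]; exact hC
  linarith

theorem AzDhG_poly (h : Par n A) (f : Polynomial ℂ) (hf : f.natDegree ≤ n - 1) :
    ∃ K : ℝ, 0 ≤ K ∧ ∀ r : ℂ, 1 ≤ ‖r‖ →
      mb (AzDhG_D r * Polynomial.aeval (dY A r) f * AzDhG_D' r : Matrix (ZMod n) (ZMod n) ℂ)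
        (K * ‖r‖ ^ (n - 1)) := by
  have hn := h.three
  set c : ℝ := n * (2 * AzDhG_C n A) with hc
  have hC1 := AzDhG_C_one (n := n) (A := A)
  have hn1 : (3 : ℝ) ≤ n := by exact_mod_cast hn
  have hc1 : 1 ≤ c := by rw [hc]; nlinarith
  refine ⟨(∑ j ∈ Finset.range (f.natDegree + 1), ‖f.coeff j‖) * c ^ (n - 1),
    mul_nonneg (Finset.sum_nonneg fun _ _ => norm_nonneg _) (by positivity), fun r hr => ?_⟩
  have hr0 : r ≠ 0 := by
    intro h0
    rw [h0, norm_zero] at hr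
    linarith
  rw [AzDhG_conj r hr0]
  intro i k
  rw [Polynomial.aeval_eq_sum_range, Matrix.sum_apply]
  refine (norm_sum_le _ _).trans ?_
  rw [mul_assoc _ _ (‖r‖ ^ (n - 1)), Finset.sum_mul]
  apply Finset.sum_le_sum
  intro j hj
  rw [Matrix.smul_apply, norm_smul]
  apply mul_le_mul_of_nonneg_left _ (norm_nonneg _)
  have h1 := mb_pow (AzDhG_mb h r hr) (by positivity) j i k
  refine h1.trans ?_
  have h2 : (n : ℝ) * (2 * AzDhG_C n A * ‖r‖) = c * ‖r‖ := by rw [hc]; ring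
  rw [h2, ← mul_pow]
  apply pow_le_pow_right₀
  · nlinarith
  · have := Finset.mem_range.1 hj
    omega

theorem AzDhG_main (h : Par n A) (f : Polynomial ℂ) (hf : f.natDegree ≤ n - 1)
    (M N : Matrix (ZMod n) (ZMod n) ℂ) (hM : ∀ r, AzDhG_D r * M = M * AzDhG_D r)
    (hN : ∀ r, N * AzDhG_D' r = AzDhG_D' r * N) :
    ∃ K : ℝ, 0 ≤ K ∧ ∀ r : ℂ, 1 ≤ ‖r‖ →
      ‖(M * Polynomial.aeval (dY A r) f * N).trace‖ ≤ K * ‖r‖ ^ (n - 1) := by
  obtain ⟨K, hK0, hK⟩ := AzDhG_poly h f hf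
  obtain ⟨KM, hKM0, hKM⟩ := AzDhG_nonempty_bound M
  obtain ⟨KN, hKN0, hKN⟩ := AzDhG_nonempty_bound N
  refine ⟨n * (n * ((n * (KM * K)) * KN)), by positivity, fun r hr => ?_⟩
  have hr0 : r ≠ 0 := by
    intro h0
    rw [h0, norm_zero] at hr
    linarith
  have h1 : (M * Polynomial.aeval (dY A r) f * N).trace =
      (M * (AzDhG_D r * Polynomial.aeval (dY A r) f * AzDhG_D' r) * N).trace := by
    have h2 : M * (AzDhG_D r * Polynomial.aeval (dY A r) f * AzDhG_D' r) * N =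
        AzDhG_D r * (M * Polynomial.aeval (dY A r) f * N) * AzDhG_D' r := by
      calc M * (AzDhG_D r * Polynomial.aeval (dY A r) f * AzDhG_D' r) * N
          = (M * AzDhG_D r) * Polynomial.aeval (dY A r) f * (AzDhG_D' r * N) := by
            simp only [Matrix.mul_assoc]
        _ = (AzDhG_D r * M) * Polynomial.aeval (dY A r) f * (N * AzDhG_D' r) := by rw [hM, hN]
        _ = _ := by simp only [Matrix.mul_assoc]
    rw [h2, Matrix.trace_mul_comm (AzDhG_D r * (M * Polynomial.aeval (dY A r) f * N)),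
      ← Matrix.mul_assoc, AzDhG_DD' r hr0, Matrix.one_mul]
  rw [h1]
  have h3 := mb_mul (mb_mul hKM (hK r hr)) hKN
  rw [Matrix.trace]
  refine (norm_sum_le _ _).trans ?_
  have h4 : ∀ i ∈ (Finset.univ : Finset (ZMod n)),
      ‖(M * (AzDhG_D r * Polynomial.aeval (dY A r) f * AzDhG_D' r) * N).diag i‖ ≤
      n * ((n * (KM * (K * ‖r‖ ^ (n - 1)))) * KN) := fun i _ => h3 i i
  refine (Finset.sum_le_card_nsmul _ _ _ h4).trans ?_
  rw [Finset.card_univ, ZMod.card, nsmul_eq_mul]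
  apply le_of_eq
  ring

theorem AzDhG_neg (k : ZMod n) : AzDhG_ab (-k) = AzDhG_ab k := by
  unfold AzDhG_ab
  rw [ZMod.neg_val]
  have hk := ZMod.val_lt k
  split_ifs with h1
  · rw [h1, ZMod.val_zero]
  · omega

theorem AzDhG_DG (d : ZMod n → ℂ) (r : ℂ) :
    AzDhG_D r * Matrix.diagonal d = Matrix.diagonal d * AzDhG_D r := by
  unfold AzDhG_D
  rw [Matrix.diagonal_mul_diagonal, Matrix.diagonal_mul_diagonal]
  congr 1
  funext k
  exact mul_comm _ _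

theorem AzDhG_DG' (d : ZMod n → ℂ) (r : ℂ) :
    Matrix.diagonal d * AzDhG_D' r = AzDhG_D' r * Matrix.diagonal d := by
  unfold AzDhG_D'
  rw [Matrix.diagonal_mul_diagonal, Matrix.diagonal_mul_diagonal]
  congr 1
  funext k
  exact mul_comm _ _

theorem AzDhG_DT (r : ℂ) :
    AzDhG_D r * dT = (dT : Matrix (ZMod n) (ZMod n) ℂ) * AzDhG_D r := by
  ext i k
  unfold AzDhG_D
  rw [Matrix.mul_diagonal, Matrix.diagonal_mul]
  unfold dT
  split_ifs with h1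
  · rw [h1, AzDhG_neg, mul_comm]
  · rw [mul_zero, zero_mul]

theorem AzDhG_DT' (r : ℂ) :
    (dT : Matrix (ZMod n) (ZMod n) ℂ) * AzDhG_D' r = AzDhG_D' r * dT := by
  ext i k
  unfold AzDhG_D'
  rw [Matrix.mul_diagonal, Matrix.diagonal_mul]
  unfold dT
  split_ifs with h1
  · rw [h1, AzDhG_neg, mul_comm]
  · rw [mul_zero, zero_mul]

theorem AzDhG_deg (h : Par n A) (φ : ℕ → ℂ) : (ipol n A φ).natDegree ≤ n - 1 := by
  have hn := h.three
  have h1 : (ipol n A φ).degree < ((Finset.range n).card : ℕ) :=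
    Lagrange.degree_interpolate_lt _ (ch_injOn h)
  rw [Finset.card_range] at h1
  by_cases h0 : ipol n A φ = 0
  · rw [h0, Polynomial.natDegree_zero]
    omega
  · rw [Polynomial.degree_eq_natDegree h0] at h1
    have h3 : (ipol n A φ).natDegree < n := by exact_mod_cast h1
    omega

theorem Dd_growth (h : Par n A) :
    ∃ K : ℝ, ∀ r : ℂ, ‖Dd n A r‖ ≤ K * (1 + ‖r‖) ^ (2 * (n - 1)) := by
  obtain ⟨K1, hK1, h1⟩ := AzDhG_main h (ipol n A (fun k => ((A ^ 2) ^ (k ^ 2))⁻¹)) (AzDhG_deg h _)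
    (dG A) dT (fun r => AzDhG_DG _ r) AzDhG_DT'
  obtain ⟨K2, hK2, h2⟩ := AzDhG_main h (ipol n A (fun k => (A ^ 2) ^ (k ^ 2))) (AzDhG_deg h _)
    dT (dG' A) AzDhG_DT (fun r => AzDhG_DG' _ r)
  obtain ⟨K3, h3⟩ := (isCompact_closedBall (0 : ℂ) 1).exists_bound_of_continuousOn
    (Dd_diff h).continuous.continuousOn
  have hK3 : 0 ≤ K3 := (norm_nonneg _).trans (h3 0 (by simp))
  refine ⟨K3 + K1 * K2, fun r => ?_⟩
  have hp : 1 ≤ (1 + ‖r‖) ^ (2 * (n - 1)) := one_le_pow₀ (by linarith [norm_nonneg r])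
  rcases le_total ‖r‖ 1 with hr | hr
  · have h4 := h3 r (by simpa using hr)
    calc ‖Dd n A r‖ ≤ K3 := h4
      _ ≤ K3 * (1 + ‖r‖) ^ (2 * (n - 1)) := le_mul_of_one_le_right hK3 hp
      _ ≤ (K3 + K1 * K2) * (1 + ‖r‖) ^ (2 * (n - 1)) := by
        apply mul_le_mul_of_nonneg_right _ (by positivity)
        have : 0 ≤ K1 * K2 := by positivity
        linarith
  · have h4 : ‖Dd n A r‖ ≤ (K1 * ‖r‖ ^ (n - 1)) * (K2 * ‖r‖ ^ (n - 1)) := by
      unfold Dd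
      rw [norm_mul]
      exact mul_le_mul (h1 r hr) (h2 r hr) (norm_nonneg _) (by positivity)
    calc ‖Dd n A r‖ ≤ (K1 * ‖r‖ ^ (n - 1)) * (K2 * ‖r‖ ^ (n - 1)) := h4
      _ = (K1 * K2) * ‖r‖ ^ (2 * (n - 1)) := by ring
      _ ≤ (K1 * K2) * (1 + ‖r‖) ^ (2 * (n - 1)) := by
        apply mul_le_mul_of_nonneg_left _ (by positivity)
        apply pow_le_pow_left₀ (norm_nonneg _)
        linarith
      _ ≤ (K3 + K1 * K2) * (1 + ‖r‖) ^ (2 * (n - 1)) := by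
        apply mul_le_mul_of_nonneg_right _ (by positivity)
        linarith

end MP_372ad9_gt
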