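import Pool.Agent.Lib.MP_372ad9_gt.AzMb
import Pool.Agent.Lib.MP_372ad9_gt.AzBasis

set_option autoImplicit false

/-
ROW AzDiff (about 110 lines). Phi is differentiable in (u, μ, p) where u ≠ 0, (u^n)^2 ≠ 1, μ ≠ 0.
Use de (AzMb) with S = ℂ × ℂ × ℂ. The functions w ↦ w.1, w.2.1, w.2.2 are differentiable. For a = w.1 * qz A k:
 a ≠ 0 at the point, a - a⁻¹ ≠ 0 and A^2 a - (A^2 a)⁻¹ ≠ 0 (otherwise a^2 = 1, or (A^2 a)^2 = 1, and the n-th power gives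
 (u^n)^2 = 1), so cc is differentiable (DifferentiableAt.inv, .div, .mul, .pow). Entries of mX, mY, mZ are then differentiable
 (split the ifs; mX is Matrix.diagonal: diagonal_apply). mF = fi A (...): unfold fi Rt Lt tw, de_mul, de_sub, de_smul.
 mP: de_listprod with factors (nd k - nd j)⁻¹ • (M - nd j • 1), j = k+1+t, t < n-1, j ≠ k so nd k - nd j ≠ 0 by nd_inj.
 pth: induction on d. Phi: finite sums (DifferentiableAt.fun_sum) of (μ⁻¹)^d times an entry.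
-/

namespace MP_372ad9_gt

open Finset

variable {n : ℕ} [NeZero n] {A : ℂ}

theorem azd_ne1 (h : Par n A) {u : ℂ} (hu : u ≠ 0) (hu2 : (u ^ n) ^ 2 ≠ 1) (k : ZMod n) :
    u * qz A k - (u * qz A k)⁻¹ ≠ 0 := by
  intro h0
  have ha : u * qz A k ≠ 0 := mul_ne_zero hu (qz_ne h k)
  have h1 : (u * qz A k) ^ 2 = 1 := by
    have h2 : (u * qz A k) * (u * qz A k)⁻¹ = 1 := mul_inv_cancel₀ ha
    linear_combination (u * qz A k) * h0 + h2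
  apply hu2
  have h3 : (u ^ n) ^ 2 = ((u * qz A k) ^ 2) ^ n := by
    have h4 : (u * qz A k) ^ n = u ^ n := by rw [mul_pow, qz_pow h, mul_one]
    rw [← h4, ← pow_mul, ← pow_mul, mul_comm n 2]
  rw [h3, h1, one_pow]

theorem azd_ne2 (h : Par n A) {u : ℂ} (hu : u ≠ 0) (hu2 : (u ^ n) ^ 2 ≠ 1) (k : ZMod n) :
    A ^ 2 * (u * qz A k) - (A ^ 2 * (u * qz A k))⁻¹ ≠ 0 := by
  have h1 := azd_ne1 h hu hu2 (k + 1)
  have h2 : u * qz A (k + 1) = A ^ 2 * (u * qz A k) := by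
    rw [qz_succ h]
    ring
  rwa [h2] at h1

omit [NeZero n] in
theorem azd_a (s : ℂ × ℂ × ℂ) (k : ZMod n) :
    DifferentiableAt ℂ (fun w : ℂ × ℂ × ℂ => w.1 * qz A k) s :=
  differentiableAt_fst.mul_const _

theorem azd_nd (h : Par n A) {s : ℂ × ℂ × ℂ} (hu : s.1 ≠ 0) (k : ZMod n) :
    DifferentiableAt ℂ (fun w : ℂ × ℂ × ℂ => nd A w.1 k) s := by
  unfold nd
  exact ((azd_a s k).add ((azd_a s k).inv (mul_ne_zero hu (qz_ne h k)))).neg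

theorem azd_cc (h : Par n A) {s : ℂ × ℂ × ℂ} (hu : s.1 ≠ 0) (hu2 : (s.1 ^ n) ^ 2 ≠ 1)
    (k : ZMod n) :
    DifferentiableAt ℂ (fun w : ℂ × ℂ × ℂ => cc w.2.2 A (w.1 * qz A k)) s := by
  unfold cc
  have ha := azd_a (A := A) s k
  have hne : s.1 * qz A k ≠ 0 := mul_ne_zero hu (qz_ne h k)
  have hp : DifferentiableAt ℂ (fun w : ℂ × ℂ × ℂ => w.2.2) s := differentiableAt_snd.snd
  have h1 : DifferentiableAt ℂ (fun w : ℂ × ℂ × ℂ => A ^ 2 * (w.1 * qz A k) ^ 2) s :=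
    (ha.pow 2).const_mul _
  have h2 : DifferentiableAt ℂ (fun w : ℂ × ℂ × ℂ => (A ^ 2 * (w.1 * qz A k) ^ 2)⁻¹) s :=
    h1.inv (mul_ne_zero h.q_ne (pow_ne_zero _ hne))
  have h3 : DifferentiableAt ℂ (fun w : ℂ × ℂ × ℂ => w.1 * qz A k - (w.1 * qz A k)⁻¹) s :=
    ha.sub (ha.inv hne)
  have h4 : DifferentiableAt ℂ (fun w : ℂ × ℂ × ℂ => A ^ 2 * (w.1 * qz A k)) s :=
    ha.const_mul _
  have h5 : DifferentiableAt ℂ
      (fun w : ℂ × ℂ × ℂ => A ^ 2 * (w.1 * qz A k) - (A ^ 2 * (w.1 * qz A k))⁻¹) s :=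
    h4.sub (h4.inv (mul_ne_zero h.q_ne hne))
  have h6 : DifferentiableAt ℂ (fun w : ℂ × ℂ × ℂ => (w.1 * qz A k - (w.1 * qz A k)⁻¹) *
      (A ^ 2 * (w.1 * qz A k) - (A ^ 2 * (w.1 * qz A k))⁻¹)) s := h3.mul h5
  have h7 : DifferentiableAt ℂ (fun w : ℂ × ℂ × ℂ => A ^ 2 * (w.1 * qz A k) ^ 2 +
      (A ^ 2 * (w.1 * qz A k) ^ 2)⁻¹ + w.2.2) s := (h1.add h2).add hp
  have h8 := h7.mul (h6.inv (mul_ne_zero (azd_ne1 h hu hu2 k) (azd_ne2 h hu hu2 k)))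
  simp only [div_eq_mul_inv]
  exact h8

theorem azd_ite {s : ℂ × ℂ × ℂ} (P : Prop) [Decidable P] {f : ℂ × ℂ × ℂ → ℂ}
    (hf : DifferentiableAt ℂ f s) : DifferentiableAt ℂ (fun w => if P then f w else 0) s := by
  by_cases hP : P
  · simpa only [if_pos hP] using hf
  · simpa only [if_neg hP] using differentiableAt_const (0 : ℂ)

theorem azd_X (h : Par n A) {s : ℂ × ℂ × ℂ} (hu : s.1 ≠ 0) :
    de (fun w : ℂ × ℂ × ℂ => mX (n := n) A w.1) s := by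
  intro i j
  simp only [mX, Matrix.diagonal_apply]
  exact azd_ite _ (azd_nd h hu i)

theorem azd_Y (h : Par n A) {s : ℂ × ℂ × ℂ} (hu : s.1 ≠ 0) (hu2 : (s.1 ^ n) ^ 2 ≠ 1)
    (hμ : s.2.1 ≠ 0) :
    de (fun w : ℂ × ℂ × ℂ => mY (n := n) w.2.2 A w.1 w.2.1) s := by
  intro i j
  have hm : DifferentiableAt ℂ (fun w : ℂ × ℂ × ℂ => w.2.1) s := differentiableAt_snd.fst
  exact (azd_ite _ hm).add (azd_ite _ ((hm.inv hμ).mul (azd_cc h hu hu2 (j - 1))))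

theorem azd_Z (h : Par n A) {s : ℂ × ℂ × ℂ} (hu : s.1 ≠ 0) (hu2 : (s.1 ^ n) ^ 2 ≠ 1)
    (hμ : s.2.1 ≠ 0) :
    de (fun w : ℂ × ℂ × ℂ => mZ (n := n) w.2.2 A w.1 w.2.1) s := by
  intro i j
  have hm : DifferentiableAt ℂ (fun w : ℂ × ℂ × ℂ => w.2.1) s := differentiableAt_snd.fst
  have ha := azd_a (A := A) s j
  have hne : s.1 * qz A j ≠ 0 := mul_ne_zero hu (qz_ne h j)
  have h1 : DifferentiableAt ℂ (fun w : ℂ × ℂ × ℂ => -(A * (w.1 * qz A j) * w.2.1)) s :=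
    ((ha.const_mul A).mul hm).neg
  have h2 : DifferentiableAt ℂ (fun w : ℂ × ℂ × ℂ =>
      -(A * (w.1 * qz A j)⁻¹ * (w.2.1⁻¹ * cc w.2.2 A (w.1 * qz A (j - 1))))) s :=
    (((ha.inv hne).const_mul A).mul ((hm.inv hμ).mul (azd_cc h hu hu2 (j - 1)))).neg
  exact (azd_ite _ h1).add (azd_ite _ h2)

theorem azd_tw {s : ℂ × ℂ × ℂ} {M N L : ℂ × ℂ × ℂ → Matrix (ZMod n) (ZMod n) ℂ}
    (hM : de M s) (hN : de N s) (hL : de L s) : de (fun w => tw A (M w) (N w) (L w)) s := by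
  unfold tw
  exact de_sub (de_smul (c := fun _ => A⁻¹) (differentiableAt_const _) (de_mul hM hN))
    (de_smul (c := fun _ => (A ^ 2)⁻¹) (differentiableAt_const _) hL)

/-- Entrywise differentiability of a triple. -/
def azdT (T : ℂ × ℂ × ℂ → Matrix (ZMod n) (ZMod n) ℂ × Matrix (ZMod n) (ZMod n) ℂ ×
    Matrix (ZMod n) (ZMod n) ℂ) (s : ℂ × ℂ × ℂ) : Prop :=
  de (fun w => (T w).1) s ∧ de (fun w => (T w).2.1) s ∧ de (fun w => (T w).2.2) s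

theorem azd_Rt {s : ℂ × ℂ × ℂ} {T : ℂ × ℂ × ℂ → Matrix (ZMod n) (ZMod n) ℂ ×
    Matrix (ZMod n) (ZMod n) ℂ × Matrix (ZMod n) (ZMod n) ℂ} (hT : azdT T s) :
    azdT (fun w => Rt A (T w)) s :=
  ⟨hT.1, hT.2.2, azd_tw hT.1 hT.2.2 hT.2.1⟩

theorem azd_Lt {s : ℂ × ℂ × ℂ} {T : ℂ × ℂ × ℂ → Matrix (ZMod n) (ZMod n) ℂ ×
    Matrix (ZMod n) (ZMod n) ℂ × Matrix (ZMod n) (ZMod n) ℂ} (hT : azdT T s) :
    azdT (fun w => Lt A (T w)) s :=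
  ⟨hT.2.2, hT.2.1, azd_tw hT.2.2 hT.2.1 hT.1⟩

theorem azd_F (h : Par n A) {s : ℂ × ℂ × ℂ} (hu : s.1 ≠ 0) (hu2 : (s.1 ^ n) ^ 2 ≠ 1)
    (hμ : s.2.1 ≠ 0) : azdT (fun w => mF (n := n) w.2.2 A w.1 w.2.1) s := by
  have h0 : azdT (fun w => (mX (n := n) A w.1, mY (n := n) w.2.2 A w.1 w.2.1,
      mZ (n := n) w.2.2 A w.1 w.2.1)) s := ⟨azd_X h hu, azd_Y h hu hu2 hμ, azd_Z h hu hu2 hμ⟩
  exact azd_Lt (A := A) (azd_Lt (A := A) (azd_Rt (A := A) (azd_Rt (A := A) h0)))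

theorem azd_P (h : Par n A) {s : ℂ × ℂ × ℂ} (hu : s.1 ≠ 0) (hu2 : (s.1 ^ n) ^ 2 ≠ 1)
    {M : ℂ × ℂ × ℂ → Matrix (ZMod n) (ZMod n) ℂ} (hM : de M s) (k : ZMod n) :
    de (fun w => mP A w.1 (M w) k) s := by
  have key : de (fun w : ℂ × ℂ × ℂ => (List.map (fun i : ZMod n =>
      (nd A w.1 k - nd A w.1 (k + 1 + i))⁻¹ •
        (M w - nd A w.1 (k + 1 + i) • (1 : Matrix (ZMod n) (ZMod n) ℂ)))
      (List.flatMap (fun a : ℕ => [(a : ZMod n)]) (List.range (n - 1)))).prod) s := by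
    refine de_listprod _ (fun (i : ZMod n) (w : ℂ × ℂ × ℂ) =>
      (nd A w.1 k - nd A w.1 (k + 1 + i))⁻¹ •
        (M w - nd A w.1 (k + 1 + i) • (1 : Matrix (ZMod n) (ZMod n) ℂ))) ?_
    intro i hi
    rw [List.mem_flatMap] at hi
    obtain ⟨j, hj, hj2⟩ := hi
    have hj' : j < n - 1 := List.mem_range.1 hj
    have hij : i = (j : ZMod n) := List.mem_singleton.1 hj2
    have hk : k ≠ k + 1 + i := by
      intro h0
      rw [hij] at h0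
      have h1 : ((j + 1 : ℕ) : ZMod n) = 0 := by
        push_cast
        linear_combination -h0
      have h2 := (ZMod.natCast_eq_zero_iff (j + 1) n).1 h1
      have h3 := Nat.le_of_dvd (by omega) h2
      omega
    have hne : nd A s.1 k - nd A s.1 (k + 1 + i) ≠ 0 := by
      intro h0
      exact hk (nd_inj h hu hu2 (sub_eq_zero.1 h0))
    have g1 : DifferentiableAt ℂ (fun w : ℂ × ℂ × ℂ => nd A w.1 k - nd A w.1 (k + 1 + i)) s :=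
      (azd_nd h hu k).sub (azd_nd h hu (k + 1 + i))
    have g2 : DifferentiableAt ℂ
        (fun w : ℂ × ℂ × ℂ => (nd A w.1 k - nd A w.1 (k + 1 + i))⁻¹) s := g1.inv hne
    have g3 : de (fun w : ℂ × ℂ × ℂ => nd A w.1 (k + 1 + i) •
        (1 : Matrix (ZMod n) (ZMod n) ℂ)) s := de_smul (azd_nd h hu (k + 1 + i)) (de_const 1)
    exact de_smul g2 (de_sub hM g3)
  exact key

theorem azd_pth (h : Par n A) {s : ℂ × ℂ × ℂ} (hu : s.1 ≠ 0) (hu2 : (s.1 ^ n) ^ 2 ≠ 1)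
    {M N : ℂ × ℂ × ℂ → Matrix (ZMod n) (ZMod n) ℂ} (hM : de M s) (hN : de N s) (k : ZMod n)
    (d : ℕ) : de (fun w => pth A w.1 (M w) (N w) k d) s := by
  induction d with
  | zero => exact azd_P h hu hu2 hM k
  | succ d ih =>
    exact de_mul (de_mul (azd_P h hu hu2 hM (k + ((d + 1 : ℕ) : ZMod n))) hN) ih

theorem Phi_diff (h : Par n A) {u0 μ0 p0 : ℂ} (hu : u0 ≠ 0) (hu2 : (u0 ^ n) ^ 2 ≠ 1)
    (hμ : μ0 ≠ 0) :
    DifferentiableAt ℂ (fun w : ℂ × ℂ × ℂ => Phi n A w.1 w.2.1 w.2.2) (u0, μ0, p0) := by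
  have hF := azd_F h (s := (u0, μ0, p0)) hu hu2 hμ
  have hm : DifferentiableAt ℂ (fun w : ℂ × ℂ × ℂ => w.2.1) (u0, μ0, p0) :=
    differentiableAt_snd.fst
  unfold Phi
  refine DifferentiableAt.fun_sum fun k _ => DifferentiableAt.fun_sum fun d _ => ?_
  refine DifferentiableAt.mul ((hm.inv hμ).pow d) ?_
  exact azd_pth h (s := (u0, μ0, p0)) hu hu2 hF.1 hF.2.1 k d (k + (d : ZMod n)) k

end MP_372ad9_gt
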