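import Pool.Agent.Lib.MP_372ad9_gt.AzTri

set_option autoImplicit false

/-
ROW AzGrA (about 90 lines). Scalar bounds for large u. q = A^2.
norm_A: ‖A‖^n = ‖A^n‖ = ‖-1‖ = 1, n ≠ 0. norm_qz: power of A^2.
exists_gap: finitely many pairs k ≠ l, each difference ≠ 0 by qz_inj.
cc_bd: a = u qz k, ‖a‖ = ‖u‖ ≥ 2. ‖a - a⁻¹‖ ≥ ‖u‖ - 1/2 ≥ ‖u‖/2, same for A^2 a; numerator ≤ ‖u‖^2 + 1 + c ‖u‖^2.
nd_bd: ‖u‖ + ‖u‖⁻¹ ≤ 2 ‖u‖. nd_gap: with a = u qz k, b = u qz l: (b + b⁻¹) - (a + a⁻¹) = (b - a)(1 - (a b)⁻¹).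
-/

namespace MP_372ad9_gt

variable {n : ℕ} [NeZero n] {p A u : ℂ}

theorem norm_A (h : Par n A) : ‖A‖ = 1 := by
  have hn := h.three
  have h1 : ‖A‖ ^ n = 1 := by
    rw [← norm_pow, h.pow, norm_neg, norm_one]
  exact (pow_eq_one_iff_of_nonneg (norm_nonneg _) (by omega)).1 h1

theorem norm_qz (h : Par n A) (k : ZMod n) : ‖qz A k‖ = 1 := by
  rw [qz, norm_pow, norm_pow, norm_A h, one_pow, one_pow]

theorem exists_gap (h : Par n A) :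
    ∃ δ : ℝ, 0 < δ ∧ ∀ k l : ZMod n, k ≠ l → δ ≤ ‖qz A k - qz A l‖ := by
  classical
  let f : ZMod n × ZMod n → ℝ := fun x => if x.1 = x.2 then 1 else ‖qz A x.1 - qz A x.2‖
  obtain ⟨x, hx⟩ := Finite.exists_min f
  refine ⟨f x, ?_, ?_⟩
  · change 0 < (if x.1 = x.2 then (1 : ℝ) else ‖qz A x.1 - qz A x.2‖)
    split_ifs with h1
    · exact one_pos
    · rw [norm_pos_iff, sub_ne_zero]
      exact fun h2 => h1 (qz_inj h h2)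
  · intro k l hkl
    have h1 := hx (k, l)
    have h2 : f (k, l) = ‖qz A k - qz A l‖ := if_neg hkl
    rwa [h2] at h1

theorem azGrA_sub {a : ℂ} (ha : 2 ≤ ‖a‖) : ‖a‖ / 2 ≤ ‖a - a⁻¹‖ := by
  have h1 : ‖a‖ - ‖a⁻¹‖ ≤ ‖a - a⁻¹‖ := norm_sub_norm_le _ _
  have h2 : ‖a⁻¹‖ ≤ 1 := by
    rw [norm_inv]
    exact inv_le_one_of_one_le₀ (by linarith)
  linarith

theorem cc_bd (h : Par n A) {c : ℝ} (hu : 2 ≤ ‖u‖) (hp : ‖p‖ ≤ c * ‖u‖ ^ 2) (k : ZMod n) :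
    ‖cc p A (u * qz A k)‖ ≤ 4 * (2 + c) := by
  have ha : ‖u * qz A k‖ = ‖u‖ := by rw [norm_mul, norm_qz h, mul_one]
  have hb : ‖A ^ 2 * (u * qz A k)‖ = ‖u‖ := by
    rw [norm_mul, norm_pow, norm_A h, one_pow, one_mul, ha]
  have hu0 : 0 < ‖u‖ := by linarith
  have h1 := azGrA_sub (a := u * qz A k) (by rw [ha]; exact hu)
  have h2 := azGrA_sub (a := A ^ 2 * (u * qz A k)) (by rw [hb]; exact hu)
  rw [ha] at h1
  rw [hb] at h2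
  have h3 : ‖A ^ 2 * (u * qz A k) ^ 2‖ = ‖u‖ ^ 2 := by
    rw [norm_mul, norm_pow, norm_A h, one_pow, one_mul, norm_pow, ha]
  have h4 : ‖A ^ 2 * (u * qz A k) ^ 2 + (A ^ 2 * (u * qz A k) ^ 2)⁻¹ + p‖ ≤
      (2 + c) * ‖u‖ ^ 2 := by
    have h5 : ‖(A ^ 2 * (u * qz A k) ^ 2)⁻¹‖ ≤ ‖u‖ ^ 2 := by
      rw [norm_inv, h3]
      have h6 : 1 ≤ ‖u‖ ^ 2 := by nlinarith
      exact (inv_le_one_of_one_le₀ h6).trans h6
    calc _ ≤ ‖A ^ 2 * (u * qz A k) ^ 2‖ + ‖(A ^ 2 * (u * qz A k) ^ 2)⁻¹‖ + ‖p‖ := norm_add₃_le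
      _ ≤ ‖u‖ ^ 2 + ‖u‖ ^ 2 + c * ‖u‖ ^ 2 := by rw [h3]; linarith
      _ = (2 + c) * ‖u‖ ^ 2 := by ring
  unfold cc
  rw [norm_div, norm_mul]
  have h5 : ‖u‖ / 2 * (‖u‖ / 2) ≤ ‖u * qz A k - (u * qz A k)⁻¹‖ *
      ‖A ^ 2 * (u * qz A k) - (A ^ 2 * (u * qz A k))⁻¹‖ :=
    mul_le_mul h1 h2 (by positivity) (norm_nonneg _)
  have h6 : 0 < ‖u‖ / 2 * (‖u‖ / 2) := by positivity
  rw [div_le_iff₀ (h6.trans_le h5)]
  have hc : 0 ≤ 2 + c := by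
    have h7 : 0 ≤ (2 + c) * ‖u‖ ^ 2 := (norm_nonneg _).trans h4
    have h8 : 0 < ‖u‖ ^ 2 := by positivity
    exact nonneg_of_mul_nonneg_left h7 h8
  refine h4.trans ?_
  have h7 : 4 * (2 + c) * (‖u‖ / 2 * (‖u‖ / 2)) ≤ 4 * (2 + c) *
      (‖u * qz A k - (u * qz A k)⁻¹‖ * ‖A ^ 2 * (u * qz A k) - (A ^ 2 * (u * qz A k))⁻¹‖) :=
    mul_le_mul_of_nonneg_left h5 (by positivity)
  refine le_trans (le_of_eq ?_) h7
  ring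

theorem nd_bd (h : Par n A) (hu : 2 ≤ ‖u‖) (k : ZMod n) : ‖nd A u k‖ ≤ 2 * ‖u‖ := by
  unfold nd
  rw [norm_neg]
  have ha : ‖u * qz A k‖ = ‖u‖ := by rw [norm_mul, norm_qz h, mul_one]
  refine (norm_add_le _ _).trans ?_
  rw [norm_inv, ha]
  have h1 : ‖u‖⁻¹ ≤ 1 := inv_le_one_of_one_le₀ (by linarith)
  linarith

theorem nd_gap (h : Par n A) (hu : 2 ≤ ‖u‖) {δ : ℝ} (hδ : 0 < δ) {k l : ZMod n}
    (hkl : δ ≤ ‖qz A k - qz A l‖) : δ / 2 * ‖u‖ ≤ ‖nd A u k - nd A u l‖ := by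
  have hu0 : u ≠ 0 := by
    intro h0
    rw [h0, norm_zero] at hu
    linarith
  have hk0 : qz A k ≠ 0 := by
    intro h0
    have h1 := norm_qz h k
    rw [h0, norm_zero] at h1
    exact zero_ne_one h1
  have hl0 : qz A l ≠ 0 := by
    intro h0
    have h1 := norm_qz h l
    rw [h0, norm_zero] at h1
    exact zero_ne_one h1
  have h1 : nd A u k - nd A u l = -(u * (qz A k - qz A l) *
      (1 - ((u * qz A k) * (u * qz A l))⁻¹)) := by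
    unfold nd
    field_simp
    ring
  rw [h1, norm_neg, norm_mul, norm_mul]
  have h2 : 1 / 2 ≤ ‖1 - ((u * qz A k) * (u * qz A l))⁻¹‖ := by
    have h3 : ‖(1 : ℂ)‖ - ‖((u * qz A k) * (u * qz A l))⁻¹‖ ≤
      ‖1 - ((u * qz A k) * (u * qz A l))⁻¹‖ := norm_sub_norm_le _ _
    have h4 : ‖((u * qz A k) * (u * qz A l))⁻¹‖ ≤ 1 / 2 := by
      rw [norm_inv, norm_mul, norm_mul, norm_mul, norm_qz h, norm_qz h, mul_one, one_div]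
      exact inv_anti₀ (by norm_num) (by nlinarith)
    rw [norm_one] at h3
    linarith
  calc δ / 2 * ‖u‖ = ‖u‖ * δ * (1 / 2) := by ring
    _ ≤ ‖u‖ * ‖qz A k - qz A l‖ * ‖1 - ((u * qz A k) * (u * qz A l))⁻¹‖ := by
        refine mul_le_mul ?_ h2 (by norm_num) (by positivity)
        exact mul_le_mul_of_nonneg_left hkl (norm_nonneg _)

end MP_372ad9_gt
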