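import Pool.Agent.Lib.MP_372ad9_gt.AzTri

set_option autoImplicit false

/-
ROW AzMF (about 90 lines). Explicit entries of the twisted matrices. q = A^2, u_k = u qz k, x_k = nd A u k = -(u_k + u_k⁻¹),
b_k = μ⁻¹ cc p A (u_{k-1}), u_{k+1} = q u_k, u_{k-1} = q⁻¹ u_k.
mW (the matrix of w = tw A X Z Y = A⁻¹ X Z - A⁻² Y): entry (k+1, k): q u_k^2 μ ; entry (k-1, k): q u_k⁻² b_k, because
 A⁻¹ x_{k+1} (-A u_k μ) - A⁻² μ = (q u_k + q⁻¹ u_k⁻¹) u_k μ - q⁻¹ μ = q u_k^2 μ (X is diagonal: (X Z) i k = x_i Z i k,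
 Matrix.diagonal_mul). Case distinction i = k+1, i = k-1 (these are different, but the sum form needs no distinction: treat the
 two if-terms separately: X*(first part) has x_{k+1}, etc.).
mV (the matrix of w' = tw A X w Z): entry (k+1,k): -A^3 u_k^3 μ ; entry (k-1,k): -A^3 u_k⁻³ b_k.
mF_fst, mF_snd: fi A (X,Y,Z): Rt: (X, Z, W); Rt: (X, W, V); Lt: (V, W, tw A V W X); Lt: (tw A V W X, W, ...).
-/

namespace MP_372ad9_gt

variable {n : ℕ} [NeZero n] {p A u μ : ℂ}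

noncomputable def mW (p A u μ : ℂ) : Matrix (ZMod n) (ZMod n) ℂ := fun i k =>
  (if i = k + 1 then A ^ 2 * (u * qz A k) ^ 2 * μ else 0) +
  (if i = k - 1 then A ^ 2 * ((u * qz A k) ^ 2)⁻¹ * (μ⁻¹ * cc p A (u * qz A (k - 1))) else 0)

noncomputable def mV (p A u μ : ℂ) : Matrix (ZMod n) (ZMod n) ℂ := fun i k =>
  (if i = k + 1 then -(A ^ 3 * (u * qz A k) ^ 3 * μ) else 0) +
  (if i = k - 1 then -(A ^ 3 * ((u * qz A k) ^ 3)⁻¹ * (μ⁻¹ * cc p A (u * qz A (k - 1)))) else 0)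

theorem AzMF_nd1 (h : Par n A) (k : ZMod n) :
    nd A u (k + 1) = -(A ^ 2 * (u * qz A k) + (A ^ 2 * (u * qz A k))⁻¹) := by
  rw [nd, qz_succ h, show u * (A ^ 2 * qz A k) = A ^ 2 * (u * qz A k) by ring]

theorem AzMF_nd2 (h : Par n A) (k : ZMod n) :
    nd A u (k - 1) = -((A ^ 2)⁻¹ * (u * qz A k) + A ^ 2 * (u * qz A k)⁻¹) := by
  have hA := h.q_ne
  have h1 : u * qz A (k - 1) = (A ^ 2)⁻¹ * (u * qz A k) := by
    have hA' := h.A_ne
    rw [qz_pred h k]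
    field_simp
  rw [nd, h1, mul_inv, inv_inv]

theorem tw_mW (h : Par n A) (hu : u ≠ 0) :
    tw A (mX A u) (mZ p A u μ) (mY p A u μ) = (mW p A u μ : Matrix (ZMod n) (ZMod n) ℂ) := by
  ext i k
  have hA := h.A_ne
  have hv : u * qz A k ≠ 0 := mul_ne_zero hu (qz_ne h k)
  have e1 : A⁻¹ * (nd A u i * (if i = k + 1 then -(A * (u * qz A k) * μ) else 0)) -
      (A ^ 2)⁻¹ * (if i = k + 1 then μ else 0) =
      if i = k + 1 then A ^ 2 * (u * qz A k) ^ 2 * μ else 0 := by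
    by_cases hi : i = k + 1
    · rw [if_pos hi, if_pos hi, if_pos hi, hi, AzMF_nd1 h]
      generalize u * qz A k = v at hv
      field_simp
      ring
    · rw [if_neg hi, if_neg hi, if_neg hi]; ring
  have e2 : A⁻¹ * (nd A u i * (if i = k - 1 then -(A * (u * qz A k)⁻¹ *
      (μ⁻¹ * cc p A (u * qz A (k - 1)))) else 0)) -
      (A ^ 2)⁻¹ * (if i = k - 1 then μ⁻¹ * cc p A (u * qz A (k - 1)) else 0) =
      if i = k - 1 then A ^ 2 * ((u * qz A k) ^ 2)⁻¹ * (μ⁻¹ * cc p A (u * qz A (k - 1)))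
        else 0 := by
    by_cases hi : i = k - 1
    · rw [if_pos hi, if_pos hi, if_pos hi, hi, AzMF_nd2 h]
      generalize μ⁻¹ * cc p A (u * qz A (k - 1)) = b
      generalize u * qz A k = v at hv
      field_simp
      ring
    · rw [if_neg hi, if_neg hi, if_neg hi]; ring
  rw [tw, Matrix.sub_apply, Matrix.smul_apply, Matrix.smul_apply, mX, Matrix.diagonal_mul,
    smul_eq_mul, smul_eq_mul]
  simp only [mZ, mY, mW]
  rw [← e1, ← e2]
  ring

theorem tw_mV (h : Par n A) (hu : u ≠ 0) :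
    tw A (mX A u) (mW p A u μ) (mZ p A u μ) = (mV p A u μ : Matrix (ZMod n) (ZMod n) ℂ) := by
  ext i k
  have hA := h.A_ne
  have hv : u * qz A k ≠ 0 := mul_ne_zero hu (qz_ne h k)
  have e1 : A⁻¹ * (nd A u i * (if i = k + 1 then A ^ 2 * (u * qz A k) ^ 2 * μ else 0)) -
      (A ^ 2)⁻¹ * (if i = k + 1 then -(A * (u * qz A k) * μ) else 0) =
      if i = k + 1 then -(A ^ 3 * (u * qz A k) ^ 3 * μ) else 0 := by
    by_cases hi : i = k + 1
    · rw [if_pos hi, if_pos hi, if_pos hi, hi, AzMF_nd1 h]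
      generalize u * qz A k = v at hv
      field_simp
      ring
    · rw [if_neg hi, if_neg hi, if_neg hi]; ring
  have e2 : A⁻¹ * (nd A u i * (if i = k - 1 then A ^ 2 * ((u * qz A k) ^ 2)⁻¹ *
      (μ⁻¹ * cc p A (u * qz A (k - 1))) else 0)) -
      (A ^ 2)⁻¹ * (if i = k - 1 then -(A * (u * qz A k)⁻¹ *
      (μ⁻¹ * cc p A (u * qz A (k - 1)))) else 0) =
      if i = k - 1 then -(A ^ 3 * ((u * qz A k) ^ 3)⁻¹ * (μ⁻¹ * cc p A (u * qz A (k - 1))))
        else 0 := by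
    by_cases hi : i = k - 1
    · rw [if_pos hi, if_pos hi, if_pos hi, hi, AzMF_nd2 h]
      generalize μ⁻¹ * cc p A (u * qz A (k - 1)) = b
      generalize u * qz A k = v at hv
      field_simp
      ring
    · rw [if_neg hi, if_neg hi, if_neg hi]; ring
  rw [tw, Matrix.sub_apply, Matrix.smul_apply, Matrix.smul_apply, mX, Matrix.diagonal_mul,
    smul_eq_mul, smul_eq_mul]
  simp only [mZ, mV, mW]
  rw [← e1, ← e2]
  ring

theorem mF_fst (h : Par n A) (hu : u ≠ 0) :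
    (mF p A u μ).1 = tw A (mV p A u μ) (mW p A u μ) (mX A u : Matrix (ZMod n) (ZMod n) ℂ) := by
  simp only [mF, fi, Rt, Lt]
  rw [tw_mW h hu, tw_mV h hu]

theorem mF_snd (h : Par n A) (hu : u ≠ 0) :
    (mF p A u μ).2.1 = (mW p A u μ : Matrix (ZMod n) (ZMod n) ℂ) := by
  simp only [mF, fi, Rt, Lt]
  rw [tw_mW h hu]

end MP_372ad9_gt
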