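import Pool.Agent.Lib.MP_372ad9_gt.AzMb
import Pool.Agent.Lib.MP_372ad9_gt.AzMF
import Pool.Agent.Lib.MP_372ad9_gt.AzGrA

set_option autoImplicit false

/-
ROW AzGrow. Growth of the explicit formula. ρ = ‖u‖ ≥ 2, ‖p‖ ≤ c ρ^2, ‖μ‖ ρ^2 ≤ c, 1 ≤ c ‖μ‖ ρ^2
(so ‖μ⁻¹‖ ≤ c ρ^2). C0 = 4 (2 + c) bounds cc (cc_bd), c > 0.
-/

namespace MP_372ad9_gt

open Finset

variable {n : ℕ} [NeZero n] {A : ℂ}

theorem azGrow_norm_inv {u μ : ℂ} {c : ℝ} (h2 : 1 ≤ c * (‖μ‖ * ‖u‖ ^ 2)) :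
    ‖μ⁻¹‖ ≤ c * ‖u‖ ^ 2 := by
  have hμ : 0 < ‖μ‖ := by
    rcases (norm_nonneg μ).lt_or_eq with h | h
    · exact h
    · rw [← h, zero_mul, mul_zero] at h2
      linarith
  rw [norm_inv, inv_le_iff_one_le_mul₀ hμ]
  calc (1 : ℝ) ≤ c * (‖μ‖ * ‖u‖ ^ 2) := h2
    _ = c * ‖u‖ ^ 2 * ‖μ‖ := by ring

theorem azGrow_uq (h : Par n A) (u : ℂ) (k : ZMod n) : ‖u * qz A k‖ = ‖u‖ := by
  rw [norm_mul, norm_qz h, mul_one]

theorem azGrow_mW (h : Par n A) {c : ℝ} {u μ p : ℂ} (hu : 2 ≤ ‖u‖)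
    (hp : ‖p‖ ≤ c * ‖u‖ ^ 2) (h1 : ‖μ‖ * ‖u‖ ^ 2 ≤ c) (h2 : ‖μ⁻¹‖ ≤ c * ‖u‖ ^ 2) :
    mb (mW p A u μ : Matrix (ZMod n) (ZMod n) ℂ) (c + c * (4 * (2 + c))) := by
  have hu0 : 0 < ‖u‖ := by linarith
  have hc : 0 ≤ c := (by positivity : (0 : ℝ) ≤ ‖μ‖ * ‖u‖ ^ 2).trans h1
  intro i k
  have hA := norm_A h
  have e1 : ‖(if i = k + 1 then A ^ 2 * (u * qz A k) ^ 2 * μ else 0 : ℂ)‖ ≤ c := by
    split_ifs
    · rw [norm_mul, norm_mul, norm_pow, norm_pow, hA, azGrow_uq h, one_pow, one_mul, mul_comm]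
      exact h1
    · rw [norm_zero]
      exact hc
  have e2 : ‖(if i = k - 1 then A ^ 2 * ((u * qz A k) ^ 2)⁻¹ *
      (μ⁻¹ * cc p A (u * qz A (k - 1))) else 0 : ℂ)‖ ≤ c * (4 * (2 + c)) := by
    split_ifs
    · rw [norm_mul, norm_mul, norm_pow, norm_inv, norm_pow, hA, azGrow_uq h, one_pow, one_mul,
        norm_mul]
      have h3 := cc_bd h hu hp (k - 1)
      calc (‖u‖ ^ 2)⁻¹ * (‖μ⁻¹‖ * ‖cc p A (u * qz A (k - 1))‖)
          ≤ (‖u‖ ^ 2)⁻¹ * ((c * ‖u‖ ^ 2) * (4 * (2 + c))) := by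
            refine mul_le_mul_of_nonneg_left ?_ (by positivity)
            exact mul_le_mul h2 h3 (norm_nonneg _) (by positivity)
        _ = c * (4 * (2 + c)) := by
            field_simp
    · rw [norm_zero]
      positivity
  exact (norm_add_le _ _).trans (add_le_add e1 e2)

theorem azGrow_mV (h : Par n A) {c : ℝ} {u μ p : ℂ} (hu : 2 ≤ ‖u‖)
    (hp : ‖p‖ ≤ c * ‖u‖ ^ 2) (h1 : ‖μ‖ * ‖u‖ ^ 2 ≤ c) (h2 : ‖μ⁻¹‖ ≤ c * ‖u‖ ^ 2) :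
    mb (mV p A u μ : Matrix (ZMod n) (ZMod n) ℂ) ((c + c * (4 * (2 + c))) * ‖u‖) := by
  have hu0 : 0 < ‖u‖ := by linarith
  have hc : 0 ≤ c := (by positivity : (0 : ℝ) ≤ ‖μ‖ * ‖u‖ ^ 2).trans h1
  intro i k
  have hA := norm_A h
  have e1 : ‖(if i = k + 1 then -(A ^ 3 * (u * qz A k) ^ 3 * μ) else 0 : ℂ)‖ ≤ c * ‖u‖ := by
    split_ifs
    · rw [norm_neg, norm_mul, norm_mul, norm_pow, norm_pow, hA, azGrow_uq h, one_pow, one_mul]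
      calc ‖u‖ ^ 3 * ‖μ‖ = ‖μ‖ * ‖u‖ ^ 2 * ‖u‖ := by ring
        _ ≤ c * ‖u‖ := mul_le_mul_of_nonneg_right h1 hu0.le
    · rw [norm_zero]
      positivity
  have e2 : ‖(if i = k - 1 then -(A ^ 3 * ((u * qz A k) ^ 3)⁻¹ *
      (μ⁻¹ * cc p A (u * qz A (k - 1)))) else 0 : ℂ)‖ ≤ c * (4 * (2 + c)) * ‖u‖ := by
    split_ifs
    · rw [norm_neg, norm_mul, norm_mul, norm_pow, norm_inv, norm_pow, hA, azGrow_uq h, one_pow,
        one_mul, norm_mul]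
      have h3 := cc_bd h hu hp (k - 1)
      calc (‖u‖ ^ 3)⁻¹ * (‖μ⁻¹‖ * ‖cc p A (u * qz A (k - 1))‖)
          ≤ (‖u‖ ^ 3)⁻¹ * ((c * ‖u‖ ^ 2) * (4 * (2 + c))) := by
            refine mul_le_mul_of_nonneg_left ?_ (by positivity)
            exact mul_le_mul h2 h3 (norm_nonneg _) (by positivity)
        _ = c * (4 * (2 + c)) * ‖u‖⁻¹ := by
            field_simp
        _ ≤ c * (4 * (2 + c)) * ‖u‖ := by
            refine mul_le_mul_of_nonneg_left ?_ (by positivity)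
            have : ‖u‖⁻¹ ≤ 1 := inv_le_one_of_one_le₀ (by linarith)
            linarith
    · rw [norm_zero]
      positivity
  refine ((norm_add_le _ _).trans (add_le_add e1 e2)).trans (le_of_eq (by ring))

theorem azGrow_mX (h : Par n A) {u : ℂ} (hu : 2 ≤ ‖u‖) :
    mb (mX A u : Matrix (ZMod n) (ZMod n) ℂ) (2 * ‖u‖) := by
  intro i k
  rw [mX, Matrix.diagonal_apply]
  split_ifs
  · exact nd_bd h hu i
  · rw [norm_zero]
    positivity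

theorem azGrow_mF (h : Par n A) {c : ℝ} {u μ p : ℂ} (hu : 2 ≤ ‖u‖)
    (hp : ‖p‖ ≤ c * ‖u‖ ^ 2) (h1 : ‖μ‖ * ‖u‖ ^ 2 ≤ c) (h2 : ‖μ⁻¹‖ ≤ c * ‖u‖ ^ 2) :
    mb (mF (n := n) p A u μ).1 ((n * (c + c * (4 * (2 + c))) ^ 2 + 2) * ‖u‖) := by
  have hu0 : u ≠ 0 := by
    intro h0
    rw [h0, norm_zero] at hu
    linarith
  rw [mF_fst h hu0, tw]
  have hA := norm_A h
  have k1 := mb_smul A⁻¹ (mb_mul (azGrow_mV h hu hp h1 h2) (azGrow_mW h hu hp h1 h2))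
  have k2 := mb_smul (A ^ 2)⁻¹ (azGrow_mX h hu)
  rw [norm_inv, hA, inv_one, one_mul] at k1
  rw [norm_inv, norm_pow, hA, one_pow, inv_one, one_mul] at k2
  exact mb_mono (mb_sub k1 k2) (le_of_eq (by ring))

omit [NeZero n] in
theorem azGrow_ne {k : ZMod n} {j : ℕ} (hj : j ∈ List.range (n - 1)) :
    k ≠ k + 1 + (j : ZMod n) := by
  intro h0
  rw [List.mem_range] at hj
  have h1 : ((1 + j : ℕ) : ZMod n) = 0 := by
    push_cast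
    rw [add_assoc] at h0
    exact (left_eq_add.1 h0)
  rw [ZMod.natCast_eq_zero_iff] at h1
  have h2 := Nat.le_of_dvd (by omega) h1
  omega

theorem azGrow_mP (h : Par n A) {u : ℂ} (hu : 2 ≤ ‖u‖) {δ C1 : ℝ} (hδ : 0 < δ)
    (hgap : ∀ k l : ZMod n, k ≠ l → δ ≤ ‖qz A k - qz A l‖) (hC1 : 0 ≤ C1)
    {M : Matrix (ZMod n) (ZMod n) ℂ} (hM : mb M (C1 * ‖u‖)) (k : ZMod n) :
    mb (mP A u M k) ((n * (2 * (C1 + 2) / δ)) ^ (n - 1)) := by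
  have hu0 : 0 < ‖u‖ := by linarith
  rw [mP]
  have hl0 : (do
      let a ← List.range (n - 1)
      pure (a : ZMod n) : List (ZMod n)) = (List.range (n - 1)).map (fun a : ℕ => (a : ZMod n)) := by
    rw [List.bind_eq_flatMap]
    exact List.flatMap_pure_eq_map _ _
  rw [hl0, List.map_map]
  have key := mb_listprod (l := (List.range (n - 1)).map
    (fun a : ℕ => (nd A u k - nd A u (k + 1 + (a : ZMod n)))⁻¹ •
    (M - nd A u (k + 1 + (a : ZMod n)) • (1 : Matrix (ZMod n) (ZMod n) ℂ))))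
    (K := 2 * (C1 + 2) / δ) ?_ (by positivity)
  · rw [List.length_map, List.length_range] at key
    exact key
  · intro N hN
    rw [List.mem_map] at hN
    obtain ⟨j, hj, rfl⟩ := hN
    have g1 := nd_gap h hu hδ (hgap _ _ (azGrow_ne (k := k) hj))
    have g2 := nd_bd h hu (k + 1 + (j : ZMod n))
    have g3 := mb_smul (nd A u (k + 1 + (j : ZMod n))) (mb_one (n := n))
    rw [mul_one] at g3
    have g4 := mb_sub hM g3
    have g5 := mb_smul (nd A u k - nd A u (k + 1 + (j : ZMod n)))⁻¹ g4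
    refine mb_mono g5 ?_
    rw [norm_inv]
    have hpos : 0 < δ / 2 * ‖u‖ := by positivity
    calc ‖nd A u k - nd A u (k + 1 + (j : ZMod n))‖⁻¹ *
          (C1 * ‖u‖ + ‖nd A u (k + 1 + (j : ZMod n))‖)
        ≤ (δ / 2 * ‖u‖)⁻¹ * (C1 * ‖u‖ + 2 * ‖u‖) := by
          refine mul_le_mul (inv_anti₀ hpos g1) (by linarith) ?_ (by positivity)
          positivity
      _ = 2 * (C1 + 2) / δ := by
          field_simp

/-- The constants of the induction. -/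
noncomputable def azGrowC (n : ℕ) (C3 C4 : ℝ) : ℕ → ℝ
  | 0 => C3
  | (d + 1) => n * ((n * (C3 * C4)) * azGrowC n C3 C4 d)

theorem azGrowC_nonneg (n : ℕ) {C3 C4 : ℝ} (h3 : 0 ≤ C3) (h4 : 0 ≤ C4) (d : ℕ) :
    0 ≤ azGrowC n C3 C4 d := by
  induction d with
  | zero => exact h3
  | succ d ih =>
    rw [azGrowC]
    positivity

theorem azGrow_pth {u : ℂ} {X Y : Matrix (ZMod n) (ZMod n) ℂ} {C3 C4 : ℝ}
    (hX : ∀ k, mb (mP A u X k) C3) (hY : mb Y C4) (k : ZMod n) (d : ℕ) :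
    mb (pth A u X Y k d) (azGrowC n C3 C4 d) := by
  induction d with
  | zero => exact hX k
  | succ d ih =>
    rw [pth, azGrowC]
    exact mb_mul (mb_mul (hX _) hY) ih

theorem Phi_growth (h : Par n A) (c : ℝ) (hc : 0 < c) :
    ∃ K R : ℝ, ∀ u μ p : ℂ, R ≤ ‖u‖ → ‖p‖ ≤ c * ‖u‖ ^ 2 → ‖μ‖ * ‖u‖ ^ 2 ≤ c →
      1 ≤ c * (‖μ‖ * ‖u‖ ^ 2) → ‖Phi n A u μ p‖ ≤ K * ‖u‖ ^ (2 * (n - 1)) := by
  obtain ⟨δ, hδ, hgap⟩ := exists_gap h
  set C4 : ℝ := c + c * (4 * (2 + c)) with hC4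
  have hC40 : 0 ≤ C4 := by positivity
  set C1 : ℝ := n * C4 ^ 2 + 2 with hC1
  have hC10 : 0 ≤ C1 := by positivity
  set C3 : ℝ := (n * (2 * (C1 + 2) / δ)) ^ (n - 1) with hC3
  have hC30 : 0 ≤ C3 := by positivity
  refine ⟨∑ _k : ZMod n, ∑ d ∈ range n, (max c 1) ^ (n - 1) * azGrowC n C3 C4 d, 2, ?_⟩
  intro u μ p hu hp h1 h2
  have hμ := azGrow_norm_inv h2
  have hu0 : 0 < ‖u‖ := by linarith
  have hun : u ≠ 0 := by
    intro h0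
    rw [h0, norm_zero] at hu0
    exact lt_irrefl _ hu0
  have hP : ∀ k, mb (mP A u (mF (n := n) p A u μ).1 k) C3 := fun k =>
    azGrow_mP h hu hδ hgap hC10 (azGrow_mF h hu hp h1 hμ) k
  have hY : mb (mF (n := n) p A u μ).2.1 C4 := by
    rw [mF_snd h hun]
    exact azGrow_mW h hu hp h1 hμ
  rw [Phi, Finset.sum_mul]
  refine (norm_sum_le _ _).trans (Finset.sum_le_sum fun k _ => ?_)
  rw [Finset.sum_mul]
  refine (norm_sum_le _ _).trans (Finset.sum_le_sum fun d hd => ?_)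
  rw [Finset.mem_range] at hd
  have e1 := azGrow_pth hP hY k d (k + (d : ZMod n)) k
  have hm1 : 1 ≤ max c 1 * ‖u‖ ^ 2 := by
    have a1 : (1 : ℝ) ≤ max c 1 := le_max_right _ _
    have a2 : (1 : ℝ) ≤ ‖u‖ ^ 2 := one_le_pow₀ (by linarith)
    exact one_le_mul_of_one_le_of_one_le a1 a2
  have e2 : ‖(μ⁻¹) ^ d‖ ≤ (max c 1) ^ (n - 1) * ‖u‖ ^ (2 * (n - 1)) := by
    rw [norm_pow]
    calc ‖μ⁻¹‖ ^ d ≤ (max c 1 * ‖u‖ ^ 2) ^ d := by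
          refine pow_le_pow_left₀ (norm_nonneg _) (hμ.trans ?_) d
          exact mul_le_mul_of_nonneg_right (le_max_left _ _) (by positivity)
      _ ≤ (max c 1 * ‖u‖ ^ 2) ^ (n - 1) := pow_le_pow_right₀ hm1 (by omega)
      _ = (max c 1) ^ (n - 1) * ‖u‖ ^ (2 * (n - 1)) := by rw [mul_pow, ← pow_mul]
  rw [norm_mul]
  calc ‖(μ⁻¹) ^ d‖ * ‖pth A u (mF (n := n) p A u μ).1 (mF (n := n) p A u μ).2.1 k d
        (k + (d : ZMod n)) k‖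
      ≤ ((max c 1) ^ (n - 1) * ‖u‖ ^ (2 * (n - 1))) * azGrowC n C3 C4 d :=
        mul_le_mul e2 e1 (norm_nonneg _) (by positivity)
    _ = (max c 1) ^ (n - 1) * azGrowC n C3 C4 d * ‖u‖ ^ (2 * (n - 1)) := by ring

end MP_372ad9_gt
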