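import Pool.Agent.Lib.MP_372ad9_gt.AzMat

set_option autoImplicit false

/-
ROW AzLiou (about 130 lines). Complex analysis.
entire_zero: induction on N. N = 0: E is bounded and entire, hence constant (Liouville: Differentiable.apply_eq_apply_of_bounded),
 and has a zero (s nonempty). Step N + 1: take r ∈ s, E1 = dslope E r: differentiable (Differentiable.dslope? or
 differentiableOn_dslope on univ), E z = (z - r) E1 z since E r = 0. ‖E1 z‖ ≤ K' (1 + ‖z‖)^N: for ‖z - r‖ ≥ 1 because
 (1 + ‖z‖) ≤ (2 + ‖r‖) ‖z - r‖, on the closed ball of radius 1 around r by compactness and (1+‖z‖)^N ≥ 1. E1 vanishes on s.erase r.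
 So E1 = 0 by induction and E = 0.
removable: let z ∈ S. F is differentiable on a punctured neighbourhood of z (S finite) and bounded there, so
 (Complex.differentiableOn_update_limUnder_of_bddAbove or Complex.analyticAt_of_differentiable_on_punctured_nhds_of_continuousAt and
 Complex.tendsto_limUnder_of_differentiable_on_punctured_nhds_of_bounded_under) F has a limit at z and the extension is
 differentiable. Define G w = if w ∈ S then limUnder (𝓝[≠] w) F else F w. At a point z: G agrees near z with the update of F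
 at z (if z ∈ S) or with F (if z ∉ S: the complement of S is open). If F is continuous at z ∈ S then the limit is F z.
exists_zeros: for n ≥ 1 there are 2n complex numbers r with T_n(r^2 + 2) = 6. Let c = 3 + 2 sqrt 2 (real > 1), c + 1/c = 6. The 2n numbers
 s with s^(2n) = c (Polynomial.nthRoots or s_j = c^(1/(2n)) exp(2 pi i j/(2n))), r = s - 1/s, r^2 + 2 = s^2 + s⁻², T_n = s^(2n) + s^(-2n) = 6
 (cheb_eval with y = s^2). Injective: s - 1/s = s' - 1/s' gives (s - s')(1 + 1/(s s')) = 0, so s = s' or s s' = -1, but ‖s‖ > 1, ‖s'‖ > 1.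
-/

namespace MP_372ad9_gt

open Filter Topology

theorem entire_zero (N : ℕ) (E : ℂ → ℂ) (hE : Differentiable ℂ E) (K : ℝ)
    (hK : ∀ z, ‖E z‖ ≤ K * (1 + ‖z‖) ^ N) (s : Finset ℂ) (hs : N < s.card)
    (h0 : ∀ z ∈ s, E z = 0) : ∀ z, E z = 0 := by
  induction N generalizing E K s with
  | zero =>
    intro z
    obtain ⟨r, hr⟩ := Finset.card_pos.1 hs
    have hb : Bornology.IsBounded (Set.range E) := by
      rw [isBounded_iff_forall_norm_le]
      refine ⟨K, ?_⟩
      rintro _ ⟨w, rfl⟩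
      simpa using hK w
    rw [hE.apply_eq_apply_of_bounded hb z r]
    exact h0 r hr
  | succ N ih =>
    have hne : s.Nonempty := Finset.card_pos.1 (by omega)
    obtain ⟨r, hr⟩ := hne
    have hEr : E r = 0 := h0 r hr
    have hD : Differentiable ℂ (dslope E r) := by
      rw [← differentiableOn_univ]
      exact (Complex.differentiableOn_dslope Filter.univ_mem).2 hE.differentiableOn
    have hfac : ∀ z, (z - r) * dslope E r z = E z := by
      intro z
      have := sub_smul_dslope E r z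
      rw [smul_eq_mul] at this
      rw [this, hEr, sub_zero]
    obtain ⟨M, hM⟩ : ∃ M, ∀ z ∈ Metric.closedBall r 1, ‖dslope E r z‖ ≤ M :=
      (isCompact_closedBall r 1).exists_bound_of_continuousOn hD.continuous.continuousOn
    have hK0 : 0 ≤ K := by
      have := hK 0
      simp only [norm_zero, add_zero, one_pow, mul_one] at this
      exact (norm_nonneg _).trans this
    have hr0 := norm_nonneg r
    have hM0 := abs_nonneg M
    have hK2 : 0 ≤ K * (2 + ‖r‖) := by positivity
    have hbd : ∀ z, ‖dslope E r z‖ ≤ (K * (2 + ‖r‖) + |M|) * (1 + ‖z‖) ^ N := by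
      intro z
      have hz0 := norm_nonneg z
      have hpow : (0 : ℝ) ≤ (1 + ‖z‖) ^ N := by positivity
      by_cases hz : ‖z - r‖ ≤ 1
      · have h1 := hM z (by rwa [Metric.mem_closedBall, dist_eq_norm])
        have h2 : (1 : ℝ) ≤ (1 + ‖z‖) ^ N := one_le_pow₀ (by linarith)
        calc ‖dslope E r z‖ ≤ M := h1
          _ ≤ |M| := le_abs_self M
          _ ≤ (K * (2 + ‖r‖) + |M|) * 1 := by linarith
          _ ≤ _ := mul_le_mul_of_nonneg_left h2 (by linarith)
      · push Not at hz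
        have h1 : 1 + ‖z‖ ≤ (2 + ‖r‖) * ‖z - r‖ := by
          have : ‖z‖ ≤ ‖z - r‖ + ‖r‖ := by simpa using norm_add_le (z - r) r
          nlinarith
        have h2 : ‖z - r‖ * ‖dslope E r z‖ = ‖E z‖ := by rw [← norm_mul, hfac]
        have h3 : ‖z - r‖ * ‖dslope E r z‖ ≤ ‖z - r‖ * (K * (2 + ‖r‖) * (1 + ‖z‖) ^ N) := by
          rw [h2]
          calc ‖E z‖ ≤ K * (1 + ‖z‖) ^ (N + 1) := hK z
            _ = K * (1 + ‖z‖) ^ N * (1 + ‖z‖) := by ring
            _ ≤ K * (1 + ‖z‖) ^ N * ((2 + ‖r‖) * ‖z - r‖) :=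
                mul_le_mul_of_nonneg_left h1 (mul_nonneg hK0 hpow)
            _ = _ := by ring
        have h4 := le_of_mul_le_mul_left h3 (by linarith)
        exact h4.trans (mul_le_mul_of_nonneg_right (by linarith) hpow)
    have hE1 := ih (dslope E r) hD _ hbd (s.erase r)
      (by rw [Finset.card_erase_of_mem hr]; omega) (by
        intro z hz
        rw [Finset.mem_erase] at hz
        have := hfac z
        rw [h0 z hz.2] at this
        exact (mul_eq_zero.1 this).resolve_left (sub_ne_zero.2 hz.1))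
    intro z
    rw [← hfac, hE1, mul_zero]

theorem removable (F : ℂ → ℂ) (S : Set ℂ) (hS : S.Finite)
    (hd : ∀ z ∉ S, DifferentiableAt ℂ F z)
    (hb : ∀ z ∈ S, ∃ K : ℝ, ∀ᶠ w in 𝓝[≠] z, ‖F w‖ ≤ K) :
    ∃ G : ℂ → ℂ, Differentiable ℂ G ∧ (∀ z ∉ S, G z = F z) ∧
      (∀ z ∈ S, ContinuousAt F z → G z = F z) := by
  classical
  have hne : ∀ z, ∀ᶠ w in 𝓝[≠] z, w ∉ S := by
    intro z
    have h1 : (S \ {z})ᶜ ∈ 𝓝 z := by
      apply (hS.subset Set.sdiff_subset).isClosed.isOpen_compl.mem_nhds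
      simp
    rw [eventually_nhdsWithin_iff]
    filter_upwards [h1] with w hw hwz hwS
    exact hw ⟨hwS, hwz⟩
  have hdn : ∀ z, ∀ᶠ w in 𝓝[≠] z, DifferentiableAt ℂ F w :=
    fun z => (hne z).mono fun w hw => hd w hw
  have hlim : ∀ z ∈ S, Tendsto F (𝓝[≠] z) (𝓝 (limUnder (𝓝[≠] z) F)) := by
    intro z hz
    apply Complex.tendsto_limUnder_of_differentiable_on_punctured_nhds_of_bounded_under (hdn z)
    obtain ⟨K, hK⟩ := hb z hz
    refine ⟨K + ‖F z‖, ?_⟩
    rw [eventually_map]
    filter_upwards [hK] with w hw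
    exact (norm_sub_le _ _).trans (by linarith)
  let G : ℂ → ℂ := fun w => if w ∈ S then limUnder (𝓝[≠] w) F else F w
  have hGF : ∀ z, ∀ᶠ w in 𝓝[≠] z, F w = G w :=
    fun z => (hne z).mono fun w hw => (if_neg hw).symm
  have hdG : ∀ w, w ∉ S → DifferentiableAt ℂ G w := by
    intro w hw
    have : G =ᶠ[𝓝 w] F := by
      filter_upwards [hS.isClosed.isOpen_compl.mem_nhds hw] with v hv
      exact if_neg hv
    exact this.differentiableAt_iff.2 (hd w hw)
  refine ⟨G, ?_, fun z hz => if_neg hz, ?_⟩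
  · intro z
    by_cases hz : z ∈ S
    · refine (Complex.analyticAt_of_differentiable_on_punctured_nhds_of_continuousAt
        ?_ ?_).differentiableAt
      · filter_upwards [hne z] with w hw
        exact hdG w hw
      · rw [continuousAt_iff_punctured_nhds]
        have h1 : G z = limUnder (𝓝[≠] z) F := if_pos hz
        rw [h1]
        exact (hlim z hz).congr' (hGF z)
    · exact hdG z hz
  · intro z hz hc
    have h1 : G z = limUnder (𝓝[≠] z) F := if_pos hz
    rw [h1]
    exact tendsto_nhds_unique (hlim z hz) (hc.tendsto.mono_left nhdsWithin_le_nhds)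

theorem exists_zeros (n : ℕ) (hn : 0 < n) :
    ∃ s : Finset ℂ, s.card = 2 * n ∧ ∀ r ∈ s, (cheb n).eval (r ^ 2 + 2) = 6 := by
  classical
  have h2 : (√2 : ℝ) ^ 2 = 2 := Real.sq_sqrt (by norm_num)
  have h20 : (0 : ℝ) ≤ √2 := Real.sqrt_nonneg 2
  obtain ⟨c, hc⟩ : ∃ c : ℂ, c = ((3 + 2 * √2 : ℝ) : ℂ) := ⟨_, rfl⟩
  have hcn : ‖c‖ = 3 + 2 * √2 := by
    rw [hc, Complex.norm_real, Real.norm_eq_abs, abs_of_nonneg (by linarith)]
  have hc0 : c ≠ 0 := by
    intro h
    rw [h, norm_zero] at hcn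
    linarith
  have hc6 : c + c⁻¹ = 6 := by
    have h3 : c * (((3 - 2 * √2 : ℝ) : ℂ)) = 1 := by
      rw [hc, ← Complex.ofReal_mul]
      have : ((3 + 2 * √2) * (3 - 2 * √2) : ℝ) = 1 := by nlinarith
      rw [this, Complex.ofReal_one]
    have h4 : c⁻¹ = ((3 - 2 * √2 : ℝ) : ℂ) := by
      rw [inv_eq_of_mul_eq_one_right h3]
    rw [h4, hc, ← Complex.ofReal_add]
    have : (3 + 2 * √2 + (3 - 2 * √2) : ℝ) = 6 := by ring
    rw [this]
    norm_num
  obtain ⟨s0, hs0⟩ := IsAlgClosed.exists_pow_nat_eq c (n := 2 * n) (by omega)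
  have hz := Complex.isPrimitiveRoot_exp (2 * n) (by omega)
  obtain ⟨ζ, hζ⟩ : ∃ ζ : ℂ, IsPrimitiveRoot ζ (2 * n) := ⟨_, hz⟩
  obtain ⟨f, hf⟩ : ∃ f : ℕ → ℂ, ∀ j, f j = s0 * ζ ^ j := ⟨fun j => s0 * ζ ^ j, fun _ => rfl⟩
  have hfp : ∀ j, f j ^ (2 * n) = c := by
    intro j
    rw [hf, mul_pow, hs0, ← pow_mul, mul_comm j, pow_mul, hζ.pow_eq_one, one_pow, mul_one]
  have hfn : ∀ j, 1 < ‖f j‖ := by
    intro j
    by_contra hle
    push Not at hle
    have h5 : ‖f j‖ ^ (2 * n) ≤ 1 := pow_le_one₀ (norm_nonneg _) hle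
    rw [← norm_pow, hfp, hcn] at h5
    linarith
  have hf0 : ∀ j, f j ≠ 0 := by
    intro j h
    have := hfn j
    rw [h, norm_zero] at this
    linarith
  have hs00 : s0 ≠ 0 := by
    have := hf0 0
    rw [hf, pow_zero, mul_one] at this
    exact this
  have hinj : Set.InjOn (fun j => f j - (f j)⁻¹) (Finset.range (2 * n) : Set ℕ) := by
    intro j hj k hk hjk
    have hj' : j < 2 * n := by simpa using hj
    have hk' : k < 2 * n := by simpa using hk
    have h6 : f j - (f j)⁻¹ = f k - (f k)⁻¹ := hjk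
    have h7 : (f j - f k) * (f j * f k + 1) = 0 := by
      have h8 := hf0 j
      have h9 := hf0 k
      field_simp at h6
      linear_combination h6
    have h10 : f j = f k := by
      rcases mul_eq_zero.1 h7 with h | h
      · exact sub_eq_zero.1 h
      · exfalso
        have h11 : ‖f j * f k‖ = 1 := by
          rw [eq_neg_of_add_eq_zero_left h, norm_neg, norm_one]
        rw [norm_mul] at h11
        nlinarith [hfn j, hfn k]
    rw [hf, hf] at h10
    have h12 := mul_left_cancel₀ hs00 h10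
    exact hζ.pow_inj hj' hk' h12
  refine ⟨(Finset.range (2 * n)).image (fun j => f j - (f j)⁻¹), ?_, ?_⟩
  · rw [Finset.card_image_of_injOn hinj, Finset.card_range]
  · intro r hr
    rw [Finset.mem_image] at hr
    obtain ⟨j, -, rfl⟩ := hr
    have hy : (f j) ^ 2 ≠ 0 := pow_ne_zero _ (hf0 j)
    have h13 : (f j - (f j)⁻¹) ^ 2 + 2 = (f j) ^ 2 + ((f j) ^ 2)⁻¹ := by
      have h14 : f j * (f j)⁻¹ = 1 := mul_inv_cancel₀ (hf0 j)
      rw [← inv_pow]
      linear_combination (-2) * h14
    rw [h13, (cheb_eval _ hy n).1, inv_pow, ← pow_mul, hfp, hc6]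

theorem finite_level (n : ℕ) (hn : 0 < n) (a : ℂ) : {p : ℂ | (cheb n).eval p = a}.Finite := by
  obtain ⟨m, rfl⟩ : ∃ m, n = m + 1 := ⟨n - 1, by omega⟩
  have hdeg := (cheb_monic m).2.1
  have hne : cheb (m + 1) - Polynomial.C a ≠ 0 := by
    intro h
    have h1 : (cheb (m + 1) - Polynomial.C a).natDegree = m + 1 := by
      rw [Polynomial.natDegree_sub_C, hdeg]
    rw [h, Polynomial.natDegree_zero] at h1
    omega
  refine (Polynomial.finite_setOfPred_isRoot hne).subset ?_
  intro p hp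
  show (cheb (m + 1) - Polynomial.C a).eval p = 0
  rw [Polynomial.eval_sub, Polynomial.eval_C, hp, sub_self]

end MP_372ad9_gt
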