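import Pool.Agent.Lib.MP_372ad9_gt.AzRel
import Pool.Agent.Lib.MP_372ad9_gt.AzBdd
import Pool.Agent.Lib.MP_372ad9_gt.AzGrow
import Pool.Agent.Lib.MP_372ad9_gt.AzDiff
import Pool.Agent.Lib.MP_372ad9_gt.AzChoice
import Pool.Agent.Lib.MP_372ad9_gt.AzBranch
import Pool.Agent.Lib.MP_372ad9_gt.AzLiou

set_option autoImplicit false

/-
ROW AzF (about 110 lines). The entire function G(p).
F p := the τ with Rel n A p τ if there is one (Classical.choose; unique by Rel.unique), else 0. T = T_n(p).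
 (a) Rel n A p τ → F p = τ. (b) for Gd n p u μ: F p = Phi n A u μ p (rel_phi).
 (c) T ∉ {-2, 6}: branch_diff gives u, μ differentiable at p, Gd eventually, so F p' = Phi n A (u p') (μ p') p' eventually, and
 Phi_diff composed with p' ↦ (u p', μ p', p') (DifferentiableAt.prodMk, .comp); Filter.EventuallyEq.differentiableAt. The conditions at p itself come from
 Gd at p (Eventually.self_of_nhds).
 (d) T = 6: branch_cont, same argument with continuity (Phi_diff gives continuity of Phi at the point): F is continuous at p.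
 (e) near every p0 F is bounded (Rel_bdd with B = ‖p0‖ + 1; where there is no τ, F = 0).
 (f) growth: choice gives for ‖p‖ ≥ R: ‖F p‖ = ‖Phi‖ ≤ K ‖u‖^(2(n-1)) = K (‖u‖^2)^(n-1) ≤ K (c ‖p‖)^(n-1), when R' ≤ ‖u‖ (Phi_growth needs
 ‖u‖ ≥ R0: ‖u‖^2 ≥ ‖p‖/c is large when ‖p‖ is large). Phi_growth with the constant c of choice.
removable with S = {T = -2} ∪ {T = 6} (finite_level) gives G entire, G p = F p for T ≠ -2 (at T = 6 by (d)).
 Growth of G: for ‖p‖ large T ≠ -2 (finite set, bounded), so ‖G p‖ ≤ K ‖p‖^(n-1) for ‖p‖ ≥ R1; on the ball of radius R1 G is bounded by compactness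
 (continuous). So ‖G p‖ ≤ K (1 + ‖p‖)^(n-1) for all p.
Rel n A p τ implies T ≠ -2: CPt.e3 with T = -2: (w - 2)^2 = 0, ξ^2 = 4, contradiction with e4.
-/

namespace MP_372ad9_gt

open Filter Topology

variable {n : ℕ} [NeZero n] {A : ℂ}

omit [NeZero n] in
theorem AzF_ne {p τ : ℂ} (H : Rel n A p τ) : (cheb n).eval p ≠ -2 := by
  obtain ⟨x, y, z, ξ, η, ζ, t, s, c, _⟩ := H
  intro hT
  have h3 := c.e3
  rw [hT] at h3
  have h4 : (ξ ^ 2 - 4) ^ 2 = 0 := by linear_combination h3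
  have h5 : ξ ^ 2 - 4 = 0 := pow_eq_zero_iff (two_ne_zero) |>.1 h4
  exact c.e4 (by linear_combination h5)

theorem exists_G (h : Par n A) : ∃ G : ℂ → ℂ, Differentiable ℂ G ∧
    (∀ p τ : ℂ, Rel n A p τ → G p = τ) ∧
    ∃ K : ℝ, ∀ p, ‖G p‖ ≤ K * (1 + ‖p‖) ^ (n - 1) := by
  classical
  have hn0 : 0 < n := by have := h.three; omega
  obtain ⟨F, hF1, hF2⟩ : ∃ F : ℂ → ℂ, (∀ p τ, Rel n A p τ → F p = τ) ∧
      (∀ p, (¬ ∃ τ, Rel n A p τ) → F p = 0) := by
    refine ⟨fun p => if H : ∃ τ, Rel n A p τ then Classical.choose H else 0, ?_, ?_⟩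
    · intro p τ H
      have H' : ∃ τ, Rel n A p τ := ⟨τ, H⟩
      simp only [dif_pos H']
      exact Rel.unique h (Classical.choose_spec H') H
    · intro p H
      simp only [dif_neg H]
  have hFphi : ∀ p u μ, Gd n p u μ → F p = Phi n A u μ p :=
    fun p u μ g => hF1 _ _ (rel_phi h g)
  obtain ⟨S, hSdef⟩ : ∃ S : Set ℂ, S = {p | (cheb n).eval p = -2} ∪ {p | (cheb n).eval p = 6} :=
    ⟨_, rfl⟩
  have hS : S.Finite := by
    rw [hSdef]
    exact (finite_level n hn0 _).union (finite_level n hn0 _)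
  have hd : ∀ z ∉ S, DifferentiableAt ℂ F z := by
    intro z hz
    rw [hSdef] at hz
    have hz1 : (cheb n).eval z ≠ -2 := fun e => hz (Or.inl e)
    have hz2 : (cheb n).eval z ≠ 6 := fun e => hz (Or.inr e)
    obtain ⟨u, μ, hu, hμ, hg⟩ := branch_diff hn0.ne' hz1 hz2
    have hev : F =ᶠ[𝓝 z] fun p => Phi n A (u p) (μ p) p := hg.mono fun p g => hFphi p _ _ g
    have hgz := hg.self_of_nhds
    refine hev.differentiableAt_iff.2 ?_
    have hPhi := Phi_diff h hgz.hu hgz.h1 hgz.hμ (p0 := z)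
    exact DifferentiableAt.comp (f := fun p => (u p, μ p, p))
      (g := fun w : ℂ × ℂ × ℂ => Phi n A w.1 w.2.1 w.2.2) z hPhi
      (hu.prodMk (hμ.prodMk differentiableAt_id))
  have hcont : ∀ z, (cheb n).eval z = 6 → ContinuousAt F z := by
    intro z hz
    obtain ⟨u, μ, hu, hμ, hg⟩ := branch_cont hn0.ne' hz
    have hev : (fun p => Phi n A (u p) (μ p) p) =ᶠ[𝓝 z] F :=
      hg.mono fun p g => (hFphi p _ _ g).symm
    have hgz := hg.self_of_nhds
    have hPhi := (Phi_diff h hgz.hu hgz.h1 hgz.hμ (p0 := z)).continuousAt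
    have h1 : ContinuousAt (fun p => Phi n A (u p) (μ p) p) z :=
      ContinuousAt.comp (f := fun p => (u p, μ p, p))
        (g := fun w : ℂ × ℂ × ℂ => Phi n A w.1 w.2.1 w.2.2) hPhi
        (hu.prodMk (hμ.prodMk continuousAt_id))
    exact h1.congr hev
  have hloc : ∀ B : ℝ, ∃ K : ℝ, ∀ p, ‖p‖ ≤ B → ‖F p‖ ≤ K := by
    intro B
    obtain ⟨K, hK⟩ := Rel_bdd h B
    refine ⟨max K 0, fun p hp => ?_⟩
    by_cases H : ∃ τ, Rel n A p τ
    · obtain ⟨τ, H⟩ := H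
      rw [hF1 p τ H]
      exact (hK p τ hp H).trans (le_max_left _ _)
    · rw [hF2 p H, norm_zero]
      exact le_max_right _ _
  have hb : ∀ z ∈ S, ∃ K : ℝ, ∀ᶠ w in 𝓝[≠] z, ‖F w‖ ≤ K := by
    intro z _
    obtain ⟨K, hK⟩ := hloc (‖z‖ + 1)
    refine ⟨K, ?_⟩
    have h1 : ∀ᶠ w in 𝓝 z, ‖w‖ < ‖z‖ + 1 :=
      continuous_norm.continuousAt.eventually
        (eventually_lt_nhds (by linarith : ‖z‖ < ‖z‖ + 1))
    exact (h1.filter_mono nhdsWithin_le_nhds).mono fun w hw => hK w hw.le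
  obtain ⟨G, hG, hG1, hG2⟩ := removable F S hS hd hb
  have hGF : ∀ p, (cheb n).eval p ≠ -2 → G p = F p := by
    intro p hp
    by_cases hpS : p ∈ S
    · apply hG2 p hpS
      rw [hSdef] at hpS
      rcases hpS with e | e
      · exact absurd e hp
      · exact hcont p e
    · exact hG1 p hpS
  refine ⟨G, hG, ?_, ?_⟩
  · intro p τ H
    rw [hGF p (AzF_ne H), hF1 p τ H]
  · obtain ⟨c, R, hc, hch⟩ := choice h.three
    obtain ⟨K, R0, hK⟩ := Phi_growth h c hc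
    obtain ⟨B, hB⟩ : ∃ B : ℝ, ∀ p ∈ S, ‖p‖ ≤ B := hS.isBounded.exists_norm_le
    obtain ⟨R1, hR1, hR2, hR3⟩ : ∃ R1 : ℝ, R ≤ R1 ∧ B < R1 ∧ c * (R0 ^ 2 + 1) ≤ R1 :=
      ⟨max R (max (B + 1) (c * (R0 ^ 2 + 1))), le_max_left _ _,
        lt_of_lt_of_le (lt_add_one B) ((le_max_left _ _).trans (le_max_right _ _)),
        (le_max_right _ _).trans (le_max_right _ _)⟩
    obtain ⟨M, hM⟩ : ∃ M, ∀ z ∈ Metric.closedBall (0 : ℂ) R1, ‖G z‖ ≤ M :=
      (isCompact_closedBall (0 : ℂ) R1).exists_bound_of_continuousOn hG.continuous.continuousOn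
    have hM0 := abs_nonneg M
    have hK0 := abs_nonneg K
    have hcn : 0 ≤ c ^ (n - 1) := by positivity
    refine ⟨|K| * c ^ (n - 1) + |M|, fun p => ?_⟩
    have hp0 := norm_nonneg p
    have hpow : (1 : ℝ) ≤ (1 + ‖p‖) ^ (n - 1) := one_le_pow₀ (by linarith)
    by_cases hp : ‖p‖ ≤ R1
    · have h1 : ‖G p‖ ≤ M := hM p (by rwa [Metric.mem_closedBall, dist_zero_right])
      have h2 : 0 ≤ |K| * c ^ (n - 1) := mul_nonneg hK0 hcn
      calc ‖G p‖ ≤ M := h1
        _ ≤ |M| := le_abs_self M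
        _ ≤ (|K| * c ^ (n - 1) + |M|) * 1 := by linarith
        _ ≤ _ := mul_le_mul_of_nonneg_left hpow (by linarith)
    · push Not at hp
      obtain ⟨u, μ, hg, hpu, hup, hμ1, hμ2⟩ := hch p (by linarith)
      have hu0 := norm_nonneg u
      have hR0 : R0 ≤ ‖u‖ := by
        by_contra hlt
        push Not at hlt
        have h1 : ‖u‖ ^ 2 ≤ R0 ^ 2 := by nlinarith
        have h2 : c * ‖u‖ ^ 2 ≤ c * R0 ^ 2 := mul_le_mul_of_nonneg_left h1 hc.le
        nlinarith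
      have h3 := hK u μ p hR0 hpu hμ1 hμ2
      have hpS : p ∉ S := fun hpS => by
        have := hB p hpS
        linarith
      rw [hG1 p hpS, hFphi p u μ hg]
      have h4 : (‖u‖ ^ 2) ^ (n - 1) ≤ (c * ‖p‖) ^ (n - 1) :=
        pow_le_pow_left₀ (by positivity) hup _
      have h5 : ‖p‖ ^ (n - 1) ≤ (1 + ‖p‖) ^ (n - 1) :=
        pow_le_pow_left₀ hp0 (by linarith) _
      have h6 : 0 ≤ (1 + ‖p‖) ^ (n - 1) := by positivity
      calc ‖Phi n A u μ p‖ ≤ K * ‖u‖ ^ (2 * (n - 1)) := h3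
        _ = K * (‖u‖ ^ 2) ^ (n - 1) := by rw [pow_mul]
        _ ≤ |K| * (‖u‖ ^ 2) ^ (n - 1) :=
            mul_le_mul_of_nonneg_right (le_abs_self K) (by positivity)
        _ ≤ |K| * (c * ‖p‖) ^ (n - 1) := mul_le_mul_of_nonneg_left h4 hK0
        _ = |K| * c ^ (n - 1) * ‖p‖ ^ (n - 1) := by rw [mul_pow]; ring
        _ ≤ |K| * c ^ (n - 1) * (1 + ‖p‖) ^ (n - 1) :=
            mul_le_mul_of_nonneg_left h5 (mul_nonneg hK0 hcn)
        _ ≤ (|K| * c ^ (n - 1) + |M|) * (1 + ‖p‖) ^ (n - 1) :=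
            mul_le_mul_of_nonneg_right (by linarith) h6

end MP_372ad9_gt
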