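import Pool.Agent.Lib.MP_372ad9_gt.AzPbw

set_option autoImplicit false

/-
ROW AzFam (about 130 lines). Uniformly bounded coefficients.

mono_span: pbw with R = ℂ: relations from TriP (A ≠ 0): y x = A^2 x y - A (q - q⁻¹) z, z x = A⁻² x z + A⁻¹ (q - q⁻¹) y,
 z y = A^2 y z - A (q - q⁻¹) x (q = A^2); P = cheb n + C ξ etc. (cheb n is monic of degree n: cheb_monic_n; adding a constant, n ≥ 3).
fi_bound: apply pbw over a commutative ring of bounded coefficient functions. Let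
 I := the type of all (x, y, z, ξ, η, ζ, p) with TriP p A x y z, Sh n x y z ξ η ζ, norms ≤ B (a subtype or structure).
 R := the subring (Subalgebra ℂ (I → ℂ)) of bounded functions I → ℂ: {f | ∃ C, ∀ i, ‖f i‖ ≤ C}.
 E := I → Module.End ℂ (ZMod n → ℂ) with the pointwise ring structure and the R-algebra structure given by
 RingHom.toAlgebra' of f ↦ (i ↦ algebraMap (f i)) (central). X, Y, Z ∈ E the tautological functions; relations h1, h2, h3 hold with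
 constant coefficients (b1 = -A (q - q⁻¹), ...), P = (cheb n).map (constants) + C ξ with ξ ∈ R the bounded function i ↦ ξ_i; aeval X P = 0
 pointwise (evaluate at i: Polynomial.eval₂ / map to the point; induction on the polynomial, or use the ring hom E → End at i).
 The elements W_{ijk} = (fi.1)^i (fi.2.1)^j (fi.2.2)^k of E belong to Algebra.adjoin R {X, Y, Z} (unfold fi, Rt, Lt, tw), so by pbw they are
 R-combinations of the monomials; coefficients are bounded functions; take the maximum of the bounds over i, j, k, s.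
 (Alternative without the ring R: repeat the proof of pbw with the predicate
 BC (W : I → End) := ∃ C, ∀ t : I, ∃ c : Fin n × Fin n × Fin n → ℂ, (∀ s, ‖c s‖ ≤ C) ∧ W t = ∑ s, c s • monomial; or
 use R = MvPolynomial (Fin 3) ℂ evaluated at (ξ, η, ζ).)
-/

namespace MP_372ad9_gt

open Finset

variable {n : ℕ} [NeZero n] {A : ℂ}

theorem AzFam_rel {E : Type*} [Ring E] [Algebra ℂ E] (hA : A ≠ 0) {p : ℂ} {x y z : E}
    (t : TriP p A x y z) :
    y * x = (A ^ 2) • (x * y) + (-(A * (A ^ 2 - (A ^ 2)⁻¹))) • z ∧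
    z * x = ((A ^ 2)⁻¹) • (x * z) + (A⁻¹ * (A ^ 2 - (A ^ 2)⁻¹)) • y ∧
    z * y = (A ^ 2) • (y * z) + (-(A * (A ^ 2 - (A ^ 2)⁻¹))) • x := by
  refine ⟨?_, ?_, ?_⟩
  · have h := t.xy
    have h2 : y * x = A • (A⁻¹ • (y * x)) := by rw [smul_smul, mul_inv_cancel₀ hA, one_smul]
    have h3 : A⁻¹ • (y * x) = A • (x * y) - (A ^ 2 - (A ^ 2)⁻¹) • z := by
      rw [← h]
      abel
    rw [h2, h3, smul_sub, smul_smul, smul_smul, neg_smul, ← sub_eq_add_neg, ← sq]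
  · have h := t.zx
    have h2 : z * x = A⁻¹ • (A • (z * x)) := by rw [smul_smul, inv_mul_cancel₀ hA, one_smul]
    have h3 : A • (z * x) = A⁻¹ • (x * z) + (A ^ 2 - (A ^ 2)⁻¹) • y := by
      rw [← h]
      abel
    rw [h2, h3, smul_add, smul_smul, smul_smul, ← mul_inv, ← sq]
  · have h := t.yz
    have h2 : z * y = A • (A⁻¹ • (z * y)) := by rw [smul_smul, mul_inv_cancel₀ hA, one_smul]
    have h3 : A⁻¹ • (z * y) = A • (y * z) - (A ^ 2 - (A ^ 2)⁻¹) • x := by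
      rw [← h]
      abel
    rw [h2, h3, smul_sub, smul_smul, smul_smul, neg_smul, ← sub_eq_add_neg, ← sq]

theorem AzFam_monic {R : Type*} [CommRing R] [Nontrivial R] {P : Polynomial R} {m : ℕ}
    (hP : P.Monic) (hd : P.natDegree = m) (hm : 0 < m) (c : R) :
    (P + Polynomial.C c).Monic ∧ (P + Polynomial.C c).natDegree = m := by
  have h1 : (Polynomial.C c).degree < P.degree := by
    refine lt_of_le_of_lt Polynomial.degree_C_le ?_
    rw [← Polynomial.natDegree_pos_iff_degree_pos, hd]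
    exact hm
  refine ⟨hP.add_of_left h1, ?_⟩
  rw [Polynomial.natDegree_add_C, hd]

theorem mono_span (h : Par n A) {p ξ η ζ : ℂ} {V : Type*} [AddCommGroup V] [Module ℂ V]
    {x y z : Module.End ℂ V} (t : TriP p A x y z) (s : Sh n x y z ξ η ζ) (w : Module.End ℂ V)
    (hw : w ∈ Algebra.adjoin ℂ ({x, y, z} : Set (Module.End ℂ V))) :
    w ∈ Submodule.span ℂ (Set.range (fun s : Fin n × Fin n × Fin n =>
      x ^ (s.1 : ℕ) * y ^ (s.2.1 : ℕ) * z ^ (s.2.2 : ℕ))) := by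
  have hn : 0 < n := by have := h.three; omega
  obtain ⟨hmon, hdeg⟩ := cheb_monic_n h
  obtain ⟨r1, r2, r3⟩ := AzFam_rel h.A_ne t
  have hz : ∀ (w : Module.End ℂ V) (c : ℂ), Polynomial.aeval w (cheb n) = (-c) • (1 : Module.End ℂ V) →
      Polynomial.aeval w (cheb n + Polynomial.C c) = 0 := by
    intro w c hc
    rw [map_add, hc, Polynomial.aeval_C, Algebra.algebraMap_eq_smul_one, ← add_smul, neg_add_cancel,
      zero_smul]
  exact pbw x y z _ _ _ _ _ _ r1 r2 r3 n hn (cheb n + Polynomial.C ξ) (cheb n + Polynomial.C η)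
    (cheb n + Polynomial.C ζ) (AzFam_monic hmon hdeg hn ξ).1 (AzFam_monic hmon hdeg hn η).1
    (AzFam_monic hmon hdeg hn ζ).1 (AzFam_monic hmon hdeg hn ξ).2 (AzFam_monic hmon hdeg hn η).2
    (AzFam_monic hmon hdeg hn ζ).2 (hz x ξ s.hx) (hz y η s.hy) (hz z ζ s.hz) w hw

/-- the family of all triples with bounded characters -/
structure AzFamI (n : ℕ) [NeZero n] (A : ℂ) (B : ℝ) where
  x : Module.End ℂ (ZMod n → ℂ)
  y : Module.End ℂ (ZMod n → ℂ)
  z : Module.End ℂ (ZMod n → ℂ)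
  v : Fin 3 → ℂ
  p : ℂ
  t : TriP p A x y z
  s : Sh n x y z (v 0) (v 1) (v 2)
  hv : ∀ j, ‖v j‖ ≤ B

/-- polynomials in the characters as constants of the family -/
noncomputable def AzFamHom (n : ℕ) [NeZero n] (A : ℂ) (B : ℝ) :
    MvPolynomial (Fin 3) ℂ →+* (AzFamI n A B → Module.End ℂ (ZMod n → ℂ)) :=
  RingHom.pi fun i => (algebraMap ℂ (Module.End ℂ (ZMod n → ℂ))).comp (MvPolynomial.eval i.v)

theorem AzFamHom_apply (B : ℝ) (q : MvPolynomial (Fin 3) ℂ) (i : AzFamI n A B) :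
    AzFamHom n A B q i = algebraMap ℂ (Module.End ℂ (ZMod n → ℂ)) (MvPolynomial.eval i.v q) := rfl

theorem AzFamHom_comm (B : ℝ) (q : MvPolynomial (Fin 3) ℂ)
    (w : AzFamI n A B → Module.End ℂ (ZMod n → ℂ)) :
    AzFamHom n A B q * w = w * AzFamHom n A B q := by
  funext i
  exact Algebra.commutes (A := Module.End ℂ (ZMod n → ℂ)) (MvPolynomial.eval i.v q) (w i)

theorem AzFam_bd (B : ℝ) (q : MvPolynomial (Fin 3) ℂ) : ∃ K : ℝ, 0 ≤ K ∧
    ∀ v : Fin 3 → ℂ, (∀ j, ‖v j‖ ≤ B) → ‖MvPolynomial.eval v q‖ ≤ K := by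
  obtain ⟨K, hK⟩ := (isCompact_closedBall (0 : Fin 3 → ℂ) |B|).exists_bound_of_continuousOn
    (f := fun v => MvPolynomial.eval v q) (MvPolynomial.continuous_eval q).continuousOn
  refine ⟨|K|, abs_nonneg K, fun v hv => ?_⟩
  have h1 : v ∈ Metric.closedBall (0 : Fin 3 → ℂ) |B| := by
    rw [mem_closedBall_zero_iff, pi_norm_le_iff_of_nonneg (abs_nonneg B)]
    exact fun j => (hv j).trans (le_abs_self B)
  exact (hK v h1).trans (le_abs_self K)

theorem AzFam_main (h : Par n A) (B : ℝ) (r : Fin n × Fin n × Fin n) :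
    ∃ c : Fin n × Fin n × Fin n → MvPolynomial (Fin 3) ℂ, ∀ i : AzFamI n A B,
      (fi A (i.x, i.y, i.z)).1 ^ (r.1 : ℕ) * (fi A (i.x, i.y, i.z)).2.1 ^ (r.2.1 : ℕ) *
        (fi A (i.x, i.y, i.z)).2.2 ^ (r.2.2 : ℕ) =
      ∑ s, MvPolynomial.eval i.v (c s) •
        (i.x ^ (s.1 : ℕ) * i.y ^ (s.2.1 : ℕ) * i.z ^ (s.2.2 : ℕ)) := by
  have hn : 0 < n := by have := h.three; omega
  obtain ⟨hmon, hdeg⟩ := cheb_monic_n h
  let R := MvPolynomial (Fin 3) ℂ
  let E := AzFamI n A B → Module.End ℂ (ZMod n → ℂ)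
  letI algE : Algebra R E := (AzFamHom n A B).toAlgebra' (AzFamHom_comm B)
  have hsm : ∀ (q : R) (w : E) (i : AzFamI n A B), (q • w) i = MvPolynomial.eval i.v q • w i := by
    intro q w i
    rw [Algebra.smul_def, Algebra.smul_def]
    rfl
  let X : E := fun i => i.x
  let Y : E := fun i => i.y
  let Z : E := fun i => i.z
  have r1 : Y * X = (MvPolynomial.C (A ^ 2) : R) • (X * Y) +
      (MvPolynomial.C (-(A * (A ^ 2 - (A ^ 2)⁻¹))) : R) • Z := by
    funext i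
    rw [Pi.add_apply, hsm, hsm, MvPolynomial.eval_C, MvPolynomial.eval_C]
    exact (AzFam_rel h.A_ne i.t).1
  have r2 : Z * X = (MvPolynomial.C ((A ^ 2)⁻¹) : R) • (X * Z) +
      (MvPolynomial.C (A⁻¹ * (A ^ 2 - (A ^ 2)⁻¹)) : R) • Y := by
    funext i
    rw [Pi.add_apply, hsm, hsm, MvPolynomial.eval_C, MvPolynomial.eval_C]
    exact (AzFam_rel h.A_ne i.t).2.1
  have r3 : Z * Y = (MvPolynomial.C (A ^ 2) : R) • (Y * Z) +
      (MvPolynomial.C (-(A * (A ^ 2 - (A ^ 2)⁻¹))) : R) • X := by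
    funext i
    rw [Pi.add_apply, hsm, hsm, MvPolynomial.eval_C, MvPolynomial.eval_C]
    exact (AzFam_rel h.A_ne i.t).2.2
  have hm0 : ((cheb n).map (MvPolynomial.C : ℂ →+* R)).Monic := hmon.map _
  have hd0 : ((cheb n).map (MvPolynomial.C : ℂ →+* R)).natDegree = n := by
    rw [hmon.natDegree_map, hdeg]
  have hz : ∀ (w : E) (j : Fin 3), (∀ i, Polynomial.aeval (w i) (cheb n) =
      (-(i.v j)) • (1 : Module.End ℂ (ZMod n → ℂ))) →
      Polynomial.aeval w ((cheb n).map (MvPolynomial.C : ℂ →+* R) +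
        Polynomial.C (MvPolynomial.X j : R)) = 0 := by
    intro w j hw
    funext i
    have e1 : Polynomial.aeval w ((cheb n).map (MvPolynomial.C : ℂ →+* R) +
        Polynomial.C (MvPolynomial.X j : R)) i =
        Pi.evalRingHom (fun _ : AzFamI n A B => Module.End ℂ (ZMod n → ℂ)) i
          (Polynomial.eval₂ (algebraMap R E) w ((cheb n).map (MvPolynomial.C : ℂ →+* R) +
            Polynomial.C (MvPolynomial.X j : R))) := rfl
    rw [e1, Polynomial.hom_eval₂, Polynomial.eval₂_add, Polynomial.eval₂_map, Polynomial.eval₂_C]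
    have e2 : ((Pi.evalRingHom (fun _ : AzFamI n A B => Module.End ℂ (ZMod n → ℂ)) i).comp
        (algebraMap R E)).comp (MvPolynomial.C : ℂ →+* R) =
        algebraMap ℂ (Module.End ℂ (ZMod n → ℂ)) := by
      ext1 c
      show algebraMap ℂ (Module.End ℂ (ZMod n → ℂ))
        (MvPolynomial.eval i.v (MvPolynomial.C c)) = _
      rw [MvPolynomial.eval_C]
    have e3 : ((Pi.evalRingHom (fun _ : AzFamI n A B => Module.End ℂ (ZMod n → ℂ)) i).comp
        (algebraMap R E)) (MvPolynomial.X j : R) =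
        (i.v j) • (1 : Module.End ℂ (ZMod n → ℂ)) := by
      show algebraMap ℂ (Module.End ℂ (ZMod n → ℂ))
        (MvPolynomial.eval i.v (MvPolynomial.X j)) = _
      rw [MvPolynomial.eval_X, Algebra.algebraMap_eq_smul_one]
    rw [e2, e3]
    have e4 := hw i
    rw [Polynomial.aeval_def] at e4
    show Polynomial.eval₂ (algebraMap ℂ (Module.End ℂ (ZMod n → ℂ))) (w i) (cheb n) + _ = 0
    rw [e4, ← add_smul, neg_add_cancel, zero_smul]
  let S := Algebra.adjoin R ({X, Y, Z} : Set E)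
  have hX : X ∈ S := Algebra.subset_adjoin (by simp)
  have hY : Y ∈ S := Algebra.subset_adjoin (by simp)
  have hZ : Z ∈ S := Algebra.subset_adjoin (by simp)
  have hC : ∀ (c : ℂ) (w : E), w ∈ S → c • w ∈ S := by
    intro c w hw
    have e1 : c • w = (MvPolynomial.C c : R) • w := by
      funext i
      rw [hsm, MvPolynomial.eval_C]
      rfl
    rw [e1]
    exact S.smul_mem hw _
  have htw : ∀ a b c : E, a ∈ S → b ∈ S → c ∈ S → tw A a b c ∈ S := by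
    intro a b c ha hb hc
    exact S.sub_mem (hC _ _ (S.mul_mem ha hb)) (hC _ _ hc)
  have hR : ∀ t : E × E × E, t.1 ∈ S ∧ t.2.1 ∈ S ∧ t.2.2 ∈ S →
      (Rt A t).1 ∈ S ∧ (Rt A t).2.1 ∈ S ∧ (Rt A t).2.2 ∈ S :=
    fun t ht => ⟨ht.1, ht.2.2, htw _ _ _ ht.1 ht.2.2 ht.2.1⟩
  have hL : ∀ t : E × E × E, t.1 ∈ S ∧ t.2.1 ∈ S ∧ t.2.2 ∈ S →
      (Lt A t).1 ∈ S ∧ (Lt A t).2.1 ∈ S ∧ (Lt A t).2.2 ∈ S :=
    fun t ht => ⟨ht.2.2, ht.2.1, htw _ _ _ ht.2.2 ht.2.1 ht.1⟩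
  have hfi := hL _ (hL _ (hR _ (hR (X, Y, Z) ⟨hX, hY, hZ⟩)))
  have hW : (fi A (X, Y, Z)).1 ^ (r.1 : ℕ) * (fi A (X, Y, Z)).2.1 ^ (r.2.1 : ℕ) *
        (fi A (X, Y, Z)).2.2 ^ (r.2.2 : ℕ) ∈ S :=
    S.mul_mem (S.mul_mem (S.pow_mem hfi.1 _) (S.pow_mem hfi.2.1 _)) (S.pow_mem hfi.2.2 _)
  have key := pbw X Y Z _ _ _ _ _ _ r1 r2 r3 n hn _ _ _
    (AzFam_monic hm0 hd0 hn (MvPolynomial.X 0 : R)).1
    (AzFam_monic hm0 hd0 hn (MvPolynomial.X 1 : R)).1
    (AzFam_monic hm0 hd0 hn (MvPolynomial.X 2 : R)).1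
    (AzFam_monic hm0 hd0 hn (MvPolynomial.X 0 : R)).2
    (AzFam_monic hm0 hd0 hn (MvPolynomial.X 1 : R)).2
    (AzFam_monic hm0 hd0 hn (MvPolynomial.X 2 : R)).2
    (hz X 0 fun i => i.s.hx) (hz Y 1 fun i => i.s.hy) (hz Z 2 fun i => i.s.hz) _ hW
  rw [Submodule.mem_span_range_iff_exists_fun] at key
  obtain ⟨c, hc⟩ := key
  refine ⟨c, fun i => ?_⟩
  have hci := congrFun hc i
  rw [Finset.sum_apply] at hci
  have e5 : ∀ s : Fin n × Fin n × Fin n,
      (c s • (X ^ (s.1 : ℕ) * Y ^ (s.2.1 : ℕ) * Z ^ (s.2.2 : ℕ))) i =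
      MvPolynomial.eval i.v (c s) • (i.x ^ (s.1 : ℕ) * i.y ^ (s.2.1 : ℕ) * i.z ^ (s.2.2 : ℕ)) := by
    intro s
    rw [hsm]
    rfl
  rw [Finset.sum_congr rfl fun s _ => e5 s] at hci
  rw [hci]
  rfl

theorem fi_bound (h : Par n A) (B : ℝ) : ∃ K : ℝ, ∀ (x y z : Module.End ℂ (ZMod n → ℂ))
    (ξ η ζ p : ℂ), TriP p A x y z → Sh n x y z ξ η ζ → ‖ξ‖ ≤ B → ‖η‖ ≤ B → ‖ζ‖ ≤ B →
    ∀ r : Fin n × Fin n × Fin n, ∃ c : Fin n × Fin n × Fin n → ℂ, (∀ s, ‖c s‖ ≤ K) ∧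
      (fi A (x, y, z)).1 ^ (r.1 : ℕ) * (fi A (x, y, z)).2.1 ^ (r.2.1 : ℕ) *
        (fi A (x, y, z)).2.2 ^ (r.2.2 : ℕ) =
      ∑ s, c s • (x ^ (s.1 : ℕ) * y ^ (s.2.1 : ℕ) * z ^ (s.2.2 : ℕ)) := by
  choose c hc using AzFam_main h B
  have hb : ∀ r s, ∃ K : ℝ, 0 ≤ K ∧
      ∀ v : Fin 3 → ℂ, (∀ j, ‖v j‖ ≤ B) → ‖MvPolynomial.eval v (c r s)‖ ≤ K :=
    fun r s => AzFam_bd B (c r s)
  choose K hK0 hK using hb
  refine ⟨∑ r, ∑ s, K r s, ?_⟩
  intro x y z ξ η ζ p t s hξ hη hζ r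
  have hv : ∀ j : Fin 3, ‖(![ξ, η, ζ] : Fin 3 → ℂ) j‖ ≤ B := by
    intro j
    fin_cases j
    · exact hξ
    · exact hη
    · exact hζ
  let i : AzFamI n A B := ⟨x, y, z, ![ξ, η, ζ], p, t, s, hv⟩
  refine ⟨fun s => MvPolynomial.eval i.v (c r s), fun s => ?_, hc r i⟩
  refine (hK r s _ hv).trans ?_
  have h1 : K r s ≤ ∑ s, K r s := Finset.single_le_sum (fun s _ => hK0 r s) (Finset.mem_univ s)
  have h2 : ∑ s, K r s ≤ ∑ r, ∑ s, K r s :=
    Finset.single_le_sum (f := fun r => ∑ s, K r s)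
      (fun r _ => Finset.sum_nonneg fun s _ => hK0 r s) (Finset.mem_univ r)
  exact h1.trans h2

end MP_372ad9_gt
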