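import Pool.Agent.Lib.MP_372ad9_gt.AzRep

set_option autoImplicit false

namespace MP_372ad9_gt

open Filter Topology

/-- The character data of the point: `ξ ^ 2 = 2 + 2 i`, `η = conj ξ`, `ζ = √2 (1 - i)`. -/
theorem exists_data : ∃ ξ η ζ : ℂ, ξ ^ 2 = 2 + 2 * Complex.I ∧ η = (starRingEnd ℂ) ξ ∧
    ζ ^ 2 = -(4 * Complex.I) ∧ ξ * ζ = 2 * η ∧ ξ * η - ζ = (starRingEnd ℂ) ζ ∧
    ζ = (Real.sqrt 2 : ℝ) * (1 - Complex.I) := by
  obtain ⟨ξ, hξ⟩ := IsAlgClosed.exists_pow_nat_eq (2 + 2 * Complex.I) (n := 2) (by norm_num)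
  have hI : Complex.I ^ 2 = -1 := Complex.I_sq
  have hs : ((Real.sqrt 2 : ℝ) : ℂ) ^ 2 = 2 := by
    rw [← Complex.ofReal_pow, Real.sq_sqrt (by norm_num)]
    norm_num
  have hc2 : ((starRingEnd ℂ) ξ) ^ 2 = 2 - 2 * Complex.I := by
    rw [← map_pow, hξ, map_add, map_mul, Complex.conj_I, map_ofNat]
    ring
  have hξ0 : ξ ≠ 0 := by
    intro h0
    rw [h0] at hξ
    have := congrArg Complex.re hξ
    simp at this
  -- `ξ * conj ξ = 2 √2`
  have hn : ξ * (starRingEnd ℂ) ξ = 2 * (Real.sqrt 2 : ℝ) := by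
    rw [Complex.mul_conj]
    have h1 : Complex.normSq ξ ^ 2 = 8 := by
      have h2 : ((Complex.normSq ξ : ℝ) : ℂ) ^ 2 = 8 := by
        rw [← Complex.mul_conj, mul_pow, hξ, hc2]
        linear_combination (-4) * hI
      exact_mod_cast h2
    have h3 : Complex.normSq ξ = 2 * Real.sqrt 2 := by
      have h4 : (2 * Real.sqrt 2) ^ 2 = 8 := by
        rw [mul_pow, Real.sq_sqrt (by norm_num)]
        norm_num
      have h5 : 0 ≤ Complex.normSq ξ := Complex.normSq_nonneg ξ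
      have h6 : 0 ≤ 2 * Real.sqrt 2 := by positivity
      exact (pow_left_inj₀ h5 h6 (two_ne_zero)).mp (h1.trans h4.symm)
    rw [h3]
    push_cast
    ring
  refine ⟨ξ, (starRingEnd ℂ) ξ, (Real.sqrt 2 : ℝ) * (1 - Complex.I), hξ, rfl, ?_, ?_, ?_, rfl⟩
  · rw [mul_pow, hs]
    linear_combination 2 * hI
  · apply mul_left_cancel₀ hξ0
    linear_combination ((Real.sqrt 2 : ℝ) * (1 - Complex.I) : ℂ) * hξ -
      (2 : ℂ) * (Real.sqrt 2 : ℝ) * hI - 2 * hn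
  · rw [hn, map_mul, Complex.conj_ofReal, map_sub, Complex.conj_I, map_one]
    ring

theorem data_cpt {n : ℕ} {A ξ η ζ : ℂ} (h : Par n A) (h1 : ξ ^ 2 = 2 + 2 * Complex.I)
    (h2 : ζ ^ 2 = -(4 * Complex.I)) (h3 : ξ * ζ = 2 * η) :
    CPt n (A ^ 2 + (A ^ 2)⁻¹) ξ η ζ where
  e1 := h3
  e2 := by
    rw [h1, h2]
    linear_combination (-8) * Complex.I_sq
  e3 := by
    rw [h1, cheb_wt h]
    linear_combination 4 * Complex.I_sq
  e4 := by
    rw [h1]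
    intro h0
    have := congrArg Complex.im h0
    simp at this

section Mat

variable {d : ℕ} {A : ℂ}

/-- A matrix representation, acting on `ℂ ^ d`. -/
noncomputable def toE (ρ : Skein A →ₐ[ℂ] Matrix (Fin d) (Fin d) ℂ) :
    Skein A →ₐ[ℂ] Module.End ℂ (Fin d → ℂ) :=
  (Matrix.toLinAlgEquiv' (R := ℂ) (n := Fin d)).toAlgHom.comp ρ

theorem toE_apply (ρ : Skein A →ₐ[ℂ] Matrix (Fin d) (Fin d) ℂ) (u : Skein A) :
    toE ρ u = Matrix.toLinAlgEquiv' (ρ u) := rfl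

end Mat

/-- The properties of a representation as in `IsRep`. -/
theorem rep_facts {s : ℤ} (hs : s = 1 ∨ s = -1) {n : ℕ} [NeZero n] (hn : Odd n) (h3 : 3 ≤ n)
    {γ : FreeGroup (Fin 2) →* SL2}
    (c : CPt n (rootA s n ^ 2 + (rootA s n ^ 2)⁻¹) (trw γ ga) (trw γ gb) (trw γ (ga * gb)))
    {d : ℕ} {ρ : Skein (rootA s n) →ₐ[ℂ] Matrix (Fin d) (Fin d) ℂ}
    (r : IsRep n γ (wt (2 * Real.pi * Complex.I) n) ρ) :
    Module.finrank ℂ (Fin d → ℂ) = n ∧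
    TriP (rootA s n ^ 2 + (rootA s n ^ 2)⁻¹) (rootA s n) (toE ρ (gx _)) (toE ρ (gy _))
      (toE ρ (gz _)) ∧
    Sh n (toE ρ (gx _)) (toE ρ (gy _)) (toE ρ (gz _)) (trw γ ga) (trw γ gb)
      (trw γ (ga * gb)) := by
  have h := par_root hs hn h3
  have hp : toE ρ (punct _) = wt (2 * Real.pi * Complex.I) n • (1 : Module.End ℂ (Fin d → ℂ)) := by
    rw [toE_apply, r.pun, map_smul, map_one]
  have t := rep_triple (toE ρ) hp
  rw [wt_root hs] at t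
  have sh : Sh n (toE ρ (gx _)) (toE ρ (gy _)) (toE ρ (gz _)) (trw γ ga) (trw γ gb)
      (trw γ (ga * gb)) :=
    azIntw_sh (Matrix.toLinAlgEquiv' (R := ℂ) (n := Fin d)).toAlgHom ⟨r.shx, r.shy, r.shz⟩
  have : Nonempty (Fin d) := ⟨⟨0, r.pos⟩⟩
  have : Nontrivial (Fin d → ℂ) := Function.nontrivial
  refine ⟨?_, t, sh⟩
  refine finrank_of_irr h t sh.hx c.e4 c.nd1 (fun W w0 w1 w2 => r.irr W (fun u w hw => ?_))
  have h5 := rep_stable (toE ρ) W w0 w1 w2 u w hw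
  rw [toE_apply, Matrix.toLinAlgEquiv'_apply] at h5
  exact h5

/-- The intertwiner as an endomorphism. -/
theorem intw_mat {A : ℂ} (hA : A ≠ 0) {d : ℕ} (ρ : Skein A →ₐ[ℂ] Matrix (Fin d) (Fin d) ℂ)
    (Λ : Matrix (Fin d) (Fin d) ℂ) (hd : ‖Λ.det‖ = 1)
    (hc : ∀ u, ρ (phiSharp A hA u) = Λ * ρ u * Λ⁻¹) :
    Intw A (toE ρ (gx A)) (toE ρ (gy A)) (toE ρ (gz A)) (Matrix.toLinAlgEquiv' Λ)
      (Matrix.toLinAlgEquiv' Λ⁻¹) := by
  have hu : IsUnit Λ.det := by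
    apply IsUnit.mk0
    intro h0
    rw [h0, norm_zero] at hd
    exact zero_ne_one hd
  apply intw_of hA
  · rw [← map_mul, Matrix.mul_nonsing_inv Λ hu, map_one]
  · rw [← map_mul, Matrix.nonsing_inv_mul Λ hu, map_one]
  · intro u
    rw [toE_apply, toE_apply, hc, map_mul, map_mul]

theorem det_toE {d : ℕ} (Λ : Matrix (Fin d) (Fin d) ℂ) :
    LinearMap.det (Matrix.toLinAlgEquiv' Λ : Module.End ℂ (Fin d → ℂ)) = Λ.det :=
  LinearMap.det_toLin' Λ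

theorem tr_toE {d : ℕ} (Λ : Matrix (Fin d) (Fin d) ℂ) :
    LinearMap.trace ℂ (Fin d → ℂ) (Matrix.toLinAlgEquiv' Λ) = Λ.trace :=
  Matrix.trace_toLin'_eq Λ

/-- Existence of the number `|Tr Λ|`. -/
theorem exists_abs {s : ℤ} (hs : s = 1 ∨ s = -1) {n : ℕ} (hn : Odd n) (h3 : 3 ≤ n)
    {γ : FreeGroup (Fin 2) →* SL2}
    (c : CPt n (rootA s n ^ 2 + (rootA s n ^ 2)⁻¹) (trw γ ga) (trw γ gb) (trw γ (ga * gb))) :
    ∃ t, IsAbsTrace s n γ (2 * Real.pi * Complex.I) t := by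
  have : NeZero n := ⟨by omega⟩
  have h := par_root hs hn h3
  obtain ⟨x0, y0, z0, t0, sh0⟩ := exists_model h c
  have hV0 : Module.finrank ℂ (ZMod n → ℂ) = n := by
    rw [Module.finrank_fintype_fun_eq_card, ZMod.card]
  have hV : Module.finrank ℂ (Fin n → ℂ) = n := by
    rw [Module.finrank_fintype_fun_eq_card, Fintype.card_fin]
  obtain ⟨f⟩ : Nonempty ((ZMod n → ℂ) ≃ₗ[ℂ] (Fin n → ℂ)) :=
    ⟨LinearEquiv.ofFinrankEq _ _ (by rw [hV, hV0])⟩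
  have t := azIntw_triP (f.conjAlgEquiv ℂ).toAlgHom t0
  have sh := azIntw_sh (f.conjAlgEquiv ℂ).toAlgHom sh0
  generalize (f.conjAlgEquiv ℂ).toAlgHom x0 = x at t sh
  generalize (f.conjAlgEquiv ℂ).toAlgHom y0 = y at t sh
  generalize (f.conjAlgEquiv ℂ).toAlgHom z0 = z at t sh
  obtain ⟨L, L', i, dL⟩ := exists_intw h hV t sh c
  have irr := irr_of_finrank h hV t sh.hx c.e4 c.nd1
  let φ : Module.End ℂ (Fin n → ℂ) ≃ₐ[ℂ] Matrix (Fin n) (Fin n) ℂ :=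
    (Matrix.toLinAlgEquiv' (R := ℂ) (n := Fin n)).symm
  have hφ : ∀ w : Module.End ℂ (Fin n → ℂ), Matrix.toLinAlgEquiv' (φ w) = w := by
    intro w
    exact AlgEquiv.apply_symm_apply _ w
  have tM := azIntw_triP φ.toAlgHom t
  have sM := azIntw_sh φ.toAlgHom sh
  obtain ⟨ρ, g0, g1, g2, gp⟩ := exists_rep tM
  have hinv : (φ L)⁻¹ = φ L' := by
    apply Matrix.inv_eq_right_inv
    rw [← map_mul, i.l1, map_one]
  have e0 : toE ρ (gx _) = x := by rw [toE_apply, g0]; exact hφ x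
  have e1 : toE ρ (gy _) = y := by rw [toE_apply, g1]; exact hφ y
  have e2 : toE ρ (gz _) = z := by rw [toE_apply, g2]; exact hφ z
  refine ⟨_, n, ρ, φ L, ?_, ?_, ?_, rfl⟩
  · refine ⟨by omega, ?_, ?_, ?_, ?_, ?_⟩
    · intro W hW
      have hW' : ∀ u, ∀ w ∈ W, toE ρ u w ∈ W := by
        intro u w hw
        rw [toE_apply, Matrix.toLinAlgEquiv'_apply]
        exact hW u w hw
      refine irr W ?_ ?_ ?_
      · rw [← e0]; exact hW' _
      · rw [← e1]; exact hW' _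
      · rw [← e2]; exact hW' _
    · rw [g0]; exact sM.hx
    · rw [g1]; exact sM.hy
    · rw [g2]; exact sM.hz
    · rw [gp, wt_root hs]
  · rw [← det_toE, hφ]; exact dL
  · intro u
    apply (Matrix.toLinAlgEquiv' (R := ℂ) (n := Fin n)).injective
    rw [map_mul, map_mul, hinv, hφ, hφ, ← toE_apply, ← toE_apply]
    apply rep_conj (rootA_ne s n) (toE ρ)
    rw [e0, e1, e2]
    exact i

/-- Uniqueness of the number `|Tr Λ|`. -/
theorem unique_abs {s : ℤ} (hs : s = 1 ∨ s = -1) {n : ℕ} (hn : Odd n) (h3 : 3 ≤ n)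
    {γ : FreeGroup (Fin 2) →* SL2}
    (c : CPt n (rootA s n ^ 2 + (rootA s n ^ 2)⁻¹) (trw γ ga) (trw γ gb) (trw γ (ga * gb)))
    {t t' : ℝ} (H : IsAbsTrace s n γ (2 * Real.pi * Complex.I) t)
    (H' : IsAbsTrace s n γ (2 * Real.pi * Complex.I) t') : t = t' := by
  have : NeZero n := ⟨by omega⟩
  have h := par_root hs hn h3
  obtain ⟨d, ρ, Λ, r, ld, lc, rfl⟩ := H
  obtain ⟨d', ρ', Λ', r', md, mc, rfl⟩ := H'
  obtain ⟨f1, f2, f3⟩ := rep_facts hs hn h3 c r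
  obtain ⟨f1', f2', f3'⟩ := rep_facts hs hn h3 c r'
  have hh := Intw.norm_tr h f1 f1' f2 f2' f3 f3' c (intw_mat (rootA_ne s n) ρ Λ ld lc)
    (intw_mat (rootA_ne s n) ρ' Λ' md mc) (by rw [det_toE]; exact ld) (by rw [det_toE]; exact md)
  rw [tr_toE, tr_toE] at hh
  exact hh

/-- The product of the two numbers is one. -/
theorem prod_abs {s : ℤ} (hs : s = 1 ∨ s = -1) {n : ℕ} (hn : Odd n) (h3 : 3 ≤ n)
    {γ γ' : FreeGroup (Fin 2) →* SL2}
    (c : CPt n (rootA s n ^ 2 + (rootA s n ^ 2)⁻¹) (trw γ ga) (trw γ gb) (trw γ (ga * gb)))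
    (e0 : trw γ' ga = trw γ gb) (e1 : trw γ' gb = trw γ ga)
    (e2 : trw γ' (ga * gb) = trw γ ga * trw γ gb - trw γ (ga * gb))
    {t t' : ℝ} (H : IsAbsTrace s n γ (2 * Real.pi * Complex.I) t)
    (H' : IsAbsTrace s n γ' (2 * Real.pi * Complex.I) t') : t * t' = 1 := by
  have : NeZero n := ⟨by omega⟩
  have h := par_root hs hn h3
  have cS := c.S
  have c' : CPt n (rootA s n ^ 2 + (rootA s n ^ 2)⁻¹) (trw γ' ga) (trw γ' gb)
      (trw γ' (ga * gb)) := by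
    rw [e0, e1, e2]; exact cS
  obtain ⟨d, ρ, Λ, r, ld, lc, rfl⟩ := H
  obtain ⟨d', ρ', Λ', r', md, mc, rfl⟩ := H'
  obtain ⟨f1, f2, f3⟩ := rep_facts hs hn h3 c r
  obtain ⟨f1', f2', f3'⟩ := rep_facts hs hn h3 c' r'
  have i := intw_mat (rootA_ne s n) ρ Λ ld lc
  have i' := intw_mat (rootA_ne s n) ρ' Λ' md mc
  have iS := i.swap h.A_ne f2
  have tS := f2.S h.A_ne
  have sS := f3.S h f1 f2 c
  rw [e0, e1, e2] at f3'
  have hd : ‖LinearMap.det (Matrix.toLinAlgEquiv' Λ⁻¹ : Module.End ℂ (Fin d → ℂ))‖ = 1 := by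
    rw [det_toE, Matrix.det_nonsing_inv, Ring.inverse_eq_inv', norm_inv, ld, inv_one]
  have hN := Intw.norm_tr h f1 f1' tS f2' sS f3' cS iS i' hd (by rw [det_toE]; exact md)
  have hone := Intw.tr_one h f1 f2 f3 c i
  rw [tr_toE, tr_toE] at hN hone
  rw [← hN, ← norm_mul, hone, norm_one]

end MP_372ad9_gt
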