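import Pool.Agent.Lib.MP_372ad9_gt.AzBasis

set_option autoImplicit false

/-
ROW AzForm (about 130 lines). The explicit formula for Tr L * Tr L'.

Notation: X = mX A u (diagonal, distinct entries nd A u k by nd_inj), Y = mY p A u μ, F1 = (mF p A u μ).1, F2 = (mF p A u μ).2.1,
L L' = 1 = L' L, F1 L = L X, F2 L = L Y. Write E k l for the matrix unit (Matrix.single k l 1).
(1) mP A u X k = E k k: X is diagonal, each factor is the diagonal matrix with entries (x_i - x_j)/(x_k - x_j), j = k+1+t, t < n-1,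
 the product is diagonal with entry ∏_{t<n-1} (x_i - x_{k+1+t})/(x_k - x_{k+1+t}), which is 1 for i = k and 0 for i ≠ k since
 i = k + 1 + t for t = (i - k - 1).val < n - 1 (it is not n - 1, otherwise i = k). (List.prod of diagonal matrices: induction on the list.)
(2) L * mP A u X k = mP A u F1 k * L (induction over the list, each factor: (F1 - c) L = L (X - c)).
 So mP A u F1 k = L (E k k) L'.
(3) By induction on d: pth A u X Y k d = μ^d • E (k+d) k for d ≤ n-1 (indeed for all d):
 P_{k+d+1} Y E (k+d) k: column k is P_{k+d+1} applied to Y e_{k+d} = μ e_{k+d+1} + (..) e_{k+d-1}, and k+d+1 ≠ k+d-1 (n odd ≥ 3: 2 ≠ 0 in ZMod n).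
 And pth A u F1 F2 k d = L (pth A u X Y k d) L'. So pth A u F1 F2 k d = μ^d • L (E (k+d) k) L'.
(4) (L (E i k) L') i k = L i i * L' k k. Hence Phi = ∑_k ∑_{d<n} (μ⁻¹)^d μ^d L (k+d) (k+d) * L' k k
 = ∑_k (∑_i L i i) L' k k = L.trace * L'.trace (for fixed k, d ↦ k + d is a bijection from range n to ZMod n).
Phi is by definition the sum with F1 = (mF p A u μ).1, F2 = (mF p A u μ).2.1.
-/

namespace MP_372ad9_gt

open Finset

variable {n : ℕ} [NeZero n] {p A u μ : ℂ}

theorem AzForm_diag (w : ZMod n → ℂ) (c v : ℕ → ℂ) (l : List ℕ) :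
    (l.map (fun j => c j • (Matrix.diagonal w - v j • (1 : Matrix (ZMod n) (ZMod n) ℂ)))).prod =
      Matrix.diagonal (fun i => (l.map (fun j => c j * (w i - v j))).prod) := by
  induction l with
  | nil => simp
  | cons a l ih =>
    rw [List.map_cons, List.prod_cons, ih]
    have h1 : c a • (Matrix.diagonal w - v a • (1 : Matrix (ZMod n) (ZMod n) ℂ)) =
        Matrix.diagonal (fun i => c a * (w i - v a)) := by
      ext i j
      by_cases hij : i = j
      · subst hij; simp
      · simp [hij]
    rw [h1, Matrix.diagonal_mul_diagonal]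
    simp only [List.map_cons, List.prod_cons]

theorem AzForm_mP_eq (M : Matrix (ZMod n) (ZMod n) ℂ) (k : ZMod n) :
    mP A u M k = ((List.range (n - 1)).map
      (fun j : ℕ => (nd A u k - nd A u (k + 1 + (j : ZMod n)))⁻¹ •
        (M - nd A u (k + 1 + (j : ZMod n)) • (1 : Matrix (ZMod n) (ZMod n) ℂ)))).prod := by
  rw [mP]
  congr 1
  generalize List.range (n - 1) = l
  induction l with
  | nil => rfl
  | cons a l ih =>
    rw [List.map_cons, ← ih]
    rfl

omit [NeZero n] in
theorem AzForm_ne (h : Par n A) (k : ZMod n) {j : ℕ} (hj : j < n - 1) :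
    k + 1 + (j : ZMod n) ≠ k := by
  intro h0
  have hn := h.three
  have h1 : ((j + 1 : ℕ) : ZMod n) = 0 := by
    push_cast
    linear_combination h0
  rw [ZMod.natCast_eq_zero_iff] at h1
  have := Nat.le_of_dvd (by omega) h1
  omega

theorem AzForm_mP (h : Par n A) (hu : u ≠ 0) (hu2 : (u ^ n) ^ 2 ≠ 1) (k : ZMod n) :
    mP A u (mX A u) k = Matrix.single k k 1 := by
  have hn := h.three
  have h1 : mP A u (mX A u) k = Matrix.diagonal (fun i => ((List.range (n - 1)).map
      (fun j : ℕ => (nd A u k - nd A u (k + 1 + (j : ZMod n)))⁻¹ *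
        (nd A u i - nd A u (k + 1 + (j : ZMod n))))).prod) := by
    rw [AzForm_mP_eq, mX]
    exact AzForm_diag (nd A u) (fun j : ℕ => (nd A u k - nd A u (k + 1 + (j : ZMod n)))⁻¹)
      (fun j : ℕ => nd A u (k + 1 + (j : ZMod n))) (List.range (n - 1))
  rw [h1]
  ext i j
  by_cases hij : i = j
  · subst hij
    rw [Matrix.diagonal_apply_eq]
    by_cases hik : i = k
    · subst hik
      rw [Matrix.single_apply_same]
      apply List.prod_eq_one
      intro x hx
      rw [List.mem_map] at hx
      obtain ⟨j, hj, rfl⟩ := hx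
      rw [List.mem_range] at hj
      apply inv_mul_cancel₀
      rw [sub_ne_zero]
      intro h2
      have h8 := nd_inj h hu hu2 h2
      exact AzForm_ne h i hj h8.symm
    · rw [Matrix.single_apply_of_ne _ _ _ _ _ (by tauto)]
      apply List.prod_eq_zero
      rw [List.mem_map]
      refine ⟨(i - k - 1).val, ?_, ?_⟩
      · rw [List.mem_range]
        have h3 := ZMod.val_lt (i - k - 1)
        by_contra h4
        have h5 : (i - k - 1).val = n - 1 := by omega
        apply hik
        have h6 : (i - k - 1) = ((n - 1 : ℕ) : ZMod n) := by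
          rw [← h5, ZMod.natCast_zmod_val]
        rw [Nat.cast_sub (by omega), ZMod.natCast_self, Nat.cast_one] at h6
        linear_combination h6
      · rw [ZMod.natCast_zmod_val]
        have h7 : k + 1 + (i - k - 1) = i := by ring
        rw [h7, sub_self, mul_zero]
  · rw [Matrix.diagonal_apply_ne _ hij, Matrix.single_apply_of_ne]
    rintro ⟨rfl, rfl⟩
    exact hij rfl

theorem AzForm_conj {F X L : Matrix (ZMod n) (ZMod n) ℂ} (hX : F * L = L * X) (k : ZMod n) :
    L * mP A u X k = mP A u F k * L := by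
  rw [AzForm_mP_eq, AzForm_mP_eq]
  generalize List.range (n - 1) = l
  induction l with
  | nil => simp
  | cons a l ih =>
    rw [List.map_cons, List.prod_cons, List.map_cons, List.prod_cons, mul_assoc, ← ih,
      ← mul_assoc, ← mul_assoc]
    congr 1
    rw [Matrix.mul_smul, Matrix.smul_mul, Matrix.mul_sub, Matrix.sub_mul, hX, Matrix.mul_smul,
      Matrix.smul_mul, Matrix.mul_one, Matrix.one_mul]

theorem AzForm_pth (h : Par n A) (hu : u ≠ 0) (hu2 : (u ^ n) ^ 2 ≠ 1) (k : ZMod n) (d : ℕ) :
    pth A u (mX A u) (mY p A u μ) k d = Matrix.single (k + (d : ZMod n)) k (μ ^ d) := by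
  have hn := h.three
  induction d with
  | zero =>
    rw [pth, AzForm_mP h hu hu2]
    simp
  | succ d ih =>
    rw [pth, ih, AzForm_mP h hu hu2]
    have h1 : mY p A u μ (k + ((d + 1 : ℕ) : ZMod n)) (k + (d : ZMod n)) = μ := by
      rw [mY, if_pos (by push_cast; ring), if_neg, add_zero]
      intro h2
      have h3 : ((2 : ℕ) : ZMod n) = 0 := by
        push_cast at h2 ⊢
        linear_combination h2
      rw [ZMod.natCast_eq_zero_iff] at h3
      have := Nat.le_of_dvd (by omega) h3
      omega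
    rw [Matrix.single_mul_mul_single, h1, one_mul, pow_succ']

theorem AzForm_conj2 {F X G Y L : Matrix (ZMod n) (ZMod n) ℂ} (hX : F * L = L * X)
    (hY : G * L = L * Y) (k : ZMod n) (d : ℕ) :
    L * pth A u X Y k d = pth A u F G k d * L := by
  induction d with
  | zero => rw [pth, pth, AzForm_conj hX]
  | succ d ih =>
    rw [pth, pth, mul_assoc, mul_assoc, mul_assoc, ← ih, ← mul_assoc G, hY,
      mul_assoc L, ← mul_assoc L, AzForm_conj hX, mul_assoc]

theorem AzForm_sum (f : ZMod n → ℂ) (k : ZMod n) :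
    ∑ d ∈ range n, f (k + (d : ZMod n)) = ∑ i : ZMod n, f i := by
  apply Finset.sum_nbij' (fun d : ℕ => k + (d : ZMod n)) (fun i : ZMod n => (i - k).val)
  · intro a _
    exact mem_univ _
  · intro a _
    exact mem_range.mpr (ZMod.val_lt _)
  · intro a ha
    rw [add_sub_cancel_left, ZMod.val_natCast, Nat.mod_eq_of_lt (mem_range.mp ha)]
  · intro a _
    rw [ZMod.natCast_zmod_val]
    ring
  · intro a _
    rfl

theorem phi_formula (h : Par n A) (hu : u ≠ 0) (hu2 : (u ^ n) ^ 2 ≠ 1) (hμ : μ ≠ 0)
    (L L' : Matrix (ZMod n) (ZMod n) ℂ) (h1 : L * L' = 1) (h2 : L' * L = 1)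
    (hX : (mF p A u μ).1 * L = L * mX A u) (hY : (mF p A u μ).2.1 * L = L * mY p A u μ) :
    L.trace * L'.trace = Phi n A u μ p := by
  have key : ∀ (k : ZMod n) (d : ℕ), (μ⁻¹) ^ d *
      pth A u (mF (n := n) p A u μ).1 (mF (n := n) p A u μ).2.1 k d (k + (d : ZMod n)) k =
      L (k + (d : ZMod n)) (k + (d : ZMod n)) * L' k k := by
    intro k d
    have h3 : pth A u (mF (n := n) p A u μ).1 (mF (n := n) p A u μ).2.1 k d =
        L * Matrix.single (k + (d : ZMod n)) k (μ ^ d) * L' := by
      rw [← AzForm_pth h hu hu2, AzForm_conj2 hX hY, mul_assoc, h1, mul_one]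
    rw [h3]
    have h4 : (L * Matrix.single (k + (d : ZMod n)) k (μ ^ d) * L') (k + (d : ZMod n)) k =
        L (k + (d : ZMod n)) (k + (d : ZMod n)) * μ ^ d * L' k k := by
      rw [Matrix.mul_apply, Finset.sum_eq_single k]
      · rw [Matrix.mul_single_apply_same]
      · intro b _ hb
        rw [Matrix.mul_single_apply_of_ne _ _ _ _ _ hb, zero_mul]
      · intro hk
        exact absurd (mem_univ _) hk
    rw [h4]
    have h5 : (μ⁻¹) ^ d * μ ^ d = 1 := by
      rw [← mul_pow, inv_mul_cancel₀ hμ, one_pow]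
    linear_combination (L (k + (d : ZMod n)) (k + (d : ZMod n)) * L' k k) * h5
  rw [Phi]
  simp only [key]
  have h6 : ∀ k : ZMod n, ∑ d ∈ range n, L (k + (d : ZMod n)) (k + (d : ZMod n)) * L' k k =
      L.trace * L' k k := by
    intro k
    rw [← Finset.sum_mul, AzForm_sum (fun i => L i i) k, Matrix.trace]
    rfl
  simp only [h6]
  rw [← Finset.mul_sum]
  rfl

end MP_372ad9_gt
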