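import Pool.Agent.Lib.MP_372ad9_gt.AzBasis

set_option autoImplicit false

/-
ROW AzHasT (about 130 lines). Properties of HasT.

hasT_unique: L1, L2 with inverses L1', L2' both intertwine (x,y,z) with fi (x,y,z). Then C = L2' L1 commutes with x, y
 and z. C has an eigenvalue s, its eigenspace is stable and not bot, so it is top (irr_of_finrank) and C = s • 1, s ≠ 0.
 So L1 = s L2, L1' = s⁻¹ L2', the product of traces is the same.
HasT.conj: L ↦ f L f⁻¹ (f.conj L), traces by LinearMap.trace_conj'.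
HasT.neg_xy: fi A (-x, -y, z) = (-fi.1, -fi.2.1, fi.2.2): pure ring identity.
HasT.neg_yz: fi A (x, -y, -z) = (fi.1, -fi.2.1, -fi.2.2). Same L, L'.
-/

namespace MP_372ad9_gt

variable {n : ℕ} [NeZero n] {p A ξ η ζ : ℂ} {V V' : Type*} [AddCommGroup V] [Module ℂ V]
  [AddCommGroup V'] [Module ℂ V'] {x y z : Module.End ℂ V} {x' y' z' : Module.End ℂ V'}

section Aux

variable {E : Type*} [Ring E] [Algebra ℂ E]

theorem azHasT_comm {F L₁ L₂ L₂' a : E} (h1 : L₂ * L₂' = 1) (h2 : L₂' * L₂ = 1)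
    (e1 : F * L₁ = L₁ * a) (e2 : F * L₂ = L₂ * a) : (L₂' * L₁) * a = a * (L₂' * L₁) := by
  have h3 : L₂' * F = a * L₂' := by
    calc L₂' * F = L₂' * F * (L₂ * L₂') := by rw [h1, mul_one]
      _ = L₂' * (F * L₂) * L₂' := by noncomm_ring
      _ = (L₂' * L₂) * a * L₂' := by rw [e2]; noncomm_ring
      _ = a * L₂' := by rw [h2, one_mul]
  calc (L₂' * L₁) * a = L₂' * (L₁ * a) := mul_assoc _ _ _
    _ = (L₂' * F) * L₁ := by rw [← e1, mul_assoc]
    _ = a * (L₂' * L₁) := by rw [h3, mul_assoc]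

theorem azHasT_tw1 (a b c : E) : tw A (-a) b (-c) = -(tw A a b c) := by
  simp only [tw, neg_mul, smul_neg]
  abel

theorem azHasT_tw2 (a b c : E) : tw A a (-b) (-c) = -(tw A a b c) := by
  simp only [tw, mul_neg, smul_neg]
  abel

theorem azHasT_tw3 (a b c : E) : tw A (-a) (-b) c = tw A a b c := by
  simp only [tw, mul_neg, neg_mul, neg_neg]

theorem azHasT_fi_xy (a b c : E) : fi A (-a, -b, c) =
    (-(fi A (a, b, c)).1, -(fi A (a, b, c)).2.1, (fi A (a, b, c)).2.2) := by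
  simp only [fi, Rt, Lt, azHasT_tw1, azHasT_tw2, azHasT_tw3]

theorem azHasT_fi_yz (a b c : E) : fi A (a, -b, -c) =
    ((fi A (a, b, c)).1, -(fi A (a, b, c)).2.1, -(fi A (a, b, c)).2.2) := by
  simp only [fi, Rt, Lt, azHasT_tw1, azHasT_tw2, azHasT_tw3]

theorem azHasT_fi_map {E' : Type*} [Ring E'] [Algebra ℂ E'] (φ : E → E')
    (hm : ∀ a b, φ (a * b) = φ a * φ b) (hs : ∀ a b, φ (a - b) = φ a - φ b)
    (hc : ∀ (c : ℂ) a, φ (c • a) = c • φ a) (a b c : E) : fi A (φ a, φ b, φ c) =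
    (φ (fi A (a, b, c)).1, φ (fi A (a, b, c)).2.1, φ (fi A (a, b, c)).2.2) := by
  simp only [fi, Rt, Lt, tw, hm, hs, hc]

end Aux

theorem hasT_unique (h : Par n A) (hV : Module.finrank ℂ V = n) (t : TriP p A x y z)
    (hx : Polynomial.aeval x (cheb n) = (-ξ) • (1 : Module.End ℂ V)) (h1 : ξ ^ 2 ≠ 4)
    (h2 : ξ ^ 2 - 2 + (cheb n).eval p ≠ 0) {τ τ' : ℂ} (H : HasT A x y z τ)
    (H' : HasT A x y z τ') : τ = τ' := by
  have hn := h.three
  have hpos : 0 < Module.finrank ℂ V := by omega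
  haveI : FiniteDimensional ℂ V := FiniteDimensional.of_finrank_pos hpos
  haveI : Nontrivial V := Module.nontrivial_of_finrank_pos hpos
  obtain ⟨L₁, L₁', a1, a2, a3, a4, a5, a6⟩ := H
  obtain ⟨L₂, L₂', b1, b2, b3, b4, b5, b6⟩ := H'
  have cx := azHasT_comm b1 b2 a3 b3
  have cy := azHasT_comm b1 b2 a4 b4
  have cz := azHasT_comm b1 b2 a5 b5
  obtain ⟨s, hs⟩ := Module.End.exists_eigenvalue (L₂' * L₁)
  have hst : ∀ w : Module.End ℂ V, (L₂' * L₁) * w = w * (L₂' * L₁) →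
      ∀ v ∈ Module.End.eigenspace (L₂' * L₁) s, w v ∈ Module.End.eigenspace (L₂' * L₁) s := by
    intro w hw v hv
    rw [Module.End.mem_eigenspace_iff] at hv ⊢
    calc (L₂' * L₁) (w v) = ((L₂' * L₁) * w) v := rfl
      _ = w ((L₂' * L₁) v) := by rw [hw]; rfl
      _ = s • w v := by rw [hv, map_smul]
  have htop : Module.End.eigenspace (L₂' * L₁) s = ⊤ := by
    rcases irr_of_finrank h hV t hx h1 h2 (Module.End.eigenspace (L₂' * L₁) s)
      (hst x cx) (hst y cy) (hst z cz) with h3 | h3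
    · exact absurd h3 hs
    · exact h3
  have hC : L₂' * L₁ = s • (1 : Module.End ℂ V) := by
    ext v
    have hv : v ∈ Module.End.eigenspace (L₂' * L₁) s := by rw [htop]; trivial
    rw [Module.End.mem_eigenspace_iff] at hv
    rw [hv]
    rfl
  have hL : L₁ = s • L₂ := by
    calc L₁ = (L₂ * L₂') * L₁ := by rw [b1, one_mul]
      _ = L₂ * (L₂' * L₁) := mul_assoc _ _ _
      _ = s • L₂ := by rw [hC, mul_smul_comm, mul_one]
  have hs0 : s ≠ 0 := by
    intro h0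
    rw [h0, zero_smul] at hL
    rw [hL, zero_mul] at a1
    exact zero_ne_one a1
  have hL' : L₁' = s⁻¹ • L₂' := by
    have h3 : s • (L₁' * L₂) = 1 := by
      rw [← mul_smul_comm, ← hL, a2]
    have h4 : L₁' * L₂ = s⁻¹ • (1 : Module.End ℂ V) := by
      rw [← h3, smul_smul, inv_mul_cancel₀ hs0, one_smul]
    calc L₁' = (L₁' * L₂) * L₂' := by rw [mul_assoc, b1, mul_one]
      _ = s⁻¹ • L₂' := by rw [h4, smul_mul_assoc, one_mul]
  rw [a6, b6, hL, hL', map_smul, map_smul, smul_eq_mul, smul_eq_mul]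
  field_simp

theorem HasT.conj (f : V ≃ₗ[ℂ] V') (fx : ∀ v, f (x v) = x' (f v)) (fy : ∀ v, f (y v) = y' (f v))
    (fz : ∀ v, f (z v) = z' (f v)) {τ : ℂ} (H : HasT A x y z τ) : HasT A x' y' z' τ := by
  obtain ⟨L, L', a1, a2, a3, a4, a5, a6⟩ := H
  have hm : ∀ a b : Module.End ℂ V, f.conj (a * b) = f.conj a * f.conj b := by
    intro a b
    ext v
    simp [LinearEquiv.conj_apply]
  have hsb : ∀ a b : Module.End ℂ V, f.conj (a - b) = f.conj a - f.conj b := by
    intro a b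
    exact map_sub _ _ _
  have hc : ∀ (c : ℂ) (a : Module.End ℂ V), f.conj (c • a) = c • f.conj a := by
    intro c a
    exact map_smul _ _ _
  have h1 : f.conj (1 : Module.End ℂ V) = 1 := by
    ext v
    simp [LinearEquiv.conj_apply]
  have ex : ∀ (w : Module.End ℂ V) (w' : Module.End ℂ V'), (∀ v, f (w v) = w' (f v)) →
      w' = f.conj w := by
    intro w w' hw
    ext v
    have h2 := hw (f.symm v)
    rw [LinearEquiv.apply_symm_apply] at h2
    rw [← h2]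
    simp [LinearEquiv.conj_apply]
  have hfi := azHasT_fi_map (A := A) (fun a => f.conj a) hm hsb hc x y z
  rw [ex x x' fx, ex y y' fy, ex z z' fz]
  refine ⟨f.conj L, f.conj L', ?_, ?_, ?_, ?_, ?_, ?_⟩
  · rw [← hm, a1, h1]
  · rw [← hm, a2, h1]
  · rw [hfi]
    change f.conj _ * f.conj L = f.conj L * f.conj x
    rw [← hm, ← hm, a3]
  · rw [hfi]
    change f.conj _ * f.conj L = f.conj L * f.conj y
    rw [← hm, ← hm, a4]
  · rw [hfi]
    change f.conj _ * f.conj L = f.conj L * f.conj z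
    rw [← hm, ← hm, a5]
  · rw [a6, LinearMap.trace_conj', LinearMap.trace_conj']

theorem HasT.neg_xy {τ : ℂ} (H : HasT A x y z τ) : HasT A (-x) (-y) z τ := by
  obtain ⟨L, L', a1, a2, a3, a4, a5, a6⟩ := H
  refine ⟨L, L', a1, a2, ?_, ?_, ?_, a6⟩
  · rw [azHasT_fi_xy, neg_mul, a3, mul_neg]
  · rw [azHasT_fi_xy, neg_mul, a4, mul_neg]
  · rw [azHasT_fi_xy, a5]

theorem HasT.neg_yz {τ : ℂ} (H : HasT A x y z τ) : HasT A x (-y) (-z) τ := by
  obtain ⟨L, L', a1, a2, a3, a4, a5, a6⟩ := H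
  refine ⟨L, L', a1, a2, ?_, ?_, ?_, a6⟩
  · rw [azHasT_fi_yz, a3]
  · rw [azHasT_fi_yz, neg_mul, a4, mul_neg]
  · rw [azHasT_fi_yz, neg_mul, a5, mul_neg]

end MP_372ad9_gt
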