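import Pool.Agent.Lib.MP_372ad9_gt.AzKey

set_option autoImplicit false

/-
ROW AzIntw (about 170 lines). Intertwiners: everything needed for the final statement.
Intw.scalar: Schur as in the proof of hasT_unique (AzHasT.lean): L' M commutes with x, y, z, has an eigenvalue s, its eigenspace is stable, so ⊤ (irr_of_finrank):
 M = s • L.
Intw.swap: copy of the proof of HasT.S (AzSwap.lean), which shows that L', L do it for (y, x, tw A y x z).
Intw.conj: copy of HasT.conj.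
norm_tr: f : V ≃ V' (unicity with c.e4, c.nd1), M1 = f.symm.conj M is an intertwiner on V (Intw.conj with f.symm), so M1 = s • L, det M1 = det M
 (LinearMap.det_conj), det (s • L) = s^n det L (LinearMap.det_smul, finrank = n): ‖s‖^n = 1, ‖s‖ = 1; trace M = trace M1 (trace_conj').
tr_one: V ≃ (ZMod n → ℂ) (both finrank n): transport the triple (x ↦ f.conj x), TriP, Sh transport (algebra equivalence), HasT.conj; so
 Rel n A (A^2 + (A^2)⁻¹) (trace L * trace L') and key.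
exists_model: exists_U for ξ (c.e4): U, ξ = U + U⁻¹; u with u^n = U; al = -ζ/(2U) ≠ 0 (ζ ≠ 0 by e2), μ^n = al. Gd n p u μ: hw is e3 with U^2 + (U^2)⁻¹ = ξ^2 - 2;
 hm: al^2 (U^4 + 1) = ζ^2/4 (U^2 + U⁻²) = ζ^2 (ξ^2-2)/4 = 2. The matrices as in the proof of rel_phi (AzRel.lean: rel_chn, chn_g, gchn_triP, gchn_x, gchn_y, gchn_z,
 rel_prod) satisfy Sh with ξ' = U + U⁻¹ = ξ, η' = -(1+U^2) al = ξ ζ/2 = η, ζ' = -2 U al = ζ.
exists_intw: exists_T gives L, L' ; det L ≠ 0 (L invertible); c := a complex number with c^n = (det L)⁻¹; c • L, c⁻¹ • L' has ‖det‖ = 1 (det (c•L) = c^n det L = 1).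
-/

namespace MP_372ad9_gt

section Triples

variable {p A : ℂ} {E : Type*} [Ring E] [Algebra ℂ E]

/-- The inverse of `Rt` on triples. -/
noncomputable def azIntwRi (A : ℂ) (t : E × E × E) : E × E × E :=
  (t.1, A • (t.1 * t.2.1) - A ^ 2 • t.2.2, t.2.1)

/-- The inverse of `Lt` on triples. -/
noncomputable def azIntwLi (A : ℂ) (t : E × E × E) : E × E × E :=
  (A • (t.1 * t.2.1) - A ^ 2 • t.2.2, t.2.1, t.1)

/-- The symmetry `x ↔ y` on triples. -/
noncomputable def azIntwS (A : ℂ) (t : E × E × E) : E × E × E :=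
  (t.2.1, t.1, tw A t.2.1 t.1 t.2.2)

/-- Componentwise conjugation. -/
def azIntwC (l l' : E) (t : E × E × E) : E × E × E :=
  (l * t.1 * l', l * t.2.1 * l', l * t.2.2 * l')

/-- `TriP` for triples. -/
def AzIntwP (p A : ℂ) (t : E × E × E) : Prop := TriP p A t.1 t.2.1 t.2.2

theorem azIntw_tw_cancel (hA : A ≠ 0) (a b c : E) :
    A • (a * b) - A ^ 2 • tw A a b c = c := by
  rw [tw]
  match_scalars <;> field_simp
  ring

theorem azIntw_Ri_Rt (hA : A ≠ 0) (t : E × E × E) : azIntwRi A (Rt A t) = t := by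
  obtain ⟨a, b, c⟩ := t
  simp only [azIntwRi, Rt, azIntw_tw_cancel hA]

theorem azIntw_Li_Lt (hA : A ≠ 0) (t : E × E × E) : azIntwLi A (Lt A t) = t := by
  obtain ⟨a, b, c⟩ := t
  simp only [azIntwLi, Lt, azIntw_tw_cancel hA]

theorem azIntw_eq (hA : A ≠ 0) {t : E × E × E} (h : AzIntwP p A t) :
    tw A t.2.1 t.1 t.2.2 = A • (t.1 * t.2.1) - A ^ 2 • t.2.2 := tw_inv hA h

theorem azIntw_Rt_S (hA : A ≠ 0) {t : E × E × E} (h : AzIntwP p A t) :
    Rt A (azIntwS A t) = azIntwS A (azIntwLi A t) := by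
  have e := azIntw_eq hA h
  obtain ⟨a, b, c⟩ := t
  simp only [] at e
  simp only [azIntwS, azIntwLi, Rt, e]

theorem azIntw_Lt_S (hA : A ≠ 0) {t : E × E × E} (h : AzIntwP p A t) :
    Lt A (azIntwS A t) = azIntwS A (azIntwRi A t) := by
  have e := azIntw_eq hA h
  obtain ⟨a, b, c⟩ := t
  simp only [] at e
  simp only [azIntwS, azIntwRi, Lt, e]

theorem azIntw_P_Ri (hA : A ≠ 0) {t : E × E × E} (h : AzIntwP p A t) :
    AzIntwP p A (azIntwRi A t) := by
  have e := azIntw_eq hA h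
  have h1 : TriP p A t.2.1 t.1 (tw A t.2.1 t.1 t.2.2) := TriP.S hA h
  rw [e] at h1
  exact h1.rot

theorem azIntw_P_Li (hA : A ≠ 0) {t : E × E × E} (h : AzIntwP p A t) :
    AzIntwP p A (azIntwLi A t) := by
  have e := azIntw_eq hA h
  have h1 : TriP p A t.2.1 t.1 (tw A t.2.1 t.1 t.2.2) := TriP.S hA h
  rw [e] at h1
  exact h1.rot.rot

/-- The inverse of `fi` on triples. -/
noncomputable def azIntwG (A : ℂ) (t : E × E × E) : E × E × E :=
  azIntwRi A (azIntwRi A (azIntwLi A (azIntwLi A t)))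

theorem azIntw_G_fi (hA : A ≠ 0) (t : E × E × E) : azIntwG A (fi A t) = t := by
  rw [azIntwG, fi, azIntw_Li_Lt hA, azIntw_Li_Lt hA, azIntw_Ri_Rt hA, azIntw_Ri_Rt hA]

theorem azIntw_fi_S (hA : A ≠ 0) {t : E × E × E} (h : AzIntwP p A t) :
    fi A (azIntwS A t) = azIntwS A (azIntwG A t) := by
  have h1 := azIntw_P_Li hA h
  have h2 := azIntw_P_Li hA h1
  have h3 := azIntw_P_Ri hA h2
  rw [fi, azIntw_Rt_S hA h, azIntw_Rt_S hA h1, azIntw_Lt_S hA h2, azIntw_Lt_S hA h3, azIntwG]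

variable {l l' : E}

omit [Algebra ℂ E] in
theorem azIntw_mul (h : l' * l = 1) (a b : E) : (l * a * l') * (l * b * l') = l * (a * b) * l' := by
  calc (l * a * l') * (l * b * l') = l * a * (l' * l) * b * l' := by simp only [mul_assoc]
    _ = l * (a * b) * l' := by rw [h, mul_one, mul_assoc l a b]

theorem azIntw_C_Ri (h : l' * l = 1) (t : E × E × E) :
    azIntwRi A (azIntwC l l' t) = azIntwC l l' (azIntwRi A t) := by
  simp only [azIntwRi, azIntwC, azIntw_mul h, mul_sub, sub_mul, mul_smul_comm, smul_mul_assoc]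

theorem azIntw_C_Li (h : l' * l = 1) (t : E × E × E) :
    azIntwLi A (azIntwC l l' t) = azIntwC l l' (azIntwLi A t) := by
  simp only [azIntwLi, azIntwC, azIntw_mul h, mul_sub, sub_mul, mul_smul_comm, smul_mul_assoc]

theorem azIntw_C_S (h : l' * l = 1) (t : E × E × E) :
    azIntwS A (azIntwC l l' t) = azIntwC l l' (azIntwS A t) := by
  simp only [azIntwS, azIntwC, tw, azIntw_mul h, mul_sub, sub_mul, mul_smul_comm, smul_mul_assoc]

theorem azIntw_C_G (h : l' * l = 1) (t : E × E × E) :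
    azIntwG A (azIntwC l l' t) = azIntwC l l' (azIntwG A t) := by
  simp only [azIntwG, azIntw_C_Li h, azIntw_C_Ri h]

omit [Algebra ℂ E] in
theorem azIntw_C_C (h : l' * l = 1) (t : E × E × E) :
    azIntwC l' l (azIntwC l l' t) = t := by
  have key : ∀ a : E, l' * (l * a * l') * l = a := by
    intro a
    calc l' * (l * a * l') * l = (l' * l) * a * (l' * l) := by simp only [mul_assoc]
      _ = a := by rw [h, one_mul, mul_one]
  obtain ⟨a, b, c⟩ := t
  simp only [azIntwC, key]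

omit [Algebra ℂ E] in
theorem azIntw_comm {F L₁ L₂ L₂' a : E} (h1 : L₂ * L₂' = 1) (h2 : L₂' * L₂ = 1)
    (e1 : F * L₁ = L₁ * a) (e2 : F * L₂ = L₂ * a) : (L₂' * L₁) * a = a * (L₂' * L₁) := by
  have h3 : L₂' * F = a * L₂' := by
    calc L₂' * F = L₂' * F * (L₂ * L₂') := by rw [h1, mul_one]
      _ = L₂' * (F * L₂) * L₂' := by noncomm_ring
      _ = (L₂' * L₂) * a * L₂' := by rw [e2]; noncomm_ring
      _ = a * L₂' := by rw [h2, one_mul]
  calc (L₂' * L₁) * a = L₂' * (L₁ * a) := mul_assoc _ _ _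
    _ = (L₂' * F) * L₁ := by rw [← e1, mul_assoc]
    _ = a * (L₂' * L₁) := by rw [h3, mul_assoc]

theorem azIntw_fi {F : Type*} [Ring F] [Algebra ℂ F] (f : E →ₐ[ℂ] F)
    (x y z : E) : fi A (f x, f y, f z) =
      (f (fi A (x, y, z)).1, f (fi A (x, y, z)).2.1, f (fi A (x, y, z)).2.2) := by
  simp only [fi, Rt, Lt, tw, map_sub, map_smul, map_mul]

theorem azIntw_triP {F : Type*} [Ring F] [Algebra ℂ F] (f : E →ₐ[ℂ] F)
    {x y z : E} (t : TriP p A x y z) : TriP p A (f x) (f y) (f z) where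
  xy := by
    have h := congrArg f t.xy
    simpa only [map_sub, map_smul, map_mul] using h
  yz := by
    have h := congrArg f t.yz
    simpa only [map_sub, map_smul, map_mul] using h
  zx := by
    have h := congrArg f t.zx
    simpa only [map_sub, map_smul, map_mul] using h
  cub := by
    have h := congrArg f t.cub
    simpa only [map_add, map_smul, map_mul, map_one] using h

theorem azIntw_sh {F : Type*} [Ring F] [Algebra ℂ F] (f : E →ₐ[ℂ] F) {n : ℕ} {ξ η ζ : ℂ}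
    {x y z : E} (s : Sh n x y z ξ η ζ) : Sh n (f x) (f y) (f z) ξ η ζ where
  hx := by rw [Polynomial.aeval_algHom_apply, s.hx, map_smul, map_one]
  hy := by rw [Polynomial.aeval_algHom_apply, s.hy, map_smul, map_one]
  hz := by rw [Polynomial.aeval_algHom_apply, s.hz, map_smul, map_one]

end Triples

variable {n : ℕ} [NeZero n] {p A ξ η ζ : ℂ} {V V' : Type*} [AddCommGroup V] [Module ℂ V]
  [AddCommGroup V'] [Module ℂ V'] {x y z L L' M M' : Module.End ℂ V}
  {x' y' z' N N' : Module.End ℂ V'}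

/-- `L` intertwines the triple with its image under the diffeomorphism; `L'` is the inverse. -/
structure Intw (A : ℂ) (x y z L L' : Module.End ℂ V) : Prop where
  l1 : L * L' = 1
  l2 : L' * L = 1
  lx : (fi A (x, y, z)).1 * L = L * x
  ly : (fi A (x, y, z)).2.1 * L = L * y
  lz : (fi A (x, y, z)).2.2 * L = L * z

theorem Intw.swap (hA : A ≠ 0) (t : TriP p A x y z) (i : Intw A x y z L L') :
    Intw A y x (tw A y x z) L' L := by
  obtain ⟨h1, h2, e1, e2, e3⟩ := i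
  have hT : AzIntwP p A (x, y, z) := t
  have hfi : fi A (x, y, z) = azIntwC L L' (x, y, z) := by
    refine Prod.ext ?_ (Prod.ext ?_ ?_)
    · show (fi A (x, y, z)).1 = L * x * L'
      rw [← e1, mul_assoc, h1, mul_one]
    · show (fi A (x, y, z)).2.1 = L * y * L'
      rw [← e2, mul_assoc, h1, mul_one]
    · show (fi A (x, y, z)).2.2 = L * z * L'
      rw [← e3, mul_assoc, h1, mul_one]
  have hG : azIntwG A (x, y, z) = azIntwC L' L (x, y, z) := by
    have h3 := azIntw_G_fi hA (x, y, z)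
    rw [hfi, azIntw_C_G h2] at h3
    have h4 := azIntw_C_C h2 (azIntwG A (x, y, z))
    rw [h3] at h4
    exact h4.symm
  have hS : fi A (y, x, tw A y x z) = azIntwC L' L (y, x, tw A y x z) := by
    have h5 := azIntw_fi_S hA hT
    rw [hG, azIntw_C_S h1] at h5
    exact h5
  refine ⟨h2, h1, ?_, ?_, ?_⟩
  · rw [hS]
    show L' * y * L * L' = L' * y
    rw [mul_assoc, h1, mul_one]
  · rw [hS]
    show L' * x * L * L' = L' * x
    rw [mul_assoc, h1, mul_one]
  · rw [hS]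
    show L' * tw A y x z * L * L' = L' * tw A y x z
    rw [mul_assoc, h1, mul_one]

/-- Two intertwiners differ by a scalar. -/
theorem Intw.scalar (h : Par n A) (hV : Module.finrank ℂ V = n) (t : TriP p A x y z)
    (hx : Polynomial.aeval x (cheb n) = (-ξ) • (1 : Module.End ℂ V)) (h1 : ξ ^ 2 ≠ 4)
    (h2 : ξ ^ 2 - 2 + (cheb n).eval p ≠ 0) (i : Intw A x y z L L')
    (j : Intw A x y z M M') : ∃ s : ℂ, M = s • L := by
  have hn := h.three
  have hpos : 0 < Module.finrank ℂ V := by omega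
  have : FiniteDimensional ℂ V := FiniteDimensional.of_finrank_pos hpos
  have : Nontrivial V := Module.nontrivial_of_finrank_pos hpos
  have cx := azIntw_comm i.l1 i.l2 j.lx i.lx
  have cy := azIntw_comm i.l1 i.l2 j.ly i.ly
  have cz := azIntw_comm i.l1 i.l2 j.lz i.lz
  obtain ⟨s, hs⟩ := Module.End.exists_eigenvalue (L' * M)
  have hst : ∀ w : Module.End ℂ V, (L' * M) * w = w * (L' * M) →
      ∀ v ∈ Module.End.eigenspace (L' * M) s, w v ∈ Module.End.eigenspace (L' * M) s := by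
    intro w hw v hv
    rw [Module.End.mem_eigenspace_iff] at hv ⊢
    calc (L' * M) (w v) = ((L' * M) * w) v := rfl
      _ = w ((L' * M) v) := by rw [hw]; rfl
      _ = s • w v := by rw [hv, map_smul]
  have htop : Module.End.eigenspace (L' * M) s = ⊤ := by
    rcases irr_of_finrank h hV t hx h1 h2 (Module.End.eigenspace (L' * M) s)
      (hst x cx) (hst y cy) (hst z cz) with h3 | h3
    · exact absurd h3 hs
    · exact h3
  have hC : L' * M = s • (1 : Module.End ℂ V) := by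
    ext v
    have hv : v ∈ Module.End.eigenspace (L' * M) s := by rw [htop]; trivial
    rw [Module.End.mem_eigenspace_iff] at hv
    rw [hv]
    rfl
  refine ⟨s, ?_⟩
  calc M = (L * L') * M := by rw [i.l1, one_mul]
    _ = L * (L' * M) := mul_assoc _ _ _
    _ = s • L := by rw [hC, mul_smul_comm, mul_one]

/-- Transport of an intertwiner. -/
theorem Intw.conj (f : V ≃ₗ[ℂ] V') (fx : ∀ v, f (x v) = x' (f v)) (fy : ∀ v, f (y v) = y' (f v))
    (fz : ∀ v, f (z v) = z' (f v)) (i : Intw A x y z L L') :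
    Intw A x' y' z' (f.conj L) (f.conj L') := by
  have ex : ∀ (w : Module.End ℂ V) (w' : Module.End ℂ V'), (∀ v, f (w v) = w' (f v)) →
      w' = f.conjAlgEquiv ℂ w := by
    intro w w' hw
    ext v
    have h2 := hw (f.symm v)
    rw [LinearEquiv.apply_symm_apply] at h2
    rw [← h2]
    rfl
  have hc : ∀ w : Module.End ℂ V, f.conj w = f.conjAlgEquiv ℂ w := fun w => rfl
  have hfi := azIntw_fi (A := A) (f.conjAlgEquiv ℂ : Module.End ℂ V ≃ₐ[ℂ] Module.End ℂ V').toAlgHom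
    x y z
  have hfi' : fi A (f.conjAlgEquiv ℂ x, f.conjAlgEquiv ℂ y, f.conjAlgEquiv ℂ z) =
      (f.conjAlgEquiv ℂ (fi A (x, y, z)).1, f.conjAlgEquiv ℂ (fi A (x, y, z)).2.1,
        f.conjAlgEquiv ℂ (fi A (x, y, z)).2.2) := hfi
  rw [hc, hc, ex x x' fx, ex y y' fy, ex z z' fz]
  refine ⟨?_, ?_, ?_, ?_, ?_⟩
  · rw [← map_mul, i.l1, map_one]
  · rw [← map_mul, i.l2, map_one]
  · rw [hfi']
    change f.conjAlgEquiv ℂ _ * f.conjAlgEquiv ℂ L = _
    rw [← map_mul, ← map_mul, i.lx]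
  · rw [hfi']
    change f.conjAlgEquiv ℂ _ * f.conjAlgEquiv ℂ L = _
    rw [← map_mul, ← map_mul, i.ly]
  · rw [hfi']
    change f.conjAlgEquiv ℂ _ * f.conjAlgEquiv ℂ L = _
    rw [← map_mul, ← map_mul, i.lz]

theorem Intw.norm_tr (h : Par n A) (hV : Module.finrank ℂ V = n)
    (hV' : Module.finrank ℂ V' = n) (t : TriP p A x y z) (t' : TriP p A x' y' z')
    (s : Sh n x y z ξ η ζ) (s' : Sh n x' y' z' ξ η ζ) (c : CPt n p ξ η ζ)
    (i : Intw A x y z L L') (i' : Intw A x' y' z' N N') (d : ‖LinearMap.det L‖ = 1)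
    (d' : ‖LinearMap.det N‖ = 1) :
    ‖LinearMap.trace ℂ V L‖ = ‖LinearMap.trace ℂ V' N‖ := by
  have hn := h.three
  obtain ⟨f, fx, fy, fz⟩ := unicity h hV hV' t t' s s' c.e4 c.nd1
  have inv : ∀ (w : Module.End ℂ V) (w' : Module.End ℂ V'), (∀ v, f (w v) = w' (f v)) →
      ∀ v, f.symm (w' v) = w (f.symm v) := by
    intro w w' hw v
    rw [LinearEquiv.symm_apply_eq, hw, LinearEquiv.apply_symm_apply]
  have j := Intw.conj f.symm (inv x x' fx) (inv y y' fy) (inv z z' fz) i'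
  obtain ⟨r, hr⟩ := Intw.scalar h hV t s.hx c.e4 c.nd1 i j
  have hdet : LinearMap.det (f.symm.conj N) = LinearMap.det N := by
    have h1 := LinearMap.det_conj N f.symm
    exact h1
  have htr : LinearMap.trace ℂ V (f.symm.conj N) = LinearMap.trace ℂ V' N :=
    LinearMap.trace_conj' N f.symm
  have hr1 : ‖r‖ ^ n = 1 := by
    have h2 : LinearMap.det N = r ^ n * LinearMap.det L := by
      rw [← hdet, hr, LinearMap.det_smul, hV]
    have h3 := congrArg norm h2
    rw [norm_mul, norm_pow, d, d', mul_one] at h3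
    exact h3.symm
  have hr2 : ‖r‖ = 1 := (pow_eq_one_iff_of_nonneg (norm_nonneg r) (by omega)).mp hr1
  rw [← htr, hr, map_smul, norm_smul, hr2, one_mul]

theorem Intw.tr_one (h : Par n A) (hV : Module.finrank ℂ V = n)
    (t : TriP (A ^ 2 + (A ^ 2)⁻¹) A x y z)
    (s : Sh n x y z ξ η ζ) (c : CPt n (A ^ 2 + (A ^ 2)⁻¹) ξ η ζ) (i : Intw A x y z L L') :
    LinearMap.trace ℂ V L * LinearMap.trace ℂ V L' = 1 := by
  have hn := h.three
  have hpos : 0 < Module.finrank ℂ V := by omega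
  have : FiniteDimensional ℂ V := FiniteDimensional.of_finrank_pos hpos
  have hW : Module.finrank ℂ (ZMod n → ℂ) = n := by
    rw [Module.finrank_fintype_fun_eq_card, ZMod.card]
  obtain ⟨f⟩ : Nonempty (V ≃ₗ[ℂ] (ZMod n → ℂ)) :=
    ⟨LinearEquiv.ofFinrankEq V (ZMod n → ℂ) (by rw [hV, hW])⟩
  have hf : ∀ (w : Module.End ℂ V) (v : V), f (w v) = (f.conjAlgEquiv ℂ w) (f v) := by
    intro w v
    change f (w v) = f (w (f.symm (f v)))
    rw [LinearEquiv.symm_apply_apply]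
  have t' : TriP (A ^ 2 + (A ^ 2)⁻¹) A (f.conjAlgEquiv ℂ x) (f.conjAlgEquiv ℂ y)
      (f.conjAlgEquiv ℂ z) :=
    azIntw_triP (f.conjAlgEquiv ℂ : Module.End ℂ V ≃ₐ[ℂ] Module.End ℂ (ZMod n → ℂ)).toAlgHom t
  have s' : Sh n (f.conjAlgEquiv ℂ x) (f.conjAlgEquiv ℂ y) (f.conjAlgEquiv ℂ z) ξ η ζ :=
    azIntw_sh (f.conjAlgEquiv ℂ : Module.End ℂ V ≃ₐ[ℂ] Module.End ℂ (ZMod n → ℂ)).toAlgHom s
  have H : HasT A x y z (LinearMap.trace ℂ V L * LinearMap.trace ℂ V L') :=
    ⟨L, L', i.l1, i.l2, i.lx, i.ly, i.lz, rfl⟩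
  have H' := HasT.conj f (hf x) (hf y) (hf z) H
  exact key h ⟨_, _, _, _, _, _, t', s', c, H'⟩

theorem azIntw_chn (u μ : ℂ) : Chn p A u μ (Matrix.toLinAlgEquiv' (mX (n := n) A u))
    (Matrix.toLinAlgEquiv' (mY (n := n) p A u μ)) (Matrix.toLinAlgEquiv' (mZ (n := n) p A u μ))
    (Pi.basisFun ℂ (ZMod n)) where
  ex k := by
    rw [Pi.basisFun_apply, Matrix.toLinAlgEquiv'_apply, Matrix.mulVec_single_one]
    ext i
    by_cases hi : i = k
    · subst hi
      simp [mX, nd, Matrix.col]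
    · simp [mX, Matrix.col, hi, Matrix.diagonal_apply_ne]
  ey k := by
    rw [Pi.basisFun_apply, Matrix.toLinAlgEquiv'_apply, Matrix.mulVec_single_one]
    ext i
    simp only [mY, Matrix.col, Pi.basisFun_apply, Pi.add_apply, Pi.smul_apply, Pi.single_apply,
      smul_eq_mul, mul_ite, mul_one, mul_zero, Matrix.transpose_apply]
  ez k := by
    rw [Pi.basisFun_apply, Matrix.toLinAlgEquiv'_apply, Matrix.mulVec_single_one]
    ext i
    simp only [mZ, Matrix.col, Pi.basisFun_apply, Pi.add_apply, Pi.smul_apply, Pi.single_apply,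
      smul_eq_mul, mul_ite, mul_one, mul_zero, Matrix.transpose_apply]

theorem azIntw_prod {u μ : ℂ} (h : Par n A) (g : Gd n p u μ) :
    (∏ k : ZMod n, μ⁻¹ * cc p A (u * qz A (k - 1))) = (u ^ n) ^ 2 * μ ^ n := by
  have hu := g.hu
  have hμ := g.hμ
  have e1 : ∏ k : ZMod n, cc p A (u * qz A (k - 1)) = ∏ k : ZMod n, cc p A (u * qz A k) :=
    (Equiv.subRight (1 : ZMod n)).prod_comp (fun k => cc p A (u * qz A k))
  rw [Finset.prod_mul_distrib, e1, prod_cc h g.hu g.h1, Finset.prod_const, Finset.card_univ,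
    ZMod.card]
  have hU : u ^ n ≠ 0 := pow_ne_zero _ hu
  have hM : μ ^ n ≠ 0 := pow_ne_zero _ hμ
  have h1 := g.h1
  have hw := g.hw
  have hm := g.hm
  rw [inv_pow]
  generalize u ^ n = U at *
  generalize μ ^ n = al at *
  generalize (cheb n).eval p = T at *
  have hU2 : U ^ 2 - 1 ≠ 0 := fun h0 => h1 (by linear_combination h0)
  have hd : U - U⁻¹ ≠ 0 := by
    intro h0
    apply hU2
    have h2 : U * U⁻¹ = 1 := mul_inv_cancel₀ hU
    linear_combination U * h0 + h2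
  have hw0 : U ^ 2 + (U ^ 2)⁻¹ ≠ 0 := by
    intro h0
    rw [h0] at hw
    norm_num at hw
  have h3 : (U - U⁻¹) ^ 2 = U ^ 2 + (U ^ 2)⁻¹ - 2 := by
    field_simp
    ring
  have h5 : al ^ 2 * U ^ 2 * (U ^ 2 + (U ^ 2)⁻¹) = 2 := by
    have h6 : U ^ 2 * (U ^ 2)⁻¹ = 1 := mul_inv_cancel₀ (pow_ne_zero _ hU)
    linear_combination hm + al ^ 2 * h6
  have hd2 : U ^ 2 + (U ^ 2)⁻¹ - 2 ≠ 0 := by
    rw [← h3]
    exact pow_ne_zero _ hd
  rw [h3]
  generalize U ^ 2 + (U ^ 2)⁻¹ = w at *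
  rw [inv_mul_eq_iff_eq_mul₀ hM, div_eq_iff hd2]
  apply mul_left_cancel₀ hw0
  linear_combination hw - (w - 2) * h5

theorem exists_model (h : Par n A) (c : CPt n p ξ η ζ) :
    ∃ x y z : Module.End ℂ (ZMod n → ℂ), TriP p A x y z ∧ Sh n x y z ξ η ζ := by
  have hn := h.three
  have hn0 : n ≠ 0 := by omega
  obtain ⟨U, hU, hU2, e1, e2⟩ := exists_U c.e4
  have hζ : ζ ≠ 0 := by
    intro h0
    have := c.e2
    rw [h0] at this
    norm_num at this
  obtain ⟨u, hu⟩ := IsAlgClosed.exists_pow_nat_eq U (by omega : 0 < n)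
  obtain ⟨μ, hμ⟩ := IsAlgClosed.exists_pow_nat_eq (-ζ / (2 * U)) (by omega : 0 < n)
  have hal : -ζ / (2 * U) ≠ 0 := div_ne_zero (neg_ne_zero.mpr hζ) (mul_ne_zero two_ne_zero hU)
  have hu0 : u ≠ 0 := by
    rintro rfl
    rw [zero_pow hn0] at hu
    exact hU hu.symm
  have hμ0 : μ ≠ 0 := by
    rintro rfl
    rw [zero_pow hn0] at hμ
    exact hal hμ.symm
  have hUU : U * U⁻¹ = 1 := mul_inv_cancel₀ hU
  have g : Gd n p u μ := by
    refine ⟨hu0, hμ0, ?_, ?_, ?_⟩
    · rw [hu]; exact hU2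
    · rw [hu, e2]; exact c.e3
    · rw [hu, hμ]
      have h6 : U ^ 2 * (U ^ 2)⁻¹ = 1 := mul_inv_cancel₀ (pow_ne_zero _ hU)
      have h7 := c.e2
      rw [← e2] at h7
      have h8 : (-ζ / (2 * U)) ^ 2 * ((U ^ 2) ^ 2 + 1) =
          ζ ^ 2 * (U ^ 2 + (U ^ 2)⁻¹) / 4 := by
        field_simp
        ring
      rw [h8, h7]
      norm_num
  have ch : Chn p A u μ (Matrix.toLinAlgEquiv' (mX (n := n) A u))
    (Matrix.toLinAlgEquiv' (mY (n := n) p A u μ)) (Matrix.toLinAlgEquiv' (mZ (n := n) p A u μ))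
    (Pi.basisFun ℂ (ZMod n)) := azIntw_chn u μ
  have gc := chn_g hμ0 ch
  have t := gchn_triP h hu0 g.h1 gc
  have vx := gchn_x h hu0 gc
  have vy := gchn_y h hu0 g.h1 t gc
  have vz := gchn_z h hu0 g.h1 t gc
  rw [azIntw_prod h g, Finset.prod_const, Finset.card_univ, ZMod.card] at vy vz
  rw [hu] at vx
  rw [hu, hμ] at vy vz
  refine ⟨_, _, _, t, ?_, ?_, ?_⟩
  · rw [vx, e1]
  · rw [vy]
    congr 1
    have h9 := c.e1
    rw [e1] at h9
    have h10 : η = (U + U⁻¹) * ζ / 2 := by linear_combination -h9 / 2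
    rw [h10]
    field_simp
    ring
  · rw [vz]
    congr 1
    field_simp
    ring

theorem exists_intw (h : Par n A) (hV : Module.finrank ℂ V = n) (t : TriP p A x y z)
    (s : Sh n x y z ξ η ζ) (c : CPt n p ξ η ζ) :
    ∃ L L' : Module.End ℂ V, Intw A x y z L L' ∧ ‖LinearMap.det L‖ = 1 := by
  have hn := h.three
  have hn0 : n ≠ 0 := by omega
  obtain ⟨τ, L, L', l1, l2, lx, ly, lz, _⟩ := exists_T h hV t s c
  have hd : LinearMap.det L * LinearMap.det L' = 1 := by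
    rw [← LinearMap.det_comp]
    change LinearMap.det (L * L') = 1
    rw [l1]
    exact LinearMap.det_id
  have hd0 : LinearMap.det L ≠ 0 := left_ne_zero_of_mul_eq_one hd
  obtain ⟨r, hr⟩ := IsAlgClosed.exists_pow_nat_eq (LinearMap.det L)⁻¹ (by omega : 0 < n)
  have hr0 : r ≠ 0 := by
    rintro rfl
    rw [zero_pow hn0] at hr
    exact inv_ne_zero hd0 hr.symm
  refine ⟨r • L, r⁻¹ • L', ⟨?_, ?_, ?_, ?_, ?_⟩, ?_⟩
  · rw [smul_mul_assoc, mul_smul_comm, smul_smul, mul_inv_cancel₀ hr0, l1, one_smul]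
  · rw [smul_mul_assoc, mul_smul_comm, smul_smul, inv_mul_cancel₀ hr0, l2, one_smul]
  · rw [mul_smul_comm, lx, smul_mul_assoc]
  · rw [mul_smul_comm, ly, smul_mul_assoc]
  · rw [mul_smul_comm, lz, smul_mul_assoc]
  · rw [LinearMap.det_smul, hV, hr, inv_mul_cancel₀ hd0, norm_one]

end MP_372ad9_gt
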