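import Pool.Agent.Lib.MP_372ad9_gt.AzF
import Pool.Agent.Lib.MP_372ad9_gt.AzDhE
import Pool.Agent.Lib.MP_372ad9_gt.AzDhF
import Pool.Agent.Lib.MP_372ad9_gt.AzDhG

set_option autoImplicit false

/-
ROW AzKey (about 60 lines). exists_G: G. E r := G (r^2+2) - Dd n A r is differentiable, with
‖G (r^2+2)‖ ≤ K (1 + ‖r^2+2‖)^(n-1) ≤ K (3 (1+‖r‖)^2)^(n-1) (K ≥ 0 may be assumed: replace K by max K 0) and Dd_growth, so
‖E r‖ ≤ K' (1+‖r‖)^(2(n-1)). exists_zeros: 2n points r with T_n(r^2+2) = 6, there Rel n A (r^2+2) (Dd n A r) (dh_rel), so E r = 0.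
entire_zero with N = 2(n-1) < 2n: E = 0. Take r with r^2 = A^2 + A⁻² - 2: G (A^2 + A⁻²) = Dd n A r = 1 (Dd_one), and Rel gives G p = τ.
-/

namespace MP_372ad9_gt

variable {n : ℕ} [NeZero n] {A : ℂ}

theorem key (h : Par n A) {τ : ℂ} (H : Rel n A (A ^ 2 + (A ^ 2)⁻¹) τ) : τ = 1 := by
  obtain ⟨G, hGd, hGR, K, hGK⟩ := exists_G h
  obtain ⟨K2, hK2⟩ := Dd_growth (n := n) h
  have hn := h.three
  set E : ℂ → ℂ := fun r => G (r ^ 2 + 2) - Dd n A r with hE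
  have hEd : Differentiable ℂ E := by
    apply Differentiable.sub
    · exact hGd.comp ((differentiable_id.pow 2).add_const 2)
    · exact Dd_diff h
  have hbound : ∀ r, ‖E r‖ ≤ (|K| * 3 ^ (n - 1) + |K2|) * (1 + ‖r‖) ^ (2 * (n - 1)) := by
    intro r
    have h0 : (0 : ℝ) ≤ ‖r‖ := norm_nonneg r
    have h1 : 1 + ‖r ^ 2 + 2‖ ≤ 3 * (1 + ‖r‖) ^ 2 := by
      have h2 : ‖r ^ 2 + 2‖ ≤ ‖r‖ ^ 2 + 2 := by
        refine (norm_add_le _ _).trans ?_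
        rw [norm_pow]
        simp
      nlinarith
    have h3 : ‖G (r ^ 2 + 2)‖ ≤ |K| * 3 ^ (n - 1) * (1 + ‖r‖) ^ (2 * (n - 1)) := by
      calc ‖G (r ^ 2 + 2)‖ ≤ K * (1 + ‖r ^ 2 + 2‖) ^ (n - 1) := hGK _
        _ ≤ |K| * (1 + ‖r ^ 2 + 2‖) ^ (n - 1) := by
            apply mul_le_mul_of_nonneg_right (le_abs_self K)
            positivity
        _ ≤ |K| * (3 * (1 + ‖r‖) ^ 2) ^ (n - 1) := by
            apply mul_le_mul_of_nonneg_left _ (abs_nonneg K)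
            apply pow_le_pow_left₀ (by positivity) h1
        _ = _ := by
            rw [mul_pow, ← pow_mul, mul_assoc]
    have h4 : ‖Dd n A r‖ ≤ |K2| * (1 + ‖r‖) ^ (2 * (n - 1)) :=
      (hK2 r).trans (mul_le_mul_of_nonneg_right (le_abs_self K2) (by positivity))
    calc ‖E r‖ ≤ ‖G (r ^ 2 + 2)‖ + ‖Dd n A r‖ := norm_sub_le _ _
      _ ≤ |K| * 3 ^ (n - 1) * (1 + ‖r‖) ^ (2 * (n - 1)) +
          |K2| * (1 + ‖r‖) ^ (2 * (n - 1)) := add_le_add h3 h4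
      _ = _ := by ring
  obtain ⟨s, hs, hsz⟩ := exists_zeros n (by omega)
  have hzero : ∀ z, E z = 0 := by
    apply entire_zero (2 * (n - 1)) E hEd _ hbound s (by omega)
    intro r hr
    have h5 := hGR _ _ (dh_rel h r (hsz r hr))
    simp only [hE, h5, sub_self]
  obtain ⟨r, hr⟩ := IsAlgClosed.exists_pow_nat_eq (A ^ 2 + (A ^ 2)⁻¹ - 2) (n := 2) (by norm_num)
  have h6 := hzero r
  have h7 : r ^ 2 + 2 = A ^ 2 + (A ^ 2)⁻¹ := by rw [hr]; ring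
  have h8 := hGR _ _ H
  simp only [hE, h7, h8, Dd_one h r hr] at h6
  exact sub_eq_zero.mp h6

end MP_372ad9_gt
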