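import Pool.Agent.Lib.MP_372ad9_gt.AzDefs

set_option autoImplicit false

namespace MP_372ad9_gt

open Finset

/-- A cyclic chain with general coefficients: `x` is diagonal, `y` and `z` are tridiagonal. -/
structure GChn {n : ℕ} {V : Type*} [AddCommGroup V] [Module ℂ V] (p A u : ℂ) (a b : ZMod n → ℂ)
    (x y z : Module.End ℂ V) (e : ZMod n → V) : Prop where
  ab : ∀ k, a k * b (k + 1) = cc p A (u * qz A k)
  ex : ∀ k, x (e k) = (-(u * qz A k + (u * qz A k)⁻¹)) • e k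
  ey : ∀ k, y (e k) = a k • e (k + 1) + b k • e (k - 1)
  ez : ∀ k, z (e k) = (-(A * (u * qz A k) * a k)) • e (k + 1) +
    (-(A * (u * qz A k)⁻¹ * b k)) • e (k - 1)

section

variable {n : ℕ}

/-- The eigenvalues of `x`. -/
noncomputable def nd (A u : ℂ) (k : ZMod n) : ℂ := -(u * qz A k + (u * qz A k)⁻¹)

/-- The diagonal matrix of the model. -/
noncomputable def mX (A u : ℂ) : Matrix (ZMod n) (ZMod n) ℂ := Matrix.diagonal (nd A u)

/-- The second matrix of the model. -/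
noncomputable def mY (p A u μ : ℂ) : Matrix (ZMod n) (ZMod n) ℂ := fun i k =>
  (if i = k + 1 then μ else 0) + (if i = k - 1 then μ⁻¹ * cc p A (u * qz A (k - 1)) else 0)

/-- The third matrix of the model. -/
noncomputable def mZ (p A u μ : ℂ) : Matrix (ZMod n) (ZMod n) ℂ := fun i k =>
  (if i = k + 1 then -(A * (u * qz A k) * μ) else 0) +
  (if i = k - 1 then -(A * (u * qz A k)⁻¹ * (μ⁻¹ * cc p A (u * qz A (k - 1)))) else 0)

variable [NeZero n]

/-- The image of the model under the diffeomorphism. -/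
noncomputable def mF (p A u μ : ℂ) :
    Matrix (ZMod n) (ZMod n) ℂ × Matrix (ZMod n) (ZMod n) ℂ × Matrix (ZMod n) (ZMod n) ℂ :=
  fi A (mX A u, mY p A u μ, mZ p A u μ)

/-- Lagrange projection of the matrix `M` at the node `nd A u k`. -/
noncomputable def mP (A u : ℂ) (M : Matrix (ZMod n) (ZMod n) ℂ) (k : ZMod n) :
    Matrix (ZMod n) (ZMod n) ℂ :=
  ((List.range (n - 1)).map (fun j => (nd A u k - nd A u (k + 1 + (j : ZMod n)))⁻¹ •
    (M - nd A u (k + 1 + (j : ZMod n)) • (1 : Matrix (ZMod n) (ZMod n) ℂ)))).prod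

/-- The product `P_{k+d} Y P_{k+d-1} Y ... Y P_k`. -/
noncomputable def pth (A u : ℂ) (X Y : Matrix (ZMod n) (ZMod n) ℂ) (k : ZMod n) :
    ℕ → Matrix (ZMod n) (ZMod n) ℂ
  | 0 => mP A u X k
  | (d + 1) => mP A u X (k + ((d + 1 : ℕ) : ZMod n)) * Y * pth A u X Y k d

/-- The explicit formula for `Tr L * Tr L⁻¹`. -/
noncomputable def Phi (n : ℕ) [NeZero n] (A u μ p : ℂ) : ℂ :=
  ∑ k : ZMod n, ∑ d ∈ range n, (μ⁻¹) ^ d *
    pth A u (mF (n := n) p A u μ).1 (mF (n := n) p A u μ).2.1 k d (k + (d : ZMod n)) k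

end

/-- The relations between the parameters `u`, `μ` of the model and the weight `p`, on the curve
of fixed characters. -/
structure Gd (n : ℕ) (p u μ : ℂ) : Prop where
  hu : u ≠ 0
  hμ : μ ≠ 0
  h1 : (u ^ n) ^ 2 ≠ 1
  hw : ((u ^ n) ^ 2 + ((u ^ n) ^ 2)⁻¹) ^ 2 + 4 =
    (2 - (cheb n).eval p) * ((u ^ n) ^ 2 + ((u ^ n) ^ 2)⁻¹)
  hm : (μ ^ n) ^ 2 * (((u ^ n) ^ 2) ^ 2 + 1) = 2

/-- `τ` is the product of traces of some triple over the curve with weight `p`. -/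
def Rel (n : ℕ) (A p τ : ℂ) : Prop :=
  ∃ (x y z : Module.End ℂ (ZMod n → ℂ)) (ξ η ζ : ℂ), TriP p A x y z ∧ Sh n x y z ξ η ζ ∧
    CPt n p ξ η ζ ∧ HasT A x y z τ

end MP_372ad9_gt
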