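import Pool.Agent.Lib.MP_372ad9_gt.AzTri

set_option autoImplicit false

/-
ROW AzPbw (about 110 lines). Reordering in a filtered algebra over a commutative ring R.

Let M = span_R {x^i y^j z^k : i, j, k ∈ ℕ}, F d = span_R {x^i y^j z^k : i + j + k ≤ d}.
Claim for all d: x F_d ⊆ F_{d+1} (clear), y F_d ⊆ F_{d+1}, z F_d ⊆ F_{d+1}. Induction on d (d = 0: y * 1, z * 1 are monomials).
 Step: let m = x^i y^j z^k, i + j + k = d + 1 (smaller ones by induction).
 y m: i = 0 clear. i ≥ 1: y x = a1 x y + b1 z: y m = a1 x (y m') + b1 z m' with m' = x^(i-1) y^j z^k ∈ F_d: y m' ∈ F_{d+1},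
  x (y m') ∈ F_{d+2}, z m' ∈ F_{d+1}.
 z m: i ≥ 1: z x = a2 x z + b2 y: a2 x (z m') + b2 y m': same. i = 0, j ≥ 1: z y = a3 y z + b3 x: with m' = y^(j-1) z^k:
  z m = a3 y (z m') + b3 x m', z m' ∈ F_{d+1} and y F_{d+1} ⊆ F_{d+2} was just proved. i = j = 0 clear.
So M is stable under left multiplication by x, y, z, contains 1.
Now the reduction to exponents < n: P monic of degree n, aeval x P = 0: x^i ∈ span {x^a : a < n} for every i (Polynomial.modByMonic:
 X^i = P * q + r, deg r < n; aeval_eq_sum_range'). Same for y, z. The product of three such spans is the span of the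
 x^a y^b z^c, a, b, c < n (bilinearity: Submodule.span_induction or Submodule.mul_mem_mul, Submodule.span_mul_span).
So M = span of the small monomials, and an element of Algebra.adjoin R {x, y, z} lies in M (adjoin_induction is awkward for left
multiplication; use: the set {w | w M ⊆ M} is a subalgebra containing x, y, z, and 1 ∈ M). If it is easier, define
N := the span with exponents < n and prove x N ⊆ N, y N ⊆ N, z N ⊆ N.
-/

namespace MP_372ad9_gt

/-- filtration by the total degree -/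
def AzPbwF (R : Type*) {E : Type*} [CommRing R] [Ring E] [Algebra R E] (x y z : E) (d : ℕ) :
    Submodule R E :=
  Submodule.span R {e | ∃ i j k : ℕ, i + j + k ≤ d ∧ e = x ^ i * y ^ j * z ^ k}

section AzPbwAux

variable {R E : Type*} [CommRing R] [Ring E] [Algebra R E] {x y z : E}

theorem AzPbw_mem (d i j k : ℕ) (h : i + j + k ≤ d) :
    x ^ i * y ^ j * z ^ k ∈ AzPbwF R x y z d :=
  Submodule.subset_span ⟨i, j, k, h, rfl⟩

theorem AzPbw_mono {d d' : ℕ} (h : d ≤ d') : AzPbwF R x y z d ≤ AzPbwF R x y z d' := by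
  refine Submodule.span_mono ?_
  rintro e ⟨i, j, k, h1, rfl⟩
  exact ⟨i, j, k, h1.trans h, rfl⟩

theorem AzPbw_mulx {d : ℕ} {u : E} (hu : u ∈ AzPbwF R x y z d) :
    x * u ∈ AzPbwF R x y z (d + 1) := by
  induction hu using Submodule.span_induction with
  | mem u h =>
    obtain ⟨i, j, k, h1, rfl⟩ := h
    have : x * (x ^ i * y ^ j * z ^ k) = x ^ (i + 1) * y ^ j * z ^ k := by
      rw [pow_succ']
      simp only [mul_assoc]
    rw [this]
    exact AzPbw_mem _ _ _ _ (by omega)
  | zero => rw [mul_zero]; exact Submodule.zero_mem _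
  | add u v _ _ h1 h2 => rw [mul_add]; exact Submodule.add_mem _ h1 h2
  | smul c u _ h1 => rw [mul_smul_comm]; exact Submodule.smul_mem _ _ h1

/-- reduction to the generators -/
theorem AzPbw_red {d : ℕ} (t : E)
    (h : ∀ i j k : ℕ, i + j + k ≤ d → t * (x ^ i * y ^ j * z ^ k) ∈ AzPbwF R x y z (d + 1))
    {u : E} (hu : u ∈ AzPbwF R x y z d) : t * u ∈ AzPbwF R x y z (d + 1) := by
  induction hu using Submodule.span_induction with
  | mem u h' =>
    obtain ⟨i, j, k, h1, rfl⟩ := h'
    exact h i j k h1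
  | zero => rw [mul_zero]; exact Submodule.zero_mem _
  | add u v _ _ h1 h2 => rw [mul_add]; exact Submodule.add_mem _ h1 h2
  | smul c u _ h1 => rw [mul_smul_comm]; exact Submodule.smul_mem _ _ h1

theorem AzPbw_step (a1 a2 a3 b1 b2 b3 : R) (h1 : y * x = a1 • (x * y) + b1 • z)
    (h2 : z * x = a2 • (x * z) + b2 • y) (h3 : z * y = a3 • (y * z) + b3 • x) (d : ℕ) :
    (∀ u ∈ AzPbwF R x y z d, y * u ∈ AzPbwF R x y z (d + 1)) ∧
      (∀ u ∈ AzPbwF R x y z d, z * u ∈ AzPbwF R x y z (d + 1)) := by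
  induction d using Nat.strong_induction_on with
  | _ d ih =>
    have hy : ∀ u ∈ AzPbwF R x y z d, y * u ∈ AzPbwF R x y z (d + 1) := by
      intro u hu
      refine AzPbw_red y ?_ hu
      intro i j k h
      rcases i with _ | i
      · have : y * (x ^ 0 * y ^ j * z ^ k) = x ^ 0 * y ^ (j + 1) * z ^ k := by
          rw [pow_zero, one_mul, one_mul, pow_succ', mul_assoc]
        rw [this]
        exact AzPbw_mem _ _ _ _ (by omega)
      · rcases d with _ | d
        · omega
        · have hm : x ^ i * y ^ j * z ^ k ∈ AzPbwF R x y z d := AzPbw_mem _ _ _ _ (by omega)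
          have : y * (x ^ (i + 1) * y ^ j * z ^ k) =
              a1 • (x * (y * (x ^ i * y ^ j * z ^ k))) + b1 • (z * (x ^ i * y ^ j * z ^ k)) := by
            have h4 := congrArg (fun e => e * (x ^ i * y ^ j * z ^ k)) h1
            simp only [add_mul, smul_mul_assoc] at h4
            rw [pow_succ']
            simp only [mul_assoc] at h4 ⊢
            exact h4
          rw [this]
          obtain ⟨i1, i2⟩ := ih d (by omega)
          exact Submodule.add_mem _ (Submodule.smul_mem _ _ (AzPbw_mulx (i1 _ hm)))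
            (Submodule.smul_mem _ _ (AzPbw_mono (by omega) (i2 _ hm)))
    refine ⟨hy, ?_⟩
    intro u hu
    refine AzPbw_red z ?_ hu
    intro i j k h
    rcases i with _ | i
    · rcases j with _ | j
      · have : z * (x ^ 0 * y ^ 0 * z ^ k) = x ^ 0 * y ^ 0 * z ^ (k + 1) := by
          rw [pow_zero, pow_zero, one_mul, one_mul, one_mul, pow_succ']
        rw [this]
        exact AzPbw_mem _ _ _ _ (by omega)
      · rcases d with _ | d
        · omega
        · have hm : x ^ 0 * y ^ j * z ^ k ∈ AzPbwF R x y z d := AzPbw_mem _ _ _ _ (by omega)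
          have : z * (x ^ 0 * y ^ (j + 1) * z ^ k) =
              a3 • (y * (z * (x ^ 0 * y ^ j * z ^ k))) + b3 • (x * (x ^ 0 * y ^ j * z ^ k)) := by
            have h4 := congrArg (fun e => e * (y ^ j * z ^ k)) h3
            simp only [add_mul, smul_mul_assoc] at h4
            rw [pow_succ']
            simp only [mul_assoc, pow_zero, one_mul] at h4 ⊢
            exact h4
          rw [this]
          obtain ⟨i1, i2⟩ := ih d (by omega)
          exact Submodule.add_mem _ (Submodule.smul_mem _ _ (hy _ (i2 _ hm)))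
            (Submodule.smul_mem _ _ (AzPbw_mono (by omega) (AzPbw_mulx hm)))
    · rcases d with _ | d
      · omega
      · have hm : x ^ i * y ^ j * z ^ k ∈ AzPbwF R x y z d := AzPbw_mem _ _ _ _ (by omega)
        have : z * (x ^ (i + 1) * y ^ j * z ^ k) =
            a2 • (x * (z * (x ^ i * y ^ j * z ^ k))) + b2 • (y * (x ^ i * y ^ j * z ^ k)) := by
          have h4 := congrArg (fun e => e * (x ^ i * y ^ j * z ^ k)) h2
          simp only [add_mul, smul_mul_assoc] at h4
          rw [pow_succ']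
          simp only [mul_assoc] at h4 ⊢
          exact h4
        rw [this]
        obtain ⟨i1, i2⟩ := ih d (by omega)
        exact Submodule.add_mem _ (Submodule.smul_mem _ _ (AzPbw_mulx (i2 _ hm)))
          (Submodule.smul_mem _ _ (AzPbw_mono (by omega) (i1 _ hm)))

theorem AzPbw_exists (a1 a2 a3 b1 b2 b3 : R) (h1 : y * x = a1 • (x * y) + b1 • z)
    (h2 : z * x = a2 • (x * z) + b2 • y) (h3 : z * y = a3 • (y * z) + b3 • x) (w : E)
    (hw : w ∈ Algebra.adjoin R ({x, y, z} : Set E)) :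
    ∀ u : E, (∃ d, u ∈ AzPbwF R x y z d) → ∃ d, w * u ∈ AzPbwF R x y z d := by
  induction hw using Algebra.adjoin_induction with
  | mem t ht =>
    rintro u ⟨d, hu⟩
    simp only [Set.mem_insert_iff, Set.mem_singleton_iff] at ht
    rcases ht with rfl | rfl | rfl
    · exact ⟨d + 1, AzPbw_mulx hu⟩
    · exact ⟨d + 1, (AzPbw_step a1 a2 a3 b1 b2 b3 h1 h2 h3 d).1 u hu⟩
    · exact ⟨d + 1, (AzPbw_step a1 a2 a3 b1 b2 b3 h1 h2 h3 d).2 u hu⟩
  | algebraMap r =>
    rintro u ⟨d, hu⟩
    refine ⟨d, ?_⟩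
    rw [← Algebra.smul_def]
    exact Submodule.smul_mem _ _ hu
  | add a b _ _ ha hb =>
    intro u hu
    obtain ⟨d1, h4⟩ := ha u hu
    obtain ⟨d2, h5⟩ := hb u hu
    refine ⟨max d1 d2, ?_⟩
    rw [add_mul]
    exact Submodule.add_mem _ (AzPbw_mono (le_max_left _ _) h4) (AzPbw_mono (le_max_right _ _) h5)
  | mul a b _ _ ha hb =>
    intro u hu
    have := ha (b * u) (hb u hu)
    rwa [← mul_assoc] at this

theorem AzPbw_pow (n : ℕ) (hn : 0 < n) (t : E) (P : Polynomial R) (hP : P.Monic)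
    (dP : P.natDegree = n) (eP : Polynomial.aeval t P = 0) (i : ℕ) :
    t ^ i ∈ Submodule.span R (Set.range (fun a : Fin n => t ^ (a : ℕ))) := by
  have h1 : P ≠ 1 := by
    rintro rfl
    rw [Polynomial.natDegree_one] at dP
    omega
  have h2 : ((Polynomial.X ^ i : Polynomial R) %ₘ P).natDegree < n := by
    have := Polynomial.natDegree_modByMonic_lt (Polynomial.X ^ i : Polynomial R) hP h1
    rwa [dP] at this
  have h3 : Polynomial.aeval t ((Polynomial.X ^ i : Polynomial R) %ₘ P) = t ^ i := by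
    rw [Polynomial.aeval_modByMonic_eq_self_of_root eP]
    simp
  rw [← h3, Polynomial.aeval_eq_sum_range' h2]
  refine Submodule.sum_mem _ fun a ha => Submodule.smul_mem _ _ ?_
  exact Submodule.subset_span ⟨⟨a, Finset.mem_range.1 ha⟩, rfl⟩

end AzPbwAux

theorem pbw {R E : Type*} [CommRing R] [Ring E] [Algebra R E] (x y z : E)
    (a1 a2 a3 b1 b2 b3 : R) (h1 : y * x = a1 • (x * y) + b1 • z)
    (h2 : z * x = a2 • (x * z) + b2 • y) (h3 : z * y = a3 • (y * z) + b3 • x) (n : ℕ)
    (hn : 0 < n) (P Q S : Polynomial R) (hP : P.Monic) (hQ : Q.Monic) (hS : S.Monic)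
    (dP : P.natDegree = n) (dQ : Q.natDegree = n) (dS : S.natDegree = n)
    (eP : Polynomial.aeval x P = 0) (eQ : Polynomial.aeval y Q = 0)
    (eS : Polynomial.aeval z S = 0) (w : E) (hw : w ∈ Algebra.adjoin R ({x, y, z} : Set E)) :
    w ∈ Submodule.span R (Set.range (fun s : Fin n × Fin n × Fin n =>
      x ^ (s.1 : ℕ) * y ^ (s.2.1 : ℕ) * z ^ (s.2.2 : ℕ))) := by
  obtain ⟨d, hd⟩ := AzPbw_exists a1 a2 a3 b1 b2 b3 h1 h2 h3 w hw 1 ⟨0, by
    simpa using AzPbw_mem (R := R) (x := x) (y := y) (z := z) 0 0 0 0 (by omega)⟩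
  rw [mul_one] at hd
  refine (Submodule.span_le.2 ?_ : AzPbwF R x y z d ≤ _) hd
  rintro e ⟨i, j, k, -, rfl⟩
  have hx := AzPbw_pow n hn x P hP dP eP i
  have hy := AzPbw_pow n hn y Q hQ dQ eQ j
  have hz := AzPbw_pow n hn z S hS dS eS k
  have hxy := Submodule.mul_mem_mul (Submodule.mul_mem_mul hx hy) hz
  rw [Submodule.span_mul_span, Submodule.span_mul_span] at hxy
  refine Submodule.span_mono ?_ hxy
  rintro u ⟨u1, ⟨u2, ⟨a, rfl⟩, u3, ⟨b, rfl⟩, rfl⟩, u4, ⟨c, rfl⟩, rfl⟩
  exact ⟨(a, b, c), rfl⟩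

end MP_372ad9_gt
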