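import Pool.Agent.Lib.MP_372ad9_gt.AzTU
import Pool.Agent.Lib.MP_372ad9_gt.AzForm

set_option autoImplicit false

/-
ROW AzRel (about 120 lines). Every good parameter (u, μ) gives a representation on ZMod n → ℂ over the curve, with τ = Phi.

Let x, y, z be the endomorphisms of V = ZMod n → ℂ given by the matrices mX A u, mY p A u μ, mZ p A u μ
(Matrix.toLin' or Matrix.toLinAlgEquiv'). On the standard basis e = Pi.basisFun ℂ (ZMod n) they satisfy Chn p A u μ x y z e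
(Matrix.toLin'_apply, mulVec of Pi.single is the column: Matrix.mulVec_single_one; the column k of mY is
μ at k+1 plus μ⁻¹ cc at k-1). So chn_g, gchn_triP: TriP. Values gchn_x, gchn_y, gchn_z with U = u^n, al = μ^n, ∏ a = al,
∏ b = al⁻¹ ∏ cc (reindexed), ∏ cc = (U^2 + U⁻² + T)/(U - U⁻¹)^2 (prod_cc). With w = U^2 + U⁻²: w ≠ 0 and w ≠ 2, hw: w^2 + 4 = (2 - T) w, so
w + T = 2 - 4/w, (U - U⁻¹)^2 = w - 2, ∏ cc = (2 - 4/w)/(w - 2) = 2/w; and hm: al^2 (U^4 + 1) = 2, U^4 + 1 = U^2 w, so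
al^2 U^2 w = 2 and ∏ b = al⁻¹ 2/w = U^2 al. So Sh holds with ξ = U + U⁻¹, η = -(1 + U^2) al, ζ = -2 U al.
CPt: e1: ξ ζ = -2 (U^2 + 1) al = 2 η. e2: ζ^2 (ξ^2 - 2) = 4 U^2 al^2 w = 8. e3 = hw (ξ^2 - 2 = w). e4: ξ^2 - 4 = (U - U⁻¹)^2 ≠ 0.
exists_T gives τ, L, L' with HasT; transport L, L' to matrices (LinearMap.toMatrix', algebra equivalence, trace:
LinearMap.trace_eq_matrix_trace / Matrix.trace_toLin'_eq ... ), phi_formula gives τ = Phi n A u μ p
(fi commutes with the algebra equivalence: unfold fi Rt Lt tw, map_mul, map_sub, map_smul).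
-/

namespace MP_372ad9_gt

variable {n : ℕ} [NeZero n] {p A u μ : ℂ}

theorem rel_chn (u μ : ℂ) : Chn p A u μ (Matrix.toLinAlgEquiv' (mX (n := n) A u))
    (Matrix.toLinAlgEquiv' (mY (n := n) p A u μ)) (Matrix.toLinAlgEquiv' (mZ (n := n) p A u μ))
    (Pi.basisFun ℂ (ZMod n)) where
  ex k := by
    rw [Pi.basisFun_apply, Matrix.toLinAlgEquiv'_apply, Matrix.mulVec_single_one]
    ext i
    by_cases hi : i = k
    · subst hi
      simp [mX, nd, Matrix.col]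
    · simp [mX, Matrix.col, hi, Matrix.diagonal_apply_ne]
  ey k := by
    rw [Pi.basisFun_apply, Matrix.toLinAlgEquiv'_apply, Matrix.mulVec_single_one]
    ext i
    simp only [mY, Matrix.col, Pi.basisFun_apply, Pi.add_apply, Pi.smul_apply, Pi.single_apply,
      smul_eq_mul, mul_ite, mul_one, mul_zero, Matrix.transpose_apply]
  ez k := by
    rw [Pi.basisFun_apply, Matrix.toLinAlgEquiv'_apply, Matrix.mulVec_single_one]
    ext i
    simp only [mZ, Matrix.col, Pi.basisFun_apply, Pi.add_apply, Pi.smul_apply, Pi.single_apply,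
      smul_eq_mul, mul_ite, mul_one, mul_zero, Matrix.transpose_apply]

theorem rel_fi {E F : Type*} [Ring E] [Algebra ℂ E] [Ring F] [Algebra ℂ F] (f : E →ₐ[ℂ] F)
    (x y z : E) : fi A (f x, f y, f z) =
      (f (fi A (x, y, z)).1, f (fi A (x, y, z)).2.1, f (fi A (x, y, z)).2.2) := by
  simp only [fi, Rt, Lt, tw, map_sub, map_smul, map_mul]

theorem rel_prod (h : Par n A) (g : Gd n p u μ) :
    (∏ k : ZMod n, μ⁻¹ * cc p A (u * qz A (k - 1))) = (u ^ n) ^ 2 * μ ^ n := by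
  have hu := g.hu
  have hμ := g.hμ
  have e1 : ∏ k : ZMod n, cc p A (u * qz A (k - 1)) = ∏ k : ZMod n, cc p A (u * qz A k) :=
    (Equiv.subRight (1 : ZMod n)).prod_comp (fun k => cc p A (u * qz A k))
  rw [Finset.prod_mul_distrib, e1, prod_cc h g.hu g.h1, Finset.prod_const, Finset.card_univ,
    ZMod.card]
  have hU : u ^ n ≠ 0 := pow_ne_zero _ hu
  have hM : μ ^ n ≠ 0 := pow_ne_zero _ hμ
  have h1 := g.h1
  have hw := g.hw
  have hm := g.hm
  rw [inv_pow]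
  generalize u ^ n = U at *
  generalize μ ^ n = al at *
  generalize (cheb n).eval p = T at *
  have hU2 : U ^ 2 - 1 ≠ 0 := fun h0 => h1 (by linear_combination h0)
  have hd : U - U⁻¹ ≠ 0 := by
    intro h0
    apply hU2
    have h2 : U * U⁻¹ = 1 := mul_inv_cancel₀ hU
    linear_combination U * h0 + h2
  have hw0 : U ^ 2 + (U ^ 2)⁻¹ ≠ 0 := by
    intro h0
    rw [h0] at hw
    norm_num at hw
  have h3 : (U - U⁻¹) ^ 2 = U ^ 2 + (U ^ 2)⁻¹ - 2 := by
    field_simp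
    ring
  have h5 : al ^ 2 * U ^ 2 * (U ^ 2 + (U ^ 2)⁻¹) = 2 := by
    have h6 : U ^ 2 * (U ^ 2)⁻¹ = 1 := mul_inv_cancel₀ (pow_ne_zero _ hU)
    linear_combination hm + al ^ 2 * h6
  have hd2 : U ^ 2 + (U ^ 2)⁻¹ - 2 ≠ 0 := by
    rw [← h3]
    exact pow_ne_zero _ hd
  rw [h3]
  generalize U ^ 2 + (U ^ 2)⁻¹ = w at *
  rw [inv_mul_eq_iff_eq_mul₀ hM, div_eq_iff hd2]
  apply mul_left_cancel₀ hw0
  linear_combination hw - (w - 2) * h5

theorem rel_phi (h : Par n A) (g : Gd n p u μ) : Rel n A p (Phi n A u μ p) := by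
  have hu := g.hu
  have hμ := g.hμ
  have c : Chn p A u μ (Matrix.toLinAlgEquiv' (mX (n := n) A u))
    (Matrix.toLinAlgEquiv' (mY (n := n) p A u μ)) (Matrix.toLinAlgEquiv' (mZ (n := n) p A u μ))
    (Pi.basisFun ℂ (ZMod n)) := rel_chn u μ
  have gc := chn_g hμ c
  have t := gchn_triP h hu g.h1 gc
  have vx := gchn_x h hu gc
  have vy := gchn_y h hu g.h1 t gc
  have vz := gchn_z h hu g.h1 t gc
  rw [rel_prod h g, Finset.prod_const, Finset.card_univ, ZMod.card] at vy vz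
  have hU : u ^ n ≠ 0 := pow_ne_zero _ hu
  have hU1 : u ^ n * (u ^ n)⁻¹ = 1 := mul_inv_cancel₀ hU
  have s : Sh n (Matrix.toLinAlgEquiv' (mX (n := n) A u))
      (Matrix.toLinAlgEquiv' (mY (n := n) p A u μ)) (Matrix.toLinAlgEquiv' (mZ (n := n) p A u μ))
      (u ^ n + (u ^ n)⁻¹) (-((1 + (u ^ n) ^ 2) * μ ^ n)) (-(2 * u ^ n * μ ^ n)) := by
    refine ⟨vx, ?_, ?_⟩
    · rw [vy]
      congr 1
      ring
    · rw [vz]
      congr 1
      linear_combination (u ^ n * μ ^ n) * hU1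
  have hq : (u ^ n + (u ^ n)⁻¹) ^ 2 - 2 = (u ^ n) ^ 2 + ((u ^ n) ^ 2)⁻¹ := by
    rw [← inv_pow]
    linear_combination 2 * hU1
  have cp : CPt n p (u ^ n + (u ^ n)⁻¹) (-((1 + (u ^ n) ^ 2) * μ ^ n)) (-(2 * u ^ n * μ ^ n)) := by
    refine ⟨?_, ?_, ?_, ?_⟩
    · linear_combination (-2 * μ ^ n) * hU1
    · rw [hq]
      have h6 : (u ^ n) ^ 2 * ((u ^ n) ^ 2)⁻¹ = 1 := mul_inv_cancel₀ (pow_ne_zero _ hU)
      linear_combination 4 * g.hm + 4 * (μ ^ n) ^ 2 * h6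
    · rw [hq]
      exact g.hw
    · intro h4
      have h7 : (u ^ n - (u ^ n)⁻¹) ^ 2 = 0 := by
        linear_combination h4 - 4 * hU1
      have h8 := pow_eq_zero_iff (two_ne_zero) |>.mp h7
      apply g.h1
      linear_combination u ^ n * h8 + hU1
  have hV : Module.finrank ℂ (ZMod n → ℂ) = n := by
    rw [Module.finrank_fintype_fun_eq_card, ZMod.card]
  obtain ⟨τ, L, L', l1, l2, lx, ly, lz, lt⟩ := exists_T h hV t s cp
  refine ⟨_, _, _, _, _, _, t, s, cp, L, L', l1, l2, lx, ly, lz, ?_⟩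
  have hf := rel_fi (A := A) (Matrix.toLinAlgEquiv' (R := ℂ) (n := ZMod n)).toAlgHom
    (mX A u) (mY p A u μ) (mZ p A u μ)
  set φ : Matrix (ZMod n) (ZMod n) ℂ ≃ₐ[ℂ] Module.End ℂ (ZMod n → ℂ) :=
    Matrix.toLinAlgEquiv' (R := ℂ) (n := ZMod n) with hφ
  have hf' : fi A (φ (mX A u), φ (mY p A u μ), φ (mZ p A u μ)) =
      (φ (mF p A u μ).1, φ (mF p A u μ).2.1, φ (mF p A u μ).2.2) := hf
  have key := phi_formula h hu g.h1 hμ (φ.symm L) (φ.symm L')
    (by rw [← map_mul, l1, map_one]) (by rw [← map_mul, l2, map_one])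
    (by
      apply φ.injective
      rw [map_mul, map_mul, AlgEquiv.apply_symm_apply]
      rw [hf'] at lx
      exact lx)
    (by
      apply φ.injective
      rw [map_mul, map_mul, AlgEquiv.apply_symm_apply]
      rw [hf'] at ly
      exact ly)
  rw [← key]
  have tr : ∀ M : Module.End ℂ (ZMod n → ℂ), (φ.symm M).trace = LinearMap.trace ℂ _ M := by
    intro M
    rw [LinearMap.trace_eq_matrix_trace ℂ (Pi.basisFun ℂ (ZMod n))]
    rfl
  rw [tr, tr]

theorem Rel.unique (h : Par n A) {τ τ' : ℂ} (H : Rel n A p τ) (H' : Rel n A p τ') : τ = τ' := by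
  obtain ⟨x, y, z, ξ, η, ζ, t, s, c, H⟩ := H
  obtain ⟨x', y', z', ξ', η', ζ', t', s', c', H'⟩ := H'
  have hV : Module.finrank ℂ (ZMod n → ℂ) = n := by
    rw [Module.finrank_fintype_fun_eq_card, ZMod.card]
  exact T_unique h hV hV t t' s s' c c' H H'

end MP_372ad9_gt
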