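import Pool.Agent.Lib.MP_372ad9_gt.Skein
import Pool.Agent.Lib.MP_372ad9_gt.AzChar

set_option autoImplicit false

namespace MP_372ad9_gt

open Filter Topology

/-- `q_n^{1/2} = e ^ (π i / n)` for `s = 1` and its inverse for `s = -1`: the two ways to match the
skein relation with the presentation of the skein algebra. -/
noncomputable def rootA (s : ℤ) (n : ℕ) : ℂ := Complex.exp (s * (Real.pi * Complex.I / n))

theorem rootA_ne (s : ℤ) (n : ℕ) : rootA s n ≠ 0 := Complex.exp_ne_zero _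

/-- The puncture weight `e ^ (θ / n) + e ^ (- θ / n)`. -/
noncomputable def wt (θ : ℂ) (n : ℕ) : ℂ := Complex.exp (θ / n) + Complex.exp (-(θ / n))

/-- `ρ` is an irreducible representation of the skein algebra on `ℂ ^ d`, `d > 0`, with classical
shadow the character of `γ` and puncture weight `p`. -/
structure IsRep {A : ℂ} {d : ℕ} (n : ℕ) (γ : FreeGroup (Fin 2) →* SL2) (p : ℂ)
    (ρ : Skein A →ₐ[ℂ] Matrix (Fin d) (Fin d) ℂ) : Prop where
  pos : 0 < d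
  irr : ∀ W : Submodule ℂ (Fin d → ℂ),
    (∀ u : Skein A, ∀ w ∈ W, (ρ u).mulVec w ∈ W) → W = ⊥ ∨ W = ⊤
  shx : Polynomial.aeval (ρ (gx A)) (cheb n) = (-trw γ ga) • (1 : Matrix (Fin d) (Fin d) ℂ)
  shy : Polynomial.aeval (ρ (gy A)) (cheb n) = (-trw γ gb) • (1 : Matrix (Fin d) (Fin d) ℂ)
  shz : Polynomial.aeval (ρ (gz A)) (cheb n) =
    (-trw γ (ga * gb)) • (1 : Matrix (Fin d) (Fin d) ℂ)
  pun : ρ (punct A) = p • (1 : Matrix (Fin d) (Fin d) ℂ)

/-- `t` is the number `|Tr Λ|` of the conjecture for the diffeomorphism `φ`, the character of `γ`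
and the puncture parameter `θ`: there are an irreducible representation `ρ` with these invariants
and a matrix `Λ` with `|det Λ| = 1`, `ρ (φ_♯ u) = Λ ρ(u) Λ⁻¹` for all `u` and `t = |Tr Λ|`. -/
def IsAbsTrace (s : ℤ) (n : ℕ) (γ : FreeGroup (Fin 2) →* SL2) (θ : ℂ) (t : ℝ) : Prop :=
  ∃ (d : ℕ) (ρ : Skein (rootA s n) →ₐ[ℂ] Matrix (Fin d) (Fin d) ℂ)
    (Λ : Matrix (Fin d) (Fin d) ℂ),
    IsRep n γ (wt θ n) ρ ∧ ‖Λ.det‖ = 1 ∧
    (∀ u, ρ (phiSharp (rootA s n) (rootA_ne s n) u) = Λ * ρ u * Λ⁻¹) ∧ t = ‖Λ.trace‖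

/-- The assertion of the conjecture for `φ`, the character of `γ`, the puncture parameter `θ` and
the volume `v`: `(1 / n) log |Tr Λ| → v / (4 π)` along the odd `n`. -/
def Asymp (s : ℤ) (γ : FreeGroup (Fin 2) →* SL2) (θ : ℂ) (v : ℝ) : Prop :=
  ∀ t : ℕ → ℝ, (∀ n, Odd n → 3 ≤ n → IsAbsTrace s n γ θ (t n)) →
    Tendsto (fun m : ℕ => 1 / (2 * m + 3 : ℝ) * Real.log (t (2 * m + 3))) atTop
      (𝓝 (v / (4 * Real.pi)))

end MP_372ad9_gt
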