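import Pool.Agent.Lib.MP_372ad9_gt.AzIntw
import Pool.Agent.Lib.MP_372ad9_gt.BWY

set_option autoImplicit false

namespace MP_372ad9_gt

open Filter Topology

section Rep

variable {n : ℕ} {A p : ℂ} {V : Type} [AddCommGroup V] [Module ℂ V]

theorem rep_triple (ρ : Skein A →ₐ[ℂ] Module.End ℂ V)
    (hp : ρ (punct A) = p • (1 : Module.End ℂ V)) :
    TriP p A (ρ (gx A)) (ρ (gy A)) (ρ (gz A)) where
  xy := by
    have h := congrArg ρ (rel_xy A)
    simp only [map_sub, map_smul, map_mul] at h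
    exact h
  yz := by
    have h := congrArg ρ (rel_yz A)
    simp only [map_sub, map_smul, map_mul] at h
    exact h
  zx := by
    have h := congrArg ρ (rel_zx A)
    simp only [map_sub, map_smul, map_mul] at h
    exact h
  cub := by
    rw [punct] at hp
    simp only [map_sub, map_add, map_smul, map_mul, map_one] at hp
    linear_combination (norm := module) hp

theorem rep_fi (hA : A ≠ 0) (ρ : Skein A →ₐ[ℂ] Module.End ℂ V) :
    fi A (ρ (gx A), ρ (gy A), ρ (gz A)) =
      (ρ (phiSharp A hA (gx A)), ρ (phiSharp A hA (gy A)),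
        ρ (phiSharp A hA (gz A))) := by
  have a0 : dehnA A hA (gx A) = gx A := skLift_x
  have a1 : dehnA A hA (gy A) = gz A := skLift_y
  have a2 : dehnA A hA (gz A) = tw A (gx A) (gz A) (gy A) := skLift_z
  have b0 : dehnB A hA (gx A) = gz A := skLift_x
  have b1 : dehnB A hA (gy A) = gy A := skLift_y
  have b2 : dehnB A hA (gz A) = tw A (gz A) (gy A) (gx A) := skLift_z
  have hm : ∀ (F : Skein A →ₐ[ℂ] Skein A) (a b c : Skein A),
      F (tw A a b c) = tw A (F a) (F b) (F c) := by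
    intro F a b c
    simp only [tw, map_sub, map_smul, map_mul]
  have hr : ∀ (a b c : Skein A), ρ (tw A a b c) = tw A (ρ a) (ρ b) (ρ c) := by
    intro a b c
    simp only [tw, map_sub, map_smul, map_mul]
  simp only [phiSharp, AlgHom.comp_apply, fi, Rt, Lt, a0, a1, a2, b0, b1, b2, hm, hr]

/-- An element of the algebra generated by the three generators. -/
theorem sk_induction (P : Skein A → Prop) (h0 : ∀ c : ℂ, P (algebraMap ℂ (Skein A) c))
    (h1 : P (gx A)) (h2 : P (gy A)) (h3 : P (gz A)) (ha : ∀ u v, P u → P v → P (u + v))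
    (hm : ∀ u v, P u → P v → P (u * v)) (u : Skein A) : P u := by
  obtain ⟨f, rfl⟩ := RingQuot.mkAlgHom_surjective ℂ (SkRel A) u
  induction f using FreeAlgebra.induction with
  | grade0 c =>
    rw [AlgHom.commutes]
    exact h0 c
  | grade1 i =>
    fin_cases i
    · exact h1
    · exact h2
    · exact h3
  | mul a b iha ihb =>
    rw [map_mul]
    exact hm _ _ iha ihb
  | add a b iha ihb =>
    rw [map_add]
    exact ha _ _ iha ihb

theorem rep_stable (ρ : Skein A →ₐ[ℂ] Module.End ℂ V) (W : Submodule ℂ V)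
    (w0 : ∀ w ∈ W, ρ (gx A) w ∈ W) (w1 : ∀ w ∈ W, ρ (gy A) w ∈ W)
    (w2 : ∀ w ∈ W, ρ (gz A) w ∈ W) (u : Skein A) : ∀ w ∈ W, ρ u w ∈ W := by
  induction u using sk_induction with
  | h0 c =>
    intro w hw
    rw [AlgHom.commutes]
    exact W.smul_mem c hw
  | h1 => exact w0
  | h2 => exact w1
  | h3 => exact w2
  | ha u v hu hv =>
    intro w hw
    rw [map_add]
    exact W.add_mem (hu w hw) (hv w hw)
  | hm u v hu hv =>
    intro w hw
    rw [map_mul]
    exact hu _ (hv w hw)

theorem rep_conj (hA : A ≠ 0) (ρ : Skein A →ₐ[ℂ] Module.End ℂ V) {L L' : Module.End ℂ V}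
    (i : Intw A (ρ (gx A)) (ρ (gy A)) (ρ (gz A)) L L') (u : Skein A) :
    ρ (phiSharp A hA u) = L * ρ u * L' := by
  have hf := rep_fi hA ρ
  have l1 := i.l1
  have l2 := i.l2
  have lx := i.lx
  have ly := i.ly
  have lz := i.lz
  rw [hf] at lx ly lz
  induction u using sk_induction with
  | h0 c =>
    rw [AlgHom.commutes, AlgHom.commutes, ← Algebra.commutes, mul_assoc, l1, mul_one]
  | h1 =>
    rw [← lx]
    show _ = ρ (phiSharp A hA (gx A)) * L * L'
    rw [mul_assoc, l1, mul_one]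
  | h2 =>
    rw [← ly]
    show _ = ρ (phiSharp A hA (gy A)) * L * L'
    rw [mul_assoc, l1, mul_one]
  | h3 =>
    rw [← lz]
    show _ = ρ (phiSharp A hA (gz A)) * L * L'
    rw [mul_assoc, l1, mul_one]
  | ha u v hu hv =>
    rw [map_add, map_add, map_add, hu, hv]
    noncomm_ring
  | hm u v hu hv =>
    rw [map_mul, map_mul, map_mul, hu, hv]
    calc L * ρ u * L' * (L * ρ v * L') = L * ρ u * (L' * L) * ρ v * L' := by noncomm_ring
      _ = L * (ρ u * ρ v) * L' := by rw [l2]; noncomm_ring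

theorem intw_of (hA : A ≠ 0) (ρ : Skein A →ₐ[ℂ] Module.End ℂ V) {L L' : Module.End ℂ V}
    (l1 : L * L' = 1) (l2 : L' * L = 1) (hc : ∀ u, ρ (phiSharp A hA u) = L * ρ u * L') :
    Intw A (ρ (gx A)) (ρ (gy A)) (ρ (gz A)) L L' := by
  refine ⟨l1, l2, ?_, ?_, ?_⟩
  · rw [rep_fi hA ρ]
    show ρ (phiSharp A hA (gx A)) * L = _
    rw [hc, mul_assoc, l2, mul_one]
  · rw [rep_fi hA ρ]
    show ρ (phiSharp A hA (gy A)) * L = _
    rw [hc, mul_assoc, l2, mul_one]
  · rw [rep_fi hA ρ]
    show ρ (phiSharp A hA (gz A)) * L = _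
    rw [hc, mul_assoc, l2, mul_one]

theorem exists_rep {E : Type*} [Ring E] [Algebra ℂ E] {x y z : E} (t : TriP p A x y z) :
    ∃ ρ : Skein A →ₐ[ℂ] E, ρ (gx A) = x ∧ ρ (gy A) = y ∧
      ρ (gz A) = z ∧ ρ (punct A) = p • (1 : E) := by
  refine ⟨skLift x y z t.xy t.yz t.zx, skLift_x, skLift_y, skLift_z, ?_⟩
  rw [punct]
  simp only [map_sub, map_add, map_smul, map_mul, map_one, skLift_x, skLift_y, skLift_z]
  rw [t.cub]
  module

end Rep

section Root

theorem par_root {s : ℤ} (hs : s = 1 ∨ s = -1) {n : ℕ} (hn : Odd n) (h3 : 3 ≤ n) :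
    Par n (rootA s n) := by
  have hn0 : (n : ℂ) ≠ 0 := by
    have : n ≠ 0 := by omega
    exact_mod_cast this
  have hpi : Complex.exp (Real.pi * Complex.I) = -1 := Complex.exp_pi_mul_I
  have hprim : IsPrimitiveRoot (Complex.exp (2 * Real.pi * Complex.I / n)) n :=
    Complex.isPrimitiveRoot_exp n (by omega)
  have e1 : (n : ℂ) * (Real.pi * Complex.I / n) = Real.pi * Complex.I := by
    field_simp
  refine ⟨hn, h3, ?_, ?_⟩
  · rcases hs with rfl | rfl
    · rw [rootA, ← Complex.exp_nat_mul]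
      have : (n : ℂ) * (((1 : ℤ) : ℂ) * (Real.pi * Complex.I / n)) = Real.pi * Complex.I := by
        push_cast
        rw [one_mul, e1]
      rw [this, hpi]
    · rw [rootA, ← Complex.exp_nat_mul]
      have : (n : ℂ) * (((-1 : ℤ) : ℂ) * (Real.pi * Complex.I / n)) = -(Real.pi * Complex.I) := by
        push_cast
        rw [mul_left_comm, e1]
        ring
      rw [this, Complex.exp_neg, hpi]
      norm_num
  · rcases hs with rfl | rfl
    · have : rootA 1 n ^ 2 = Complex.exp (2 * Real.pi * Complex.I / n) := by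
        rw [rootA, ← Complex.exp_nat_mul]
        congr 1
        push_cast
        ring
      rw [this]
      exact hprim
    · have : rootA (-1) n ^ 2 = (Complex.exp (2 * Real.pi * Complex.I / n))⁻¹ := by
        rw [rootA, ← Complex.exp_nat_mul, ← Complex.exp_neg]
        congr 1
        push_cast
        ring
      rw [this]
      exact hprim.inv

theorem wt_root {s : ℤ} (hs : s = 1 ∨ s = -1) (n : ℕ) :
    wt (2 * Real.pi * Complex.I) n = rootA s n ^ 2 + (rootA s n ^ 2)⁻¹ := by
  have h1 : rootA 1 n ^ 2 = Complex.exp (2 * Real.pi * Complex.I / n) := by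
    rw [rootA, ← Complex.exp_nat_mul]
    congr 1
    push_cast
    ring
  have h2 : rootA (-1) n ^ 2 = Complex.exp (-(2 * Real.pi * Complex.I / n)) := by
    rw [rootA, ← Complex.exp_nat_mul]
    congr 1
    push_cast
    ring
  rcases hs with rfl | rfl
  · rw [wt, h1, ← Complex.exp_neg]
  · rw [wt, h2, ← Complex.exp_neg, neg_neg, add_comm]

theorem cheb_wt {n : ℕ} {A : ℂ} (h : Par n A) : (cheb n).eval (A ^ 2 + (A ^ 2)⁻¹) = 2 := by
  rw [(cheb_eval (A ^ 2) h.q_ne n).1, inv_pow, h.prim.pow_eq_one]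
  norm_num

end Root

end MP_372ad9_gt
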