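import Pool.Agent.Lib.MP_372ad9_gt.AzTri

set_option autoImplicit false

/-
ROW AzSwap. The symmetry x ↔ y turns fi into its inverse: proof in the lemmas below.
-/

namespace MP_372ad9_gt

section Triples

variable {p A : ℂ} {E : Type*} [Ring E] [Algebra ℂ E]

/-- The inverse of `Rt` on triples. -/
noncomputable def azSwapRi (A : ℂ) (t : E × E × E) : E × E × E :=
  (t.1, A • (t.1 * t.2.1) - A ^ 2 • t.2.2, t.2.1)

/-- The inverse of `Lt` on triples. -/
noncomputable def azSwapLi (A : ℂ) (t : E × E × E) : E × E × E :=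
  (A • (t.1 * t.2.1) - A ^ 2 • t.2.2, t.2.1, t.1)

/-- The symmetry `x ↔ y` on triples. -/
noncomputable def azSwapS (A : ℂ) (t : E × E × E) : E × E × E :=
  (t.2.1, t.1, tw A t.2.1 t.1 t.2.2)

/-- Componentwise conjugation. -/
def azSwapC (l l' : E) (t : E × E × E) : E × E × E :=
  (l * t.1 * l', l * t.2.1 * l', l * t.2.2 * l')

/-- `TriP` for triples. -/
def AzSwapP (p A : ℂ) (t : E × E × E) : Prop := TriP p A t.1 t.2.1 t.2.2

theorem azSwap_tw_cancel (hA : A ≠ 0) (a b c : E) :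
    A • (a * b) - A ^ 2 • tw A a b c = c := by
  rw [tw]
  match_scalars <;> field_simp
  ring

theorem azSwap_Ri_Rt (hA : A ≠ 0) (t : E × E × E) : azSwapRi A (Rt A t) = t := by
  obtain ⟨a, b, c⟩ := t
  simp only [azSwapRi, Rt, azSwap_tw_cancel hA]

theorem azSwap_Li_Lt (hA : A ≠ 0) (t : E × E × E) : azSwapLi A (Lt A t) = t := by
  obtain ⟨a, b, c⟩ := t
  simp only [azSwapLi, Lt, azSwap_tw_cancel hA]

theorem azSwap_eq (hA : A ≠ 0) {t : E × E × E} (h : AzSwapP p A t) :
    tw A t.2.1 t.1 t.2.2 = A • (t.1 * t.2.1) - A ^ 2 • t.2.2 := tw_inv hA h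

theorem azSwap_Rt_S (hA : A ≠ 0) {t : E × E × E} (h : AzSwapP p A t) :
    Rt A (azSwapS A t) = azSwapS A (azSwapLi A t) := by
  have e := azSwap_eq hA h
  obtain ⟨a, b, c⟩ := t
  simp only [] at e
  simp only [azSwapS, azSwapLi, Rt, e]

theorem azSwap_Lt_S (hA : A ≠ 0) {t : E × E × E} (h : AzSwapP p A t) :
    Lt A (azSwapS A t) = azSwapS A (azSwapRi A t) := by
  have e := azSwap_eq hA h
  obtain ⟨a, b, c⟩ := t
  simp only [] at e
  simp only [azSwapS, azSwapRi, Lt, e]

theorem azSwap_P_Ri (hA : A ≠ 0) {t : E × E × E} (h : AzSwapP p A t) :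
    AzSwapP p A (azSwapRi A t) := by
  have e := azSwap_eq hA h
  have h1 : TriP p A t.2.1 t.1 (tw A t.2.1 t.1 t.2.2) := TriP.S hA h
  rw [e] at h1
  exact h1.rot

theorem azSwap_P_Li (hA : A ≠ 0) {t : E × E × E} (h : AzSwapP p A t) :
    AzSwapP p A (azSwapLi A t) := by
  have e := azSwap_eq hA h
  have h1 : TriP p A t.2.1 t.1 (tw A t.2.1 t.1 t.2.2) := TriP.S hA h
  rw [e] at h1
  exact h1.rot.rot

/-- The inverse of `fi` on triples. -/
noncomputable def azSwapG (A : ℂ) (t : E × E × E) : E × E × E :=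
  azSwapRi A (azSwapRi A (azSwapLi A (azSwapLi A t)))

theorem azSwap_G_fi (hA : A ≠ 0) (t : E × E × E) : azSwapG A (fi A t) = t := by
  rw [azSwapG, fi, azSwap_Li_Lt hA, azSwap_Li_Lt hA, azSwap_Ri_Rt hA, azSwap_Ri_Rt hA]

theorem azSwap_fi_S (hA : A ≠ 0) {t : E × E × E} (h : AzSwapP p A t) :
    fi A (azSwapS A t) = azSwapS A (azSwapG A t) := by
  have h1 := azSwap_P_Li hA h
  have h2 := azSwap_P_Li hA h1
  have h3 := azSwap_P_Ri hA h2
  rw [fi, azSwap_Rt_S hA h, azSwap_Rt_S hA h1, azSwap_Lt_S hA h2, azSwap_Lt_S hA h3, azSwapG]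

variable {l l' : E}

omit [Algebra ℂ E] in
theorem azSwap_mul (h : l' * l = 1) (a b : E) : (l * a * l') * (l * b * l') = l * (a * b) * l' := by
  calc (l * a * l') * (l * b * l') = l * a * (l' * l) * b * l' := by simp only [mul_assoc]
    _ = l * (a * b) * l' := by rw [h, mul_one, mul_assoc l a b]

theorem azSwap_C_Ri (h : l' * l = 1) (t : E × E × E) :
    azSwapRi A (azSwapC l l' t) = azSwapC l l' (azSwapRi A t) := by
  simp only [azSwapRi, azSwapC, azSwap_mul h, mul_sub, sub_mul, mul_smul_comm, smul_mul_assoc]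

theorem azSwap_C_Li (h : l' * l = 1) (t : E × E × E) :
    azSwapLi A (azSwapC l l' t) = azSwapC l l' (azSwapLi A t) := by
  simp only [azSwapLi, azSwapC, azSwap_mul h, mul_sub, sub_mul, mul_smul_comm, smul_mul_assoc]

theorem azSwap_C_S (h : l' * l = 1) (t : E × E × E) :
    azSwapS A (azSwapC l l' t) = azSwapC l l' (azSwapS A t) := by
  simp only [azSwapS, azSwapC, tw, azSwap_mul h, mul_sub, sub_mul, mul_smul_comm, smul_mul_assoc]

theorem azSwap_C_G (h : l' * l = 1) (t : E × E × E) :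
    azSwapG A (azSwapC l l' t) = azSwapC l l' (azSwapG A t) := by
  simp only [azSwapG, azSwap_C_Li h, azSwap_C_Ri h]

omit [Algebra ℂ E] in
theorem azSwap_C_C (h : l' * l = 1) (t : E × E × E) :
    azSwapC l' l (azSwapC l l' t) = t := by
  have key : ∀ a : E, l' * (l * a * l') * l = a := by
    intro a
    calc l' * (l * a * l') * l = (l' * l) * a * (l' * l) := by simp only [mul_assoc]
      _ = a := by rw [h, one_mul, mul_one]
  obtain ⟨a, b, c⟩ := t
  simp only [azSwapC, key]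

end Triples

variable {p A : ℂ} {V : Type*} [AddCommGroup V] [Module ℂ V] {x y z : Module.End ℂ V}

theorem HasT.S (hA : A ≠ 0) (t : TriP p A x y z) {τ : ℂ} (H : HasT A x y z τ) :
    HasT A y x (tw A y x z) τ := by
  obtain ⟨L, L', h1, h2, e1, e2, e3, rfl⟩ := H
  have hT : AzSwapP p A (x, y, z) := t
  have hfi : fi A (x, y, z) = azSwapC L L' (x, y, z) := by
    refine Prod.ext ?_ (Prod.ext ?_ ?_)
    · show (fi A (x, y, z)).1 = L * x * L'
      rw [← e1, mul_assoc, h1, mul_one]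
    · show (fi A (x, y, z)).2.1 = L * y * L'
      rw [← e2, mul_assoc, h1, mul_one]
    · show (fi A (x, y, z)).2.2 = L * z * L'
      rw [← e3, mul_assoc, h1, mul_one]
  have hG : azSwapG A (x, y, z) = azSwapC L' L (x, y, z) := by
    have h3 := azSwap_G_fi hA (x, y, z)
    rw [hfi, azSwap_C_G h2] at h3
    have h4 := azSwap_C_C h2 (azSwapG A (x, y, z))
    rw [h3] at h4
    exact h4.symm
  have hS : fi A (y, x, tw A y x z) = azSwapC L' L (y, x, tw A y x z) := by
    have h5 := azSwap_fi_S hA hT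
    rw [hG, azSwap_C_S h1] at h5
    exact h5
  refine ⟨L', L, h2, h1, ?_, ?_, ?_, mul_comm _ _⟩
  · rw [hS]
    show L' * y * L * L' = L' * y
    rw [mul_assoc, h1, mul_one]
  · rw [hS]
    show L' * x * L * L' = L' * x
    rw [mul_assoc, h1, mul_one]
  · rw [hS]
    show L' * tw A y x z * L * L' = L' * tw A y x z
    rw [mul_assoc, h1, mul_one]

end MP_372ad9_gt
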