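import Pool.Agent.Lib.MP_372ad9_gt.AzShad
import Pool.Agent.Lib.MP_372ad9_gt.AzHasT
import Pool.Agent.Lib.MP_372ad9_gt.AzSwap

set_option autoImplicit false

/-!
# The product of traces depends only on the weight

With `w = ξ ^ 2 - 2` and `w' = ξ' ^ 2 - 2` the equations of the curve of fixed characters give
`(w - w') (w w' - 4) = 0`. If `w = w'` the two characters agree up to signs, and the signs are removed
by `TriP.neg_xy`, `TriP.neg_yz`; then the unicity theorem applies. If `w w' = 4` the symmetry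
`x ↔ y` reduces to the first case.
-/

namespace MP_372ad9_gt

variable {n : ℕ} [NeZero n] {p A ξ η ζ ξ' η' ζ' : ℂ} {V V' : Type*} [AddCommGroup V] [Module ℂ V]
  [AddCommGroup V'] [Module ℂ V'] {x y z : Module.End ℂ V} {x' y' z' : Module.End ℂ V'}

theorem azTU_aeval_neg {E : Type*} [Ring E] [Algebra ℂ E] (x : E) (m : ℕ) :
    Polynomial.aeval (-x) (cheb m) = (-1 : ℂ) ^ m • Polynomial.aeval x (cheb m) ∧
      Polynomial.aeval (-x) (cheb (m + 1)) =
        (-1 : ℂ) ^ (m + 1) • Polynomial.aeval x (cheb (m + 1)) := by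
  induction m with
  | zero =>
    constructor
    · rw [cheb, pow_zero, one_smul, map_ofNat, map_ofNat]
    · simp [cheb]
  | succ m ih =>
    refine ⟨ih.2, ?_⟩
    have e : cheb (m + 1 + 1) = Polynomial.X * cheb (m + 1) - cheb m := by rw [cheb]
    rw [e, map_sub, map_sub, map_mul, map_mul, Polynomial.aeval_X, Polynomial.aeval_X, ih.1, ih.2,
      mul_smul_comm, neg_mul]
    module

omit [NeZero n] in
theorem azTU_aeval_neg_odd {E : Type*} [Ring E] [Algebra ℂ E] (hn : Odd n) (x : E) :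
    Polynomial.aeval (-x) (cheb n) = -Polynomial.aeval x (cheb n) := by
  rw [(azTU_aeval_neg x n).1, hn.neg_one_pow, neg_one_smul]

omit [NeZero n] in
theorem azTU_ne (c : CPt n p ξ η ζ) : ξ ^ 2 - 2 ≠ 0 := by
  intro h0
  have h1 := c.e2
  rw [h0, mul_zero] at h1
  norm_num at h1

omit [NeZero n] in
/-- `(η ^ 2 - 2) (ξ ^ 2 - 2) = 4` on the curve. -/
theorem azTU_mul (c : CPt n p ξ η ζ) : (η ^ 2 - 2) * (ξ ^ 2 - 2) = 4 := by
  have h1 := c.e1
  have h2 := c.e2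
  have h3 : η = ξ * ζ / 2 := by rw [h1]; ring
  rw [h3]
  linear_combination (ξ ^ 2 / 4) * h2

omit [NeZero n] in
theorem CPt.neg_xy (c : CPt n p ξ η ζ) : CPt n p (-ξ) (-η) ζ where
  e1 := by linear_combination - c.e1
  e2 := by rw [neg_sq]; exact c.e2
  e3 := by rw [neg_sq]; exact c.e3
  e4 := by rw [neg_sq]; exact c.e4

omit [NeZero n] in
theorem CPt.neg_yz (c : CPt n p ξ η ζ) : CPt n p ξ (-η) (-ζ) where
  e1 := by linear_combination - c.e1
  e2 := by rw [neg_sq]; exact c.e2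
  e3 := c.e3
  e4 := c.e4

theorem CPt.S (c : CPt n p ξ η ζ) : CPt n p η ξ (ξ * η - ζ) where
  e1 := by linear_combination c.fix
  e2 := by
    have h1 := c.e1
    have h2 := c.e2
    have h4 := azTU_mul c
    have h3 : η = ξ * ζ / 2 := by rw [h1]; ring
    have h5 : (ξ * η - ζ) ^ 2 = ζ ^ 2 * (ξ ^ 2 - 2) ^ 2 / 4 := by
      rw [h3]
      ring
    rw [h5]
    linear_combination (ζ ^ 2 * (ξ ^ 2 - 2) / 4) * h4 + h2
  e3 := by
    have h4 := azTU_mul c
    have h5 := azTU_ne c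
    have h6 := c.e3
    refine mul_right_cancel₀ (pow_ne_zero 2 h5) ?_
    linear_combination ((η ^ 2 - 2) * (ξ ^ 2 - 2) + 4 - (2 - (cheb n).eval p) * (ξ ^ 2 - 2)) * h4 +
      4 * h6
  e4 := c.nd2

omit [NeZero n] in
theorem Sh.neg_xy {E : Type*} [Ring E] [Algebra ℂ E] {x y z : E} (hn : Odd n)
    (s : Sh n x y z ξ η ζ) : Sh n (-x) (-y) z (-ξ) (-η) ζ where
  hx := by rw [azTU_aeval_neg_odd hn, s.hx, neg_smul (-ξ)]
  hy := by rw [azTU_aeval_neg_odd hn, s.hy, neg_smul (-η)]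
  hz := s.hz

omit [NeZero n] in
theorem Sh.neg_yz {E : Type*} [Ring E] [Algebra ℂ E] {x y z : E} (hn : Odd n)
    (s : Sh n x y z ξ η ζ) : Sh n x (-y) (-z) ξ (-η) (-ζ) where
  hx := s.hx
  hy := by rw [azTU_aeval_neg_odd hn, s.hy, neg_smul (-η)]
  hz := by rw [azTU_aeval_neg_odd hn, s.hz, neg_smul (-ζ)]

theorem Sh.S (h : Par n A) (hV : Module.finrank ℂ V = n) (t : TriP p A x y z)
    (s : Sh n x y z ξ η ζ) (c : CPt n p ξ η ζ) :
    Sh n y x (tw A y x z) η ξ (ξ * η - ζ) := by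
  have h1 := sh_R h hV t.rot (⟨s.hy, s.hz, s.hx⟩ : Sh n y z x η ζ ξ) c.nd2 c.nd3
  rw [mul_comm ξ η]
  exact h1

/-- Equal characters. -/
theorem azTU_eq (h : Par n A) (hV : Module.finrank ℂ V = n) (hV' : Module.finrank ℂ V' = n)
    (t : TriP p A x y z) (t' : TriP p A x' y' z') (s : Sh n x y z ξ η ζ)
    (s' : Sh n x' y' z' ξ' η' ζ') (c : CPt n p ξ η ζ) (c' : CPt n p ξ' η' ζ') {τ τ' : ℂ}
    (H : HasT A x y z τ) (H' : HasT A x' y' z' τ') (h1 : ξ' = ξ) (h2 : ζ' = ζ) : τ = τ' := by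
  subst h1 h2
  have h3 : η' = η := by
    have h4 := c.e1
    rw [c'.e1] at h4
    exact mul_left_cancel₀ two_ne_zero h4
  subst h3
  obtain ⟨f, fx, fy, fz⟩ := unicity h hV hV' t t' s s' c.e4 c.nd1
  exact hasT_unique h hV' t' s'.hx c'.e4 c'.nd1 (H.conj f fx fy fz) H'

/-- Characters with the same `ξ ^ 2`. -/
theorem azTU_same (h : Par n A) (hV : Module.finrank ℂ V = n) (hV' : Module.finrank ℂ V' = n)
    (t : TriP p A x y z) (t' : TriP p A x' y' z') (s : Sh n x y z ξ η ζ)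
    (s' : Sh n x' y' z' ξ' η' ζ') (c : CPt n p ξ η ζ) (c' : CPt n p ξ' η' ζ') {τ τ' : ℂ}
    (H : HasT A x y z τ) (H' : HasT A x' y' z' τ') (hw : ξ' ^ 2 = ξ ^ 2) : τ = τ' := by
  have hz : ζ' ^ 2 = ζ ^ 2 := by
    have h1 := c'.e2
    rw [hw, ← c.e2] at h1
    exact mul_right_cancel₀ (azTU_ne c) h1
  rcases sq_eq_sq_iff_eq_or_eq_neg.1 hw with h1 | h1 <;>
    rcases sq_eq_sq_iff_eq_or_eq_neg.1 hz with h2 | h2
  · exact azTU_eq h hV hV' t t' s s' c c' H H' h1 h2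
  · exact azTU_eq h hV hV' t.neg_yz t' (s.neg_yz h.odd) s' c.neg_yz c' H.neg_yz H' h1 h2
  · exact azTU_eq h hV hV' t.neg_xy t' (s.neg_xy h.odd) s' c.neg_xy c' H.neg_xy H' h1 h2
  · exact azTU_eq h hV hV' t.neg_xy.neg_yz t' ((s.neg_xy h.odd).neg_yz h.odd) s' c.neg_xy.neg_yz c'
      H.neg_xy.neg_yz H' h1 h2

theorem T_unique (h : Par n A) (hV : Module.finrank ℂ V = n) (hV' : Module.finrank ℂ V' = n)
    (t : TriP p A x y z) (t' : TriP p A x' y' z') (s : Sh n x y z ξ η ζ)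
    (s' : Sh n x' y' z' ξ' η' ζ') (c : CPt n p ξ η ζ) (c' : CPt n p ξ' η' ζ') {τ τ' : ℂ}
    (H : HasT A x y z τ) (H' : HasT A x' y' z' τ') : τ = τ' := by
  have h1 : ((ξ ^ 2 - 2) - (ξ' ^ 2 - 2)) * ((ξ ^ 2 - 2) * (ξ' ^ 2 - 2) - 4) = 0 := by
    linear_combination (ξ' ^ 2 - 2) * c.e3 - (ξ ^ 2 - 2) * c'.e3
  rcases mul_eq_zero.1 h1 with h2 | h2
  · refine azTU_same h hV hV' t t' s s' c c' H H' ?_
    linear_combination - h2
  · refine azTU_same h hV hV' (t.S h.A_ne) t' (Sh.S h hV t s c) s' c.S c' (H.S h.A_ne t) H' ?_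
    have h3 := azTU_mul c
    refine mul_right_cancel₀ (azTU_ne c) ?_
    linear_combination h2 - h3

end MP_372ad9_gt
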