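import Pool.Agent.Lib.MP_372ad9_gt.AzTri

set_option autoImplicit false

/-
ROW AzUp (about 90 lines). The raising operator `upo A a y z = (A (a⁻¹ - a))⁻¹ (z + A a⁻¹ y)`.
Write q = A^2, x v = -(a + a⁻¹) v, t : TriP p A x y z.

upo_eig: from t.zx: x z = A^2 z x - A (q - q⁻¹) y (multiply by -A), from t.xy: x y = A⁻² y x + A⁻¹ (q - q⁻¹) z.
 So x (z + A a⁻¹ y) v = [-q (a + a⁻¹) + a⁻¹ (q - q⁻¹)] z v + [-A (q - q⁻¹) - A a⁻¹ q⁻¹ (a + a⁻¹)] y v
 = -(q a + q⁻¹ a⁻¹) z v - A a⁻¹ (q a + q⁻¹ a⁻¹) y v.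
 (apply the relations, as identities of endomorphisms, to v; use map_smul; then match_scalars/field_simp/ring.)

upo_round: with a' = q a one has a'⁻¹ as parameter: upo A a'⁻¹ = (A (a' - a'⁻¹))⁻¹ (z + A a' y). Hence
 upo A a'⁻¹ (upo A a v) = - (q (a' - a'⁻¹)(a - a⁻¹))⁻¹ [z z + A a⁻¹ z y + A a' y z + q a' a⁻¹ y y] v, and a' a⁻¹ = q.
 By t.yz: z y = A^2 y z - A (q - q⁻¹) x, so A a⁻¹ z y = A^3 a⁻¹ y z - q (q - q⁻¹) a⁻¹ x; the sum in brackets is
 z z + q^2 y y + A q (a + a⁻¹) y z - q (q - q⁻¹) a⁻¹ x. On v: (a + a⁻¹) y z v = - y z x v and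
 t.rot.cub: A y z x = q y y + q⁻¹ z z + q x x + (p - q - q⁻¹), so A q (a + a⁻¹) y z v =
 - q^2 y y v - z z v - q^2 x x v - q (p - q - q⁻¹) v. The bracket is
 -q^2 (a + a⁻¹)^2 - q (p - q - q⁻¹) + q (q - q⁻¹) a⁻¹ (a + a⁻¹) = - q (q a^2 + q⁻¹ a⁻² + p). Done.

upo_y, upo_z: pure algebra.
-/

namespace MP_372ad9_gt

variable {p A : ℂ} {V : Type*} [AddCommGroup V] [Module ℂ V] {x y z : Module.End ℂ V}

/-- The relation between `x` and `y` on an eigenvector of `x`. -/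
theorem AzUp_xy (hA : A ≠ 0) (t : TriP p A x y z) {v : V} {l : ℂ} (hv : x v = l • v) :
    x (y v) = ((A ^ 2)⁻¹ * l) • y v + (A⁻¹ * (A ^ 2 - (A ^ 2)⁻¹)) • z v := by
  have h := congrArg (fun f : Module.End ℂ V => f v) t.xy
  simp only [LinearMap.sub_apply, LinearMap.smul_apply, Module.End.mul_apply, hv, map_smul] at h
  have h1 : x (y v) = A⁻¹ • (A • x (y v)) := by rw [smul_smul, inv_mul_cancel₀ hA, one_smul]
  have h2 : A • x (y v) = (A ^ 2 - (A ^ 2)⁻¹) • z v + A⁻¹ • l • y v := by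
    rw [← h]; abel
  rw [h1, h2]
  match_scalars <;> field_simp

/-- The relation between `x` and `z` on an eigenvector of `x`. -/
theorem AzUp_xz (hA : A ≠ 0) (t : TriP p A x y z) {v : V} {l : ℂ} (hv : x v = l • v) :
    x (z v) = (A ^ 2 * l) • z v + (-(A * (A ^ 2 - (A ^ 2)⁻¹))) • y v := by
  have h := congrArg (fun f : Module.End ℂ V => f v) t.zx
  simp only [LinearMap.sub_apply, LinearMap.smul_apply, Module.End.mul_apply, hv, map_smul] at h
  have h1 : x (z v) = A • (A⁻¹ • x (z v)) := by rw [smul_smul, mul_inv_cancel₀ hA, one_smul]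
  have h2 : A⁻¹ • x (z v) = A • l • z v - (A ^ 2 - (A ^ 2)⁻¹) • y v := by
    rw [← h]; abel
  rw [h1, h2]
  match_scalars <;> field_simp

theorem upo_eig (hA : A ≠ 0) {a : ℂ} (ha : a ≠ 0) (t : TriP p A x y z) {v : V}
    (hv : x v = (-(a + a⁻¹)) • v) :
    x (upo A a y z v) = (-(A ^ 2 * a + (A ^ 2 * a)⁻¹)) • upo A a y z v := by
  unfold upo
  simp only [LinearMap.add_apply, LinearMap.smul_apply, map_smul, map_add]
  rw [AzUp_xy hA t hv, AzUp_xz hA t hv]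
  generalize (A * (a⁻¹ - a))⁻¹ = c
  match_scalars
  · field_simp
    ring
  · field_simp
    ring

theorem upo_round (hA : A ≠ 0) {a : ℂ} (ha : a ≠ 0) (ha2 : a ^ 2 ≠ 1)
    (ha3 : (A ^ 2 * a) ^ 2 ≠ 1) (t : TriP p A x y z) {v : V} (hv : x v = (-(a + a⁻¹)) • v) :
    upo A (A ^ 2 * a)⁻¹ y z (upo A a y z v) = cc p A a • v := by
  have hyz := congrArg (fun f : Module.End ℂ V => f v) t.yz
  have hcub := congrArg (fun f : Module.End ℂ V => f v) t.rot.cub
  simp only [LinearMap.add_apply, LinearMap.sub_apply, LinearMap.smul_apply, Module.End.mul_apply,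
    Module.End.one_apply, hv, map_smul] at hyz hcub
  have h1 : z (y v) = (A ^ 2) • y (z v) + (A * (A ^ 2 - (A ^ 2)⁻¹) * (a + a⁻¹)) • v := by
    have h2 : z (y v) = A • (A⁻¹ • z (y v)) := by rw [smul_smul, mul_inv_cancel₀ hA, one_smul]
    have h3 : A⁻¹ • z (y v) = A • y (z v) - (A ^ 2 - (A ^ 2)⁻¹) • (-(a + a⁻¹)) • v := by
      rw [← hyz]; abel
    rw [h2, h3]
    match_scalars <;> field_simp
  have h4 : z (z v) = (-(A ^ 2) * (A * (a + a⁻¹))) • y (z v) + (-(A ^ 2 * A ^ 2)) • y (y v) +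
      (-(A ^ 2 * (A ^ 2 * (a + a⁻¹) ^ 2 + (p - A ^ 2 - (A ^ 2)⁻¹)))) • v := by
    have h5 : z (z v) = A ^ 2 • ((A ^ 2)⁻¹ • z (z v)) := by
      rw [smul_smul, mul_inv_cancel₀ (pow_ne_zero 2 hA), one_smul]
    have h6 : (A ^ 2)⁻¹ • z (z v) = A • (-(a + a⁻¹)) • y (z v) - A ^ 2 • y (y v) -
        A ^ 2 • (-(a + a⁻¹)) • (-(a + a⁻¹)) • v - (p - A ^ 2 - (A ^ 2)⁻¹) • v := by
      rw [hcub]; abel
    rw [h5, h6]
    match_scalars <;> ring
  have hd1 : a⁻¹ - a ≠ 0 := by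
    intro h
    apply ha2
    field_simp at h
    linear_combination -h
  have hd2 : a - a⁻¹ ≠ 0 := by
    intro h
    apply hd1
    linear_combination -h
  have hq : A ^ 2 * a ≠ 0 := mul_ne_zero (pow_ne_zero 2 hA) ha
  have hd3 : A ^ 2 * a - (A ^ 2 * a)⁻¹ ≠ 0 := by
    intro h
    apply ha3
    field_simp at h
    linear_combination h
  have h1a : (1 : ℂ) - a ^ 2 ≠ 0 := fun h => ha2 (by linear_combination -h)
  have h1b : a ^ 2 - 1 ≠ 0 := fun h => ha2 (by linear_combination h)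
  have h1c : A ^ 4 * a ^ 2 - 1 ≠ 0 := fun h => ha3 (by linear_combination h)
  have h1d : (A ^ 2 * a) ^ 2 - 1 ≠ 0 := fun h => ha3 (by linear_combination h)
  unfold upo cc
  simp only [LinearMap.add_apply, LinearMap.smul_apply, map_smul, map_add, inv_inv]
  rw [h1, h4]
  match_scalars
  · field_simp
    ring
  · field_simp
    ring
  · field_simp
    ring

theorem upo_y (hA : A ≠ 0) {a : ℂ} (ha : a ≠ 0) (ha2 : a ^ 2 ≠ 1) (v : V) :
    y v = upo A a y z v + upo A a⁻¹ y z v := by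
  have h1a : (1 : ℂ) - a ^ 2 ≠ 0 := fun h => ha2 (by linear_combination -h)
  have h1b : a ^ 2 - 1 ≠ 0 := fun h => ha2 (by linear_combination h)
  unfold upo
  simp only [LinearMap.add_apply, LinearMap.smul_apply, inv_inv]
  match_scalars
  · field_simp
    ring
  · field_simp
    ring

theorem upo_z (hA : A ≠ 0) {a : ℂ} (ha : a ≠ 0) (ha2 : a ^ 2 ≠ 1) (v : V) :
    z v = (-(A * a)) • upo A a y z v + (-(A * a⁻¹)) • upo A a⁻¹ y z v := by
  have h1a : (1 : ℂ) - a ^ 2 ≠ 0 := fun h => ha2 (by linear_combination -h)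
  have h1b : a ^ 2 - 1 ≠ 0 := fun h => ha2 (by linear_combination h)
  unfold upo
  simp only [LinearMap.add_apply, LinearMap.smul_apply, inv_inv]
  match_scalars
  · field_simp
    ring
  · field_simp
    ring

end MP_372ad9_gt
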