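import Mathlib

set_option autoImplicit false

namespace MP_372ad9_gt

open Finset

/-- The Chebyshev polynomial `T_m` with `T_m (t + t⁻¹) = t ^ m + t⁻¹ ^ m`. -/
noncomputable def cheb : ℕ → Polynomial ℂ
  | 0 => 2
  | 1 => Polynomial.X
  | (m + 2) => Polynomial.X * cheb (m + 1) - cheb m

theorem cheb_eval (y : ℂ) (hy : y ≠ 0) (m : ℕ) :
    (cheb m).eval (y + y⁻¹) = y ^ m + y⁻¹ ^ m ∧
    (cheb (m + 1)).eval (y + y⁻¹) = y ^ (m + 1) + y⁻¹ ^ (m + 1) := by
  induction m with
  | zero => constructor <;> simp [cheb]; norm_num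
  | succ m ih =>
    refine ⟨ih.2, ?_⟩
    rw [cheb, Polynomial.eval_sub, Polynomial.eval_mul, Polynomial.eval_X, ih.1, ih.2]
    have hb : y * y⁻¹ = 1 := mul_inv_cancel₀ hy
    generalize y⁻¹ = b at hb
    linear_combination (b ^ m + y ^ m) * hb

theorem cheb_monic (m : ℕ) : (cheb (m + 1)).Monic ∧ (cheb (m + 1)).natDegree = m + 1 ∧
    (cheb (m + 2)).Monic ∧ (cheb (m + 2)).natDegree = m + 2 := by
  induction m with
  | zero =>
    have h1 : (cheb 2) = Polynomial.X ^ 2 - Polynomial.C 2 := by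
      rw [cheb, cheb, cheb, ← Polynomial.C_ofNat]
      ring
    refine ⟨by simp [cheb], by simp [cheb], ?_, ?_⟩
    · rw [h1]; exact Polynomial.monic_X_pow_sub_C _ (by norm_num)
    · rw [h1]; exact Polynomial.natDegree_X_pow_sub_C
  | succ m ih =>
    obtain ⟨h1, h2, h3, h4⟩ := ih
    refine ⟨h3, h4, ?_, ?_⟩
    · have hX : (Polynomial.X * cheb (m + 2)).Monic := Polynomial.monic_X.mul h3
      have hd : (Polynomial.X * cheb (m + 2)).natDegree = m + 3 := by
        rw [Polynomial.natDegree_X_mul h3.ne_zero, h4]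
      have : cheb (m + 1 + 2) = Polynomial.X * cheb (m + 2) - cheb (m + 1) := by rw [cheb]
      rw [this]
      apply hX.sub_of_left
      apply Polynomial.degree_lt_degree
      rw [hd, h2]; omega
    · have hd : (Polynomial.X * cheb (m + 2)).natDegree = m + 3 := by
        rw [Polynomial.natDegree_X_mul h3.ne_zero, h4]
      have : cheb (m + 1 + 2) = Polynomial.X * cheb (m + 2) - cheb (m + 1) := by rw [cheb]
      rw [this, Polynomial.natDegree_sub_eq_left_of_natDegree_lt, hd]
      rw [hd, h2]; omega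

/-- Parameters: `n` odd, `n ≥ 3`, `A ^ n = -1`, `A ^ 2` a primitive `n`-th root of unity. -/
structure Par (n : ℕ) (A : ℂ) : Prop where
  odd : Odd n
  three : 3 ≤ n
  pow : A ^ n = -1
  prim : IsPrimitiveRoot (A ^ 2) n

variable {n : ℕ} {A : ℂ}

namespace Par

theorem A_ne (h : Par n A) : A ≠ 0 := by
  intro h0
  have := h.pow
  rw [h0, zero_pow (by have := h.three; omega)] at this
  norm_num at this

theorem q_ne (h : Par n A) : A ^ 2 ≠ 0 := pow_ne_zero _ h.A_ne

theorem pow_pow (h : Par n A) (k : ℕ) : ((A ^ 2) ^ k) ^ n = 1 := by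
  rw [← pow_mul, mul_comm, pow_mul, h.prim.pow_eq_one, one_pow]

theorem pow_ne_neg_one (h : Par n A) (k : ℕ) : (A ^ 2) ^ k ≠ -1 := by
  intro h1
  have := h.pow_pow k
  rw [h1, h.odd.neg_one_pow] at this
  norm_num at this

theorem inv (h : Par n A) : Par n A⁻¹ where
  odd := h.odd
  three := h.three
  pow := by rw [inv_pow, h.pow]; norm_num
  prim := by rw [inv_pow]; exact h.prim.inv

/-- `q - q⁻¹ ≠ 0` -/
theorem sub_ne (h : Par n A) : A ^ 2 - (A ^ 2)⁻¹ ≠ 0 := by
  intro h0
  have h1 : (A ^ 2) ^ 2 = 1 := by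
    have h2 : A ^ 2 * (A ^ 2)⁻¹ = 1 := mul_inv_cancel₀ h.q_ne
    linear_combination (A ^ 2) * h0 + h2
  have h3 := h.prim.dvd_of_pow_eq_one 2 h1
  have := Nat.le_of_dvd (by norm_num) h3
  have := h.three
  omega

end Par

/-- The eigenvalue `-i (q ^ k - q ^ (-k))`, `q = A ^ 2`. -/
noncomputable def ch (A : ℂ) (k : ℕ) : ℂ := -Complex.I * ((A ^ 2) ^ k - ((A ^ 2) ^ k)⁻¹)

theorem ch_inj (h : Par n A) {k l : ℕ} (hkl : ch A k = ch A l) : (A ^ 2) ^ k = (A ^ 2) ^ l := by
  have h1 : (A ^ 2) ^ k - ((A ^ 2) ^ k)⁻¹ = (A ^ 2) ^ l - ((A ^ 2) ^ l)⁻¹ := by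
    have := mul_left_cancel₀ (neg_ne_zero.mpr Complex.I_ne_zero) hkl
    exact this
  have hk : (A ^ 2) ^ k ≠ 0 := pow_ne_zero _ h.q_ne
  have hl : (A ^ 2) ^ l ≠ 0 := pow_ne_zero _ h.q_ne
  have h2 : ((A ^ 2) ^ k - (A ^ 2) ^ l) * ((A ^ 2) ^ (k + l) + 1) = 0 := by
    rw [pow_add]
    field_simp at h1
    linear_combination h1
  rcases mul_eq_zero.mp h2 with h3 | h3
  · exact sub_eq_zero.mp h3
  · exact absurd (eq_neg_of_add_eq_zero_left h3) (h.pow_ne_neg_one _)

theorem ch_injOn (h : Par n A) : Set.InjOn (ch A) (range n : Finset ℕ) := by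
  intro k hk l hl hkl
  have hk' : k < n := by simpa using hk
  have hl' : l < n := by simpa using hl
  exact h.prim.pow_inj hk' hl' (ch_inj h hkl)

theorem ch_mod (h : Par n A) (k : ℕ) : ch A (k % n) = ch A k := by
  have : (A ^ 2) ^ (k % n) = (A ^ 2) ^ k := by
    rw [← Nat.mod_add_div k n, pow_add, pow_mul, h.prim.pow_eq_one]
    simp
  rw [ch, ch, this]

theorem cheb_ch (h : Par n A) (k : ℕ) : (cheb n).eval (ch A k) = 0 := by
  have hq : (A ^ 2) ^ k ≠ 0 := pow_ne_zero _ h.q_ne
  set y : ℂ := -Complex.I * (A ^ 2) ^ k with hy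
  have hy0 : y ≠ 0 := mul_ne_zero (neg_ne_zero.mpr Complex.I_ne_zero) hq
  have hyi : y⁻¹ = Complex.I * ((A ^ 2) ^ k)⁻¹ := by
    rw [hy, mul_inv, inv_neg, Complex.inv_I, neg_neg]
  have h1 : ch A k = y + y⁻¹ := by rw [hyi, ch, hy]; ring
  rw [h1, (cheb_eval y hy0 n).1, hyi, hy, mul_pow, mul_pow, inv_pow, h.pow_pow, neg_pow,
    h.odd.neg_one_pow]
  simp

theorem cheb_monic_n (h : Par n A) : (cheb n).Monic ∧ (cheb n).natDegree = n := by
  obtain ⟨m, rfl⟩ : ∃ m, n = m + 1 := ⟨n - 1, by have := h.three; omega⟩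
  exact ⟨(cheb_monic m).1, (cheb_monic m).2.1⟩

/-- Key fact: a polynomial vanishing at all the `ch k` kills every root of `cheb n`. -/
theorem aeval_zero (h : Par n A) {E : Type*} [Ring E] [Algebra ℂ E] {M : E}
    (hM : Polynomial.aeval M (cheb n) = 0) (f : Polynomial ℂ)
    (hf : ∀ k < n, f.eval (ch A k) = 0) : Polynomial.aeval M f = 0 := by
  obtain ⟨hmon, hdeg⟩ := cheb_monic_n h
  have h1 : f %ₘ cheb n = 0 := by
    apply Polynomial.eq_zero_of_degree_lt_of_eval_index_eq_zero (s := range n) (v := ch A)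
      (ch_injOn h)
    · have := Polynomial.degree_modByMonic_lt f hmon
      rw [card_range]
      refine lt_of_lt_of_le this ?_
      rw [Polynomial.degree_eq_natDegree hmon.ne_zero, hdeg]
    · intro k hk
      have h2 := congrArg (Polynomial.eval (ch A k)) (Polynomial.modByMonic_add_div f (cheb n))
      rw [Polynomial.eval_add, Polynomial.eval_mul, cheb_ch h k, zero_mul, add_zero] at h2
      rw [h2]; exact hf k (mem_range.mp hk)
  have h2 := Polynomial.modByMonic_add_div f (cheb n)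
  rw [h1, zero_add] at h2
  rw [← h2, map_mul, hM, zero_mul]

theorem aeval_congr (h : Par n A) {E : Type*} [Ring E] [Algebra ℂ E] {M : E}
    (hM : Polynomial.aeval M (cheb n) = 0) (f g : Polynomial ℂ)
    (hf : ∀ k < n, f.eval (ch A k) = g.eval (ch A k)) :
    Polynomial.aeval M f = Polynomial.aeval M g := by
  rw [← sub_eq_zero, ← map_sub]
  apply aeval_zero h hM
  intro k hk
  rw [Polynomial.eval_sub, hf k hk, sub_self]

/-- The polynomial with prescribed values at the nodes `ch 0, …, ch (n - 1)`. -/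
noncomputable def ipol (n : ℕ) (A : ℂ) (φ : ℕ → ℂ) : Polynomial ℂ :=
  Lagrange.interpolate (range n) (ch A) φ

theorem ipol_eval (h : Par n A) (φ : ℕ → ℂ) {k : ℕ} (hk : k < n) :
    (ipol n A φ).eval (ch A k) = φ k :=
  Lagrange.eval_interpolate_at_node _ (ch_injOn h) (mem_range.mpr hk)

/-- The function `φ` of the operator `M`: `φ k` on the eigenspace of `ch k`. -/
noncomputable def op (n : ℕ) (A : ℂ) {E : Type*} [Ring E] [Algebra ℂ E] (M : E)
    (φ : ℕ → ℂ) : E := Polynomial.aeval M (ipol n A φ)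

section Op

variable {E : Type*} [Ring E] [Algebra ℂ E] {M : E}

theorem op_mul (h : Par n A) (hM : Polynomial.aeval M (cheb n) = 0) (φ ψ : ℕ → ℂ) :
    op n A M φ * op n A M ψ = op n A M (fun k => φ k * ψ k) := by
  rw [op, op, op, ← map_mul]
  apply aeval_congr h hM
  intro k hk
  rw [Polynomial.eval_mul, ipol_eval h _ hk, ipol_eval h _ hk, ipol_eval h _ hk]

theorem op_congr (h : Par n A) (hM : Polynomial.aeval M (cheb n) = 0) {φ ψ : ℕ → ℂ}
    (hφ : ∀ k < n, φ k = ψ k) : op n A M φ = op n A M ψ := by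
  apply aeval_congr h hM
  intro k hk
  rw [ipol_eval h _ hk, ipol_eval h _ hk, hφ k hk]

theorem op_one (h : Par n A) (hM : Polynomial.aeval M (cheb n) = 0) :
    op n A M (fun _ => 1) = 1 := by
  have : op n A M (fun _ => 1) = Polynomial.aeval M (1 : Polynomial ℂ) := by
    apply aeval_congr h hM
    intro k hk
    rw [ipol_eval h _ hk]; simp
  rw [this, map_one]

theorem op_ch (h : Par n A) (hM : Polynomial.aeval M (cheb n) = 0) :
    op n A M (ch A) = M := by
  have : op n A M (ch A) = Polynomial.aeval M (Polynomial.X : Polynomial ℂ) := by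
    apply aeval_congr h hM
    intro k hk
    rw [ipol_eval h _ hk]; simp
  rw [this, Polynomial.aeval_X]

theorem op_add (h : Par n A) (hM : Polynomial.aeval M (cheb n) = 0) (φ ψ : ℕ → ℂ) :
    op n A M φ + op n A M ψ = op n A M (fun k => φ k + ψ k) := by
  rw [op, op, op, ← map_add]
  apply aeval_congr h hM
  intro k hk
  rw [Polynomial.eval_add, ipol_eval h _ hk, ipol_eval h _ hk, ipol_eval h _ hk]

theorem op_smul (h : Par n A) (hM : Polynomial.aeval M (cheb n) = 0) (c : ℂ) (φ : ℕ → ℂ) :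
    c • op n A M φ = op n A M (fun k => c * φ k) := by
  rw [op, op, ← map_smul]
  apply aeval_congr h hM
  intro k hk
  rw [Polynomial.eval_smul, ipol_eval h _ hk, ipol_eval h _ hk, smul_eq_mul]

/-- The projection onto the eigenspace of `ch k` (index modulo `n`). -/
noncomputable def pr (n : ℕ) (A : ℂ) (M : E) (k : ℕ) : E :=
  op n A M (fun j => if j = k % n then 1 else 0)

theorem op_mul_pr (h : Par n A) (hM : Polynomial.aeval M (cheb n) = 0) (φ : ℕ → ℂ) (k : ℕ) :
    op n A M φ * pr n A M k = φ (k % n) • pr n A M k := by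
  rw [pr, op_mul h hM, op_smul h hM]
  apply op_congr h hM
  intro j _
  by_cases hj : j = k % n <;> simp [hj]

theorem pr_mul_op (h : Par n A) (hM : Polynomial.aeval M (cheb n) = 0) (φ : ℕ → ℂ) (k : ℕ) :
    pr n A M k * op n A M φ = φ (k % n) • pr n A M k := by
  rw [pr, op_mul h hM, op_smul h hM]
  apply op_congr h hM
  intro j _
  by_cases hj : j = k % n <;> simp [hj]

theorem mul_pr (h : Par n A) (hM : Polynomial.aeval M (cheb n) = 0) (k : ℕ) :
    M * pr n A M k = ch A k • pr n A M k := by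
  have := op_mul_pr h hM (ch A) k
  rwa [op_ch h hM, ch_mod h] at this

theorem pr_mul (h : Par n A) (hM : Polynomial.aeval M (cheb n) = 0) (k : ℕ) :
    pr n A M k * M = ch A k • pr n A M k := by
  have := pr_mul_op h hM (ch A) k
  rwa [op_ch h hM, ch_mod h] at this

theorem pr_mul_pr (h : Par n A) (hM : Polynomial.aeval M (cheb n) = 0) (k l : ℕ) :
    pr n A M k * pr n A M l = if k % n = l % n then pr n A M k else 0 := by
  have hk := pr_mul_op h hM (fun j => if j = l % n then (1 : ℂ) else 0) k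
  rw [← pr] at hk
  rw [hk]
  by_cases hkl : k % n = l % n <;> simp [hkl]

theorem pr_idem (h : Par n A) (hM : Polynomial.aeval M (cheb n) = 0) (k : ℕ) :
    pr n A M k * pr n A M k = pr n A M k := by
  rw [pr_mul_pr h hM, if_pos rfl]

theorem sum_pr (h : Par n A) (hM : Polynomial.aeval M (cheb n) = 0) :
    ∑ k ∈ range n, pr n A M k = 1 := by
  have h1 : ∀ s : Finset ℕ, ∑ k ∈ s, pr n A M k =
      op n A M (fun j => ∑ k ∈ s, if j = k % n then (1 : ℂ) else 0) := by
    intro s
    induction s using Finset.induction_on with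
    | empty =>
      simp only [sum_empty]
      have : op n A M (fun _ => 0) = Polynomial.aeval M (0 : Polynomial ℂ) := by
        apply aeval_congr h hM
        intro k hk
        rw [ipol_eval h _ hk]; simp
      rw [this, map_zero]
    | insert a s ha ih =>
      rw [sum_insert ha, ih, pr, op_add h hM]
      apply op_congr h hM
      intro j _
      rw [sum_insert ha]
  rw [h1, ← op_one h hM]
  apply op_congr h hM
  intro j hj
  rw [Finset.sum_eq_single j]
  · rw [Nat.mod_eq_of_lt hj, if_pos rfl]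
  · intro b hb hbj
    rw [Nat.mod_eq_of_lt (mem_range.mp hb), if_neg (Ne.symm hbj)]
  · intro hj'
    exact absurd (mem_range.mpr hj) hj'

theorem op_eq_sum (h : Par n A) (hM : Polynomial.aeval M (cheb n) = 0) (φ : ℕ → ℂ) :
    op n A M φ = ∑ k ∈ range n, φ k • pr n A M k := by
  calc op n A M φ = op n A M φ * ∑ k ∈ range n, pr n A M k := by rw [sum_pr h hM, mul_one]
    _ = _ := by
      rw [mul_sum]
      apply sum_congr rfl
      intro k hk
      rw [op_mul_pr h hM, Nat.mod_eq_of_lt (mem_range.mp hk)]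

/-- Two elements with the same blocks are equal. -/
theorem ext_blocks (h : Par n A) (hM : Polynomial.aeval M (cheb n) = 0) {B B' : E}
    (hB : ∀ l < n, ∀ k < n, pr n A M l * B * pr n A M k = pr n A M l * B' * pr n A M k) :
    B = B' := by
  have key : ∀ B : E, B = ∑ l ∈ range n, ∑ k ∈ range n, pr n A M l * B * pr n A M k := by
    intro B
    calc B = (∑ l ∈ range n, pr n A M l) * B * ∑ k ∈ range n, pr n A M k := by
          rw [sum_pr h hM, one_mul, mul_one]
      _ = _ := by
        rw [sum_mul, sum_mul]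
        apply sum_congr rfl
        intro l _
        rw [mul_sum]
  rw [key B, key B']
  apply sum_congr rfl
  intro l hl
  apply sum_congr rfl
  intro k hk
  exact hB l (mem_range.mp hl) k (mem_range.mp hk)

end Op

end MP_372ad9_gt
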