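import Pool.Agent.Lib.MP_372ad9_gt.Basic

set_option autoImplicit false

namespace MP_372ad9_gt

/-- The three relations of Bullock and Przytycki between the simple closed curves `x`, `y`, `z`
in the classes `a`, `b`, `a + b` of the once-punctured torus. -/
inductive SkRel (A : ℂ) : FreeAlgebra ℂ (Fin 3) → FreeAlgebra ℂ (Fin 3) → Prop
  | xy : SkRel A
      (A • (FreeAlgebra.ι ℂ 0 * FreeAlgebra.ι ℂ 1) - A⁻¹ • (FreeAlgebra.ι ℂ 1 * FreeAlgebra.ι ℂ 0))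
      ((A ^ 2 - (A ^ 2)⁻¹) • FreeAlgebra.ι ℂ 2)
  | yz : SkRel A
      (A • (FreeAlgebra.ι ℂ 1 * FreeAlgebra.ι ℂ 2) - A⁻¹ • (FreeAlgebra.ι ℂ 2 * FreeAlgebra.ι ℂ 1))
      ((A ^ 2 - (A ^ 2)⁻¹) • FreeAlgebra.ι ℂ 0)
  | zx : SkRel A
      (A • (FreeAlgebra.ι ℂ 2 * FreeAlgebra.ι ℂ 0) - A⁻¹ • (FreeAlgebra.ι ℂ 0 * FreeAlgebra.ι ℂ 2))
      ((A ^ 2 - (A ^ 2)⁻¹) • FreeAlgebra.ι ℂ 1)

/-- The Kauffman bracket skein algebra of the once-punctured torus, parameter `A`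
(presentation of Bullock and Przytycki). -/
abbrev Skein (A : ℂ) : Type := RingQuot (SkRel A)

/-- The simple closed curve in the class `a`. -/
noncomputable def gx (A : ℂ) : Skein A := RingQuot.mkAlgHom ℂ (SkRel A) (FreeAlgebra.ι ℂ 0)

/-- The simple closed curve in the class `b`. -/
noncomputable def gy (A : ℂ) : Skein A := RingQuot.mkAlgHom ℂ (SkRel A) (FreeAlgebra.ι ℂ 1)

/-- The simple closed curve in the class `a + b`. -/
noncomputable def gz (A : ℂ) : Skein A := RingQuot.mkAlgHom ℂ (SkRel A) (FreeAlgebra.ι ℂ 2)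

/-- The loop around the puncture, as an element of the skein algebra. -/
noncomputable def punct (A : ℂ) : Skein A :=
  A • (gx A * gy A * gz A) - A ^ 2 • (gx A * gx A) - (A ^ 2)⁻¹ • (gy A * gy A) -
    A ^ 2 • (gz A * gz A) + (A ^ 2 + (A ^ 2)⁻¹) • (1 : Skein A)

theorem rel_xy (A : ℂ) :
    A • (gx A * gy A) - A⁻¹ • (gy A * gx A) = (A ^ 2 - (A ^ 2)⁻¹) • gz A := by
  have h := RingQuot.mkAlgHom_rel ℂ (SkRel.xy (A := A))
  rw [map_sub, map_smul, map_smul, map_mul, map_mul, map_smul] at h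
  exact h

theorem rel_yz (A : ℂ) :
    A • (gy A * gz A) - A⁻¹ • (gz A * gy A) = (A ^ 2 - (A ^ 2)⁻¹) • gx A := by
  have h := RingQuot.mkAlgHom_rel ℂ (SkRel.yz (A := A))
  rw [map_sub, map_smul, map_smul, map_mul, map_mul, map_smul] at h
  exact h

theorem rel_zx (A : ℂ) :
    A • (gz A * gx A) - A⁻¹ • (gx A * gz A) = (A ^ 2 - (A ^ 2)⁻¹) • gy A := by
  have h := RingQuot.mkAlgHom_rel ℂ (SkRel.zx (A := A))
  rw [map_sub, map_smul, map_smul, map_mul, map_mul, map_smul] at h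
  exact h

section Lift

variable {A : ℂ} {E : Type*} [Ring E] [Algebra ℂ E]

theorem lift_rel (x y z : E) (hxy : A • (x * y) - A⁻¹ • (y * x) = (A ^ 2 - (A ^ 2)⁻¹) • z)
    (hyz : A • (y * z) - A⁻¹ • (z * y) = (A ^ 2 - (A ^ 2)⁻¹) • x)
    (hzx : A • (z * x) - A⁻¹ • (x * z) = (A ^ 2 - (A ^ 2)⁻¹) • y)
    ⦃u v : FreeAlgebra ℂ (Fin 3)⦄ (h : SkRel A u v) :
    FreeAlgebra.lift ℂ ![x, y, z] u = FreeAlgebra.lift ℂ ![x, y, z] v := by
  cases h with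
  | xy =>
    simp only [map_sub, map_smul, map_mul, FreeAlgebra.lift_ι_apply]
    exact hxy
  | yz =>
    simp only [map_sub, map_smul, map_mul, FreeAlgebra.lift_ι_apply]
    exact hyz
  | zx =>
    simp only [map_sub, map_smul, map_mul, FreeAlgebra.lift_ι_apply]
    exact hzx

/-- The algebra homomorphism on the skein algebra with values `x`, `y`, `z` on the three curves,
if these satisfy the relations. -/
noncomputable def skLift (x y z : E)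
    (hxy : A • (x * y) - A⁻¹ • (y * x) = (A ^ 2 - (A ^ 2)⁻¹) • z)
    (hyz : A • (y * z) - A⁻¹ • (z * y) = (A ^ 2 - (A ^ 2)⁻¹) • x)
    (hzx : A • (z * x) - A⁻¹ • (x * z) = (A ^ 2 - (A ^ 2)⁻¹) • y) : Skein A →ₐ[ℂ] E :=
  RingQuot.liftAlgHom ℂ ⟨FreeAlgebra.lift ℂ ![x, y, z], lift_rel x y z hxy hyz hzx⟩

variable {x y z : E} {hxy : A • (x * y) - A⁻¹ • (y * x) = (A ^ 2 - (A ^ 2)⁻¹) • z}
  {hyz : A • (y * z) - A⁻¹ • (z * y) = (A ^ 2 - (A ^ 2)⁻¹) • x}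
  {hzx : A • (z * x) - A⁻¹ • (x * z) = (A ^ 2 - (A ^ 2)⁻¹) • y}

theorem skLift_x : skLift x y z hxy hyz hzx (gx A) = x := by
  rw [skLift, gx, RingQuot.liftAlgHom_mkAlgHom_apply, FreeAlgebra.lift_ι_apply]
  rfl

theorem skLift_y : skLift x y z hxy hyz hzx (gy A) = y := by
  rw [skLift, gy, RingQuot.liftAlgHom_mkAlgHom_apply, FreeAlgebra.lift_ι_apply]
  rfl

theorem skLift_z : skLift x y z hxy hyz hzx (gz A) = z := by
  rw [skLift, gz, RingQuot.liftAlgHom_mkAlgHom_apply, FreeAlgebra.lift_ι_apply]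
  rfl

end Lift

section Twist

variable {A : ℂ}

theorem dehnA_xy (hA : A ≠ 0) : A • (gx A * gz A) - A⁻¹ • (gz A * gx A) =
    (A ^ 2 - (A ^ 2)⁻¹) • (A⁻¹ • (gx A * gz A) - (A ^ 2)⁻¹ • gy A) := by
  have h2 := rel_zx A
  linear_combination (norm := skip) (-(A⁻¹)^2) • h2
  match_scalars <;> field_simp <;> ring

theorem dehnA_yz (hA : A ≠ 0) : A • (gz A * (A⁻¹ • (gx A * gz A) - (A ^ 2)⁻¹ • gy A)) -
    A⁻¹ • ((A⁻¹ • (gx A * gz A) - (A ^ 2)⁻¹ • gy A) * gz A) =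
    (A ^ 2 - (A ^ 2)⁻¹) • gx A := by
  have h1 := rel_yz A
  have h3 := congrArg (fun u => u * gz A) (rel_zx A)
  simp only [sub_mul, mul_sub, smul_mul_assoc, mul_smul_comm, ← mul_assoc] at h1 h3 ⊢
  linear_combination (norm := skip) h1 + A⁻¹ • h3
  match_scalars <;> field_simp <;> ring

theorem dehnA_zx (hA : A ≠ 0) : A • ((A⁻¹ • (gx A * gz A) - (A ^ 2)⁻¹ • gy A) * gx A) -
    A⁻¹ • (gx A * (A⁻¹ • (gx A * gz A) - (A ^ 2)⁻¹ • gy A)) =
    (A ^ 2 - (A ^ 2)⁻¹) • gz A := by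
  have h0 := rel_xy A
  have h3 := congrArg (fun u => gx A * u) (rel_zx A)
  simp only [sub_mul, mul_sub, smul_mul_assoc, mul_smul_comm, ← mul_assoc] at h0 h3 ⊢
  linear_combination (norm := skip) h0 + A⁻¹ • h3
  match_scalars <;> field_simp <;> ring

/-- The Dehn twist along the curve `a`, acting on the skein algebra: `x ↦ x`, `y ↦ z` and
`z ↦ A⁻¹ x z - A⁻² y`, the curve in the class `2 a + b`. -/
noncomputable def dehnA (A : ℂ) (hA : A ≠ 0) : Skein A →ₐ[ℂ] Skein A :=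
  skLift (gx A) (gz A) (A⁻¹ • (gx A * gz A) - (A ^ 2)⁻¹ • gy A) (dehnA_xy hA) (dehnA_yz hA)
    (dehnA_zx hA)

theorem dehnB_xy (hA : A ≠ 0) : A • (gz A * gy A) - A⁻¹ • (gy A * gz A) =
    (A ^ 2 - (A ^ 2)⁻¹) • (A⁻¹ • (gz A * gy A) - (A ^ 2)⁻¹ • gx A) := by
  have h1 := rel_yz A
  linear_combination (norm := skip) (-(A⁻¹)^2) • h1
  match_scalars <;> field_simp <;> ring

theorem dehnB_yz (hA : A ≠ 0) : A • (gy A * (A⁻¹ • (gz A * gy A) - (A ^ 2)⁻¹ • gx A)) -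
    A⁻¹ • ((A⁻¹ • (gz A * gy A) - (A ^ 2)⁻¹ • gx A) * gy A) =
    (A ^ 2 - (A ^ 2)⁻¹) • gz A := by
  have h0 := rel_xy A
  have h3 := congrArg (fun u => u * gy A) (rel_yz A)
  simp only [sub_mul, mul_sub, smul_mul_assoc, mul_smul_comm, ← mul_assoc] at h0 h3 ⊢
  linear_combination (norm := skip) h0 + A⁻¹ • h3
  match_scalars <;> field_simp <;> ring

theorem dehnB_zx (hA : A ≠ 0) : A • ((A⁻¹ • (gz A * gy A) - (A ^ 2)⁻¹ • gx A) * gz A) -
    A⁻¹ • (gz A * (A⁻¹ • (gz A * gy A) - (A ^ 2)⁻¹ • gx A)) =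
    (A ^ 2 - (A ^ 2)⁻¹) • gy A := by
  have h2 := rel_zx A
  have h3 := congrArg (fun u => gz A * u) (rel_yz A)
  simp only [sub_mul, mul_sub, smul_mul_assoc, mul_smul_comm, ← mul_assoc] at h2 h3 ⊢
  linear_combination (norm := skip) h2 + A⁻¹ • h3
  match_scalars <;> field_simp <;> ring

/-- The Dehn twist along the curve `b`, acting on the skein algebra: `x ↦ z`, `y ↦ y` and
`z ↦ A⁻¹ z y - A⁻² x`, the curve in the class `a + 2 b`. -/
noncomputable def dehnB (A : ℂ) (hA : A ≠ 0) : Skein A →ₐ[ℂ] Skein A :=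
  skLift (gz A) (gy A) (A⁻¹ • (gz A * gy A) - (A ^ 2)⁻¹ • gx A) (dehnB_xy hA) (dehnB_yz hA)
    (dehnB_zx hA)

/-- The action `φ_♯` on the skein algebra of the pseudo-Anosov diffeomorphism `φ`, the product of
two Dehn twists along `a` and two along `b` (homology matrix `(5, 2; 2, 1)`). -/
noncomputable def phiSharp (A : ℂ) (hA : A ≠ 0) : Skein A →ₐ[ℂ] Skein A :=
  (dehnA A hA).comp ((dehnA A hA).comp ((dehnB A hA).comp (dehnB A hA)))

end Twist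

end MP_372ad9_gt
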