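import Pool.Agent.Lib.MP_372ad9_gt.Basic

set_option autoImplicit false

namespace MP_372ad9_gt

open Finset

/-- Three elements satisfying the defining relations of the skein algebra of the once-punctured
torus (parameter `A`, `q = A ^ 2`), together with the relation saying that the puncture loop
acts by `q + q⁻¹`. -/
structure Tri (A : ℂ) {E : Type*} [Ring E] [Algebra ℂ E] (x y z : E) : Prop where
  xy : A • (x * y) - A⁻¹ • (y * x) = (A ^ 2 - (A ^ 2)⁻¹) • z
  yz : A • (y * z) - A⁻¹ • (z * y) = (A ^ 2 - (A ^ 2)⁻¹) • x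
  zx : A • (z * x) - A⁻¹ • (x * z) = (A ^ 2 - (A ^ 2)⁻¹) • y
  cub : A • (x * y * z) = A ^ 2 • (x * x) + (A ^ 2)⁻¹ • (y * y) + A ^ 2 • (z * z)

namespace Tri

variable {A : ℂ} {E : Type*} [Ring E] [Algebra ℂ E] {x y z : E}

theorem rot (t : Tri A x y z) : Tri A y z x where
  xy := t.yz
  yz := t.zx
  zx := t.xy
  cub := by
    have h1 := congrArg (fun u => u * z) t.xy
    have h3 := congrArg (fun u => y * u) t.zx
    simp only [sub_mul, mul_sub, smul_mul_assoc, mul_smul_comm, ← mul_assoc] at h1 h3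
    linear_combination (norm := module) h3 - h1 + t.cub

theorem swap (t : Tri A x y z) : Tri A⁻¹ y x z where
  xy := by
    have := t.xy
    rw [inv_pow, inv_inv, inv_inv]
    linear_combination (norm := module) - this
  yz := by
    have := t.zx
    rw [inv_pow, inv_inv, inv_inv]
    linear_combination (norm := module) - this
  zx := by
    have := t.yz
    rw [inv_pow, inv_inv, inv_inv]
    linear_combination (norm := module) - this
  cub := by
    have h1 := congrArg (fun u => u * z) t.xy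
    simp only [sub_mul, smul_mul_assoc] at h1
    rw [inv_pow, inv_inv]
    linear_combination (norm := module) t.cub - h1

theorem neg (t : Tri A x y z) : Tri A (-x) (-y) z where
  xy := by
    have := t.xy
    rw [neg_mul_neg, neg_mul_neg]
    exact this
  yz := by
    have := t.yz
    rw [neg_mul, mul_neg]
    linear_combination (norm := module) - this
  zx := by
    have := t.zx
    rw [neg_mul, mul_neg]
    linear_combination (norm := module) - this
  cub := by
    rw [neg_mul_neg, neg_mul_neg, neg_mul_neg]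
    exact t.cub

/-- The effect of one Dehn twist. -/
theorem twist (hA : A ≠ 0) (t : Tri A x y z) :
    Tri A x z (A⁻¹ • (x * z) - (A ^ 2)⁻¹ • y) where
  xy := by
    have := t.zx
    linear_combination (norm := skip) (-(A⁻¹)^2) • this
    match_scalars <;> field_simp <;> ring
  yz := by
    have h3 := congrArg (fun u => u * z) t.zx
    have h2 := t.yz
    simp only [sub_mul, mul_sub, smul_mul_assoc, mul_smul_comm, ← mul_assoc] at h2 h3 ⊢
    linear_combination (norm := skip) h2 + A⁻¹ • h3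
    match_scalars <;> field_simp <;> ring
  zx := by
    have h3 := congrArg (fun u => x * u) t.zx
    have h1 := t.xy
    simp only [sub_mul, mul_sub, smul_mul_assoc, mul_smul_comm, ← mul_assoc] at h1 h3 ⊢
    linear_combination (norm := skip) h1 + A⁻¹ • h3
    match_scalars <;> field_simp <;> ring
  cub := by
    have h1 := congrArg (fun u => u * z) t.xy
    have hc := t.cub
    simp only [sub_mul, mul_sub, smul_mul_assoc, mul_smul_comm, ← mul_assoc] at h1 hc ⊢
    linear_combination (norm := skip) hc - h1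
    match_scalars <;> field_simp <;> ring

end Tri

section Blocks

variable {n : ℕ} {A : ℂ} {E : Type*} [Ring E] [Algebra ℂ E] {x y z : E}

theorem pow_mod (h : Par n A) (k : ℕ) : (A ^ 2) ^ (k % n) = (A ^ 2) ^ k := by
  rw [← Nat.mod_add_div k n, pow_add, pow_mul, h.prim.pow_eq_one]
  simp

theorem pow_eq_iff (h : Par n A) (k l : ℕ) :
    (A ^ 2) ^ k = (A ^ 2) ^ l ↔ k % n = l % n := by
  have hn : 0 < n := by have := h.three; omega
  constructor
  · intro e
    rw [← pow_mod h k, ← pow_mod h l] at e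
    exact h.prim.pow_inj (Nat.mod_lt _ hn) (Nat.mod_lt _ hn) e
  · intro e
    rw [← pow_mod h k, ← pow_mod h l, e]

theorem blk_z (h : Par n A) (hx : Polynomial.aeval x (cheb n) = 0) (t : Tri A x y z) (l k : ℕ) :
    (A ^ 2 - (A ^ 2)⁻¹) • (pr n A x l * z * pr n A x k) =
      (A * ch A l - A⁻¹ * ch A k) • (pr n A x l * y * pr n A x k) := by
  have h1 := congrArg (fun u => pr n A x l * u * pr n A x k) t.xy
  simp only [sub_mul, mul_sub, smul_mul_assoc, mul_smul_comm] at h1
  have e1 : pr n A x l * (x * y) * pr n A x k = ch A l • (pr n A x l * y * pr n A x k) := by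
    rw [← mul_assoc, pr_mul h hx, smul_mul_assoc, smul_mul_assoc]
  have e2 : pr n A x l * (y * x) * pr n A x k = ch A k • (pr n A x l * y * pr n A x k) := by
    rw [← mul_assoc, mul_assoc, mul_pr h hx, mul_smul_comm]
  rw [e1, e2] at h1
  linear_combination (norm := module) - h1

theorem blk_y (h : Par n A) (hx : Polynomial.aeval x (cheb n) = 0) (t : Tri A x y z) (l k : ℕ) :
    (A ^ 2 - (A ^ 2)⁻¹) • (pr n A x l * y * pr n A x k) =
      (A * ch A k - A⁻¹ * ch A l) • (pr n A x l * z * pr n A x k) := by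
  have h1 := congrArg (fun u => pr n A x l * u * pr n A x k) t.zx
  simp only [sub_mul, mul_sub, smul_mul_assoc, mul_smul_comm] at h1
  have e1 : pr n A x l * (x * z) * pr n A x k = ch A l • (pr n A x l * z * pr n A x k) := by
    rw [← mul_assoc, pr_mul h hx, smul_mul_assoc, smul_mul_assoc]
  have e2 : pr n A x l * (z * x) * pr n A x k = ch A k • (pr n A x l * z * pr n A x k) := by
    rw [← mul_assoc, mul_assoc, mul_pr h hx, mul_smul_comm]
  rw [e1, e2] at h1
  linear_combination (norm := module) - h1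

theorem blk_adj (h : Par n A) (hx : Polynomial.aeval x (cheb n) = 0) (t : Tri A x y z) {l k : ℕ}
    (h1 : l % n ≠ (k + 1) % n) (h2 : k % n ≠ (l + 1) % n) :
    pr n A x l * y * pr n A x k = 0 := by
  have e1 := blk_z h hx t l k
  have e2 := blk_y h hx t l k
  have e3 : ((A ^ 2 - (A ^ 2)⁻¹) ^ 2 -
      (A * ch A k - A⁻¹ * ch A l) * (A * ch A l - A⁻¹ * ch A k)) •
      (pr n A x l * y * pr n A x k) = 0 := by
    linear_combination (norm := module) (A ^ 2 - (A ^ 2)⁻¹) • e2 +
      (A * ch A k - A⁻¹ * ch A l) • e1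
  refine (smul_eq_zero.mp e3).resolve_left ?_
  have hA := h.A_ne
  have ha : (A ^ 2) ^ k ≠ 0 := pow_ne_zero _ h.q_ne
  have hb : (A ^ 2) ^ l ≠ 0 := pow_ne_zero _ h.q_ne
  have n1 : (A ^ 2) ^ l - (A ^ 2) ^ k * A ^ 2 ≠ 0 := by
    intro h0
    apply h1
    rw [← pow_eq_iff h, pow_succ]
    exact sub_eq_zero.mp h0
  have n2 : (A ^ 2) ^ k - (A ^ 2) ^ l * A ^ 2 ≠ 0 := by
    intro h0
    apply h2
    rw [← pow_eq_iff h, pow_succ]
    exact sub_eq_zero.mp h0
  have n3 : (A ^ 2) ^ k * (A ^ 2) ^ l * A ^ 2 + 1 ≠ 0 := by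
    intro h0
    apply h.pow_ne_neg_one (k + l + 1)
    rw [pow_succ, pow_add]
    exact eq_neg_of_add_eq_zero_left h0
  have n4 : (A ^ 2) ^ k * (A ^ 2) ^ l + A ^ 2 ≠ 0 := by
    intro h0
    apply h.pow_ne_neg_one (k + l + (n - 1))
    have h3 : (A ^ 2) ^ (n - 1) * A ^ 2 = 1 := by
      rw [← pow_succ, Nat.sub_add_cancel (by have := h.three; omega), h.prim.pow_eq_one]
    rw [pow_add, pow_add]
    have h4 := eq_neg_of_add_eq_zero_left h0
    rw [h4]
    linear_combination - h3
  have key : ((A ^ 2 - (A ^ 2)⁻¹) ^ 2 -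
      (A * ch A k - A⁻¹ * ch A l) * (A * ch A l - A⁻¹ * ch A k)) *
      (((A ^ 2) ^ k) ^ 2 * ((A ^ 2) ^ l) ^ 2 * (A ^ 2) ^ 2) =
      ((A ^ 2) ^ l - (A ^ 2) ^ k * A ^ 2) * ((A ^ 2) ^ k - (A ^ 2) ^ l * A ^ 2) *
      ((A ^ 2) ^ k * (A ^ 2) ^ l * A ^ 2 + 1) * ((A ^ 2) ^ k * (A ^ 2) ^ l + A ^ 2) := by
    rw [ch, ch]
    generalize (A ^ 2) ^ k = a at ha
    generalize (A ^ 2) ^ l = b at hb
    field_simp
    ring_nf
    rw [Complex.I_sq]
    ring
  intro h0
  rw [h0, zero_mul] at key
  exact (mul_ne_zero (mul_ne_zero (mul_ne_zero n1 n2) n3) n4) key.symm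

end Blocks

end MP_372ad9_gt
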